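import Pool.Agent.Helper94K9.OP.Stm

/-! Leaf [PAR] (helper94): Parseval. -/

set_option autoImplicit false

namespace Pool.Agent.Helper94K9.OP

open Finset MeasureTheory Filter Topology

namespace ParL

/-- the integrals of the characters -/
theorem int_fourier (n : ℤ) : ∫ θ : UnitAddCircle, (fourier n θ : ℂ) = if n = 0 then 1 else 0 := by
  split_ifs with h
  · subst h
    simp only [fourier_zero]
    rw [integral_const, measureReal_def, UnitAddCircle.measure_univ]
    simp
  · have h1 : ∫ θ : UnitAddCircle, (fourier n (θ + (((1 : ℝ) / 2 / n : ℝ) : UnitAddCircle)) : ℂ) =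
        ∫ θ : UnitAddCircle, (fourier n θ : ℂ) :=
      integral_add_right_eq_self (fun θ : UnitAddCircle => (fourier n θ : ℂ)) _
    have h2 : ∀ θ : UnitAddCircle, (fourier n (θ + (((1 : ℝ) / 2 / n : ℝ) : UnitAddCircle)) : ℂ) =
        -(fourier n θ : ℂ) := fun θ => fourier_add_half_inv_index h one_pos θ
    simp only [h2, integral_neg] at h1
    have h3 : (2 : ℂ) * ∫ θ : UnitAddCircle, (fourier n θ : ℂ) = 0 := by
      linear_combination -h1
    exact (mul_eq_zero.1 h3).resolve_left two_ne_zero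

theorem cont_int (g : UnitAddCircle → ℂ) (hg : Continuous g) : Integrable g :=
  hg.integrable_of_hasCompactSupport (HasCompactSupport.of_compactSpace _)

theorem cont_intR (g : UnitAddCircle → ℝ) (hg : Continuous g) : Integrable g :=
  hg.integrable_of_hasCompactSupport (HasCompactSupport.of_compactSpace _)

theorem norm_fourier (n : ℤ) (θ : UnitAddCircle) : ‖(fourier n θ : ℂ)‖ = 1 := by
  rw [fourier_apply]
  exact Circle.norm_coe _

theorem conj_fourier (n : ℤ) (θ : UnitAddCircle) : (starRingEnd ℂ) (fourier n θ : ℂ) = fourier (-n) θ := by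
  rw [fourier_neg]

theorem V_cont (f : ℕ → ℝ) (n L : ℕ) : Continuous (V f n L) := by
  unfold V
  exact continuous_finsetSum _ fun m _ => continuous_const.mul (map_continuous (fourier (m : ℤ)))

theorem V_le (f : ℕ → ℝ) (hf : ∀ n, |f n| ≤ 1) (n L : ℕ) (θ : UnitAddCircle) : ‖V f n L θ‖ ≤ L := by
  unfold V
  refine (norm_sum_le _ _).trans ?_
  calc ∑ m ∈ Ioc n (n + L), ‖((f m : ℝ) : ℂ) * (fourier (m : ℤ) θ : ℂ)‖ ≤ ∑ m ∈ Ioc n (n + L), (1 : ℝ) := by
        refine sum_le_sum fun m _ => ?_
        rw [norm_mul, norm_fourier, mul_one, Complex.norm_real, Real.norm_eq_abs]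
        exact hf m
    _ = L := by simp

theorem parseval (f : ℕ → ℝ) (n L : ℕ) : ∫ θ : UnitAddCircle, ‖V f n L θ‖ ^ 2 = ∑ m ∈ Ioc n (n + L), f m ^ 2 := by
  have h1 : ∀ θ, ((‖V f n L θ‖ ^ 2 : ℝ) : ℂ) = ∑ m ∈ Ioc n (n + L), ∑ m' ∈ Ioc n (n + L),
      (((f m * f m' : ℝ)) : ℂ) * (fourier ((m : ℤ) - m') θ : ℂ) := by
    intro θ
    rw [← Complex.normSq_eq_norm_sq, Complex.normSq_eq_conj_mul_self, mul_comm]
    unfold V
    rw [map_sum, sum_mul_sum]
    refine sum_congr rfl fun m _ => sum_congr rfl fun m' _ => ?_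
    rw [map_mul, Complex.conj_ofReal, conj_fourier, sub_eq_add_neg, fourier_add]
    push_cast
    ring
  have h2 : ((∫ θ : UnitAddCircle, ‖V f n L θ‖ ^ 2 : ℝ) : ℂ) = ((∑ m ∈ Ioc n (n + L), f m ^ 2 : ℝ) : ℂ) := by
    rw [← integral_complex_ofReal]
    simp only [h1]
    rw [integral_finsetSum _ fun m _ => cont_int _ (by fun_prop)]
    push_cast
    refine sum_congr rfl fun m hm => ?_
    rw [integral_finsetSum _ fun m' _ => cont_int _ (by fun_prop)]
    simp only [integral_const_mul, int_fourier]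
    rw [sum_eq_single m]
    · simp
      ring
    · intro m' _ hne
      rw [if_neg, mul_zero]
      intro h
      exact hne (by omega)
    · exact fun h => absurd hm h
  exact_mod_cast h2

end ParL

open ParL in
/-- **PAR** -/
theorem par : S_PAR := by
  intro f hf n L
  refine ⟨?_, fun θ => ⟨by unfold cr; positivity, ?_⟩, ?_⟩
  · unfold cr
    exact (V_cont f n L).norm.div_const _
  · unfold cr
    exact div_le_one_of_le₀ (V_le f hf n L θ) (Nat.cast_nonneg L)
  · unfold cr
    simp only [div_pow]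
    rw [integral_div, parseval]
    rcases Nat.eq_zero_or_pos L with h | h
    · subst h
      simp
    · have hL : (0 : ℝ) < L := by exact_mod_cast h
      have h3 : ∑ m ∈ Ioc n (n + L), f m ^ 2 ≤ L := by
        calc ∑ m ∈ Ioc n (n + L), f m ^ 2 ≤ ∑ m ∈ Ioc n (n + L), (1 : ℝ) := by
              refine sum_le_sum fun m _ => ?_
              rw [← sq_abs]
              exact pow_le_one₀ (abs_nonneg _) (hf m)
          _ = L := by simp
      rw [← mul_div_assoc, div_le_one (by positivity), sq]
      exact mul_le_mul_of_nonneg_left h3 hL.le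

end Pool.Agent.Helper94K9.OP
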