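import Pool.Agent.Helper94K9.OP.Maj

/-!
# Project OP: equidistribution of `p θ` on the minor arcs [EQD]
-/

set_option autoImplicit false

namespace Pool.Agent.Helper94K9.OP

open Finset MeasureTheory Filter Topology
open Pool.Agent.H807R2.Dav (ee norm_ee ee_add)

namespace EqdL

/-- sums over dyadic blocks -/
lemma blocks (F : ℕ → ℂ) (k₁ : ℕ) : ∀ k₂, k₁ ≤ k₂ → ∑ p ∈ (Ioc (2 ^ k₁) (2 ^ k₂)).filter Nat.Prime, F p =
    ∑ k ∈ Ico k₁ k₂, ∑ p ∈ (Ioc (2 ^ k) (2 ^ (k + 1))).filter Nat.Prime, F p := by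
  intro k₂ h
  induction k₂, h using Nat.le_induction with
  | base => simp
  | succ k hk ih =>
    rw [sum_Ico_succ_top hk, ← ih]
    have h1 : (2 : ℕ) ^ k₁ ≤ 2 ^ k := Nat.pow_le_pow_right (by norm_num) hk
    have h2 : (2 : ℕ) ^ k ≤ 2 ^ (k + 1) := Nat.pow_le_pow_right (by norm_num) (by omega)
    have h3 : (Ioc (2 ^ k₁) (2 ^ (k + 1))).filter Nat.Prime =
        (Ioc (2 ^ k₁) (2 ^ k)).filter Nat.Prime ∪ (Ioc (2 ^ k) (2 ^ (k + 1))).filter Nat.Prime := by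
      rw [← filter_union, Ioc_union_Ioc_eq_Ioc h1 h2]
    rw [h3, sum_union]
    rw [Finset.disjoint_left]
    intro x hx hy
    simp only [mem_filter, mem_Ioc] at hx hy
    omega

lemma norm_coe_le (x : ℝ) (a : ℤ) : ‖((x : ℝ) : UnitAddCircle)‖ ≤ |x - a| := by
  have h1 : ((x : ℝ) : UnitAddCircle) = ((x - a : ℝ) : UnitAddCircle) := by
    have h2 : ((a : ℝ) : UnitAddCircle) = 0 := by
      have := AddCircle.coe_period (1 : ℝ)
      have h3 : ((a : ℝ) : UnitAddCircle) = a • ((1 : ℝ) : UnitAddCircle) := by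
        rw [← AddCircle.coe_zsmul]
        simp
      rw [h3, this, smul_zero]
    rw [AddCircle.coe_sub, h2, sub_zero]
  rw [h1]
  have := QuotientAddGroup.norm_mk_le_norm (S := AddSubgroup.zmultiples (1 : ℝ)) (m := x - a)
  simpa using this

end EqdL

open EqdL in
theorem eqd (hW : Pool.Agent.Helper44K9.FC.S_WPR) (hCH : Pool.Agent.Helper44K9.FU.S_CHB) : S_EQD := by
  intro m ε hm hε
  obtain ⟨⟨b, hb, k₀, hk₀⟩, -⟩ := hCH
  obtain ⟨C, hC1, hWC⟩ := hW (b * ε) (by positivity)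
  refine ⟨C * m.natAbs, fun τ hτ z A => ?_⟩
  obtain ⟨K, hK⟩ := hWC τ hτ
  obtain ⟨k₁, hk₁0, hk₁1, hk₁K, hk₁z⟩ : ∃ k₁ : ℕ, k₀ ≤ k₁ ∧ 1 ≤ k₁ ∧ K ≤ k₁ ∧ z ≤ 2 ^ k₁ := by
    refine ⟨k₀ + K + z + 1, by omega, by omega, by omega, ?_⟩
    exact le_trans (by omega) (Nat.lt_two_pow_self (n := k₀ + K + z + 1)).le
  obtain ⟨k₂, hk₂, hdiv⟩ : ∃ k₂ : ℕ, k₁ ≤ k₂ ∧ A ≤ b * ∑ k ∈ Ico k₁ k₂, 1 / (k : ℝ) := by
    have h1 := Real.tendsto_sum_range_one_div_nat_succ_atTop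
    obtain ⟨M, hM⟩ := (h1.eventually_ge_atTop (A / b + ∑ k ∈ range k₁, 1 / ((k : ℝ)))).exists
    refine ⟨max k₁ (M + 1), le_max_left _ _, ?_⟩
    have h2 : ∑ i ∈ range M, 1 / ((i : ℝ) + 1) = ∑ k ∈ range (M + 1), 1 / (k : ℝ) := by
      rw [sum_range_succ' (fun k : ℕ => 1 / (k : ℝ)) M]
      push_cast; simp
    rw [h2] at hM
    have h3 : ∑ k ∈ range (M + 1), 1 / (k : ℝ) ≤ ∑ k ∈ range (max k₁ (M + 1)), 1 / (k : ℝ) :=
      sum_le_sum_of_subset_of_nonneg (range_subset_range.2 (le_max_right _ _)) fun _ _ _ => by positivity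
    have h4 : ∑ k ∈ Ico k₁ (max k₁ (M + 1)), 1 / (k : ℝ) =
        ∑ k ∈ range (max k₁ (M + 1)), 1 / (k : ℝ) - ∑ k ∈ range k₁, 1 / (k : ℝ) :=
      sum_Ico_eq_sub _ (le_max_left _ _)
    rw [h4]
    have h5 : A / b ≤ ∑ k ∈ range (max k₁ (M + 1)), 1 / (k : ℝ) - ∑ k ∈ range k₁, 1 / (k : ℝ) := by
      linarith
    rw [div_le_iff₀ hb] at h5
    linarith
  set I : Finset ℕ := (Ioc (2 ^ k₁) (2 ^ k₂)).filter Nat.Prime with hI
  set L : ℝ := ∑ p ∈ I, 1 / (p : ℝ) with hL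
  have hLb : b * ∑ k ∈ Ico k₁ k₂, 1 / (k : ℝ) ≤ L := by
    have hbl := blocks (fun p => ((1 / (p : ℝ) : ℝ) : ℂ)) k₁ k₂ hk₂
    have h6 : L = ∑ k ∈ Ico k₁ k₂, ∑ p ∈ (Ioc (2 ^ k) (2 ^ (k + 1))).filter Nat.Prime, 1 / (p : ℝ) := by
      rw [hL, hI]
      exact_mod_cast hbl
    rw [h6, mul_sum]
    refine sum_le_sum fun k hk => ?_
    rw [mem_Ico] at hk
    rw [mul_one_div]
    exact hk₀ k (by omega)
  refine ⟨I, ?_, hdiv.trans hLb, fun θ hθ => ?_⟩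
  · intro p hp
    rw [hI, mem_filter, mem_Ioc] at hp
    exact ⟨hp.2, lt_of_le_of_lt hk₁z hp.1.1⟩
  obtain ⟨α, rfl⟩ := QuotientAddGroup.mk_surjective θ
  have hα : ∀ q : ℕ, 1 ≤ q → q ≤ C * m.natAbs → ∀ a : ℤ, τ < |q * α - a| := by
    intro q hq1 hqC a
    by_contra hcon
    push Not at hcon
    apply hθ
    refine ⟨q, hq1, hqC, ?_⟩
    have h1 : q • ((α : ℝ) : UnitAddCircle) = ((q * α : ℝ) : UnitAddCircle) := by
      rw [← AddCircle.coe_nsmul]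
      simp
    have h2 := norm_coe_le (q * α) a
    rw [← h1] at h2
    exact h2.trans hcon
  have e1 : ∑ p ∈ I, ((1 / (p : ℝ) : ℝ) : ℂ) * (fourier (m * (p : ℤ)) ((α : ℝ) : UnitAddCircle) : ℂ) =
      ∑ k ∈ Ico k₁ k₂, ∑ p ∈ (Ioc (2 ^ k) (2 ^ (k + 1))).filter Nat.Prime,
        ((1 / (p : ℝ) : ℝ) : ℂ) * ee (p * (m * α)) := by
    rw [← blocks (fun p => ((1 / (p : ℝ) : ℝ) : ℂ) * ee (p * (m * α))) k₁ k₂ hk₂]
    refine sum_congr rfl fun p _ => ?_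
    rw [MajL.fourier_ee]
    congr 2
    push_cast
    ring
  have e2 : ‖∑ p ∈ I, ((1 / (p : ℝ) : ℝ) : ℂ) * (fourier (m * (p : ℤ)) ((α : ℝ) : UnitAddCircle) : ℂ)‖ ≤
      ε * L := by
    rw [e1]
    calc ‖∑ k ∈ Ico k₁ k₂, ∑ p ∈ (Ioc (2 ^ k) (2 ^ (k + 1))).filter Nat.Prime,
          ((1 / (p : ℝ) : ℝ) : ℂ) * ee (p * (m * α))‖
        ≤ ∑ k ∈ Ico k₁ k₂, b * ε / k := by
          refine norm_sum_le_of_le _ fun k hk => ?_
          rw [mem_Ico] at hk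
          refine hK k (by omega) (m * α) fun q hq1 hqC a' => ?_
          have h1 := hα (q * m.natAbs) (Nat.mul_pos hq1 (Int.natAbs_pos.2 hm)) (Nat.mul_le_mul_right _ hqC)
            (if 0 ≤ m then a' else -a')
          have h5 : |((q * m.natAbs : ℕ) : ℝ) * α - ((if 0 ≤ m then a' else -a' : ℤ) : ℝ)| =
              |q * (m * α) - a'| := by
            have h6 : ((m.natAbs : ℕ) : ℝ) = ((|m| : ℤ) : ℝ) := by
              rw [Int.abs_eq_natAbs, Int.cast_natCast]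
            split_ifs with hj1
            · push_cast
              rw [h6, abs_of_nonneg hj1]
              congr 1; ring
            · push Not at hj1
              push_cast
              rw [h6, abs_of_neg hj1]
              push_cast
              rw [show (q : ℝ) * -(m : ℝ) * α - -(a' : ℝ) = -(q * (m * α) - a') by ring, abs_neg]
          rwa [h5] at h1
      _ = ε * (b * ∑ k ∈ Ico k₁ k₂, 1 / (k : ℝ)) := by
          rw [mul_sum, mul_sum]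
          exact sum_congr rfl fun k _ => by ring
      _ ≤ ε * L := mul_le_mul_of_nonneg_left hLb hε.le
  exact e2

end Pool.Agent.Helper94K9.OP
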