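import Pool.Agent.Helper94K9.OP.Stm

/-! Leaf [INV] (helper94): Furstenberg systems are shift invariant. -/

set_option autoImplicit false

namespace Pool.Agent.Helper94K9.OP

open Finset MeasureTheory Filter Topology

namespace InvL

theorem shift_cont (n : ℤ) : Continuous (shift n) := by
  unfold shift
  exact continuous_pi fun k => continuous_apply (k + n)

theorem shift_add (m n : ℤ) (x : X) : shift m (shift n x) = shift (n + m) x := by
  funext k
  unfold shift
  congr 1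
  ring

/-- shifting the summation variable by one -/
theorem sum_shift (r : ℕ → ℝ) (C : ℝ) (hr : ∀ n, |r n| ≤ C) (N : ℕ) :
    |∑ n ∈ Icc 1 N, (1 / (n : ℝ)) * r (n + 1) - ∑ n ∈ Icc 1 N, (1 / (n : ℝ)) * r n| ≤ 3 * C := by
  have hC : 0 ≤ C := (abs_nonneg _).trans (hr 0)
  have h1 : ∀ N : ℕ, ∑ n ∈ Icc 1 N, (1 / (n : ℝ)) * r (n + 1) - ∑ n ∈ Icc 1 N, (1 / (n : ℝ)) * r n =
      ∑ n ∈ Icc 1 N, (1 / (n : ℝ) - 1 / ((n : ℝ) + 1)) * r (n + 1) + (1 / ((N : ℝ) + 1)) * r (N + 1) - r 1 := by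
    intro N
    induction N with
    | zero => simp
    | succ N ih =>
      rw [sum_Icc_succ_top (by omega), sum_Icc_succ_top (by omega), sum_Icc_succ_top (by omega)]
      push_cast
      linear_combination ih
  have h2 : ∀ N : ℕ, ∑ n ∈ Icc 1 N, (1 / (n : ℝ) - 1 / ((n : ℝ) + 1)) = 1 - 1 / ((N : ℝ) + 1) := by
    intro N
    induction N with
    | zero => simp
    | succ N ih =>
      rw [sum_Icc_succ_top (by omega), ih]
      push_cast
      ring
  rw [h1]
  have h3 : |∑ n ∈ Icc 1 N, (1 / (n : ℝ) - 1 / ((n : ℝ) + 1)) * r (n + 1)| ≤ C := by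
    calc |∑ n ∈ Icc 1 N, (1 / (n : ℝ) - 1 / ((n : ℝ) + 1)) * r (n + 1)| ≤
          ∑ n ∈ Icc 1 N, |(1 / (n : ℝ) - 1 / ((n : ℝ) + 1)) * r (n + 1)| := abs_sum_le_sum_abs _ _
      _ ≤ ∑ n ∈ Icc 1 N, (1 / (n : ℝ) - 1 / ((n : ℝ) + 1)) * C := by
          refine sum_le_sum fun n hn => ?_
          have hn1 : (1 : ℝ) ≤ n := by exact_mod_cast (mem_Icc.1 hn).1
          have h4 : 0 ≤ 1 / (n : ℝ) - 1 / ((n : ℝ) + 1) := by
            rw [sub_nonneg]
            exact one_div_le_one_div_of_le (by linarith) (by linarith)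
          rw [abs_mul, abs_of_nonneg h4]
          exact mul_le_mul_of_nonneg_left (hr _) h4
      _ = (1 - 1 / ((N : ℝ) + 1)) * C := by rw [← sum_mul, h2]
      _ ≤ 1 * C := by
          refine mul_le_mul_of_nonneg_right ?_ hC
          have : 0 ≤ 1 / ((N : ℝ) + 1) := by positivity
          linarith
      _ = C := one_mul C
  have h5 : |(1 / ((N : ℝ) + 1)) * r (N + 1)| ≤ C := by
    rw [abs_mul]
    have h6 : |1 / ((N : ℝ) + 1)| ≤ 1 := by
      rw [abs_of_nonneg (by positivity), div_le_one (by positivity)]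
      have : (0 : ℝ) ≤ N := Nat.cast_nonneg N
      linarith
    calc |1 / ((N : ℝ) + 1)| * |r (N + 1)| ≤ 1 * C := mul_le_mul h6 (hr _) (abs_nonneg _) zero_le_one
      _ = C := one_mul C
  have h7 := hr 1
  have h8 := abs_sub (∑ n ∈ Icc 1 N, (1 / (n : ℝ) - 1 / ((n : ℝ) + 1)) * r (n + 1) + (1 / ((N : ℝ) + 1)) * r (N + 1)) (r 1)
  have h9 := abs_add_le (∑ n ∈ Icc 1 N, (1 / (n : ℝ) - 1 / ((n : ℝ) + 1)) * r (n + 1)) ((1 / ((N : ℝ) + 1)) * r (N + 1))
  linarith

end InvL

open InvL in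
/-- **INV** -/
theorem inv : S_INV := by
  intro f μ hμ
  obtain ⟨hprob, N, hN, hlim⟩ := hμ
  refine ⟨(shift_cont 1).measurable, ?_⟩
  have : IsProbabilityMeasure (Measure.map (shift 1) μ) :=
    Measure.isProbabilityMeasure_map (shift_cont 1).measurable.aemeasurable
  apply ext_of_forall_integral_eq_of_IsFiniteMeasure
  intro φ
  rw [integral_map (shift_cont 1).measurable.aemeasurable φ.continuous.aestronglyMeasurable]
  have h1 := hlim (fun x => φ x) φ.continuous
  have h2 := hlim (fun x => φ (shift 1 x)) (φ.continuous.comp (shift_cont 1))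
  have h3 : Tendsto (fun j => (1 / Real.log (N j : ℝ)) * ∑ n ∈ Icc 1 (N j), (1 / (n : ℝ)) *
      φ (shift 1 (shift (n : ℤ) (seq f))) - (1 / Real.log (N j : ℝ)) * ∑ n ∈ Icc 1 (N j), (1 / (n : ℝ)) *
      φ (shift (n : ℤ) (seq f))) atTop (𝓝 0) := by
    have h4 : Tendsto (fun j => (1 / Real.log (N j : ℝ)) * (3 * ‖φ‖)) atTop (𝓝 0) := by
      have h5 : Tendsto (fun j => Real.log (N j : ℝ)) atTop atTop :=
        Real.tendsto_log_atTop.comp (tendsto_natCast_atTop_atTop.comp hN)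
      have h6 := (h5.inv_tendsto_atTop).mul_const (3 * ‖φ‖)
      rw [zero_mul] at h6
      simpa [one_div] using h6
    refine squeeze_zero_norm' ?_ h4
    filter_upwards [hN.eventually_ge_atTop 2] with j hj
    have hl : 0 ≤ Real.log (N j : ℝ) := Real.log_nonneg (by
      have : (2 : ℝ) ≤ N j := by exact_mod_cast hj
      linarith)
    rw [← mul_sub, Real.norm_eq_abs, abs_mul, abs_of_nonneg (by positivity : 0 ≤ 1 / Real.log (N j : ℝ))]
    refine mul_le_mul_of_nonneg_left ?_ (by positivity)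
    have h7 := sum_shift (fun n : ℕ => φ (shift (n : ℤ) (seq f))) ‖φ‖ (fun n => by
      rw [← Real.norm_eq_abs]
      exact φ.norm_coe_le_norm _) (N j)
    have h8 : ∀ n : ℕ, shift 1 (shift (n : ℤ) (seq f)) = shift ((n + 1 : ℕ) : ℤ) (seq f) := by
      intro n
      rw [shift_add]
      push_cast
      rfl
    simp only [h8]
    exact h7
  have h9 := tendsto_nhds_unique (h2.sub h1) h3
  linarith

end Pool.Agent.Helper94K9.OP
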