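import Pool.Agent.Helper94K9.OP.Exk
import Pool.Agent.Helper94K9.OP.Inv
import Pool.Agent.Helper44K9.FU.Dil

/-! [KEY] (helper15): the inequality of the means over a Furstenberg system. -/

set_option autoImplicit false

namespace Pool.Agent.Helper94K9.OP

open Finset MeasureTheory Filter Topology

namespace KeyL

open ParL ExkL InvL

/-- the real valued function -/
noncomputable def rf (f : ℕ → Val) (n : ℕ) : ℝ := (f n : ℝ)

theorem sm {f : ℕ → Val} (hf : IsMult f) : SM (rf f) := by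
  refine ⟨fun n => val_le _, fun n hn => ?_, fun a b ha hb hab => hf.2 a b ha hb hab⟩
  have h := (f n).2
  simp only [Set.mem_insert_iff, Set.mem_singleton_iff] at h
  unfold rf
  rcases h with h | h | h
  · right
    exact h
  · exact absurd h (hf.1 n hn)
  · left
    exact h

theorem V_eq (f : ℕ → Val) (n L : ℕ) (θ : UnitAddCircle) :
    V (rf f) n L θ = (fourier (n : ℤ) θ : ℂ) * VX L (shift (n : ℤ) (seq f)) θ := by
  unfold V VX
  rw [mul_sum]
  have h1 : Ioc n (n + L) = (Icc 1 L).image (fun h => n + h) := by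
    ext x
    simp only [mem_Ioc, mem_image, mem_Icc]
    constructor
    · intro hx
      exact ⟨x - n, by omega, by omega⟩
    · rintro ⟨h, hh, rfl⟩
      omega
  rw [h1, sum_image (fun a _ b _ hab => by simpa using hab)]
  refine sum_congr rfl fun h hh => ?_
  have h2 : 1 ≤ h := (mem_Icc.1 hh).1
  have h3 : ((shift (n : ℤ) (seq f) (h : ℤ) : Val) : ℝ) = rf f (n + h) := by
    unfold shift seq rf
    have e1 : (1 : ℤ) ≤ (h : ℤ) + n := by omega
    have e2 : ((h : ℤ) + n).toNat = n + h := by omega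
    simp only [if_pos e1, e2]
  rw [h3]
  push_cast
  rw [fourier_add]
  ring

theorem cr_eq (f : ℕ → Val) (n L : ℕ) (θ : UnitAddCircle) :
    cr (rf f) n L θ = ‖VX L (shift (n : ℤ) (seq f)) θ‖ / L := by
  unfold cr
  rw [V_eq, norm_mul, norm_fourier, one_mul]

theorem W_eq (f : ℕ → Val) (k n L : ℕ) (φ : UnitAddCircle → ℝ) :
    W k φ (rf f) n L = WX k φ L (shift (n : ℤ) (seq f)) := by
  unfold W WX
  simp only [cr_eq]

theorem VX_le (L : ℕ) (x : X) (θ : UnitAddCircle) : ‖VX L x θ‖ ≤ L := by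
  unfold VX
  refine (norm_sum_le _ _).trans ?_
  calc ∑ h ∈ Icc 1 L, ‖((x (h : ℤ) : ℝ) : ℂ) * (fourier (h : ℤ) θ : ℂ)‖ ≤ ∑ h ∈ Icc 1 L, (1 : ℝ) := by
        refine sum_le_sum fun h _ => ?_
        rw [norm_mul, norm_fourier, mul_one, Complex.norm_real, Real.norm_eq_abs]
        exact val_le _
    _ = L := by simp

theorem VX_contX (L : ℕ) (θ : UnitAddCircle) : Continuous fun x : X => VX L x θ := by
  unfold VX
  refine continuous_finsetSum _ fun h _ => Continuous.mul ?_ continuous_const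
  fun_prop

theorem WX_cont (k L : ℕ) (φ : UnitAddCircle → ℝ) (hφ : Continuous φ) : Continuous (WX k φ L) := by
  unfold WX
  refine continuous_const.mul ?_
  refine continuous_of_dominated (bound := fun θ => |φ θ|) ?_ ?_ ?_ ?_
  · intro x
    exact (hφ.mul (((VX_cont L x).norm.div_const _).pow _)).aestronglyMeasurable
  · intro x
    refine Eventually.of_forall fun θ => ?_
    have h0 : 0 ≤ ‖VX L x θ‖ / (L : ℝ) := by positivity
    have h1 : ‖VX L x θ‖ / (L : ℝ) ≤ 1 := div_le_one_of_le₀ (VX_le L x θ) (Nat.cast_nonneg L)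
    rw [norm_mul, Real.norm_eq_abs, Real.norm_eq_abs, abs_of_nonneg (pow_nonneg h0 _)]
    calc |φ θ| * (‖VX L x θ‖ / (L : ℝ)) ^ (2 * k) ≤ |φ θ| * 1 :=
          mul_le_mul_of_nonneg_left (pow_le_one₀ h0 h1) (abs_nonneg _)
      _ = |φ θ| := mul_one _
  · exact cont_intR _ hφ.abs
  · refine Eventually.of_forall fun θ => ?_
    exact continuous_const.mul (((VX_contX L θ).norm.div_const _).pow _)

theorem sq_eq (h : ℕ) (x : X) (α : UnitAddCircle) : ‖VX h x α‖ ^ 2 =
    ∑ i ∈ Icc 1 h, ∑ i' ∈ Icc 1 h,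
      (fourier ((i : ℤ) - (i' : ℤ)) α : ℂ).re * ((x (i : ℤ) : ℝ) * (x (i' : ℤ) : ℝ)) := by
  have h1 : ‖VX h x α‖ ^ 2 = (VX h x α * (starRingEnd ℂ) (VX h x α)).re := by
    rw [Complex.mul_conj, Complex.normSq_eq_norm_sq, Complex.ofReal_re]
  rw [h1]
  unfold VX
  rw [map_sum, sum_mul_sum, Complex.re_sum]
  refine sum_congr rfl fun i _ => ?_
  rw [Complex.re_sum]
  refine sum_congr rfl fun i' _ => ?_
  have h2 : ((x (i : ℤ) : ℝ) : ℂ) * (fourier (i : ℤ) α : ℂ) *
      (starRingEnd ℂ) (((x (i' : ℤ) : ℝ) : ℂ) * (fourier (i' : ℤ) α : ℂ)) =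
      (((x (i : ℤ) : ℝ) * (x (i' : ℤ) : ℝ) : ℝ) : ℂ) * (fourier ((i : ℤ) - (i' : ℤ)) α : ℂ) := by
    rw [map_mul, Complex.conj_ofReal, conj_fourier, sub_eq_add_neg, fourier_add]
    push_cast
    ring
  rw [h2, Complex.re_ofReal_mul]
  ring

section

variable {μ : Measure X} [IsProbabilityMeasure μ]

theorem xx_le (i j : ℤ) (x : X) : |(x i : ℝ) * (x j : ℝ)| ≤ 1 := by
  rw [abs_mul]
  exact mul_le_one₀ (val_le _) (abs_nonneg _) (val_le _)

theorem xx_cont (i j : ℤ) : Continuous fun x : X => (x i : ℝ) * (x j : ℝ) := by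
  fun_prop

theorem xx_int (i j : ℤ) : Integrable (fun x : X => (x i : ℝ) * (x j : ℝ)) μ :=
  Integrable.of_bound (xx_cont i j).measurable.aestronglyMeasurable 1
    (Eventually.of_forall fun x => by rw [Real.norm_eq_abs]; exact xx_le i j x)

theorem int_sq (hort : ∀ i j : ℤ, i ≠ j → ∫ x : X, (x i : ℝ) * (x j : ℝ) ∂μ = 0) (h : ℕ) (α : UnitAddCircle) :
    ∫ x, ‖VX h x α‖ ^ 2 ∂μ ≤ h := by
  simp only [sq_eq]
  have hii : ∀ i i' : ℕ, Integrable (fun x : X => (fourier ((i : ℤ) - (i' : ℤ)) α : ℂ).re *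
      ((x (i : ℤ) : ℝ) * (x (i' : ℤ) : ℝ))) μ := fun i i' => (xx_int _ _).const_mul _
  have hi2 : ∀ i : ℕ, Integrable (fun x : X => ∑ i' ∈ Icc 1 h, (fourier ((i : ℤ) - (i' : ℤ)) α : ℂ).re *
      ((x (i : ℤ) : ℝ) * (x (i' : ℤ) : ℝ))) μ := fun i => integrable_finsetSum _ fun i' _ => hii i i'
  rw [integral_finsetSum _ fun i _ => hi2 i]
  have h1 : ∀ i ∈ Icc 1 h, ∫ x : X, ∑ i' ∈ Icc 1 h,
      (fourier ((i : ℤ) - (i' : ℤ)) α : ℂ).re * ((x (i : ℤ) : ℝ) * (x (i' : ℤ) : ℝ)) ∂μ ≤ 1 := by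
    intro i hi
    rw [integral_finsetSum _ fun i' _ => hii i i']
    rw [sum_eq_single i]
    · rw [integral_const_mul, sub_self]
      have e1 : (fourier (0 : ℤ) α : ℂ).re = 1 := by simp
      rw [e1, one_mul]
      have e2 : ∫ x : X, (x (i : ℤ) : ℝ) * (x (i : ℤ) : ℝ) ∂μ ≤ ∫ x : X, (1 : ℝ) ∂μ :=
        integral_mono (xx_int _ _) (integrable_const _) fun x => (le_abs_self _).trans (xx_le _ _ x)
      refine e2.trans (le_of_eq ?_)
      simp
    · intro i' _ hne
      rw [integral_const_mul, hort _ _ (by exact_mod_cast hne.symm), mul_zero]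
    · intro hcon
      exact absurd hi hcon
  calc _ ≤ ∑ i ∈ Icc 1 h, (1 : ℝ) := sum_le_sum h1
    _ = h := by simp

theorem norm_int (h : ℕ) (α : UnitAddCircle) : Integrable (fun x : X => ‖VX h x α‖) μ :=
  Integrable.of_bound (VX_contX h α).norm.measurable.aestronglyMeasurable h
    (Eventually.of_forall fun x => by rw [norm_norm]; exact VX_le h x α)

theorem normsq_int (h : ℕ) (α : UnitAddCircle) : Integrable (fun x : X => ‖VX h x α‖ ^ 2) μ :=
  Integrable.of_bound ((VX_contX h α).norm.pow 2).measurable.aestronglyMeasurable ((h : ℝ) ^ 2)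
    (Eventually.of_forall fun x => by
      rw [norm_pow, norm_norm]
      exact pow_le_pow_left₀ (norm_nonneg _) (VX_le h x α) 2)

theorem int_norm (hort : ∀ i j : ℤ, i ≠ j → ∫ x : X, (x i : ℝ) * (x j : ℝ) ∂μ = 0) (h : ℕ) (h1 : 1 ≤ h)
    (α : UnitAddCircle) : ∫ x, ‖VX h x α‖ ∂μ ≤ Real.sqrt h := by
  have hr : (0 : ℝ) < h := by exact_mod_cast h1
  have hs : 0 < Real.sqrt h := Real.sqrt_pos.2 hr
  have hss : Real.sqrt h * Real.sqrt h = h := Real.mul_self_sqrt hr.le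
  set s := Real.sqrt h with hsdef
  have e : ∀ x : X, ‖VX h x α‖ ≤ (1 / (2 * s)) * ‖VX h x α‖ ^ 2 + s / 2 := by
    intro x
    have e1 : (1 / (2 * s)) * ‖VX h x α‖ ^ 2 + s / 2 - ‖VX h x α‖ = (‖VX h x α‖ - s) ^ 2 / (2 * s) := by
      field_simp
      ring
    have e2 : 0 ≤ (‖VX h x α‖ - s) ^ 2 / (2 * s) := by positivity
    linarith
  have h2 : ∫ x, ‖VX h x α‖ ∂μ ≤ ∫ x, ((1 / (2 * s)) * ‖VX h x α‖ ^ 2 + s / 2) ∂μ :=
    integral_mono (norm_int h α) (((normsq_int h α).const_mul _).add (integrable_const _)) e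
  have h3 : ∫ x, ((1 / (2 * s)) * ‖VX h x α‖ ^ 2 + s / 2) ∂μ = (1 / (2 * s)) * ∫ x, ‖VX h x α‖ ^ 2 ∂μ + s / 2 := by
    rw [integral_add ((normsq_int h α).const_mul _) (integrable_const _), integral_const_mul]
    simp
  rw [h3] at h2
  have h4 := int_sq hort h α
  have h5 : (1 / (2 * s)) * ∫ x, ‖VX h x α‖ ^ 2 ∂μ ≤ (1 / (2 * s)) * h :=
    mul_le_mul_of_nonneg_left h4 (by positivity)
  have h6 : (1 / (2 * s)) * (h : ℝ) = s / 2 := by
    rw [← hss]
    field_simp
  linarith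

end

theorem int_shift {μ : Measure X} (hinv : MeasurePreserving (shift 1) μ μ) (g : X → ℝ) (hg : Continuous g) (j : ℕ) :
    ∫ x, g (shift (j : ℤ) x) ∂μ = ∫ x, g x ∂μ := by
  induction j with
  | zero =>
    congr 1
    funext x
    congr 1
    funext k
    unfold shift
    simp
  | succ j ih =>
    have h1 : ∀ x : X, g (shift ((j + 1 : ℕ) : ℤ) x) = (fun y => g (shift (j : ℤ) y)) (shift 1 x) := by
      intro x
      show g (shift ((j + 1 : ℕ) : ℤ) x) = g (shift (j : ℤ) (shift 1 x))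
      rw [shift_add]
      congr 2
      push_cast
      ring
    simp only [h1]
    have hc : Continuous (fun y : X => g (shift (j : ℤ) y)) := hg.comp (shift_cont _)
    have h2 := integral_map (μ := μ) (φ := shift 1) (f := fun y : X => g (shift (j : ℤ) y))
      hinv.measurable.aemeasurable hc.measurable.aestronglyMeasurable
    rw [hinv.map_eq] at h2
    rw [← ih]
    exact h2.symm

theorem ph_bd {σ : ℝ} (hσ : σ = 1 ∨ σ = -1) (m : ℤ) (θ : UnitAddCircle) : 0 ≤ ph m σ θ ∧ ph m σ θ ≤ 2 := by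
  have h0 : |(fourier m θ : ℂ).re| ≤ 1 := (Complex.abs_re_le_norm _).trans (norm_fourier m θ).le
  have h := abs_le.1 h0
  unfold ph
  rcases hσ with rfl | rfl
  · constructor <;> linarith
  · constructor <;> linarith

theorem ph_cont (m : ℤ) (σ : ℝ) : Continuous (ph m σ) := by
  unfold ph
  have h : Continuous fun θ : UnitAddCircle => (fourier m θ : ℂ) := (fourier m).continuous
  exact continuous_const.add (continuous_const.mul (Complex.continuous_re.comp h))

theorem W_bd {σ : ℝ} (hσ : σ = 1 ∨ σ = -1) (m : ℤ) (k : ℕ) (hk : 1 ≤ k) (F : ℕ → ℝ) (hF : ∀ n, |F n| ≤ 1) (n L : ℕ) :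
    0 ≤ W k (ph m σ) F n L ∧ W k (ph m σ) F n L ≤ 2 := by
  obtain ⟨hc, h01, hP⟩ := par F hF n L
  have hL : (0 : ℝ) ≤ L := Nat.cast_nonneg L
  unfold W
  constructor
  · refine mul_nonneg hL (integral_nonneg fun θ => mul_nonneg (ph_bd hσ m θ).1 (pow_nonneg (h01 θ).1 _))
  · have e1 : ∫ θ : UnitAddCircle, ph m σ θ * cr F n L θ ^ (2 * k) ≤ ∫ θ : UnitAddCircle, 2 * cr F n L θ ^ 2 := by
      refine integral_mono (cont_intR _ ((ph_cont m σ).mul (hc.pow _))) (cont_intR _ (continuous_const.mul (hc.pow 2)))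
        fun θ => ?_
      have q1 := ph_bd hσ m θ
      have q2 := h01 θ
      have q3 : cr F n L θ ^ (2 * k) ≤ cr F n L θ ^ 2 := pow_le_pow_of_le_one q2.1 q2.2 (by omega)
      exact mul_le_mul q1.2 q3 (pow_nonneg q2.1 _) (by norm_num)
    rw [integral_const_mul] at e1
    have e2 := mul_le_mul_of_nonneg_left e1 hL
    have e3 : (L : ℝ) * (2 * ∫ θ : UnitAddCircle, cr F n L θ ^ 2) = 2 * (L * ∫ θ : UnitAddCircle, cr F n L θ ^ 2) := by
      ring
    rw [e3] at e2
    linarith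

end KeyL

open KeyL InvL ExkL ParL in
/-- **KEY** -/
theorem key (hT : S_TRANS) (hO : S_ORT) (hI : S_INV) : S_KEY := by
  intro f μ hf hap hμ k m ε hk hm hε
  have hinv := hI f μ hμ
  have hort := hO f μ hf hap hμ
  obtain ⟨hprob, N, hN, hlim⟩ := hμ
  obtain ⟨Q, hQ⟩ := hT k m (ε / 2) hk hm (by positivity)
  obtain ⟨h, hh1, hh2⟩ : ∃ h : ℕ, 1 ≤ h ∧ (Q : ℝ) ^ 2 ≤ ε / 2 * Real.sqrt h := by
    refine ⟨⌈(2 * (Q : ℝ) ^ 2 / ε) ^ 2⌉₊ + 1, by omega, ?_⟩
    have h1 : 2 * (Q : ℝ) ^ 2 / ε ≤ Real.sqrt ((⌈(2 * (Q : ℝ) ^ 2 / ε) ^ 2⌉₊ + 1 : ℕ) : ℝ) := by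
      apply Real.le_sqrt_of_sq_le
      push_cast
      exact (Nat.le_ceil _).trans (by linarith)
    have h2 : (Q : ℝ) ^ 2 = ε / 2 * (2 * (Q : ℝ) ^ 2 / ε) := by
      field_simp
    rw [h2]
    exact mul_le_mul_of_nonneg_left (by rw [← h2]; exact h1) (by positivity)
  obtain ⟨I, L₀, hIne, hIp, hmain⟩ := hQ h hh1
  refine ⟨I, max L₀ 1, hIne, hIp, ?_⟩
  intro σ hσ L hL
  have hL0 : L₀ ≤ L := (le_max_left _ _).trans hL
  have hL1 : 1 ≤ L := (le_max_right _ _).trans hL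
  have hSM := sm hf
  have hLr : (0 : ℝ) < L := by exact_mod_cast hL1
  have hhr : (0 : ℝ) < h := by exact_mod_cast hh1
  set RX : X → ℝ := fun x => ∑ q ∈ Icc 1 Q, ∑ a ∈ range q, (1 / (L : ℝ)) *
    ∑ j ∈ range L, ‖VX h (shift (j : ℤ) x) (pt a q)‖ / h with hRX
  have hterm : ∀ (j : ℕ) (α : UnitAddCircle), Continuous fun x : X => ‖VX h (shift (j : ℤ) x) α‖ / (h : ℝ) :=
    fun j α => ((VX_contX h α).comp (shift_cont _)).norm.div_const _
  have hterm_int : ∀ (j : ℕ) (α : UnitAddCircle), Integrable (fun x : X => ‖VX h (shift (j : ℤ) x) α‖ / (h : ℝ)) μ :=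
    fun j α => Integrable.of_bound (hterm j α).measurable.aestronglyMeasurable 1
      (Eventually.of_forall fun x => by
        rw [Real.norm_eq_abs, abs_of_nonneg (by positivity)]
        exact div_le_one_of_le₀ (VX_le h _ α) hhr.le)
  have hRXc : Continuous RX := by
    refine continuous_finsetSum _ fun q _ => continuous_finsetSum _ fun a _ => continuous_const.mul ?_
    exact continuous_finsetSum _ fun j _ => hterm j _
  have hRR : ∀ n : ℕ, RR (rf f) Q h n L = RX (shift (n : ℤ) (seq f)) := by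
    intro n
    simp only [hRX]
    unfold RR
    refine sum_congr rfl fun q _ => sum_congr rfl fun a _ => ?_
    congr 1
    refine sum_congr rfl fun j _ => ?_
    rw [cr_eq, shift_add]
    push_cast
    rfl
  have hRXint : ∫ x, RX x ∂μ ≤ ε / 2 := by
    have e1 : ∫ x, RX x ∂μ = ∑ q ∈ Icc 1 Q, ∑ a ∈ range q, (1 / (L : ℝ)) *
        ∑ j ∈ range L, ∫ x : X, ‖VX h (shift (j : ℤ) x) (pt a q)‖ / (h : ℝ) ∂μ := by
      simp only [hRX]
      rw [integral_finsetSum _ fun q _ => integrable_finsetSum _ fun a _ =>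
        (integrable_finsetSum _ fun j _ => hterm_int j _).const_mul _]
      refine sum_congr rfl fun q _ => ?_
      rw [integral_finsetSum _ fun a _ => (integrable_finsetSum _ fun j _ => hterm_int j _).const_mul _]
      refine sum_congr rfl fun a _ => ?_
      rw [integral_const_mul, integral_finsetSum _ fun j _ => hterm_int j _]
    rw [e1]
    have hs : 0 < Real.sqrt h := Real.sqrt_pos.2 hhr
    have e2 : ∀ (j : ℕ) (α : UnitAddCircle), ∫ x : X, ‖VX h (shift (j : ℤ) x) α‖ / (h : ℝ) ∂μ ≤ 1 / Real.sqrt h := by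
      intro j α
      rw [int_shift hinv (fun x => ‖VX h x α‖ / (h : ℝ)) ((VX_contX h α).norm.div_const _) j, integral_div]
      have e3 := int_norm hort h hh1 α
      rw [div_le_div_iff₀ hhr hs, one_mul]
      calc (∫ x, ‖VX h x α‖ ∂μ) * Real.sqrt h ≤ Real.sqrt h * Real.sqrt h := mul_le_mul_of_nonneg_right e3 hs.le
        _ = h := Real.mul_self_sqrt hhr.le
    have e4 : ∀ q ∈ Icc 1 Q, ∑ a ∈ range q, (1 / (L : ℝ)) *
        ∑ j ∈ range L, ∫ x : X, ‖VX h (shift (j : ℤ) x) (pt a q)‖ / (h : ℝ) ∂μ ≤ Q * (1 / Real.sqrt h) := by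
      intro q hq
      calc _ ≤ ∑ a ∈ range q, 1 / Real.sqrt h := by
            refine sum_le_sum fun a _ => ?_
            calc (1 / (L : ℝ)) * ∑ j ∈ range L, ∫ x : X, ‖VX h (shift (j : ℤ) x) (pt a q)‖ / (h : ℝ) ∂μ
                ≤ (1 / (L : ℝ)) * ∑ j ∈ range L, 1 / Real.sqrt h :=
                  mul_le_mul_of_nonneg_left (sum_le_sum fun j _ => e2 j _) (by positivity)
              _ = 1 / Real.sqrt h := by
                  rw [sum_const, card_range, nsmul_eq_mul]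
                  field_simp
        _ = q * (1 / Real.sqrt h) := by rw [sum_const, card_range, nsmul_eq_mul]
        _ ≤ Q * (1 / Real.sqrt h) := by
            refine mul_le_mul_of_nonneg_right ?_ (by positivity)
            exact_mod_cast (mem_Icc.1 hq).2
    calc _ ≤ ∑ q ∈ Icc 1 Q, (Q : ℝ) * (1 / Real.sqrt h) := sum_le_sum e4
      _ = (Q : ℝ) ^ 2 / Real.sqrt h := by
          rw [sum_const, Nat.card_Icc, nsmul_eq_mul]
          simp only [Nat.add_sub_cancel]
          ring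
      _ ≤ ε / 2 := by
          rw [div_le_iff₀ hs]
          exact hh2
  -- the limits
  have hA := hlim (WX k (fun _ => 1) L) (WX_cont k L _ continuous_const)
  have hB : ∀ p : ℕ, Tendsto (fun j => (1 / Real.log (N j : ℝ)) * ∑ n ∈ Icc 1 (N j), (1 / (n : ℝ)) *
      WX k (ph m σ) (L / p) (shift (n : ℤ) (seq f))) atTop (𝓝 (wm μ k (ph m σ) (L / p))) := fun p =>
    hlim (WX k (ph m σ) (L / p)) (WX_cont k (L / p) _ (ph_cont m σ))
  have hR := hlim RX hRXc
  have hH := hlim (fun _ => 1) continuous_const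
  have hC : Tendsto (fun j => (1 / Real.log (N j : ℝ)) * ∑ p ∈ I, wt I p * (2 * (1 + Real.log p))) atTop (𝓝 0) := by
    have h5 : Tendsto (fun j => Real.log (N j : ℝ)) atTop atTop :=
      Real.tendsto_log_atTop.comp (tendsto_natCast_atTop_atTop.comp hN)
    have h6 := (h5.inv_tendsto_atTop).mul_const (∑ p ∈ I, wt I p * (2 * (1 + Real.log p)))
    rw [zero_mul] at h6
    simpa [one_div] using h6
  have hsum := (((tendsto_finsetSum I fun p _ => (hB p).const_mul (wt I p)).add hC).add hR).add (hH.const_mul (ε / 2))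
  have hle : wm μ k (fun _ => 1) L ≤ ∑ p ∈ I, wt I p * wm μ k (ph m σ) (L / p) + 0 + ∫ x, RX x ∂μ +
      ε / 2 * ∫ _x : X, (1 : ℝ) ∂μ := by
    refine le_of_tendsto_of_tendsto' hA hsum fun j => ?_
    have hlog : 0 ≤ 1 / Real.log (N j : ℝ) := by
      have := Real.log_natCast_nonneg (N j)
      positivity
    have hwt0 : ∀ p, 0 ≤ wt I p := fun p => by
      unfold wt
      positivity
    have h1 : ∀ n ∈ Icc 1 (N j), (1 / (n : ℝ)) * WX k (fun _ => 1) L (shift (n : ℤ) (seq f)) ≤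
        (1 / (n : ℝ)) * (∑ p ∈ I, wt I p * W k (ph m σ) (rf f) (n / p) (L / p)) +
          (1 / (n : ℝ)) * RX (shift (n : ℤ) (seq f)) + ε / 2 * ((1 / (n : ℝ)) * 1) := by
      intro n _
      have e1 := hmain σ hσ L hL0 (rf f) hSM n
      rw [W_eq, hRR] at e1
      have e2 := mul_le_mul_of_nonneg_left e1 (show (0 : ℝ) ≤ 1 / (n : ℝ) by positivity)
      rw [mul_add, mul_add] at e2
      linarith
    have h2 := sum_le_sum h1
    rw [sum_add_distrib, sum_add_distrib, ← mul_sum] at h2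
    have h3 : ∑ n ∈ Icc 1 (N j), (1 / (n : ℝ)) * (∑ p ∈ I, wt I p * W k (ph m σ) (rf f) (n / p) (L / p)) ≤
        ∑ p ∈ I, wt I p * (∑ n ∈ Icc 1 (N j), (1 / (n : ℝ)) * WX k (ph m σ) (L / p) (shift (n : ℤ) (seq f))) +
          ∑ p ∈ I, wt I p * (2 * (1 + Real.log p)) := by
      have e1 : ∑ n ∈ Icc 1 (N j), (1 / (n : ℝ)) * (∑ p ∈ I, wt I p * W k (ph m σ) (rf f) (n / p) (L / p)) =
          ∑ p ∈ I, wt I p * ∑ n ∈ Icc 1 (N j), (1 / (n : ℝ)) * W k (ph m σ) (rf f) (n / p) (L / p) := by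
        simp_rw [mul_sum]
        rw [sum_comm]
        refine sum_congr rfl fun p _ => sum_congr rfl fun n _ => ?_
        ring
      rw [e1, ← sum_add_distrib]
      refine sum_le_sum fun p hp => ?_
      rw [← mul_add]
      refine mul_le_mul_of_nonneg_left ?_ (hwt0 p)
      have e2 := Pool.Agent.Helper44K9.FU.DilL.inner_le p (N j) (hIp p hp).one_lt.le 2
        (fun n => W k (ph m σ) (rf f) n (L / p)) (fun n => W_bd hσ m k (by omega) (rf f) hSM.1 n (L / p))
      simp only [W_eq] at e2 ⊢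
      exact e2
    have h4 := mul_le_mul_of_nonneg_left (h2.trans (add_le_add (add_le_add h3 le_rfl) le_rfl)) hlog
    refine h4.trans (le_of_eq ?_)
    have e5 : ∑ p ∈ I, wt I p * ((1 / Real.log (N j : ℝ)) * ∑ n ∈ Icc 1 (N j), (1 / (n : ℝ)) *
        WX k (ph m σ) (L / p) (shift (n : ℤ) (seq f))) = (1 / Real.log (N j : ℝ)) *
        ∑ p ∈ I, wt I p * ∑ n ∈ Icc 1 (N j), (1 / (n : ℝ)) * WX k (ph m σ) (L / p) (shift (n : ℤ) (seq f)) := by
      rw [mul_sum]
      refine sum_congr rfl fun p _ => ?_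
      ring
    rw [e5]
    ring
  have h1 : ∫ _x : X, (1 : ℝ) ∂μ = 1 := by simp
  rw [h1, mul_one, add_zero] at hle
  linarith

end Pool.Agent.Helper94K9.OP
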