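import Pool.Agent.Helper94K9.OP.Stm

/-!
# [FIN] of project OP (MP_4a7640_nt, helper94)

The limits exist by `S_L4`; the inequality `S_KEY` with both signs gives that the limit for `m ≠ 0` is `0`.
-/

set_option autoImplicit false

namespace Pool.Agent.Helper94K9.OP

open Finset MeasureTheory Filter Topology

namespace FinL

theorem wt_sum (I : Finset ℕ) (hne : I.Nonempty) (hp : ∀ p ∈ I, p.Prime) : ∑ p ∈ I, wt I p = 1 := by
  have hpos : 0 < ∑ q ∈ I, 1 / (q : ℝ) := by
    refine Finset.sum_pos (fun q hq => ?_) hne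
    have : 0 < (q : ℝ) := by exact_mod_cast (hp q hq).pos
    positivity
  unfold wt
  rw [← Finset.sum_div]
  exact div_self hpos.ne'

theorem wt_nonneg (I : Finset ℕ) (p : ℕ) : 0 ≤ wt I p := by
  unfold wt
  positivity

theorem tend_div (p : ℕ) (hp : 0 < p) : Tendsto (fun L : ℕ => L / p) atTop atTop := by
  refine tendsto_atTop.2 fun b => ?_
  filter_upwards [eventually_ge_atTop (b * p)] with L hL
  exact (Nat.le_div_iff_mul_le hp).2 hL

end FinL

theorem fin (hK : S_KEY) (hE : S_EXK) (h2 : S_EX2) (hI : S_INV) (hH : S_HSP) (h4 : S_L4) : S_FIN := by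
  intro f μ hf ha hμ
  haveI : IsProbabilityMeasure μ := hμ.1
  obtain ⟨E, i1, i2, i3, U, P, v, hs⟩ := hH μ (hI f μ hμ)
  have conv := h4 E U P v (c4 μ) hs
  choose γ hγ using conv
  refine ⟨γ 0, hγ 0, fun m hm => ?_⟩
  have key : ∀ ε : ℝ, 0 < ε → ∀ σ : ℝ, σ = 1 ∨ σ = -1 → γ 0 ≤ γ 0 + σ * γ m + ε := by
    intro ε hε σ hσ
    obtain ⟨I, L₀, hne, hp, hkey⟩ := hK f μ hf ha hμ 2 m ε le_rfl hm hε
    have hσ' := hkey σ hσ
    have hl : Tendsto (fun L : ℕ => wm μ 2 (fun _ => 1) L) atTop (𝓝 (γ 0)) := by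
      refine (hγ 0).congr' ?_
      filter_upwards [eventually_ge_atTop 1] with L hL
      rw [(hE μ 2 L m σ (by norm_num) hL).1, h2]
    have hr : Tendsto (fun L : ℕ => wm μ 2 (ph m σ) L) atTop (𝓝 (γ 0 + σ * γ m)) := by
      refine ((hγ 0).add ((hγ m).const_mul σ)).congr' ?_
      filter_upwards [eventually_ge_atTop 1] with L hL
      rw [(hE μ 2 L m σ (by norm_num) hL).2.1, h2, h2]
    have hr' : ∀ p ∈ I, Tendsto (fun L : ℕ => wt I p * wm μ 2 (ph m σ) (L / p)) atTop
        (𝓝 (wt I p * (γ 0 + σ * γ m))) := by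
      intro p hpI
      exact ((hr.comp (FinL.tend_div p (hp p hpI).pos))).const_mul _
    have hsum := (tendsto_finset_sum I hr').add_const ε
    have hle := le_of_tendsto_of_tendsto hl hsum
      (by filter_upwards [eventually_ge_atTop L₀] with L hL using hσ' L hL)
    rw [← Finset.sum_mul, FinL.wt_sum I hne hp, one_mul] at hle
    exact hle
  have h0 : γ m = 0 := by
    have h1 : ∀ ε : ℝ, 0 < ε → |γ m| ≤ ε := by
      intro ε hε
      have ha := key ε hε 1 (Or.inl rfl)
      have hb := key ε hε (-1) (Or.inr rfl)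
      rw [abs_le]
      constructor <;> linarith
    by_contra hne
    have hpos : 0 < |γ m| := abs_pos.2 hne
    have := h1 (|γ m| / 2) (by linarith)
    linarith
  rw [← h0]
  exact hγ m

end Pool.Agent.Helper94K9.OP
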