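import Pool.Agent.Helper94K9.OP.Sub
import Pool.Agent.Helper94K9.OP.Fin

/-!
# Project OP: open sets of frequencies [OPN]
-/

set_option autoImplicit false

namespace Pool.Agent.Helper94K9.OP

open Finset MeasureTheory Filter Topology

namespace OpnL

open KeyL InvL ExkL ParL SubL

theorem norm_neg_eq (L : ℕ) (x : X) (θ : UnitAddCircle) : ‖VX L x (-θ)‖ = ‖VX L x θ‖ := by
  have h : VX L x (-θ) = (starRingEnd ℂ) (VX L x θ) := by
    unfold VX
    rw [map_sum]
    refine sum_congr rfl fun h _ => ?_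
    rw [map_mul, Complex.conj_ofReal, conj_fourier]
    congr 1
    rw [fourier_apply, fourier_apply]
    congr 2
    simp
  rw [h, RCLike.norm_conj]

theorem SU_symm (U : Set UnitAddCircle) (L : ℕ) (x : X) : SU (U ∪ -U) L x = SU U L x := by
  apply le_antisymm
  · refine SU_le_of _ L x _ (SU_nonneg U L x) fun θ hθ => ?_
    rcases hθ with h | h
    · exact le_SU U L x θ h
    · rw [← norm_neg_eq]
      exact le_SU U L x (-θ) (Set.mem_neg.1 h)
  · exact SU_le_of _ L x _ (SU_nonneg _ L x) fun θ hθ => le_SU _ L x θ (Or.inl hθ)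

theorem SX_one (L : ℕ) (x : X) : SX (fun _ => 1) L x = SU Set.univ L x := by
  apply le_antisymm
  · refine Real.iSup_le (fun θ => ?_) (SU_nonneg _ L x)
    rw [one_mul]
    exact le_SU _ L x θ (Set.mem_univ θ)
  · refine SU_le_of _ L x _ (Real.iSup_nonneg fun θ => by rw [one_mul]; exact g_nonneg L x θ) fun θ _ => ?_
    have hb : BddAbove (Set.range fun θ : UnitAddCircle => (1 : ℝ) * (‖VX L x θ‖ / (L : ℝ))) :=
      ⟨1, by rintro _ ⟨θ, rfl⟩; simp only [one_mul]; exact g_le L x θ⟩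
    have h1 := le_ciSup hb θ
    simp only [one_mul] at h1
    unfold SX
    simp only [one_mul]
    exact h1

theorem SX_le_SU (φ : UnitAddCircle → ℝ) (U : Set UnitAddCircle) (hφ : ∀ θ, 0 ≤ φ θ ∧ φ θ ≤ 1)
    (hU : ∀ θ, θ ∉ U → φ θ = 0) (L : ℕ) (x : X) : SX φ L x ≤ SU U L x := by
  refine Real.iSup_le (fun θ => ?_) (SU_nonneg _ L x)
  by_cases h : θ ∈ U
  · calc φ θ * (‖VX L x θ‖ / (L : ℝ)) ≤ 1 * (‖VX L x θ‖ / (L : ℝ)) :=
          mul_le_mul_of_nonneg_right (hφ θ).2 (g_nonneg L x θ)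
      _ = ‖VX L x θ‖ / (L : ℝ) := one_mul _
      _ ≤ _ := le_SU U L x θ h
  · rw [hU θ h, zero_mul]
    exact SU_nonneg U L x

theorem SX_int {μ : Measure X} [IsProbabilityMeasure μ] (φ : UnitAddCircle → ℝ) (hφ : ∀ θ, 0 ≤ φ θ ∧ φ θ ≤ 1)
    (L : ℕ) : Integrable (SX φ L) μ :=
  Integrable.of_bound (SX_cont φ L).measurable.aestronglyMeasurable 1 (Eventually.of_forall fun x => by
    have h0 : 0 ≤ SX φ L x := Real.iSup_nonneg fun θ => mul_nonneg (hφ θ).1 (g_nonneg L x θ)
    rw [Real.norm_eq_abs, abs_of_nonneg h0]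
    exact (SX_le_SU φ Set.univ hφ (fun θ h => absurd (Set.mem_univ θ) h) L x).trans (SU_le_one _ L x))

/-- Urysohn -/
theorem ury (U : Set UnitAddCircle) (hU : IsOpen U) (δ : ℝ) (hδ : 0 < δ) :
    ∃ φ : C(UnitAddCircle, ℝ), (∀ θ, 0 ≤ φ θ ∧ φ θ ≤ 1) ∧ (∀ θ, θ ∉ U → φ θ = 0) ∧
      (volume U).toReal - δ ≤ ∫ θ : UnitAddCircle, φ θ := by
  have hfin : volume U ≠ ⊤ := measure_ne_top _ _
  obtain ⟨K, hKU, hK, hKv⟩ := hU.measurableSet.exists_isCompact_lt_add hfin
    (ε := ENNReal.ofReal δ) (by simpa using hδ)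
  have hd : Disjoint Uᶜ K := by
    rw [Set.disjoint_left]
    intro x hx hx'
    exact hx (hKU hx')
  obtain ⟨φ, h0, h1, h2⟩ := exists_continuous_zero_one_of_isClosed hU.isClosed_compl hK.isClosed hd
  refine ⟨φ, fun θ => h2 θ, fun θ hθ => h0 hθ, ?_⟩
  have hKint : ∫ θ : UnitAddCircle, K.indicator (fun _ => (1 : ℝ)) θ = (volume K).toReal := by
    rw [integral_indicator hK.measurableSet]
    simp [measureReal_def]
  have h3 : ∫ θ : UnitAddCircle, K.indicator (fun _ => (1 : ℝ)) θ ≤ ∫ θ : UnitAddCircle, φ θ := by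
    refine integral_mono ((integrable_const _).indicator hK.measurableSet)
      (cont_intR _ (map_continuous φ)) fun θ => ?_
    by_cases h : θ ∈ K
    · simp only [Set.indicator_of_mem h]
      rw [h1 h]
      exact le_rfl
    · simp only [Set.indicator_of_notMem h]
      exact (h2 θ).1
  rw [hKint] at h3
  have h4 : (volume U).toReal ≤ (volume K).toReal + δ := by
    have h5 : (volume U).toReal ≤ (volume K + ENNReal.ofReal δ).toReal :=
      ENNReal.toReal_mono (by simp [measure_ne_top]) hKv.le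
    rw [ENNReal.toReal_add (measure_ne_top _ _) ENNReal.ofReal_ne_top, ENNReal.toReal_ofReal hδ.le] at h5
    exact h5
  linarith

end OpnL

open OpnL SubL in
theorem opn (hK : S_KES) (hS : S_SUB) (hI : S_INV) : S_OPN := by
  intro f μ hf ha hμ
  have : IsProbabilityMeasure μ := hμ.1
  have hex := fun U => (hS μ (hI f μ hμ) U).2
  choose s hs using hex
  refine ⟨s, hs, fun U hU => ?_⟩
  have hsU : s (U ∪ -U) = s U := by
    refine tendsto_nhds_unique (hs (U ∪ -U)) ((hs U).congr fun L => ?_)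
    simp only [SU_symm]
  have hU' : IsOpen (U ∪ -U) := hU.union hU.neg
  rw [← hsU]
  set U' := U ∪ -U with hUdef
  have hs0 : 0 ≤ s Set.univ := ge_of_tendsto' (hs Set.univ) fun L => integral_nonneg fun x => SU_nonneg _ L x
  have key : ∀ ε : ℝ, 0 < ε → ((volume U').toReal - ε) * s Set.univ ≤ s U' + ε := by
    intro ε hε
    obtain ⟨φ, h01, hoff, hint⟩ := ury U' hU' ε hε
    obtain ⟨I, L₀, hne, hp, hmain⟩ := hK f μ hf ha hμ φ ε h01 hε
    have hle1 : (∫ γ : UnitAddCircle, φ γ) * s Set.univ ≤ s U' + ε := by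
      have hl : Tendsto (fun L : ℕ => (∫ γ : UnitAddCircle, φ γ) * ∫ x, SX (fun _ => 1) L x ∂μ) atTop
          (𝓝 ((∫ γ : UnitAddCircle, φ γ) * s Set.univ)) := by
        refine ((hs Set.univ).const_mul _).congr fun L => ?_
        simp only [SX_one]
      have hr : ∀ p ∈ I, Tendsto (fun L : ℕ => wt I p * ∫ x, SU U' (L / p) x ∂μ) atTop (𝓝 (wt I p * s U')) := by
        intro p hpI
        exact ((hs U').comp (FinL.tend_div p (hp p hpI).pos)).const_mul _
      have hsum := (tendsto_finsetSum I hr).add_const ε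
      have hle := le_of_tendsto_of_tendsto hl hsum (by
        filter_upwards [eventually_ge_atTop L₀] with L hL
        refine (hmain L hL).trans ?_
        refine add_le_add (sum_le_sum fun p _ => mul_le_mul_of_nonneg_left ?_ (FinL.wt_nonneg I p)) le_rfl
        exact integral_mono (SX_int φ h01 _) (SU_int U' _) fun x => SX_le_SU φ U' h01 hoff _ x)
      rw [← Finset.sum_mul, FinL.wt_sum I hne hp, one_mul] at hle
      exact hle
    exact (mul_le_mul_of_nonneg_right hint hs0).trans hle1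
  have hlim : Tendsto (fun ε : ℝ => ((volume U').toReal - ε) * s Set.univ) (𝓝[>] 0)
      (𝓝 (((volume U').toReal - 0) * s Set.univ)) := by
    refine Tendsto.mono_left ?_ nhdsWithin_le_nhds
    exact ((continuous_const.sub continuous_id).mul continuous_const).tendsto 0
  have hlim2 : Tendsto (fun ε : ℝ => s U' + ε) (𝓝[>] 0) (𝓝 (s U' + 0)) := by
    refine Tendsto.mono_left ?_ nhdsWithin_le_nhds
    exact (continuous_const.add continuous_id).tendsto 0
  have hfin := le_of_tendsto_of_tendsto hlim hlim2 (by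
    filter_upwards [self_mem_nhdsWithin] with ε hε using key ε hε)
  rw [sub_zero, add_zero] at hfin
  exact hfin

end Pool.Agent.Helper94K9.OP
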