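import Pool.Agent.Helper94K9.OP.St3
import Pool.Agent.Helper94K9.OP.Opn

/-!
# Project OP: the suprema in distribution [SUF], [OPF]
-/

set_option autoImplicit false

namespace Pool.Agent.Helper94K9.OP

open Finset MeasureTheory Filter Topology

namespace OpfL

open KeyL InvL ExkL ParL SubL OpnL

theorem F_int {μ : Measure X} [IsProbabilityMeasure μ] (F : ℝ → ℝ) (hF : Continuous F) (U : Set UnitAddCircle)
    (L : ℕ) : Integrable (fun x => F (SU U L x)) μ := by
  obtain ⟨C, hC⟩ := (isCompact_Icc (a := (0 : ℝ)) (b := 1)).exists_bound_of_continuousOn hF.continuousOn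
  exact Integrable.of_bound ((hF.comp (SU_cont U L)).measurable.aestronglyMeasurable) C
    (Eventually.of_forall fun x => hC _ ⟨SU_nonneg U L x, SU_le_one U L x⟩)

theorem pow_add_le (U : Set UnitAddCircle) (q L M : ℕ) (x : X) :
    ((L + M : ℕ) : ℝ) * SU U (L + M) x ^ q ≤ L * SU U L x ^ q + M * SU U M (shift (L : ℤ) x) ^ q := by
  have a0 := SU_nonneg U L x
  have b0 := SU_nonneg U M (shift (L : ℤ) x)
  rcases Nat.eq_zero_or_pos (L + M) with h | h
  · rw [h]
    simp only [Nat.cast_zero, zero_mul]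
    positivity
  · have hL : (0 : ℝ) < ((L + M : ℕ) : ℝ) := by exact_mod_cast h
    have h1 := SU_add U L M x
    have h2 : SU U (L + M) x ≤ ((L : ℝ) / ((L + M : ℕ) : ℝ)) * SU U L x +
        ((M : ℝ) / ((L + M : ℕ) : ℝ)) * SU U M (shift (L : ℤ) x) := by
      rw [div_mul_eq_mul_div, div_mul_eq_mul_div, ← add_div, le_div_iff₀ hL]
      linarith
    have h3 : SU U (L + M) x ^ q ≤ (((L : ℝ) / ((L + M : ℕ) : ℝ)) * SU U L x +
        ((M : ℝ) / ((L + M : ℕ) : ℝ)) * SU U M (shift (L : ℤ) x)) ^ q :=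
      pow_le_pow_left₀ (SU_nonneg U _ x) h2 q
    have hsum : (L : ℝ) / ((L + M : ℕ) : ℝ) + (M : ℝ) / ((L + M : ℕ) : ℝ) = 1 := by
      rw [← add_div, ← Nat.cast_add]
      exact div_self hL.ne'
    have h4 := (convexOn_pow q (𝕜 := ℝ)).2 (Set.mem_Ici.2 a0) (Set.mem_Ici.2 b0)
      (show (0 : ℝ) ≤ (L : ℝ) / ((L + M : ℕ) : ℝ) by positivity)
      (show (0 : ℝ) ≤ (M : ℝ) / ((L + M : ℕ) : ℝ) by positivity) hsum
    simp only [smul_eq_mul] at h4
    have h5 := mul_le_mul_of_nonneg_left (h3.trans h4) hL.le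
    have h6 : ((L + M : ℕ) : ℝ) * ((L : ℝ) / ((L + M : ℕ) : ℝ) * SU U L x ^ q +
        (M : ℝ) / ((L + M : ℕ) : ℝ) * SU U M (shift (L : ℤ) x) ^ q) =
        L * SU U L x ^ q + M * SU U M (shift (L : ℤ) x) ^ q := by
      field_simp
    rw [h6] at h5
    exact h5

theorem lim_pow {μ : Measure X} [IsProbabilityMeasure μ] (hinv : MeasurePreserving (shift 1) μ μ)
    (U : Set UnitAddCircle) (q : ℕ) : ∃ s : ℝ, Tendsto (fun L : ℕ => ∫ x, SU U L x ^ q ∂μ) atTop (𝓝 s) := by
  have hF : Continuous fun y : ℝ => y ^ q := continuous_pow q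
  set u : ℕ → ℝ := fun L => L * ∫ x, SU U L x ^ q ∂μ with hu
  have hi2 : ∀ L M : ℕ, Integrable (fun x : X => (M : ℝ) * SU U M (shift (L : ℤ) x) ^ q) μ := by
    intro L M
    have hc : Continuous fun x : X => (M : ℝ) * SU U M (shift (L : ℤ) x) ^ q :=
      continuous_const.mul (((SU_cont U M).comp (shift_cont _)).pow q)
    refine Integrable.of_bound hc.measurable.aestronglyMeasurable M (Eventually.of_forall fun x => ?_)
    have h2 := SU_nonneg U M (shift (L : ℤ) x)
    have h3 := SU_le_one U M (shift (L : ℤ) x)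
    rw [Real.norm_eq_abs, abs_of_nonneg (by positivity)]
    exact mul_le_of_le_one_right (Nat.cast_nonneg M) (pow_le_one₀ h2 h3)
  have hsub : Subadditive u := by
    intro L M
    have h1 : ∫ x, ((L + M : ℕ) : ℝ) * SU U (L + M) x ^ q ∂μ ≤
        ∫ x, (L * SU U L x ^ q + M * SU U M (shift (L : ℤ) x) ^ q) ∂μ :=
      integral_mono ((F_int _ hF U (L + M)).const_mul _) (((F_int _ hF U L).const_mul _).add (hi2 L M))
        fun x => pow_add_le U q L M x
    rw [integral_const_mul, integral_add ((F_int _ hF U L).const_mul _) (hi2 L M), integral_const_mul,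
      integral_const_mul, int_shift hinv (fun x => SU U M x ^ q) ((SU_cont U M).pow q) L] at h1
    exact h1
  have hbdd : BddBelow (Set.range fun n => u n / n) := by
    refine ⟨0, ?_⟩
    rintro _ ⟨n, rfl⟩
    have : 0 ≤ ∫ x, SU U n x ^ q ∂μ := integral_nonneg fun x => pow_nonneg (SU_nonneg U n x) q
    simp only [hu]
    positivity
  have hlim := hsub.tendsto_lim hbdd
  refine ⟨hsub.lim, hlim.congr' ?_⟩
  filter_upwards [eventually_ge_atTop 1] with L hL
  have hL' : (L : ℝ) ≠ 0 := by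
    have : 0 < L := hL
    exact_mod_cast this.ne'
  simp only [hu]
  field_simp

theorem SXF_le (F : ℝ → ℝ) (hm : Monotone F) (h0 : F 0 = 0) (φ : UnitAddCircle → ℝ) (U : Set UnitAddCircle)
    (hφ : ∀ θ, 0 ≤ φ θ ∧ φ θ ≤ 1) (hU : ∀ θ, θ ∉ U → φ θ = 0) (L : ℕ) (x : X) : SXF F φ L x ≤ F (SU U L x) := by
  have hpos : ∀ y : ℝ, 0 ≤ y → 0 ≤ F y := fun y hy => by
    have := hm hy
    rwa [h0] at this
  refine Real.iSup_le (fun θ => ?_) (hpos _ (SU_nonneg _ L x))
  by_cases h : θ ∈ U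
  · calc φ θ * F (‖VX L x θ‖ / (L : ℝ)) ≤ 1 * F (‖VX L x θ‖ / (L : ℝ)) :=
          mul_le_mul_of_nonneg_right (hφ θ).2 (hpos _ (g_nonneg L x θ))
      _ = F (‖VX L x θ‖ / (L : ℝ)) := one_mul _
      _ ≤ _ := hm (le_SU U L x θ h)
  · rw [hU θ h, zero_mul]
    exact hpos _ (SU_nonneg U L x)

theorem SXF_cont (F : ℝ → ℝ) (φ : UnitAddCircle → ℝ) (L : ℕ) : Continuous (SXF F φ L) := by
  refine dep_cont _ L fun x y h => ?_
  unfold SXF
  simp only [VX_dep L x y h]

theorem SXF_int {μ : Measure X} [IsProbabilityMeasure μ] (F : ℝ → ℝ) (hm : Monotone F) (h0 : F 0 = 0)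
    (φ : UnitAddCircle → ℝ) (hφ : ∀ θ, 0 ≤ φ θ ∧ φ θ ≤ 1) (L : ℕ) : Integrable (SXF F φ L) μ := by
  have hpos : ∀ y : ℝ, 0 ≤ y → 0 ≤ F y := fun y hy => by
    have := hm hy
    rwa [h0] at this
  refine Integrable.of_bound (SXF_cont F φ L).measurable.aestronglyMeasurable (F 1) (Eventually.of_forall fun x => ?_)
  have h1 : 0 ≤ SXF F φ L x := Real.iSup_nonneg fun θ => mul_nonneg (hφ θ).1 (hpos _ (g_nonneg L x θ))
  rw [Real.norm_eq_abs, abs_of_nonneg h1]
  exact (SXF_le F hm h0 φ Set.univ hφ (fun θ h => absurd (Set.mem_univ θ) h) L x).trans (hm (SU_le_one _ L x))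

end OpfL

open OpfL SubL in
theorem suf : S_SUF := by
  intro μ _ hinv U F hF
  choose t ht using fun q : ℕ => lim_pow hinv U q
  have hpoly : ∀ P : Polynomial ℝ, ∃ s : ℝ, Tendsto (fun L : ℕ => ∫ x, P.eval (SU U L x) ∂μ) atTop (𝓝 s) := by
    intro P
    refine ⟨∑ i ∈ range (P.natDegree + 1), P.coeff i * t i, ?_⟩
    have h1 : ∀ L : ℕ, ∫ x, P.eval (SU U L x) ∂μ =
        ∑ i ∈ range (P.natDegree + 1), P.coeff i * ∫ x, SU U L x ^ i ∂μ := by
      intro L
      simp only [Polynomial.eval_eq_sum_range]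
      rw [integral_finsetSum _ fun i _ => (F_int _ (continuous_pow i) U L).const_mul _]
      exact sum_congr rfl fun i _ => integral_const_mul _ _
    simp only [h1]
    exact tendsto_finsetSum _ fun i _ => (ht i).const_mul _
  have hC : CauchySeq fun L : ℕ => ∫ x, F (SU U L x) ∂μ := by
    rw [Metric.cauchySeq_iff]
    intro ε hε
    obtain ⟨P, hP⟩ := exists_polynomial_near_of_continuousOn 0 1 F hF.continuousOn (ε / 3) (by positivity)
    obtain ⟨s, hs⟩ := hpoly P
    obtain ⟨N, hN⟩ := Metric.cauchySeq_iff.1 hs.cauchySeq (ε / 3) (by positivity)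
    refine ⟨N, fun m hm n hn => ?_⟩
    have hd : ∀ L : ℕ, |∫ x, F (SU U L x) ∂μ - ∫ x, P.eval (SU U L x) ∂μ| ≤ ε / 3 := by
      intro L
      rw [← integral_sub (F_int F hF U L) (F_int _ P.continuous U L), ← Real.norm_eq_abs]
      refine (norm_integral_le_of_norm_le_const (C := ε / 3) (Eventually.of_forall fun x => ?_)).trans ?_
      · rw [Real.norm_eq_abs, abs_sub_comm]
        exact (hP _ ⟨SU_nonneg U L x, SU_le_one U L x⟩).le
      · simp
    have h1 := hN m hm n hn
    rw [Real.dist_eq] at h1 ⊢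
    have h2 := abs_le.1 (hd m)
    have h3 := abs_le.1 (hd n)
    have h4 := abs_lt.1 h1
    rw [abs_lt]
    constructor <;> linarith [h2.1, h2.2, h3.1, h3.2, h4.1, h4.2]
  exact cauchySeq_tendsto_of_complete hC

open OpfL OpnL SubL in
theorem opf (hK : S_KEF) (hS : S_SUF) (hI : S_INV) : S_OPF := by
  intro f μ hf ha hμ F hFc hFm hF0
  have : IsProbabilityMeasure μ := hμ.1
  have hex := fun U => hS μ (hI f μ hμ) U F hFc
  choose s hs using hex
  refine ⟨s, hs, fun U hU => ?_⟩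
  have hsU : s (U ∪ -U) = s U := by
    refine tendsto_nhds_unique (hs (U ∪ -U)) ((hs U).congr fun L => ?_)
    simp only [SU_symm]
  have hU' : IsOpen (U ∪ -U) := hU.union hU.neg
  rw [← hsU]
  set U' := U ∪ -U with hUdef
  have hpos : ∀ y : ℝ, 0 ≤ y → 0 ≤ F y := fun y hy => by
    have := hFm hy
    rwa [hF0] at this
  have hs0 : 0 ≤ s Set.univ := ge_of_tendsto' (hs Set.univ) fun L => integral_nonneg fun x => hpos _ (SU_nonneg _ L x)
  have key : ∀ ε : ℝ, 0 < ε → ((volume U').toReal - ε) * s Set.univ ≤ s U' + ε := by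
    intro ε hε
    obtain ⟨φ, h01, hoff, hint⟩ := ury U' hU' ε hε
    obtain ⟨I, L₀, hne, hp, hmain⟩ := hK f μ hf ha hμ F φ ε hFc hFm hF0 h01 hε
    have hle1 : (∫ γ : UnitAddCircle, φ γ) * s Set.univ ≤ s U' + ε := by
      have hl : Tendsto (fun L : ℕ => (∫ γ : UnitAddCircle, φ γ) * ∫ x, F (SU Set.univ L x) ∂μ) atTop
          (𝓝 ((∫ γ : UnitAddCircle, φ γ) * s Set.univ)) := (hs Set.univ).const_mul _
      have hr : ∀ p ∈ I, Tendsto (fun L : ℕ => wt I p * ∫ x, F (SU U' (L / p) x) ∂μ) atTop (𝓝 (wt I p * s U')) := by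
        intro p hpI
        exact ((hs U').comp (FinL.tend_div p (hp p hpI).pos)).const_mul _
      have hsum := (tendsto_finsetSum I hr).add_const ε
      have hle := le_of_tendsto_of_tendsto hl hsum (by
        filter_upwards [eventually_ge_atTop L₀] with L hL
        refine (hmain L hL).trans ?_
        refine add_le_add (sum_le_sum fun p _ => mul_le_mul_of_nonneg_left ?_ (FinL.wt_nonneg I p)) le_rfl
        exact integral_mono (SXF_int F hFm hF0 φ h01 _) (F_int F hFc U' _) fun x => SXF_le F hFm hF0 φ U' h01 hoff _ x)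
      rw [← Finset.sum_mul, FinL.wt_sum I hne hp, one_mul] at hle
      exact hle
    exact (mul_le_mul_of_nonneg_right hint hs0).trans hle1
  have hlim : Tendsto (fun ε : ℝ => ((volume U').toReal - ε) * s Set.univ) (𝓝[>] 0)
      (𝓝 (((volume U').toReal - 0) * s Set.univ)) := by
    refine Tendsto.mono_left ?_ nhdsWithin_le_nhds
    exact ((continuous_const.sub continuous_id).mul continuous_const).tendsto 0
  have hlim2 : Tendsto (fun ε : ℝ => s U' + ε) (𝓝[>] 0) (𝓝 (s U' + 0)) := by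
    refine Tendsto.mono_left ?_ nhdsWithin_le_nhds
    exact (continuous_const.add continuous_id).tendsto 0
  have hfin := le_of_tendsto_of_tendsto hlim hlim2 (by
    filter_upwards [self_mem_nhdsWithin] with ε hε using key ε hε)
  rw [sub_zero, add_zero] at hfin
  exact hfin

end Pool.Agent.Helper94K9.OP
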