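import Pool.Agent.Helper94K9.OP.Stm

/-!
# Project OP: the correlations on the major arcs [MAJ]
-/

set_option autoImplicit false

namespace Pool.Agent.Helper94K9.OP

open Finset MeasureTheory Filter Topology
open Pool.Agent.H807R2.Dav (ee norm_ee ee_add)

namespace MajL

/-- the characters in terms of `ee` -/
lemma fourier_ee (m : ℤ) (t : ℝ) : (fourier m ((t : ℝ) : UnitAddCircle) : ℂ) = ee (t * m) := by
  rw [fourier_coe_apply]
  unfold ee
  congr 1
  push_cast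
  ring

/-- sums over windows -/
noncomputable def WW (g : ℕ → ℂ) (n H : ℕ) : ℂ := ∑ m ∈ Ioc n (n + H), g m

lemma WW_range (g : ℕ → ℂ) (n H : ℕ) : WW g n H = ∑ h ∈ range H, g (n + h + 1) := by
  unfold WW
  have h1 : Ioc n (n + H) = (range H).image (fun h => n + h + 1) := by
    ext m
    simp only [mem_Ioc, mem_image, mem_range]
    constructor
    · intro h; exact ⟨m - n - 1, by omega, by omega⟩
    · rintro ⟨j, hj, rfl⟩; omega
  rw [h1, sum_image fun a _ b _ hab => by omega]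

lemma shift_le {g : ℕ → ℂ} (hg : ∀ n, ‖g n‖ ≤ 1) (n H j : ℕ) : ‖WW g n H - WW g (n + j) H‖ ≤ 2 * j := by
  induction j with
  | zero => simp
  | succ j ih =>
    have h1 : WW g (n + j) H - WW g (n + (j + 1)) H = g (n + j + 1) - g (n + j + H + 1) := by
      set F : ℕ → ℂ := fun m => g (n + j + m + 1) with hF
      have e1 : WW g (n + j) H = ∑ h ∈ range H, F h := WW_range g (n + j) H
      have e2 : WW g (n + (j + 1)) H = ∑ h ∈ range H, F (h + 1) := by
        rw [WW_range]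
        refine sum_congr rfl fun h _ => ?_
        simp only [hF]
        rw [show n + (j + 1) + h + 1 = n + j + (h + 1) + 1 by ring]
      have e3 := sum_range_succ F H
      have e4 := sum_range_succ' F H
      rw [e1, e2]
      have e5 : ∑ h ∈ range H, F h - ∑ h ∈ range H, F (h + 1) = F 0 - F H := by
        linear_combination -e3 + e4
      rw [e5]
    have h2 : ‖WW g (n + j) H - WW g (n + (j + 1)) H‖ ≤ 2 := by
      rw [h1]
      refine (norm_sub_le _ _).trans ?_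
      linarith [hg (n + j + 1), hg (n + j + H + 1)]
    calc ‖WW g n H - WW g (n + (j + 1)) H‖ =
        ‖(WW g n H - WW g (n + j) H) + (WW g (n + j) H - WW g (n + (j + 1)) H)‖ := by congr 1; ring
      _ ≤ _ := norm_add_le _ _
      _ ≤ 2 * ((j + 1 : ℕ) : ℝ) := by push_cast; linarith

/-- sub-windows -/
lemma sub_window {g : ℕ → ℂ} (hg : ∀ n, ‖g n‖ ≤ 1) (n H H' : ℕ) :
    (H' : ℝ) * ‖WW g n H‖ ≤ ∑ i ∈ range H, ‖WW g (n + i) H'‖ + 2 * (H' : ℝ) ^ 2 := by
  have h1 : ∑ j ∈ range H', WW g (n + j) H = ∑ i ∈ range H, WW g (n + i) H' := by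
    simp only [WW_range]
    rw [sum_comm]
    refine sum_congr rfl fun i _ => sum_congr rfl fun j _ => ?_
    rw [show n + j + i + 1 = n + i + j + 1 by ring]
  have h2 : ∑ j ∈ range H', WW g n H = ∑ i ∈ range H, WW g (n + i) H' +
      ∑ j ∈ range H', (WW g n H - WW g (n + j) H) := by
    rw [sum_sub_distrib, h1]; ring
  have h3 : ‖∑ j ∈ range H', WW g n H‖ = H' * ‖WW g n H‖ := by
    rw [sum_const, card_range, nsmul_eq_mul, norm_mul, Complex.norm_natCast]
  rw [← h3, h2]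
  refine (norm_add_le _ _).trans (add_le_add (norm_sum_le _ _) ((norm_sum_le _ _).trans ?_))
  calc ∑ j ∈ range H', ‖WW g n H - WW g (n + j) H‖ ≤ ∑ j ∈ range H', 2 * (H' : ℝ) := by
        refine sum_le_sum fun j hj => (shift_le hg n H j).trans ?_
        have : (j : ℝ) ≤ H' := by exact_mod_cast (mem_range.1 hj).le
        linarith
    _ = 2 * (H' : ℝ) ^ 2 := by rw [sum_const, card_range, nsmul_eq_mul]; ring

lemma norm_term {f : ℕ → ℝ} (hf : ∀ n, |f n| ≤ 1) (m : ℕ) (t : ℝ) : ‖((f m : ℝ) : ℂ) * ee t‖ ≤ 1 := by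
  rw [norm_mul, norm_ee, mul_one, Complex.norm_real]
  exact hf m

lemma V_coe (f : ℕ → ℝ) (n L : ℕ) (t : ℝ) :
    V f n L ((t : ℝ) : UnitAddCircle) = ∑ m ∈ Ioc n (n + L), ((f m : ℝ) : ℂ) * ee (t * m) := by
  unfold V
  refine sum_congr rfl fun m _ => ?_
  rw [fourier_ee]
  push_cast
  rfl

lemma ee_sub_one_le (x : ℝ) : ‖ee x - 1‖ ≤ 2 * Real.pi * |x| := by
  have h := Real.norm_exp_I_mul_ofReal_sub_one_le (x := 2 * Real.pi * x)
  have e : ee x = Complex.exp (Complex.I * ((2 * Real.pi * x : ℝ) : ℂ)) := by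
    unfold ee
    congr 1
    push_cast
    ring
  rw [e]
  refine h.trans ?_
  rw [Real.norm_eq_abs, abs_mul, abs_of_pos (by positivity : (0 : ℝ) < 2 * Real.pi)]

/-- a small change of the frequency -/
lemma V_near {f : ℕ → ℝ} (hf : ∀ n, |f n| ≤ 1) (n h : ℕ) (t β : ℝ) :
    ‖V f n h ((t + β : ℝ) : UnitAddCircle)‖ ≤ ‖V f n h ((t : ℝ) : UnitAddCircle)‖ + 2 * Real.pi * (h : ℝ) ^ 2 * |β| := by
  rw [V_coe, V_coe]
  have e : ∑ m ∈ Ioc n (n + h), ((f m : ℝ) : ℂ) * ee ((t + β) * m) =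
      ee (n * β) * (∑ m ∈ Ioc n (n + h), ((f m : ℝ) : ℂ) * ee (t * m) +
        ∑ m ∈ Ioc n (n + h), ((f m : ℝ) : ℂ) * ee (t * m) * (ee (((m : ℝ) - n) * β) - 1)) := by
    rw [← sum_add_distrib, mul_sum]
    refine sum_congr rfl fun m _ => ?_
    have e1 : (t + β) * (m : ℝ) = n * β + (t * m + ((m : ℝ) - n) * β) := by ring
    rw [e1, ee_add, ee_add]
    ring
  rw [e, norm_mul, norm_ee, one_mul]
  refine (norm_add_le _ _).trans ?_
  refine add_le_add le_rfl ((norm_sum_le _ _).trans ?_)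
  calc ∑ m ∈ Ioc n (n + h), ‖((f m : ℝ) : ℂ) * ee (t * m) * (ee (((m : ℝ) - n) * β) - 1)‖
      ≤ ∑ m ∈ Ioc n (n + h), 2 * Real.pi * (h * |β|) := by
        refine sum_le_sum fun m hm => ?_
        rw [mem_Ioc] at hm
        rw [norm_mul]
        have h1 := norm_term hf m (t * m)
        have h2 := ee_sub_one_le (((m : ℝ) - n) * β)
        have h3 : |((m : ℝ) - n) * β| ≤ h * |β| := by
          rw [abs_mul]
          have h4 : (n : ℝ) ≤ m := by exact_mod_cast hm.1.le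
          have h5 : (m : ℝ) ≤ n + h := by exact_mod_cast hm.2
          rw [abs_of_nonneg (by linarith)]
          apply mul_le_mul_of_nonneg_right _ (abs_nonneg _)
          linarith
        calc ‖((f m : ℝ) : ℂ) * ee (t * m)‖ * ‖ee (((m : ℝ) - n) * β) - 1‖
            ≤ 1 * (2 * Real.pi * |((m : ℝ) - n) * β|) := mul_le_mul h1 h2 (norm_nonneg _) zero_le_one
          _ ≤ 2 * Real.pi * (h * |β|) := by
            rw [one_mul]
            gcongr
    _ = 2 * Real.pi * (h : ℝ) ^ 2 * |β| := by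
        rw [sum_const, Nat.card_Ioc, nsmul_eq_mul]
        rw [Nat.add_sub_cancel_left]
        ring

/-- the points of the major arcs -/
lemma mj_pt {Q : ℕ} {τ : ℝ} {θ : UnitAddCircle} (hθ : θ ∈ Mj Q τ) :
    ∃ q a : ℕ, ∃ β : ℝ, 1 ≤ q ∧ q ≤ Q ∧ a < q ∧ |β| ≤ τ ∧ θ = (((a : ℝ) / q + β : ℝ) : UnitAddCircle) := by
  obtain ⟨q, hq1, hqQ, hn⟩ := hθ
  obtain ⟨t, rfl⟩ := QuotientAddGroup.mk_surjective θ
  have hq0 : (0 : ℝ) < q := by exact_mod_cast hq1
  have e1 : q • (QuotientAddGroup.mk t : UnitAddCircle) = (((q : ℝ) * t : ℝ) : UnitAddCircle) := by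
    rw [← nsmul_eq_mul, AddCircle.coe_nsmul]
  rw [e1, UnitAddCircle.norm_eq] at hn
  set N : ℤ := round ((q : ℝ) * t) with hN
  have hqz : (q : ℤ) ≠ 0 := by exact_mod_cast (by omega : q ≠ 0)
  have hm0 : 0 ≤ N % q := Int.emod_nonneg _ hqz
  refine ⟨q, (N % q).toNat, ((q : ℝ) * t - N) / q, hq1, hqQ, ?_, ?_, ?_⟩
  · have : N % q < q := Int.emod_lt_of_pos _ (by exact_mod_cast hq1)
    omega
  · rw [abs_div, abs_of_pos hq0]
    rw [div_le_iff₀ hq0]
    have h1 : (1 : ℝ) ≤ q := by exact_mod_cast hq1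
    have h2 : 0 ≤ τ := (abs_nonneg _).trans hn
    nlinarith
  · have e2 : (((N % q).toNat : ℕ) : ℝ) = (N : ℝ) - q * ((N / q : ℤ) : ℝ) := by
      have e3 : (((N % q).toNat : ℕ) : ℤ) = N - q * (N / q) := by
        rw [Int.toNat_of_nonneg hm0, Int.emod_def]
      have e4 : ((((N % q).toNat : ℕ) : ℤ) : ℝ) = ((N - q * (N / q) : ℤ) : ℝ) := by rw [e3]
      push_cast at e4
      exact_mod_cast e4
    have e5 : (((N % q).toNat : ℕ) : ℝ) / q + ((q : ℝ) * t - N) / q = t - ((N / q : ℤ) : ℝ) := by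
      rw [e2]
      field_simp
      ring
    rw [e5]
    have e6 : (((t - ((N / q : ℤ) : ℝ) : ℝ)) : UnitAddCircle) = ((t : ℝ) : UnitAddCircle) - ((((N / q : ℤ) : ℝ) : ℝ) : UnitAddCircle) :=
      AddCircle.coe_sub 1 _ _
    rw [e6]
    have e7 : ((((N / q : ℤ) : ℝ) : ℝ) : UnitAddCircle) = 0 := by
      rw [AddCircle.coe_eq_zero_iff]
      exact ⟨N / q, by simp⟩
    rw [e7, sub_zero]

end MajL

open MajL

theorem maj : S_MAJ := by
  intro Q h η hh hη
  have hh0 : (0 : ℝ) < h := by exact_mod_cast hh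
  refine ⟨η / (16 * h), by positivity, ⌈4 * h / η⌉₊ + 1, fun L hL f hf n θ hθ => ?_⟩
  have hL1 : 1 ≤ L := by omega
  have hL0 : (0 : ℝ) < L := by exact_mod_cast hL1
  have hLh : 2 * h / (L : ℝ) ≤ η / 2 := by
    have h1 : 4 * h / η ≤ L := (Nat.le_ceil _).trans (by exact_mod_cast (by omega : ⌈4 * h / η⌉₊ ≤ L))
    rw [div_le_iff₀ hη] at h1
    rw [div_le_iff₀ hL0]
    linarith
  obtain ⟨q, a, β, hq1, hqQ, haq, hβ, rfl⟩ := mj_pt hθ
  set t : ℝ := (a : ℝ) / q with ht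
  set g : ℕ → ℂ := fun m => ((f m : ℝ) : ℂ) * ee ((t + β) * m) with hg
  have hWV : ∀ n H, WW g n H = V f n H (((t + β : ℝ)) : UnitAddCircle) := fun n H => (V_coe f n H (t + β)).symm
  have h1 := sub_window (g := g) (fun m => norm_term hf m _) n L h
  simp only [hWV] at h1
  have hpi : Real.pi ≤ 4 := Real.pi_le_four
  have h2 : ∑ i ∈ range L, ‖V f (n + i) h (((t + β : ℝ)) : UnitAddCircle)‖ ≤
      ∑ i ∈ range L, (‖V f (n + i) h (pt a q)‖ + h * (η / 2)) := by
    refine sum_le_sum fun i _ => ?_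
    refine (V_near hf (n + i) h t β).trans (add_le_add le_rfl ?_)
    calc 2 * Real.pi * (h : ℝ) ^ 2 * |β| ≤ 2 * 4 * (h : ℝ) ^ 2 * (η / (16 * h)) := by gcongr
      _ = h * (η / 2) := by field_simp; ring
  have h3 : (1 / (L : ℝ)) * ∑ j ∈ range L, cr f (n + j) h (pt a q) ≤ RR f Q h n L := by
    unfold RR
    have hnn : ∀ q a : ℕ, 0 ≤ (1 / (L : ℝ)) * ∑ j ∈ range L, cr f (n + j) h (pt a q) := fun q a =>
      mul_nonneg (by positivity) (sum_nonneg fun j _ => by unfold cr; positivity)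
    have h4 : (1 / (L : ℝ)) * ∑ j ∈ range L, cr f (n + j) h (pt a q) ≤
        ∑ a ∈ range q, (1 / (L : ℝ)) * ∑ j ∈ range L, cr f (n + j) h (pt a q) :=
      single_le_sum (f := fun a => (1 / (L : ℝ)) * ∑ j ∈ range L, cr f (n + j) h (pt a q))
        (fun a _ => hnn q a) (mem_range.2 haq)
    refine h4.trans ?_
    exact single_le_sum (f := fun q => ∑ a ∈ range q, (1 / (L : ℝ)) * ∑ j ∈ range L, cr f (n + j) h (pt a q))
      (fun q _ => sum_nonneg fun a _ => hnn q a) (mem_Icc.2 ⟨hq1, hqQ⟩)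
  have h5 : cr f n L (((t + β : ℝ)) : UnitAddCircle) ≤
      (1 / (L : ℝ)) * ∑ j ∈ range L, cr f (n + j) h (pt a q) + η / 2 + 2 * h / L := by
    have h6 : (h : ℝ) * ‖V f n L (((t + β : ℝ)) : UnitAddCircle)‖ ≤
        ∑ i ∈ range L, ‖V f (n + i) h (pt a q)‖ + L * (h * (η / 2)) + 2 * (h : ℝ) ^ 2 := by
      rw [sum_add_distrib, sum_const, card_range, nsmul_eq_mul] at h2
      linarith
    have h7 : ∑ j ∈ range L, cr f (n + j) h (pt a q) = (∑ i ∈ range L, ‖V f (n + i) h (pt a q)‖) / h := by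
      rw [sum_div]
      rfl
    rw [h7]
    unfold cr
    have h8 : (1 / (L : ℝ)) * ((∑ i ∈ range L, ‖V f (n + i) h (pt a q)‖) / h) + η / 2 + 2 * h / L =
        ((∑ i ∈ range L, ‖V f (n + i) h (pt a q)‖) + L * (h * (η / 2)) + 2 * (h : ℝ) ^ 2) / (h * L) := by
      field_simp
    rw [h8, le_div_iff₀ (by positivity)]
    calc ‖V f n L (((t + β : ℝ)) : UnitAddCircle)‖ / L * (h * L) =
        (h : ℝ) * ‖V f n L (((t + β : ℝ)) : UnitAddCircle)‖ := by field_simp
      _ ≤ _ := h6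
  linarith

end Pool.Agent.Helper94K9.OP
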