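import Pool.Agent.Helper94K9.OP.St2
import Pool.Agent.Helper94K9.OP.Par
import Pool.Agent.Helper94K9.OP.Maj

/-! Leaf [EQV] (helper46): the constant for `k = 2` vanishes iff the supremum does. -/

set_option autoImplicit false
set_option maxHeartbeats 1000000

namespace Pool.Agent.Helper94K9.OP

open Finset MeasureTheory Filter Topology

namespace EqvL

open ParL MajL

theorem val_le (z : Val) : |(z : ℝ)| ≤ 1 := by
  have h := z.2
  simp only [Set.mem_insert_iff, Set.mem_singleton_iff] at h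
  rcases h with h | h | h <;> rw [h] <;> simp

/-- the coordinates -/
def fx (x : X) (n : ℕ) : ℝ := x (n : ℤ)

theorem fx_le (x : X) (n : ℕ) : |fx x n| ≤ 1 := val_le _

theorem VX_eq (L : ℕ) (x : X) (θ : UnitAddCircle) : VX L x θ = V (fx x) 0 L θ := by
  unfold VX V fx
  rw [zero_add]
  refine sum_congr ?_ (fun _ _ => rfl)
  ext i
  simp only [mem_Icc, mem_Ioc]
  omega

theorem cx_eq (L : ℕ) (x : X) (θ : UnitAddCircle) : ‖VX L x θ‖ / L = cr (fx x) 0 L θ := by
  unfold cr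
  rw [VX_eq]

theorem cx_cont (L : ℕ) (x : X) : Continuous (fun θ => ‖VX L x θ‖ / (L : ℝ)) := by
  simp only [cx_eq]
  exact (par (fx x) (fx_le x) 0 L).1

theorem cx_nonneg (L : ℕ) (x : X) (θ : UnitAddCircle) : 0 ≤ ‖VX L x θ‖ / (L : ℝ) := by positivity

theorem cx_le (L : ℕ) (x : X) (θ : UnitAddCircle) : ‖VX L x θ‖ / (L : ℝ) ≤ 1 := by
  rw [cx_eq]
  exact ((par (fx x) (fx_le x) 0 L).2.1 θ).2

theorem cx_pars (L : ℕ) (x : X) : L * ∫ θ : UnitAddCircle, (‖VX L x θ‖ / (L : ℝ)) ^ 2 ≤ 1 := by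
  simp only [cx_eq]
  exact (par (fx x) (fx_le x) 0 L).2.2

theorem bdd (L : ℕ) (x : X) : BddAbove (Set.range fun θ : (Set.univ : Set UnitAddCircle) => ‖VX L x θ‖ / (L : ℝ)) := by
  refine ⟨1, ?_⟩
  rintro _ ⟨θ, rfl⟩
  exact cx_le L x θ

theorem le_SU (L : ℕ) (x : X) (θ : UnitAddCircle) : ‖VX L x θ‖ / (L : ℝ) ≤ SU Set.univ L x :=
  le_ciSup (bdd L x) (⟨θ, Set.mem_univ θ⟩ : (Set.univ : Set UnitAddCircle))

theorem SU_le (L : ℕ) (x : X) (b : ℝ) (h : ∀ θ : UnitAddCircle, ‖VX L x θ‖ / (L : ℝ) ≤ b) : SU Set.univ L x ≤ b := by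
  have : Nonempty (Set.univ : Set UnitAddCircle) := ⟨⟨0, Set.mem_univ 0⟩⟩
  exact ciSup_le fun θ => h θ

theorem SU_max (L : ℕ) (x : X) : ∃ θ₀ : UnitAddCircle, ‖VX L x θ₀‖ / (L : ℝ) = SU Set.univ L x := by
  obtain ⟨θ₀, -, h⟩ := IsCompact.exists_isMaxOn (isCompact_univ (X := UnitAddCircle)) ⟨0, Set.mem_univ 0⟩
    (cx_cont L x).continuousOn
  refine ⟨θ₀, le_antisymm (le_SU L x θ₀) (SU_le L x _ fun θ => ?_)⟩
  exact h (Set.mem_univ θ)

theorem SU_nonneg (L : ℕ) (x : X) : 0 ≤ SU Set.univ L x := (cx_nonneg L x 0).trans (le_SU L x 0)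

theorem SU_le_one (L : ℕ) (x : X) : SU Set.univ L x ≤ 1 := SU_le L x 1 (cx_le L x)

/-- the distance of the first coordinates -/
noncomputable def Ds (L : ℕ) (x y : X) : ℝ := (∑ h ∈ Icc 1 L, |(x (h : ℤ) : ℝ) - (y (h : ℤ) : ℝ)|) / L

theorem Ds_comm (L : ℕ) (x y : X) : Ds L x y = Ds L y x := by
  unfold Ds
  congr 1
  refine sum_congr rfl fun h _ => abs_sub_comm _ _

theorem cx_diff (L : ℕ) (x y : X) (θ : UnitAddCircle) : ‖VX L x θ‖ / (L : ℝ) ≤ ‖VX L y θ‖ / (L : ℝ) + Ds L x y := by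
  unfold Ds
  rw [← add_div]
  refine div_le_div_of_nonneg_right ?_ (Nat.cast_nonneg L)
  have h1 : ‖VX L x θ‖ ≤ ‖VX L y θ‖ + ‖VX L x θ - VX L y θ‖ := by
    calc ‖VX L x θ‖ = ‖VX L y θ + (VX L x θ - VX L y θ)‖ := by rw [add_sub_cancel]
      _ ≤ _ := norm_add_le _ _
  refine h1.trans ?_
  have h2 : ‖VX L x θ - VX L y θ‖ ≤ ∑ h ∈ Icc 1 L, |(x (h : ℤ) : ℝ) - (y (h : ℤ) : ℝ)| := by
    unfold VX
    rw [← sum_sub_distrib]
    refine (norm_sum_le _ _).trans (sum_le_sum fun h _ => ?_)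
    rw [← sub_mul, norm_mul, norm_fourier, mul_one, ← Complex.ofReal_sub, Complex.norm_real, Real.norm_eq_abs]
  linarith

theorem SU_diff (L : ℕ) (x y : X) : |SU Set.univ L x - SU Set.univ L y| ≤ Ds L x y := by
  have h : ∀ x y : X, SU Set.univ L x ≤ SU Set.univ L y + Ds L x y := fun x y =>
    SU_le L x _ fun θ => (cx_diff L x y θ).trans (add_le_add_left (le_SU L y θ) _)
  rw [abs_le]
  have h1 := h x y
  have h2 := h y x
  rw [Ds_comm L y x] at h2
  constructor <;> linarith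

theorem Ds_cont (L : ℕ) (y : X) : Continuous fun x : X => Ds L x y := by
  unfold Ds
  refine Continuous.div_const (continuous_finsetSum _ fun h _ => ?_) _
  have h1 : Continuous fun x : X => (x (h : ℤ) : ℝ) := by fun_prop
  exact (h1.sub continuous_const).abs

theorem SU_cont (L : ℕ) : Continuous (SU Set.univ L) := by
  rw [continuous_iff_continuousAt]
  intro y
  rw [ContinuousAt, tendsto_iff_dist_tendsto_zero]
  refine squeeze_zero (g := fun x => Ds L x y) (fun _ => dist_nonneg) (fun x => ?_) ?_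
  · rw [Real.dist_eq]
    exact SU_diff L x y
  · have h := (Ds_cont L y).tendsto y
    have e : Ds L y y = 0 := by
      unfold Ds
      simp
    rwa [e] at h

theorem VX_contX (L : ℕ) (θ : UnitAddCircle) : Continuous fun x : X => VX L x θ := by
  unfold VX
  refine continuous_finsetSum _ fun h _ => Continuous.mul ?_ continuous_const
  fun_prop

theorem WX_cont (k L : ℕ) : Continuous (WX k (fun _ => 1) L) := by
  unfold WX
  refine continuous_const.mul ?_
  refine continuous_of_dominated (bound := fun _ => (1 : ℝ)) ?_ ?_ ?_ ?_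
  · intro x
    exact (continuous_const.mul ((cx_cont L x).pow _)).aestronglyMeasurable
  · intro x
    refine Eventually.of_forall fun θ => ?_
    have h0 := cx_nonneg L x θ
    have h1 := cx_le L x θ
    rw [one_mul, Real.norm_eq_abs, abs_of_nonneg (pow_nonneg h0 _)]
    exact pow_le_one₀ h0 h1
  · exact cont_intR _ continuous_const
  · refine Eventually.of_forall fun θ => ?_
    exact continuous_const.mul (((VX_contX L θ).norm.div_const _).pow _)

theorem WX_nonneg (k L : ℕ) (x : X) : 0 ≤ WX k (fun _ => 1) L x := by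
  unfold WX
  refine mul_nonneg (Nat.cast_nonneg L) (integral_nonneg fun θ => ?_)
  have := cx_nonneg L x θ
  simp only [Pi.zero_apply]
  positivity

/-- upper bound -/
theorem WX_le (L : ℕ) (x : X) : WX 2 (fun _ => 1) L x ≤ SU Set.univ L x := by
  have hS0 := SU_nonneg L x
  have hS1 := SU_le_one L x
  have h1 : WX 2 (fun _ => 1) L x ≤ L * ∫ θ : UnitAddCircle, SU Set.univ L x * (‖VX L x θ‖ / (L : ℝ)) ^ 2 := by
    unfold WX
    refine mul_le_mul_of_nonneg_left (integral_mono ?_ ?_ fun θ => ?_) (Nat.cast_nonneg L)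
    · exact cont_intR _ (continuous_const.mul ((cx_cont L x).pow _))
    · exact cont_intR _ (continuous_const.mul ((cx_cont L x).pow _))
    · have h0 := cx_nonneg L x θ
      have h2 := le_SU L x θ
      have h3 : (‖VX L x θ‖ / (L : ℝ)) ^ 2 ≤ SU Set.univ L x := by
        calc (‖VX L x θ‖ / (L : ℝ)) ^ 2 = (‖VX L x θ‖ / (L : ℝ)) * (‖VX L x θ‖ / (L : ℝ)) := sq _
          _ ≤ SU Set.univ L x * 1 := mul_le_mul h2 (cx_le L x θ) h0 hS0
          _ = _ := mul_one _
      calc 1 * (‖VX L x θ‖ / (L : ℝ)) ^ (2 * 2) = (‖VX L x θ‖ / (L : ℝ)) ^ 2 * (‖VX L x θ‖ / (L : ℝ)) ^ 2 := by ring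
        _ ≤ _ := mul_le_mul_of_nonneg_right h3 (by positivity)
  refine h1.trans ?_
  rw [integral_const_mul, mul_left_comm]
  calc SU Set.univ L x * (L * ∫ θ : UnitAddCircle, (‖VX L x θ‖ / (L : ℝ)) ^ 2) ≤ SU Set.univ L x * 1 :=
        mul_le_mul_of_nonneg_left (cx_pars L x) hS0
    _ = _ := mul_one _

/-- a real number near zero -/
theorem rep (z : UnitAddCircle) : ∃ b : ℝ, ((b : ℝ) : UnitAddCircle) = z ∧ |b| = ‖z‖ := by
  obtain ⟨t, rfl⟩ := QuotientAddGroup.mk_surjective z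
  refine ⟨t - round t, ?_, ?_⟩
  · have e6 : (((t - ((round t : ℤ) : ℝ) : ℝ)) : UnitAddCircle) =
        ((t : ℝ) : UnitAddCircle) - ((((round t : ℤ) : ℝ) : ℝ) : UnitAddCircle) := AddCircle.coe_sub 1 _ _
    have e7 : ((((round t : ℤ) : ℝ) : ℝ) : UnitAddCircle) = 0 := by
      rw [AddCircle.coe_eq_zero_iff]
      exact ⟨round t, by simp⟩
    rw [e6, e7, sub_zero]
  · exact UnitAddCircle.norm_eq.symm

theorem cx_near (L : ℕ) (hL : 1 ≤ L) (x : X) (θ₀ θ : UnitAddCircle) :
    ‖VX L x θ₀‖ / (L : ℝ) ≤ ‖VX L x θ‖ / (L : ℝ) + 2 * Real.pi * L * ‖θ₀ - θ‖ := by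
  have hL0 : (0 : ℝ) < L := by exact_mod_cast hL
  obtain ⟨b, hb, hbn⟩ := rep (θ₀ - θ)
  obtain ⟨t, rfl⟩ := QuotientAddGroup.mk_surjective θ
  have e : ((t + b : ℝ) : UnitAddCircle) = θ₀ := by
    rw [AddCircle.coe_add, hb]
    exact add_sub_cancel _ _
  have h := V_near (fx_le x) 0 L t b
  rw [e] at h
  rw [VX_eq, VX_eq, ← hbn]
  have h2 : ‖V (fx x) 0 L θ₀‖ / (L : ℝ) ≤
      (‖V (fx x) 0 L ((t : ℝ) : UnitAddCircle)‖ + 2 * Real.pi * (L : ℝ) ^ 2 * |b|) / L :=
    div_le_div_of_nonneg_right h hL0.le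
  refine h2.trans (le_of_eq ?_)
  have e3 : ((QuotientAddGroup.mk t : UnitAddCircle)) = ((t : ℝ) : UnitAddCircle) := rfl
  rw [e3, add_div]
  congr 1
  field_simp

/-- lower bound -/
theorem WX_ge (L : ℕ) (hL : 1 ≤ L) (x : X) : SU Set.univ L x ^ 5 / 160 ≤ WX 2 (fun _ => 1) L x := by
  have hL0 : (0 : ℝ) < L := by exact_mod_cast hL
  have hL1 : (1 : ℝ) ≤ L := by exact_mod_cast hL
  obtain ⟨θ₀, hθ₀⟩ := SU_max L x
  set δ := SU Set.univ L x with hδ
  have hδ0 : 0 ≤ δ := SU_nonneg L x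
  have hδ1 : δ ≤ 1 := SU_le_one L x
  set r := δ / (20 * L) with hr
  have hr0 : 0 ≤ r := by positivity
  have hr1 : 2 * r ≤ 1 := by
    rw [hr, ← mul_div_assoc, div_le_one (by positivity)]
    linarith
  set B : Set UnitAddCircle := Metric.closedBall θ₀ r with hB
  have hBm : MeasurableSet B := Metric.isClosed_closedBall.measurableSet
  have hvol : volume.real B = 2 * r := by
    rw [measureReal_def, hB, AddCircle.volume_closedBall, min_eq_right hr1, ENNReal.toReal_ofReal (by positivity)]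
  have hge : ∀ θ ∈ B, (δ / 2) ^ 4 ≤ 1 * (‖VX L x θ‖ / (L : ℝ)) ^ (2 * 2) := by
    intro θ hθ
    rw [hB, Metric.mem_closedBall, dist_comm, dist_eq_norm] at hθ
    have h1 := cx_near L hL x θ₀ θ
    rw [hθ₀] at h1
    have hpi := Real.pi_lt_four
    have hpi0 := Real.pi_pos
    have h2 : 2 * Real.pi * L * ‖θ₀ - θ‖ ≤ 2 * 4 * L * r := by
      have : 0 ≤ ‖θ₀ - θ‖ := norm_nonneg _
      gcongr
    have h3 : 2 * 4 * L * r = 2 / 5 * δ := by
      rw [hr]
      field_simp
      ring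
    rw [one_mul]
    have h4 : δ / 2 ≤ ‖VX L x θ‖ / (L : ℝ) := by linarith
    exact pow_le_pow_left₀ (by positivity) h4 4
  have hint : Integrable (fun θ : UnitAddCircle => 1 * (‖VX L x θ‖ / (L : ℝ)) ^ (2 * 2)) :=
    cont_intR _ (continuous_const.mul ((cx_cont L x).pow _))
  have h5 : (δ / 2) ^ 4 * (2 * r) ≤ ∫ θ : UnitAddCircle, 1 * (‖VX L x θ‖ / (L : ℝ)) ^ (2 * 2) := by
    calc (δ / 2) ^ 4 * (2 * r) = ∫ _θ in B, (δ / 2) ^ 4 := by
          rw [setIntegral_const, hvol, smul_eq_mul, mul_comm]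
      _ ≤ ∫ θ in B, 1 * (‖VX L x θ‖ / (L : ℝ)) ^ (2 * 2) := by
          refine setIntegral_mono_on ?_ hint.integrableOn hBm hge
          exact (integrable_const _)
      _ ≤ _ := setIntegral_le_integral hint (Eventually.of_forall fun θ => by
          have := cx_nonneg L x θ
          simp only [Pi.zero_apply]
          positivity)
  have h6 : WX 2 (fun _ => 1) L x = L * ∫ θ : UnitAddCircle, 1 * (‖VX L x θ‖ / (L : ℝ)) ^ (2 * 2) := rfl
  rw [h6]
  calc δ ^ 5 / 160 = L * ((δ / 2) ^ 4 * (2 * r)) := by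
        rw [hr]
        field_simp
        ring
    _ ≤ _ := mul_le_mul_of_nonneg_left h5 hL0.le

end EqvL

open EqvL

/-- **EQV** -/
theorem eqv : S_EQV := by
  intro μ _ c s hc hs
  have iS : ∀ L, Integrable (SU Set.univ L) μ := fun L =>
    (SU_cont L).integrable_of_hasCompactSupport (HasCompactSupport.of_compactSpace _)
  have iW : ∀ L, Integrable (WX 2 (fun _ => 1) L) μ := fun L =>
    (WX_cont 2 L).integrable_of_hasCompactSupport (HasCompactSupport.of_compactSpace _)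
  have hc0 : 0 ≤ c := ge_of_tendsto hc (Eventually.of_forall fun L => integral_nonneg fun x => WX_nonneg 2 L x)
  have hs0 : 0 ≤ s := ge_of_tendsto hs (Eventually.of_forall fun L => integral_nonneg fun x => SU_nonneg L x)
  have hcs : c ≤ s := le_of_tendsto_of_tendsto hc hs (Eventually.of_forall fun L =>
    integral_mono (iW L) (iS L) fun x => WX_le L x)
  constructor
  · intro h0
    refine le_antisymm (le_of_forall_pos_le_add fun η hη => ?_) hs0
    have h1 : ∀ᶠ L : ℕ in atTop, ∫ x, SU Set.univ L x ∂μ ≤ η + 160 / η ^ 4 * wm μ 2 (fun _ => 1) L := by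
      filter_upwards [eventually_ge_atTop 1] with L hL
      have h2 : ∀ x, SU Set.univ L x ≤ η + 160 / η ^ 4 * WX 2 (fun _ => 1) L x := by
        intro x
        have h3 := WX_ge L hL x
        have h4 := SU_nonneg L x
        have h5 := WX_nonneg 2 L x
        rcases le_or_gt (SU Set.univ L x) η with h6 | h6
        · have : 0 ≤ 160 / η ^ 4 * WX 2 (fun _ => 1) L x := by positivity
          linarith
        · have h7 : SU Set.univ L x ≤ SU Set.univ L x ^ 5 / η ^ 4 := by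
            rw [le_div_iff₀ (by positivity)]
            calc SU Set.univ L x * η ^ 4 ≤ SU Set.univ L x * SU Set.univ L x ^ 4 :=
                  mul_le_mul_of_nonneg_left (pow_le_pow_left₀ hη.le h6.le 4) h4
              _ = SU Set.univ L x ^ 5 := by ring
          have h8 : SU Set.univ L x ^ 5 / η ^ 4 ≤ 160 / η ^ 4 * WX 2 (fun _ => 1) L x := by
            rw [div_mul_eq_mul_div]
            refine div_le_div_of_nonneg_right ?_ (by positivity)
            linarith
          linarith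
      calc ∫ x, SU Set.univ L x ∂μ ≤ ∫ x, (η + 160 / η ^ 4 * WX 2 (fun _ => 1) L x) ∂μ :=
            integral_mono (iS L) ((integrable_const _).add ((iW L).const_mul _)) h2
        _ = η + 160 / η ^ 4 * wm μ 2 (fun _ => 1) L := by
            rw [integral_add (integrable_const _) ((iW L).const_mul _), integral_const_mul]
            simp [wm]
    have h2 : Tendsto (fun L : ℕ => η + 160 / η ^ 4 * wm μ 2 (fun _ => 1) L) atTop (𝓝 (η + 160 / η ^ 4 * c)) :=
      (hc.const_mul _).const_add _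
    have h3 := le_of_tendsto_of_tendsto hs h2 h1
    rw [h0, mul_zero, add_zero] at h3
    linarith
  · intro h0
    linarith

end Pool.Agent.Helper94K9.OP
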