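import Pool.Agent.Helper94K9.OP.St4

/-!
# Project OP (MP_4a7640_nt), leaf UPP: the upper bound for the mean of the square of the supremum (helper71)
-/

set_option autoImplicit false

namespace Pool.Agent.Helper94K9.OP

open Finset MeasureTheory Filter Topology

namespace UppL

/-- weighted exponential sums -/
noncomputable def TX (w : ℕ → ℝ) (L : ℕ) (x : X) (θ : UnitAddCircle) : ℂ :=
  ∑ h ∈ Icc 1 L, ((w h * (x (h : ℤ) : ℝ) : ℝ) : ℂ) * (fourier (h : ℤ) θ : ℂ)

theorem norm_TX (w : ℕ → ℝ) (L : ℕ) (x : X) (θ : UnitAddCircle) :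
    ‖TX w L x θ‖ ^ 2 = ∑ g ∈ Icc 1 L, ∑ h ∈ Icc 1 L,
      (w g * w h) * ((x (g : ℤ) : ℝ) * (x (h : ℤ) : ℝ)) *
        (fourier ((g : ℤ) - (h : ℤ)) θ : ℂ).re := by
  have h1 : ((‖TX w L x θ‖ ^ 2 : ℝ) : ℂ) = TX w L x θ * (starRingEnd ℂ) (TX w L x θ) := by
    rw [Complex.mul_conj, Complex.normSq_eq_norm_sq]
  have h2 : ‖TX w L x θ‖ ^ 2 = (TX w L x θ * (starRingEnd ℂ) (TX w L x θ)).re := by
    rw [← h1, Complex.ofReal_re]
  rw [h2, TX, map_sum, Finset.sum_mul_sum, Complex.re_sum]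
  refine Finset.sum_congr rfl fun g _ => ?_
  rw [Complex.re_sum]
  refine Finset.sum_congr rfl fun h _ => ?_
  have h3 : (fourier ((g : ℤ) - (h : ℤ)) θ : ℂ) =
      (fourier (g : ℤ) θ : ℂ) * (starRingEnd ℂ) (fourier (h : ℤ) θ : ℂ) := by
    rw [sub_eq_add_neg, fourier_add, fourier_neg]
  rw [map_mul, Complex.conj_ofReal, h3]
  have h4 : ((w g * (x (g : ℤ) : ℝ) : ℝ) : ℂ) * (fourier (g : ℤ) θ : ℂ) *
      (((w h * (x (h : ℤ) : ℝ) : ℝ) : ℂ) * (starRingEnd ℂ) (fourier (h : ℤ) θ : ℂ)) =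
      (((w g * w h) * ((x (g : ℤ) : ℝ) * (x (h : ℤ) : ℝ)) : ℝ) : ℂ) *
        ((fourier (g : ℤ) θ : ℂ) * (starRingEnd ℂ) (fourier (h : ℤ) θ : ℂ)) := by
    push_cast
    ring
  rw [h4, Complex.re_ofReal_mul]

theorem cont_re (n : ℤ) : Continuous fun θ : UnitAddCircle => (fourier n θ : ℂ).re :=
  Complex.continuous_re.comp (fourier n).continuous

theorem cont_TX (w : ℕ → ℝ) (L : ℕ) (x : X) : Continuous fun θ : UnitAddCircle => TX w L x θ := by
  unfold TX
  exact continuous_finsetSum _ fun h _ => continuous_const.mul (fourier (h : ℤ)).continuous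

theorem int_cont {f : UnitAddCircle → ℝ} (hf : Continuous f) (W : Set UnitAddCircle) :
    IntegrableOn f W := by
  refine Integrable.integrableOn ?_
  exact hf.integrable_of_hasCompactSupport (HasCompactSupport.of_compactSpace f)

theorem int_TX (w : ℕ → ℝ) (L : ℕ) (x : X) (W : Set UnitAddCircle) :
    ∫ θ in W, ‖TX w L x θ‖ ^ 2 = ∑ g ∈ Icc 1 L, ∑ h ∈ Icc 1 L,
      (w g * w h) * ((x (g : ℤ) : ℝ) * (x (h : ℤ) : ℝ)) *
        ∫ θ in W, (fourier ((g : ℤ) - (h : ℤ)) θ : ℂ).re := by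
  simp_rw [norm_TX]
  rw [integral_finsetSum _ fun g _ => ?_]
  · refine Finset.sum_congr rfl fun g _ => ?_
    rw [integral_finsetSum _ fun h _ => ?_]
    · refine Finset.sum_congr rfl fun h _ => ?_
      rw [integral_const_mul]
    · exact (int_cont (cont_re _) W).const_mul _
  · exact integrable_finsetSum _ fun h _ => (int_cont (cont_re _) W).const_mul _

theorem val_abs (v : Val) : |(v : ℝ)| ≤ 1 := by
  have := v.2
  simp only [Set.mem_insert_iff, Set.mem_singleton_iff] at this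
  rcases this with h | h | h <;> rw [h] <;> norm_num

theorem cont_val (n : ℤ) : Continuous fun x : X => (x n : ℝ) :=
  continuous_subtype_val.comp (continuous_apply n)

theorem int_val (μ : Measure X) [IsProbabilityMeasure μ] (g h : ℤ) :
    Integrable (fun x : X => (x g : ℝ) * (x h : ℝ)) μ := by
  refine Integrable.of_bound ((cont_val g).mul (cont_val h)).measurable.aestronglyMeasurable 1 ?_
  filter_upwards with x
  rw [Real.norm_eq_abs, abs_mul]
  calc |(x g : ℝ)| * |(x h : ℝ)| ≤ 1 * 1 :=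
        mul_le_mul (val_abs _) (val_abs _) (abs_nonneg _) zero_le_one
    _ = 1 := one_mul 1

theorem integrable_TX (μ : Measure X) [IsProbabilityMeasure μ] (w : ℕ → ℝ) (L : ℕ)
    (W : Set UnitAddCircle) : Integrable (fun x => ∫ θ in W, ‖TX w L x θ‖ ^ 2) μ := by
  simp_rw [int_TX]
  exact integrable_finsetSum _ fun g _ => integrable_finsetSum _ fun h _ =>
    ((int_val μ _ _).const_mul _).mul_const _

theorem mean_TX (μ : Measure X) [IsProbabilityMeasure μ]
    (ho : ∀ i j : ℤ, i ≠ j → ∫ x : X, (x i : ℝ) * (x j : ℝ) ∂μ = 0) (w : ℕ → ℝ) (L : ℕ)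
    (W : Set UnitAddCircle) :
    ∫ x, (∫ θ in W, ‖TX w L x θ‖ ^ 2) ∂μ ≤ (∑ h ∈ Icc 1 L, w h ^ 2) * (volume W).toReal := by
  simp_rw [int_TX]
  rw [integral_finsetSum _ fun g _ => integrable_finsetSum _ fun h _ =>
    ((int_val μ _ _).const_mul _).mul_const _, Finset.sum_mul]
  refine Finset.sum_le_sum fun g hg => ?_
  rw [integral_finsetSum _ fun h _ => ((int_val μ _ _).const_mul _).mul_const _]
  rw [Finset.sum_eq_single_of_mem g hg fun h _ hne => ?_]
  · rw [integral_mul_const, integral_const_mul, sub_self]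
    have h1 : ∫ θ in W, ((fourier 0 θ : ℂ)).re = (volume W).toReal := by
      simp only [fourier_zero, Complex.one_re, integral_const, smul_eq_mul, mul_one]
      rw [Measure.real, Measure.restrict_apply MeasurableSet.univ, Set.univ_inter]
    have h2 : ∫ x : X, (x (g : ℤ) : ℝ) * (x (g : ℤ) : ℝ) ∂μ ≤ 1 := by
      calc ∫ x : X, (x (g : ℤ) : ℝ) * (x (g : ℤ) : ℝ) ∂μ ≤ ∫ _x : X, (1 : ℝ) ∂μ := by
            refine integral_mono (int_val μ _ _) (integrable_const _) fun x => ?_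
            have := val_abs (x (g : ℤ))
            show (x (g : ℤ) : ℝ) * (x (g : ℤ) : ℝ) ≤ 1
            rw [← sq, ← sq_abs]
            exact pow_le_one₀ (abs_nonneg _) this
        _ = 1 := by simp
    rw [h1]
    refine mul_le_mul_of_nonneg_right ?_ ENNReal.toReal_nonneg
    calc w g * w g * ∫ x : X, (x (g : ℤ) : ℝ) * (x (g : ℤ) : ℝ) ∂μ ≤ w g * w g * 1 :=
          mul_le_mul_of_nonneg_left h2 (mul_self_nonneg _)
      _ = w g ^ 2 := by ring
  · rw [integral_mul_const, integral_const_mul, ho _ _ (by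
      intro h3
      exact hne (by exact_mod_cast h3.symm))]
    ring

theorem VX_eq (L : ℕ) (x : X) (θ : UnitAddCircle) : VX L x θ = TX (fun _ => 1) L x θ := by
  unfold VX TX
  simp

theorem DX_eq (L : ℕ) (x : X) (θ : UnitAddCircle) : DX L x θ = TX (fun h => h) L x θ := by
  unfold DX TX
  refine Finset.sum_congr rfl fun h _ => ?_
  push_cast
  ring

theorem main (gal : S_GAL) (μ : Measure X) [IsProbabilityMeasure μ]
    (ho : ∀ i j : ℤ, i ≠ j → ∫ x : X, (x i : ℝ) * (x j : ℝ) ∂μ = 0) (U : Set UnitAddCircle)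
    (L : ℕ) (hL : 1 ≤ L) :
    ∫ x, SU U L x ^ 2 ∂μ ≤
      15 * (volume (Metric.cthickening (1 / (2 * (L : ℝ))) U)).toReal := by
  set W := Metric.cthickening (1 / (2 * (L : ℝ))) U with hW
  have hL0 : (0 : ℝ) < L := by exact_mod_cast hL
  have hsplit : ∀ x : X, ∫ θ in W, (8 * (‖VX L x θ‖ ^ 2 / L) + 7 * (‖DX L x θ‖ ^ 2 / (L : ℝ) ^ 3)) =
      8 / (L : ℝ) * (∫ θ in W, ‖TX (fun _ => 1) L x θ‖ ^ 2) +
        7 / (L : ℝ) ^ 3 * (∫ θ in W, ‖TX (fun h => (h : ℝ)) L x θ‖ ^ 2) := by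
    intro x
    rw [← integral_const_mul, ← integral_const_mul, ← integral_add]
    · refine integral_congr_ae (Eventually.of_forall fun θ => ?_)
      show 8 * (‖VX L x θ‖ ^ 2 / L) + 7 * (‖DX L x θ‖ ^ 2 / (L : ℝ) ^ 3) = _
      rw [VX_eq, DX_eq]
      ring
    · exact (int_cont ((cont_TX _ L x).norm.pow 2) W).const_mul _
    · exact (int_cont ((cont_TX _ L x).norm.pow 2) W).const_mul _
  have h1 : ∫ x, SU U L x ^ 2 ∂μ ≤ ∫ x, (8 / (L : ℝ) * (∫ θ in W, ‖TX (fun _ => 1) L x θ‖ ^ 2) +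
        7 / (L : ℝ) ^ 3 * (∫ θ in W, ‖TX (fun h => (h : ℝ)) L x θ‖ ^ 2)) ∂μ := by
    refine integral_mono_of_nonneg (Eventually.of_forall fun x => sq_nonneg _) ?_
      (Eventually.of_forall fun x => ?_)
    · exact ((integrable_TX μ _ L W).const_mul _).add ((integrable_TX μ _ L W).const_mul _)
    · have := gal U L x hL
      rw [← hW, hsplit x] at this
      exact this
  refine h1.trans ?_
  rw [integral_add ((integrable_TX μ _ L W).const_mul _) ((integrable_TX μ _ L W).const_mul _),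
    integral_const_mul, integral_const_mul]
  have h2 := mean_TX μ ho (fun _ => 1) L W
  have h3 := mean_TX μ ho (fun h => (h : ℝ)) L W
  have h4 : ∑ h ∈ Icc 1 L, ((1 : ℝ)) ^ 2 = L := by simp
  have h5 : ∑ h ∈ Icc 1 L, ((h : ℝ)) ^ 2 ≤ (L : ℝ) ^ 3 := by
    calc ∑ h ∈ Icc 1 L, ((h : ℝ)) ^ 2 ≤ ∑ _h ∈ Icc 1 L, (L : ℝ) ^ 2 := by
          refine Finset.sum_le_sum fun h hh => ?_
          have : (h : ℝ) ≤ L := by exact_mod_cast (mem_Icc.1 hh).2
          exact pow_le_pow_left₀ (Nat.cast_nonneg _) this 2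
      _ = (L : ℝ) ^ 3 := by
          rw [sum_const, Nat.card_Icc, nsmul_eq_mul]
          simp only [Nat.add_sub_cancel]
          ring
  have hV : 0 ≤ (volume W).toReal := ENNReal.toReal_nonneg
  rw [h4] at h2
  have h6 := h3.trans (mul_le_mul_of_nonneg_right h5 hV)
  have h7 : 8 / (L : ℝ) * ∫ x, (∫ θ in W, ‖TX (fun _ => 1) L x θ‖ ^ 2) ∂μ ≤
      8 * (volume W).toReal := by
    calc 8 / (L : ℝ) * ∫ x, (∫ θ in W, ‖TX (fun _ => 1) L x θ‖ ^ 2) ∂μ ≤
          8 / (L : ℝ) * (L * (volume W).toReal) :=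
          mul_le_mul_of_nonneg_left h2 (by positivity)
      _ = 8 * (volume W).toReal := by field_simp
  have h8 : 7 / (L : ℝ) ^ 3 * ∫ x, (∫ θ in W, ‖TX (fun h => (h : ℝ)) L x θ‖ ^ 2) ∂μ ≤
      7 * (volume W).toReal := by
    calc 7 / (L : ℝ) ^ 3 * ∫ x, (∫ θ in W, ‖TX (fun h => (h : ℝ)) L x θ‖ ^ 2) ∂μ ≤
          7 / (L : ℝ) ^ 3 * ((L : ℝ) ^ 3 * (volume W).toReal) :=
          mul_le_mul_of_nonneg_left h6 (by positivity)
      _ = 7 * (volume W).toReal := by field_simp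
  linarith

end UppL

theorem upp : S_GAL → S_ORT → S_UPP := by
  intro gal ort f μ hf ha hF U s hs
  haveI : IsProbabilityMeasure μ := hF.1
  have ho := ort f μ hf ha hF
  have h1 : Tendsto (fun r : ℝ => volume (Metric.cthickening r U)) (𝓝 0) (𝓝 (volume (closure U))) :=
    tendsto_measure_cthickening ⟨1, one_pos, measure_ne_top _ _⟩
  have h2 : Tendsto (fun L : ℕ => 1 / (2 * (L : ℝ))) atTop (𝓝 0) := by
    have := (tendsto_const_div_atTop_nhds_zero_nat (1 / 2 : ℝ))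
    refine this.congr fun L => ?_
    ring
  have h3 : Tendsto (fun L : ℕ => 15 * (volume (Metric.cthickening (1 / (2 * (L : ℝ))) U)).toReal)
      atTop (𝓝 (15 * (volume (closure U)).toReal)) :=
    ((ENNReal.tendsto_toReal (measure_ne_top _ _)).comp (h1.comp h2)).const_mul 15
  refine le_of_tendsto_of_tendsto hs h3 ?_
  filter_upwards [eventually_ge_atTop 1] with L hL
  exact UppL.main gal μ ho U L hL

end Pool.Agent.Helper94K9.OP
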