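import Pool.Agent.Helper94K9.OP.Maj

/-!
# Project OP: few primes with another large correlation [BSL]
-/

set_option autoImplicit false

namespace Pool.Agent.Helper94K9.OP

open Finset MeasureTheory Filter Topology
open Pool.Agent.H807R2.Dav (ee norm_ee ee_add)

namespace BslL

lemma cr_coe (f : ℕ → ℝ) (n L : ℕ) (t : ℝ) :
    cr f n L ((t : ℝ) : UnitAddCircle) = Pool.Agent.Helper44K9.FC.cr (fun m => ((f m : ℝ) : ℂ)) t n L := by
  unfold cr Pool.Agent.Helper44K9.FC.cr Pool.Agent.Helper44K9.FC.V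
  rw [MajL.V_coe]

lemma en_le {f : ℕ → ℝ} (hf : ∀ n, |f n| ≤ 1) (n L : ℕ) :
    Pool.Agent.Helper44K9.FC.en (fun m => ((f m : ℝ) : ℂ)) n L ≤ 1 := by
  unfold Pool.Agent.Helper44K9.FC.en
  apply div_le_one_of_le₀ _ (Nat.cast_nonneg _)
  calc ∑ m ∈ Ioc n (n + L), ‖((f m : ℝ) : ℂ)‖ ^ 2 ≤ ∑ m ∈ Ioc n (n + L), (1 : ℝ) := by
        refine sum_le_sum fun m _ => ?_
        rw [Complex.norm_real]
        exact pow_le_one₀ (norm_nonneg _) (hf m)
    _ = L := by simp

/-- different fractions are separated -/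
lemma frac_sep {p q : ℕ} (hp : p.Prime) (hq : q.Prime) (hpq : p ≠ q) {i j : ℕ} (hi : 1 ≤ i) (hip : i < p) (a : ℤ) :
    1 / ((p : ℝ) * q) ≤ |(i : ℝ) / p - (j : ℝ) / q - a| := by
  have hp0 : (0 : ℝ) < p := by exact_mod_cast hp.pos
  have hq0 : (0 : ℝ) < q := by exact_mod_cast hq.pos
  have e : (i : ℝ) / p - (j : ℝ) / q - a = ((i * q - j * p - a * p * q : ℤ) : ℝ) / (p * q) := by
    push_cast
    field_simp
  rw [e, abs_div, abs_of_pos (mul_pos hp0 hq0)]
  apply div_le_div_of_nonneg_right _ (mul_pos hp0 hq0).le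
  have h1 : ((i : ℤ) * q - j * p - a * p * q : ℤ) ≠ 0 := by
    intro h
    have h2 : (p : ℤ) ∣ (i : ℤ) * q := ⟨j + a * q, by linarith⟩
    have h3 : p ∣ i * q := by exact_mod_cast h2
    rcases (Nat.Prime.dvd_mul hp).1 h3 with h4 | h4
    · exact absurd (Nat.le_of_dvd hi h4) (by omega)
    · exact hpq ((Nat.prime_dvd_prime_iff_eq hp hq).1 h4)
  have h2 : 1 ≤ |((i : ℤ) * q - j * p - a * p * q : ℤ)| := Int.one_le_abs h1
  exact_mod_cast h2

end BslL

open BslL

theorem bsl (h : Pool.Agent.Helper44K9.FC.S_BS1) : S_BSL := by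
  classical
  intro I δ hδ hI
  obtain ⟨K, hK⟩ := h 1 I.card one_pos
  set P : ℕ := ∑ p ∈ I, p with hP
  have hPle : ∀ p ∈ I, p ≤ P := fun p hp => single_le_sum (f := fun p => p) (fun _ _ => Nat.zero_le _) hp
  refine ⟨K * P * P + 1, fun L hL f hf n θ => ?_⟩
  obtain ⟨t, rfl⟩ := QuotientAddGroup.mk_surjective θ
  have hL0 : (0 : ℝ) < L := by exact_mod_cast (by omega : 0 < L)
  set B := I.filter fun p => ∃ j : ℕ, 1 ≤ j ∧ j < p ∧ δ < cr f n L ((QuotientAddGroup.mk t : UnitAddCircle) + pt j p)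
    with hB
  have hex : ∀ p ∈ B, ∃ j : ℕ, 1 ≤ j ∧ j < p ∧ δ < cr f n L ((QuotientAddGroup.mk t : UnitAddCircle) + pt j p) :=
    fun p hp => (mem_filter.1 hp).2
  choose! j hj using hex
  have hsep : ∀ p ∈ B, ∀ q ∈ B, p ≠ q → ∀ a : ℤ, (K : ℝ) / L < |(j p : ℝ) / p - (j q : ℝ) / q - a| := by
    intro p hp q hq hpq a
    have hpI := (mem_filter.1 hp).1
    have hqI := (mem_filter.1 hq).1
    refine lt_of_lt_of_le ?_ (frac_sep (hI p hpI) (hI q hqI) hpq (hj p hp).1 (hj p hp).2.1 a)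
    have hp0 : (0 : ℝ) < p := by exact_mod_cast (hI p hpI).pos
    have hq0 : (0 : ℝ) < q := by exact_mod_cast (hI q hqI).pos
    rw [div_lt_div_iff₀ hL0 (mul_pos hp0 hq0), one_mul]
    have h1 : K * (p * q) ≤ K * P * P := by
      rw [mul_assoc]
      exact Nat.mul_le_mul_left _ (Nat.mul_le_mul (hPle p hpI) (hPle q hqI))
    have h2 : K * (p * q) < L := by omega
    exact_mod_cast h2
  set S : Finset ℝ := B.image (fun p => t + (j p : ℝ) / p) with hS
  have hinj : Set.InjOn (fun p : ℕ => t + (j p : ℝ) / p) B := by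
    intro p hp q hq hpq
    by_contra hne
    have h1 := hsep p hp q hq hne 0
    simp only at hpq
    have h2 : (j p : ℝ) / p - (j q : ℝ) / q - ((0 : ℤ) : ℝ) = 0 := by
      push_cast
      linarith
    rw [h2, abs_zero] at h1
    have : 0 ≤ (K : ℝ) / L := by positivity
    linarith
  have hSsep : Pool.Agent.Helper44K9.FC.Sep K L S := by
    intro α hα β hβ hne hnr
    obtain ⟨p, hp, rfl⟩ := mem_image.1 hα
    obtain ⟨q, hq, rfl⟩ := mem_image.1 hβ
    obtain ⟨a, ha⟩ := hnr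
    have hpq : p ≠ q := fun h => hne (by rw [h])
    have h1 := hsep p hp q hq hpq a
    have e : t + (j p : ℝ) / p - (t + (j q : ℝ) / q) - a = (j p : ℝ) / p - (j q : ℝ) / q - a := by ring
    rw [e] at ha
    linarith
  have hScard : S.card = B.card := card_image_of_injOn hinj
  have h1 := hK K le_rfl (fun m => ((f m : ℝ) : ℂ)) n L S (by omega) hSsep (by
    rw [hScard]
    exact card_le_card (filter_subset _ _))
  have h2 := en_le hf n L
  have h3 : (S.card : ℝ) * δ ^ 2 ≤ ∑ α ∈ S, Pool.Agent.Helper44K9.FC.cr (fun m => ((f m : ℝ) : ℂ)) α n L ^ 2 := by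
    rw [← nsmul_eq_mul, ← sum_const]
    refine sum_le_sum fun α hα => ?_
    obtain ⟨p, hp, rfl⟩ := mem_image.1 hα
    have h4 := (hj p hp).2.2
    have e : (QuotientAddGroup.mk t : UnitAddCircle) + pt (j p) p = ((t + (j p : ℝ) / p : ℝ) : UnitAddCircle) := by
      unfold pt
      exact (AddCircle.coe_add 1 _ _).symm
    rw [e, cr_coe] at h4
    exact pow_le_pow_left₀ hδ.le h4.le 2
  rw [hScard] at h3
  linarith

end Pool.Agent.Helper94K9.OP
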