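import Pool.Agent.Helper94K9.OP.St4
import Pool.Agent.Helper94K9.OP.Opf
import Pool.Agent.Helper94K9.OP.Eqv

/-!
# Project OP: outer regularity of the limits [CLO]
-/

set_option autoImplicit false

namespace Pool.Agent.Helper94K9.OP

open Finset MeasureTheory Filter Topology

namespace CloL

open KeyL InvL ExkL ParL SubL OpnL OpfL

theorem lim_pow_le {μ : Measure X} [IsProbabilityMeasure μ] (hinv : MeasurePreserving (shift 1) μ μ)
    (U : Set UnitAddCircle) (q : ℕ) : ∃ s : ℝ, Tendsto (fun L : ℕ => ∫ x, SU U L x ^ q ∂μ) atTop (𝓝 s) ∧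
      ∀ L : ℕ, 1 ≤ L → s ≤ ∫ x, SU U L x ^ q ∂μ := by
  have hF : Continuous fun y : ℝ => y ^ q := continuous_pow q
  set u : ℕ → ℝ := fun L => L * ∫ x, SU U L x ^ q ∂μ with hu
  have hi2 : ∀ L M : ℕ, Integrable (fun x : X => (M : ℝ) * SU U M (shift (L : ℤ) x) ^ q) μ := by
    intro L M
    have hc : Continuous fun x : X => (M : ℝ) * SU U M (shift (L : ℤ) x) ^ q :=
      continuous_const.mul (((SU_cont U M).comp (shift_cont _)).pow q)
    refine Integrable.of_bound hc.measurable.aestronglyMeasurable M (Eventually.of_forall fun x => ?_)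
    have h2 := SU_nonneg U M (shift (L : ℤ) x)
    have h3 := SU_le_one U M (shift (L : ℤ) x)
    rw [Real.norm_eq_abs, abs_of_nonneg (by positivity)]
    exact mul_le_of_le_one_right (Nat.cast_nonneg M) (pow_le_one₀ h2 h3)
  have hsub : Subadditive u := by
    intro L M
    have h1 : ∫ x, ((L + M : ℕ) : ℝ) * SU U (L + M) x ^ q ∂μ ≤
        ∫ x, (L * SU U L x ^ q + M * SU U M (shift (L : ℤ) x) ^ q) ∂μ :=
      integral_mono ((F_int _ hF U (L + M)).const_mul _) (((F_int _ hF U L).const_mul _).add (hi2 L M))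
        fun x => pow_add_le U q L M x
    rw [integral_const_mul, integral_add ((F_int _ hF U L).const_mul _) (hi2 L M), integral_const_mul,
      integral_const_mul, int_shift hinv (fun x => SU U M x ^ q) ((SU_cont U M).pow q) L] at h1
    exact h1
  have hbdd : BddBelow (Set.range fun n => u n / n) := by
    refine ⟨0, ?_⟩
    rintro _ ⟨n, rfl⟩
    have : 0 ≤ ∫ x, SU U n x ^ q ∂μ := integral_nonneg fun x => pow_nonneg (SU_nonneg U n x) q
    simp only [hu]
    positivity
  have hlim := hsub.tendsto_lim hbdd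
  refine ⟨hsub.lim, hlim.congr' ?_, fun L hL => ?_⟩
  · filter_upwards [eventually_ge_atTop 1] with L hL
    have hL' : (L : ℝ) ≠ 0 := by
      have : 0 < L := hL
      exact_mod_cast this.ne'
    simp only [hu]
    field_simp
  · have h1 := hsub.lim_le_div hbdd (show L ≠ 0 by omega)
    have hL' : (L : ℝ) ≠ 0 := by
      have : 0 < L := hL
      exact_mod_cast this.ne'
    have h2 : u L / L = ∫ x, SU U L x ^ q ∂μ := by
      simp only [hu]
      field_simp
    rwa [h2] at h1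

theorem thick_le (K : Set UnitAddCircle) (δ : ℝ) (L : ℕ) (hL : 1 ≤ L) (hδ : 0 < δ) (x : X) :
    SU (Metric.thickening δ K) L x ≤ SU K L x + 2 * Real.pi * L * δ := by
  have h0 := SU_nonneg K L x
  refine SU_le_of _ L x _ (by positivity) fun θ hθ => ?_
  obtain ⟨θ₀, h1, h2⟩ := Metric.mem_thickening_iff.1 hθ
  have h3 := EqvL.cx_near L hL x θ θ₀
  rw [dist_eq_norm] at h2
  have h4 := SubL.le_SU K L x θ₀ h1
  have h5 : 2 * Real.pi * (L : ℝ) * ‖θ - θ₀‖ ≤ 2 * Real.pi * L * δ :=
    mul_le_mul_of_nonneg_left h2.le (by positivity)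
  linarith

theorem mono_SU {U U' : Set UnitAddCircle} (h : U ⊆ U') (L : ℕ) (x : X) : SU U L x ≤ SU U' L x :=
  SU_le_of U L x _ (SU_nonneg U' L x) fun θ hθ => SubL.le_SU U' L x θ (h hθ)

theorem pow_conv {μ : Measure X} [IsProbabilityMeasure μ] (hinv : MeasurePreserving (shift 1) μ μ)
    (K : Set UnitAddCircle) (q : ℕ) (t : Set UnitAddCircle → ℝ)
    (ht : ∀ U, Tendsto (fun L : ℕ => ∫ x, SU U L x ^ q ∂μ) atTop (𝓝 (t U))) :
    Tendsto (fun k : ℕ => t (Metric.thickening (1 / ((k : ℝ) + 1)) K)) atTop (𝓝 (t K)) := by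
  have hle : ∀ (U : Set UnitAddCircle) (L : ℕ), 1 ≤ L → t U ≤ ∫ x, SU U L x ^ q ∂μ := by
    intro U L hL
    obtain ⟨s, h1, h2⟩ := lim_pow_le hinv U q
    rw [tendsto_nhds_unique (ht U) h1]
    exact h2 L hL
  have hF : Continuous fun y : ℝ => y ^ q := continuous_pow q
  rw [Metric.tendsto_atTop]
  intro ε hε
  obtain ⟨L, hL1, hL2⟩ : ∃ L : ℕ, 1 ≤ L ∧ ∫ x, SU K L x ^ q ∂μ < t K + ε / 2 :=
    ((eventually_ge_atTop 1).and ((ht K).eventually (gt_mem_nhds (show t K < t K + ε / 2 by linarith)))).exists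
  obtain ⟨k₀, hk₀⟩ := exists_nat_gt ((q : ℝ) * (2 * Real.pi * L) / (ε / 2))
  refine ⟨k₀, fun k hk => ?_⟩
  have hkp : (0 : ℝ) < (k : ℝ) + 1 := by positivity
  have hδ : (0 : ℝ) < 1 / ((k : ℝ) + 1) := by positivity
  have hmono : t K ≤ t (Metric.thickening (1 / ((k : ℝ) + 1)) K) := by
    refine le_of_tendsto_of_tendsto' (ht K) (ht _) fun M => ?_
    exact integral_mono (F_int _ hF _ M) (F_int _ hF _ M) fun x =>
      pow_le_pow_left₀ (SU_nonneg _ _ _) (mono_SU (Metric.self_subset_thickening hδ K) M x) q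
  have hpt : ∀ x : X, SU (Metric.thickening (1 / ((k : ℝ) + 1)) K) L x ^ q ≤
      SU K L x ^ q + (q : ℝ) * (2 * Real.pi * L * (1 / ((k : ℝ) + 1))) := by
    intro x
    have h1 := thick_le K (1 / ((k : ℝ) + 1)) L hL1 hδ x
    have h2 := mono_SU (Metric.self_subset_thickening hδ K) L x
    set a := SU (Metric.thickening (1 / ((k : ℝ) + 1)) K) L x with ha
    set b := SU K L x with hb
    have ha1 : a ≤ 1 := SU_le_one _ _ _
    have hb0 : 0 ≤ b := SU_nonneg _ _ _
    have h3 := abs_pow_sub_pow_le a b q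
    have h4 : max |a| |b| ≤ 1 := by
      rw [abs_of_nonneg (hb0.trans h2), abs_of_nonneg hb0]
      exact max_le ha1 (h2.trans ha1)
    have h5 : max |a| |b| ^ (q - 1) ≤ 1 := pow_le_one₀ (le_max_of_le_left (abs_nonneg a)) h4
    have h6 : |a - b| * q * max |a| |b| ^ (q - 1) ≤ |a - b| * q * 1 :=
      mul_le_mul_of_nonneg_left h5 (by positivity)
    have h7 : |a - b| ≤ 2 * Real.pi * L * (1 / ((k : ℝ) + 1)) := by
      rw [abs_of_nonneg (sub_nonneg.2 h2)]
      linarith
    have h8 : |a - b| * (q : ℝ) ≤ (2 * Real.pi * L * (1 / ((k : ℝ) + 1))) * q :=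
      mul_le_mul_of_nonneg_right h7 (Nat.cast_nonneg q)
    have h9 := le_abs_self (a ^ q - b ^ q)
    linarith
  have hint : ∫ x, SU (Metric.thickening (1 / ((k : ℝ) + 1)) K) L x ^ q ∂μ ≤
      ∫ x, SU K L x ^ q ∂μ + (q : ℝ) * (2 * Real.pi * L * (1 / ((k : ℝ) + 1))) := by
    refine (integral_mono (F_int _ hF _ L) ((F_int _ hF _ L).add (integrable_const _)) hpt).trans (le_of_eq ?_)
    simp only [Pi.add_apply]
    rw [integral_add (F_int _ hF _ L) (integrable_const _), integral_const]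
    simp
  have hsmall : (q : ℝ) * (2 * Real.pi * L * (1 / ((k : ℝ) + 1))) < ε / 2 := by
    have h1 : (k₀ : ℝ) ≤ k := by exact_mod_cast hk
    have h2 : (q : ℝ) * (2 * Real.pi * L) / (ε / 2) < (k : ℝ) + 1 := by linarith
    rw [div_lt_iff₀ (by positivity)] at h2
    have h3 : (q : ℝ) * (2 * Real.pi * L * (1 / ((k : ℝ) + 1))) = (q : ℝ) * (2 * Real.pi * L) / ((k : ℝ) + 1) := by
      ring
    rw [h3, div_lt_iff₀ hkp]
    linarith
  have hfin := hle (Metric.thickening (1 / ((k : ℝ) + 1)) K) L hL1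
  rw [Real.dist_eq, abs_lt]
  constructor <;> linarith

end CloL

open CloL OpfL SubL in
theorem clo : S_CLO := by
  intro μ _ hinv F hF s hs K ε hε
  choose t ht using fun (q : ℕ) (U : Set UnitAddCircle) => lim_pow hinv U q
  obtain ⟨P, hP⟩ := exists_polynomial_near_of_continuousOn 0 1 F hF.continuousOn (ε / 3) (by positivity)
  set tP : Set UnitAddCircle → ℝ := fun U => ∑ i ∈ range (P.natDegree + 1), P.coeff i * t i U with htP
  have hpoly : ∀ U, Tendsto (fun L : ℕ => ∫ x, P.eval (SU U L x) ∂μ) atTop (𝓝 (tP U)) := by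
    intro U
    have h1 : ∀ L : ℕ, ∫ x, P.eval (SU U L x) ∂μ =
        ∑ i ∈ range (P.natDegree + 1), P.coeff i * ∫ x, SU U L x ^ i ∂μ := by
      intro L
      simp only [Polynomial.eval_eq_sum_range]
      rw [integral_finsetSum _ fun i _ => (F_int _ (continuous_pow i) U L).const_mul _]
      exact sum_congr rfl fun i _ => integral_const_mul _ _
    simp only [h1]
    exact tendsto_finsetSum _ fun i _ => (ht i U).const_mul _
  have hd : ∀ (U : Set UnitAddCircle) (L : ℕ), |∫ x, F (SU U L x) ∂μ - ∫ x, P.eval (SU U L x) ∂μ| ≤ ε / 3 := by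
    intro U L
    rw [← integral_sub (F_int F hF U L) (F_int _ P.continuous U L), ← Real.norm_eq_abs]
    refine (norm_integral_le_of_norm_le_const (C := ε / 3) (Eventually.of_forall fun x => ?_)).trans ?_
    · rw [Real.norm_eq_abs, abs_sub_comm]
      exact (hP _ ⟨SU_nonneg U L x, SU_le_one U L x⟩).le
    · simp
  have hd' : ∀ U, |s U - tP U| ≤ ε / 3 := fun U =>
    le_of_tendsto ((hs U).sub (hpoly U)).abs (Eventually.of_forall fun L => hd U L)
  have hconv : Tendsto (fun k : ℕ => tP (Metric.thickening (1 / ((k : ℝ) + 1)) K)) atTop (𝓝 (tP K)) :=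
    tendsto_finsetSum _ fun i _ => (pow_conv hinv K i (t i) (ht i)).const_mul _
  obtain ⟨k, hk⟩ := (hconv.eventually (gt_mem_nhds (show tP K < tP K + ε / 3 by linarith))).exists
  refine ⟨Metric.thickening (1 / ((k : ℝ) + 1)) K, Metric.isOpen_thickening,
    Metric.closure_subset_thickening (by positivity) K, ?_⟩
  have h1 := abs_le.1 (hd' K)
  have h2 := abs_le.1 (hd' (Metric.thickening (1 / ((k : ℝ) + 1)) K))
  linarith [h1.1, h1.2, h2.1, h2.2]

end Pool.Agent.Helper94K9.OP
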