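import Pool.Agent.Helper94K9.OP.Stm

/-! Leaf [COV] (helper94): covering. -/

set_option autoImplicit false

namespace Pool.Agent.Helper94K9.OP

open Finset MeasureTheory Filter Topology

namespace CovL

theorem nsmul_pt (j p : ℕ) (hp : 1 ≤ p) : p • pt j p = 0 := by
  unfold pt
  rw [← AddCircle.coe_nsmul, nsmul_eq_mul, mul_div_cancel₀]
  · exact (AddCircle.coe_eq_zero_iff (1 : ℝ)).2 ⟨j, by simp⟩
  · have : (0 : ℝ) < p := by exact_mod_cast hp
    exact this.ne'

theorem pt_sub (i j p : ℕ) (hij : i ≤ j) : pt j p - pt (j - i) p = pt i p := by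
  unfold pt
  rw [← AddCircle.coe_sub]
  congr 1
  rw [Nat.cast_sub hij]
  ring

theorem mp (p : ℕ) (hp : 1 ≤ p) : MeasurePreserving (fun θ : UnitAddCircle => p • θ) volume volume := by
  have h := Measure.measurePreserving_zsmul (volume : Measure UnitAddCircle) (n := (p : ℤ)) (by omega)
  simpa only [natCast_zsmul] using h

theorem meas (p : ℕ) (S : Set UnitAddCircle) (hS : MeasurableSet S) :
    MeasurableSet {θ : UnitAddCircle | θ ∈ S ∧ ∀ j : ℕ, 1 ≤ j → j < p → θ + pt j p ∉ S} := by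
  have h1 : {θ : UnitAddCircle | θ ∈ S ∧ ∀ j : ℕ, 1 ≤ j → j < p → θ + pt j p ∉ S} =
      S ∩ ⋂ j : ℕ, {θ : UnitAddCircle | 1 ≤ j → j < p → θ + pt j p ∉ S} := by
    ext θ
    simp
  rw [h1]
  refine hS.inter (MeasurableSet.iInter fun j => ?_)
  by_cases hj : 1 ≤ j ∧ j < p
  · have h2 : {θ : UnitAddCircle | 1 ≤ j → j < p → θ + pt j p ∉ S} = (fun θ => θ + pt j p) ⁻¹' Sᶜ := by
      ext θ
      simp [hj.1, hj.2]
    rw [h2]
    exact (measurable_add_const _) hS.compl
  · have h2 : {θ : UnitAddCircle | 1 ≤ j → j < p → θ + pt j p ∉ S} = Set.univ := by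
      ext θ
      simp only [Set.mem_ofPred_eq, Set.mem_univ, iff_true]
      intro h3 h4
      exact absurd ⟨h3, h4⟩ hj
    rw [h2]
    exact MeasurableSet.univ

end CovL

open CovL in
/-- **COV** -/
theorem cov : S_COV := by
  intro p hp S G hS hG hG0
  obtain ⟨S', hS'⟩ : ∃ S' : Set UnitAddCircle, S' =
      {θ : UnitAddCircle | θ ∈ S ∧ ∀ j : ℕ, 1 ≤ j → j < p → θ + pt j p ∉ S} := ⟨_, rfl⟩
  have hm : MeasurableSet S' := by
    rw [hS']
    exact meas p S hS
  rw [← hS']
  have hmem : ∀ θ, θ ∈ S' ↔ θ ∈ S ∧ ∀ j : ℕ, 1 ≤ j → j < p → θ + pt j p ∉ S := by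
    intro θ
    rw [hS']
    exact Iff.rfl
  have hcont : Continuous fun θ : UnitAddCircle => G (p • θ) := hG.comp (continuous_id.nsmul p)
  have hint : Integrable fun θ : UnitAddCircle => G (p • θ) :=
    hcont.integrable_of_hasCompactSupport (HasCompactSupport.of_compactSpace _)
  obtain ⟨h, hh⟩ : ∃ h : UnitAddCircle → ℝ, h = S'.indicator fun θ => G (p • θ) := ⟨_, rfl⟩
  have hhint : Integrable h := by
    rw [hh]
    exact hint.indicator hm
  have h1 : ∫ θ in S', G (p • θ) = ∫ θ, h θ := by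
    rw [hh, integral_indicator hm]
  have h2 : ∀ j : ℕ, ∫ θ, h (θ - pt j p) = ∫ θ, h θ := fun j => integral_sub_right_eq_self h (pt j p)
  have h3 : (p : ℝ) * ∫ θ, h θ = ∫ θ, ∑ j ∈ range p, h (θ - pt j p) := by
    rw [integral_finsetSum _ fun j _ => hhint.comp_sub_right (pt j p), sum_congr rfl fun j _ => h2 j, sum_const,
      card_range, nsmul_eq_mul]
  rw [h1, h3]
  have h4 : ∫ γ : UnitAddCircle, G γ = ∫ θ : UnitAddCircle, G (p • θ) := by
    have h5 := (mp p hp).map_eq
    conv_lhs => rw [← h5]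
    rw [integral_map (mp p hp).measurable.aemeasurable hG.aestronglyMeasurable]
  rw [h4]
  refine integral_mono (integrable_finsetSum _ fun j _ => hhint.comp_sub_right (pt j p)) hint fun θ => ?_
  simp only
  classical
  have h6 : ∀ j ∈ range p, h (θ - pt j p) = if θ - pt j p ∈ S' then G (p • θ) else 0 := by
    intro j _
    rw [hh, Set.indicator_apply]
    congr 1
    rw [smul_sub, nsmul_pt j p hp, sub_zero]
  rw [sum_congr rfl h6, ← sum_filter, sum_const, nsmul_eq_mul]
  have h7 : ((range p).filter fun j => θ - pt j p ∈ S').card ≤ 1 := by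
    rw [card_le_one]
    have key : ∀ i j, i < j → j < p → θ - pt i p ∈ S' → θ - pt j p ∈ S' → False := by
      intro i j hij hjp hi hj
      refine ((hmem _).1 hj).2 (j - i) (by omega) (by omega) ?_
      have h8 : θ - pt j p + pt (j - i) p = θ - pt i p := by
        rw [← pt_sub i j p hij.le]
        abel
      rw [h8]
      exact ((hmem _).1 hi).1
    intro i hi j hj
    rw [mem_filter, mem_range] at hi hj
    rcases lt_trichotomy i j with hij | hij | hij
    · exact (key i j hij hj.1 hi.2 hj.2).elim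
    · exact hij
    · exact (key j i hij hi.1 hj.2 hi.2).elim
  calc (((range p).filter fun j => θ - pt j p ∈ S').card : ℝ) * G (p • θ) ≤ 1 * G (p • θ) :=
        mul_le_mul_of_nonneg_right (by exact_mod_cast h7) (hG0 _)
    _ = G (p • θ) := one_mul _

end Pool.Agent.Helper94K9.OP
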