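import Pool.Agent.Helper94K9.OP.Exk

/-!
# Project OP: all continuous test functions [DEN]
-/

set_option autoImplicit false

namespace Pool.Agent.Helper94K9.OP

open Finset MeasureTheory Filter Topology

namespace DenL

open ExkL ParL

theorem pow_re (k L : ℕ) (x : X) (θ : UnitAddCircle) : ‖VX L x θ‖ ^ (2 * k) =
    ∑ g ∈ Fintype.piFinset (fun _ : Fin k => Icc 1 L), ∑ g' ∈ Fintype.piFinset (fun _ : Fin k => Icc 1 L),
      C g g' x * (fourier (∑ i, (g i : ℤ) - ∑ i, (g' i : ℤ)) θ : ℂ).re := by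
  have h := congrArg Complex.re (pow_exp k L x θ)
  rw [Complex.ofReal_re] at h
  rw [h, Complex.re_sum]
  refine sum_congr rfl fun g _ => ?_
  rw [Complex.re_sum]
  refine sum_congr rfl fun g' _ => ?_
  rw [Complex.re_ofReal_mul]

theorem re_cont (n : ℤ) : Continuous fun θ : UnitAddCircle => (fourier n θ : ℂ).re :=
  Complex.continuous_re.comp (map_continuous (fourier n))

theorem WX_lin (k L : ℕ) (hk : 1 ≤ k) (hL : 1 ≤ L) (φ : UnitAddCircle → ℝ) (hφ : Continuous φ) (x : X) :
    WX k φ L x = (∑ g ∈ Fintype.piFinset (fun _ : Fin k => Icc 1 L),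
      ∑ g' ∈ Fintype.piFinset (fun _ : Fin k => Icc 1 L),
        C g g' x * ∫ θ : UnitAddCircle, φ θ * (fourier (∑ i, (g i : ℤ) - ∑ i, (g' i : ℤ)) θ : ℂ).re) /
          (L : ℝ) ^ (2 * k - 1) := by
  rw [scal k L hk hL]
  congr 1
  simp only [pow_re, mul_sum]
  have hc : ∀ g g' : Fin k → ℕ, Continuous fun θ : UnitAddCircle =>
      φ θ * (C g g' x * (fourier (∑ i, (g i : ℤ) - ∑ i, (g' i : ℤ)) θ : ℂ).re) := fun g g' =>
    hφ.mul (continuous_const.mul (re_cont _))
  rw [integral_finsetSum _ fun g _ => cont_intR _ (continuous_finsetSum _ fun g' _ => hc g g')]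
  refine sum_congr rfl fun g _ => ?_
  rw [integral_finsetSum _ fun g' _ => cont_intR _ (hc g g')]
  refine sum_congr rfl fun g' _ => ?_
  rw [← integral_const_mul]
  congr 1
  funext θ
  ring

variable {μ : Measure X} [IsProbabilityMeasure μ]

theorem wm_lin (k L : ℕ) (hk : 1 ≤ k) (hL : 1 ≤ L) (φ : UnitAddCircle → ℝ) (hφ : Continuous φ) :
    wm μ k φ L = (∑ g ∈ Fintype.piFinset (fun _ : Fin k => Icc 1 L),
      ∑ g' ∈ Fintype.piFinset (fun _ : Fin k => Icc 1 L),
        (∫ x, C g g' x ∂μ) * ∫ θ : UnitAddCircle, φ θ * (fourier (∑ i, (g i : ℤ) - ∑ i, (g' i : ℤ)) θ : ℂ).re) /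
          (L : ℝ) ^ (2 * k - 1) := by
  unfold wm
  simp only [WX_lin k L hk hL φ hφ]
  rw [integral_div]
  congr 1
  rw [integral_finsetSum _ fun g _ => integrable_finsetSum _ fun g' _ => (C_int g g').mul_const _]
  refine sum_congr rfl fun g _ => ?_
  rw [integral_finsetSum _ fun g' _ => (C_int g g').mul_const _]
  refine sum_congr rfl fun g' _ => ?_
  rw [integral_mul_const]

theorem wm_add (k L : ℕ) (hk : 1 ≤ k) (hL : 1 ≤ L) (φ ψ : UnitAddCircle → ℝ) (hφ : Continuous φ) (hψ : Continuous ψ) :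
    wm μ k (fun θ => φ θ + ψ θ) L = wm μ k φ L + wm μ k ψ L := by
  rw [wm_lin k L hk hL (fun θ => φ θ + ψ θ) (hφ.add hψ), wm_lin k L hk hL φ hφ, wm_lin k L hk hL ψ hψ, ← add_div,
    ← sum_add_distrib]
  congr 1
  refine sum_congr rfl fun g _ => ?_
  rw [← sum_add_distrib]
  refine sum_congr rfl fun g' _ => ?_
  rw [← mul_add]
  congr 1
  have e : ∀ θ : UnitAddCircle, (φ θ + ψ θ) * (fourier (∑ i, (g i : ℤ) - ∑ i, (g' i : ℤ)) θ : ℂ).re =
      φ θ * (fourier (∑ i, (g i : ℤ) - ∑ i, (g' i : ℤ)) θ : ℂ).re +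
        ψ θ * (fourier (∑ i, (g i : ℤ) - ∑ i, (g' i : ℤ)) θ : ℂ).re := fun θ => by ring
  simp only [e]
  exact integral_add (cont_intR _ (hφ.mul (re_cont _))) (cont_intR _ (hψ.mul (re_cont _)))

theorem wm_smul (k L : ℕ) (hk : 1 ≤ k) (hL : 1 ≤ L) (c : ℝ) (φ : UnitAddCircle → ℝ) (hφ : Continuous φ) :
    wm μ k (fun θ => c * φ θ) L = c * wm μ k φ L := by
  rw [wm_lin k L hk hL (fun θ => c * φ θ) (continuous_const.mul hφ), wm_lin k L hk hL φ hφ, ← mul_div_assoc, mul_sum]
  congr 1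
  refine sum_congr rfl fun g _ => ?_
  rw [mul_sum]
  refine sum_congr rfl fun g' _ => ?_
  rw [mul_left_comm]
  congr 1
  rw [← integral_const_mul]
  congr 1
  funext θ
  ring

/-- the sine is orthogonal to the cosines -/
theorem int_im_re (m n : ℤ) : ∫ θ : UnitAddCircle, (fourier m θ : ℂ).im * (fourier n θ : ℂ).re = 0 := by
  have h1 : ∀ k : ℤ, ∫ θ : UnitAddCircle, (fourier k θ : ℂ).im = 0 := by
    intro k
    have h2 : Integrable (fun θ : UnitAddCircle => (fourier k θ : ℂ)) := cont_int _ (map_continuous (fourier k))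
    have h3 := integral_im h2
    have h4 : ∫ θ : UnitAddCircle, (fourier k θ : ℂ).im = (∫ θ : UnitAddCircle, (fourier k θ : ℂ)).im := h3
    rw [h4, int_fourier]
    split_ifs <;> simp
  have h2 : ∀ θ : UnitAddCircle, (fourier m θ : ℂ).im * (fourier n θ : ℂ).re =
      (1 / 2) * (fourier (m + n) θ : ℂ).im + (1 / 2) * (fourier (m + -n) θ : ℂ).im := by
    intro θ
    rw [fourier_add, fourier_add, ← conj_fourier n θ, Complex.mul_im, Complex.mul_im, Complex.conj_re, Complex.conj_im]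
    ring
  simp only [h2]
  have hc : ∀ k : ℤ, Integrable (fun θ : UnitAddCircle => (1 / 2 : ℝ) * (fourier k θ : ℂ).im) := fun k =>
    cont_intR _ (continuous_const.mul (Complex.continuous_im.comp (map_continuous (fourier k))))
  rw [integral_add (hc _) (hc _), integral_const_mul, integral_const_mul, h1, h1]
  ring

theorem wm_im (k L : ℕ) (hk : 1 ≤ k) (hL : 1 ≤ L) (m : ℤ) : wm μ k (fun θ => (fourier m θ : ℂ).im) L = 0 := by
  rw [wm_lin k L hk hL (fun θ => (fourier m θ : ℂ).im) (Complex.continuous_im.comp (map_continuous (fourier m)))]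
  simp only [int_im_re, mul_zero, sum_const_zero, zero_div]

omit [IsProbabilityMeasure μ] in
theorem WX_le' (k L : ℕ) (hk : 1 ≤ k) (φ : UnitAddCircle → ℝ) (c : ℝ) (hc : ∀ θ, |φ θ| ≤ c) (x : X) :
    ‖WX k φ L x‖ ≤ c := by
  have hc0 : 0 ≤ c := (abs_nonneg _).trans (hc 0)
  obtain ⟨f, hf⟩ : ∃ f : ℕ → ℝ, f = fun h : ℕ => (x (h : ℤ) : ℝ) := ⟨_, rfl⟩
  have hf1 : ∀ n, |f n| ≤ 1 := fun n => by rw [hf]; exact val_le _
  have hV : ∀ θ, ‖VX L x θ‖ / (L : ℝ) = cr f 0 L θ := by
    intro θ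
    unfold VX cr V
    have h1 : Ioc 0 (0 + L) = Icc 1 L := by
      ext j
      simp only [mem_Ioc, mem_Icc]
      omega
    rw [h1, hf]
  obtain ⟨h1, h2, h3⟩ := par f hf1 0 L
  have h4 : |∫ θ : UnitAddCircle, φ θ * cr f 0 L θ ^ (2 * k)| ≤
      ∫ θ : UnitAddCircle, c * cr f 0 L θ ^ 2 := by
    rw [← Real.norm_eq_abs]
    refine norm_integral_le_of_norm_le (cont_intR _ (continuous_const.mul (h1.pow 2))) (Eventually.of_forall fun θ => ?_)
    rw [norm_mul, Real.norm_eq_abs, Real.norm_eq_abs, abs_of_nonneg (pow_nonneg (h2 θ).1 _)]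
    exact mul_le_mul (hc θ) (pow_le_pow_of_le_one (h2 θ).1 (h2 θ).2 (by omega)) (pow_nonneg (h2 θ).1 _) hc0
  have hL0 : (0 : ℝ) ≤ L := Nat.cast_nonneg L
  unfold WX
  simp only [hV]
  rw [Real.norm_eq_abs, abs_mul, abs_of_nonneg hL0]
  rw [integral_const_mul] at h4
  calc (L : ℝ) * |∫ θ : UnitAddCircle, φ θ * cr f 0 L θ ^ (2 * k)|
      ≤ L * (c * ∫ θ : UnitAddCircle, cr f 0 L θ ^ 2) := mul_le_mul_of_nonneg_left h4 hL0
    _ = c * (L * ∫ θ : UnitAddCircle, cr f 0 L θ ^ 2) := by ring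
    _ ≤ c * 1 := mul_le_mul_of_nonneg_left h3 hc0
    _ = c := mul_one c

theorem wm_le (k L : ℕ) (hk : 1 ≤ k) (φ : UnitAddCircle → ℝ) (c : ℝ) (hc : ∀ θ, |φ θ| ≤ c) :
    |wm μ k φ L| ≤ c := by
  unfold wm
  rw [← Real.norm_eq_abs]
  refine (norm_integral_le_of_norm_le_const (C := c) (Eventually.of_forall fun x => WX_le' k L hk φ c hc x)).trans ?_
  simp

/-- the convergence for one test function -/
def Conv (μ : Measure X) (γ : ℝ) (φ : UnitAddCircle → ℝ) : Prop :=
  Tendsto (fun L : ℕ => wm μ 2 φ L) atTop (𝓝 (γ * ∫ θ : UnitAddCircle, φ θ))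

theorem conv_add {γ : ℝ} {φ ψ : UnitAddCircle → ℝ} (hφ : Continuous φ) (hψ : Continuous ψ) (h1 : Conv μ γ φ)
    (h2 : Conv μ γ ψ) : Conv μ γ (fun θ => φ θ + ψ θ) := by
  unfold Conv at h1 h2 ⊢
  have e : γ * (∫ θ : UnitAddCircle, (φ θ + ψ θ)) = γ * (∫ θ : UnitAddCircle, φ θ) + γ * (∫ θ : UnitAddCircle, ψ θ) := by
    rw [integral_add (cont_intR _ hφ) (cont_intR _ hψ), mul_add]
  rw [e]
  refine (h1.add h2).congr' ?_
  filter_upwards [eventually_ge_atTop 1] with L hL
  exact (wm_add 2 L (by norm_num) hL φ ψ hφ hψ).symm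

theorem conv_smul {γ c : ℝ} {φ : UnitAddCircle → ℝ} (hφ : Continuous φ) (h1 : Conv μ γ φ) :
    Conv μ γ (fun θ => c * φ θ) := by
  unfold Conv at h1 ⊢
  have e : γ * ∫ θ : UnitAddCircle, (c * φ θ) = c * (γ * ∫ θ : UnitAddCircle, φ θ) := by
    rw [integral_const_mul]
    ring
  rw [e]
  refine (h1.const_mul c).congr' ?_
  filter_upwards [eventually_ge_atTop 1] with L hL
  exact (wm_smul 2 L (by norm_num) hL c φ hφ).symm

end DenL

open DenL ExkL ParL in
theorem den (hE : S_EXK) (hE2 : S_EX2) : S_DEN := by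
  intro μ hμ γ h0 hm φ
  -- the characters
  have hchar : ∀ m : ℤ, Conv μ γ (fun θ => (fourier m θ : ℂ).re) ∧ Conv μ γ (fun θ => (fourier m θ : ℂ).im) := by
    intro m
    have hint : ∫ θ : UnitAddCircle, (fourier m θ : ℂ).re = if m = 0 then 1 else 0 := by
      have h2 : Integrable (fun θ : UnitAddCircle => (fourier m θ : ℂ)) := cont_int _ (map_continuous (fourier m))
      have h3 : ∫ θ : UnitAddCircle, (fourier m θ : ℂ).re = (∫ θ : UnitAddCircle, (fourier m θ : ℂ)).re := integral_re h2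
      rw [h3, int_fourier]
      split_ifs <;> simp
    have hint2 : ∫ θ : UnitAddCircle, (fourier m θ : ℂ).im = 0 := by
      have h := int_im_re m 0
      simpa using h
    constructor
    · unfold Conv
      rw [hint]
      have h1 : (fun L : ℕ => wm μ 2 (fun θ => (fourier m θ : ℂ).re) L) =ᶠ[atTop] Gc (c4 μ) m := by
        filter_upwards [eventually_ge_atTop 1] with L hL
        rw [(hE μ 2 L m 1 (by norm_num) hL).2.2.1, hE2]
      refine Tendsto.congr' h1.symm ?_
      by_cases hm0 : m = 0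
      · rw [if_pos hm0, mul_one, hm0]
        exact h0
      · rw [if_neg hm0, mul_zero]
        exact hm m hm0
    · unfold Conv
      rw [hint2, mul_zero]
      refine tendsto_const_nhds.congr' ?_
      filter_upwards [eventually_ge_atTop 1] with L hL
      exact (wm_im 2 L (by norm_num) hL m).symm
  -- trigonometric polynomials
  have hspan : ∀ p ∈ Submodule.span ℂ (Set.range (fourier (T := 1))),
      Conv μ γ (fun θ => (p θ : ℂ).re) ∧ Conv μ γ (fun θ => (p θ : ℂ).im) := by
    intro p hp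
    induction hp using Submodule.span_induction with
    | mem p hp =>
      obtain ⟨m, rfl⟩ := hp
      exact hchar m
    | zero =>
      have h : Conv μ γ (fun _ => (0 : ℝ)) := by
        have h1 := conv_smul (c := 0) (re_cont 0) (hchar 0).1
        simpa using h1
      exact ⟨by simpa using h, by simpa using h⟩
    | add p q _ _ hp hq =>
      have cp := map_continuous p
      have cq := map_continuous q
      exact ⟨conv_add (Complex.continuous_re.comp cp) (Complex.continuous_re.comp cq) hp.1 hq.1,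
        conv_add (Complex.continuous_im.comp cp) (Complex.continuous_im.comp cq) hp.2 hq.2⟩
    | smul a p _ hp =>
      have cp := map_continuous p
      have cre : Continuous fun θ => (p θ : ℂ).re := Complex.continuous_re.comp cp
      have cim : Continuous fun θ => (p θ : ℂ).im := Complex.continuous_im.comp cp
      constructor
      · have h1 := conv_add (continuous_const.mul cre) (continuous_const.mul cim)
          (conv_smul (c := a.re) cre hp.1) (conv_smul (c := -a.im) cim hp.2)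
        have e : (fun θ => ((a • p) θ : ℂ).re) = fun θ => a.re * (p θ : ℂ).re + -a.im * (p θ : ℂ).im := by
          funext θ
          rw [ContinuousMap.smul_apply, smul_eq_mul, Complex.mul_re]
          ring
        rw [e]
        exact h1
      · have h1 := conv_add (continuous_const.mul cim) (continuous_const.mul cre)
          (conv_smul (c := a.re) cim hp.2) (conv_smul (c := a.im) cre hp.1)
        have e : (fun θ => ((a • p) θ : ℂ).im) = fun θ => a.re * (p θ : ℂ).im + a.im * (p θ : ℂ).re := by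
          funext θ
          rw [ContinuousMap.smul_apply, smul_eq_mul, Complex.mul_im]
        rw [e]
        exact h1
  -- density
  set φc : C(UnitAddCircle, ℂ) := ⟨fun θ => ((φ θ : ℝ) : ℂ), Complex.continuous_ofReal.comp (map_continuous φ)⟩ with hφc
  have hdense : φc ∈ closure ((Submodule.span ℂ (Set.range (fourier (T := 1))) : Submodule ℂ C(UnitAddCircle, ℂ)) :
      Set C(UnitAddCircle, ℂ)) := by
    have h := span_fourier_closure_eq_top (T := 1)
    have h1 : φc ∈ (Submodule.span ℂ (Set.range (fourier (T := 1)))).topologicalClosure := by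
      rw [h]
      exact Submodule.mem_top
    exact h1
  rw [Metric.tendsto_atTop]
  intro ε hε
  set δ : ℝ := ε / (4 * (|γ| + 1)) with hδ
  have hγ : 0 ≤ |γ| := abs_nonneg γ
  have hδ0 : 0 < δ := by positivity
  have hδ1 : δ ≤ ε / 4 := by
    rw [hδ, div_le_div_iff₀ (by positivity) (by norm_num)]
    nlinarith
  have hδ2 : |γ| * δ ≤ ε / 4 := by
    rw [hδ, mul_div_assoc', div_le_div_iff₀ (by positivity) (by norm_num)]
    nlinarith
  obtain ⟨p, hp, hdist⟩ := Metric.mem_closure_iff.1 hdense δ hδ0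
  have hpt : ∀ θ, |φ θ - (p θ : ℂ).re| ≤ δ := by
    intro θ
    have h1 : dist (φc θ) (p θ) ≤ dist φc p := ContinuousMap.dist_apply_le_dist θ
    rw [Complex.dist_eq] at h1
    have h2 : |(φc θ - p θ).re| ≤ ‖φc θ - p θ‖ := Complex.abs_re_le_norm _
    have h3 : (φc θ - p θ).re = φ θ - (p θ : ℂ).re := by
      rw [Complex.sub_re]
      rfl
    rw [h3] at h2
    linarith
  have cp : Continuous fun θ => (p θ : ℂ).re := Complex.continuous_re.comp (map_continuous p)
  have cφ : Continuous fun θ => φ θ := map_continuous φ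
  have hconv := (hspan p hp).1
  unfold Conv at hconv
  rw [Metric.tendsto_atTop] at hconv
  obtain ⟨N, hN⟩ := hconv (ε / 4) (by positivity)
  refine ⟨N + 1, fun L hL => ?_⟩
  have h1 := hN L (by omega)
  rw [Real.dist_eq] at h1 ⊢
  have h2 : |wm μ 2 φ L - wm μ 2 (fun θ => (p θ : ℂ).re) L| ≤ δ := by
    have e1 := wm_add (μ := μ) 2 L (by norm_num) (by omega) (fun θ => φ θ) (fun θ => (-1) * (p θ : ℂ).re) cφ
      (continuous_const.mul cp)
    have e2 := wm_smul (μ := μ) 2 L (by norm_num) (by omega) (-1) (fun θ => (p θ : ℂ).re) cp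
    have e3 : wm μ 2 φ L - wm μ 2 (fun θ => (p θ : ℂ).re) L =
        wm μ 2 (fun θ => φ θ + (-1) * (p θ : ℂ).re) L := by
      rw [e1, e2]
      ring
    rw [e3]
    refine wm_le 2 L (by norm_num) _ δ fun θ => ?_
    have e4 : φ θ + (-1) * (p θ : ℂ).re = φ θ - (p θ : ℂ).re := by ring
    rw [e4]
    exact hpt θ
  have h3 : |γ * (∫ θ : UnitAddCircle, (p θ : ℂ).re) - γ * ∫ θ : UnitAddCircle, φ θ| ≤ ε / 4 := by
    rw [← mul_sub, abs_mul]
    refine le_trans (mul_le_mul_of_nonneg_left ?_ hγ) hδ2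
    rw [← integral_sub (cont_intR _ cp) (cont_intR _ cφ), ← Real.norm_eq_abs]
    refine (norm_integral_le_of_norm_le_const (C := δ) (Eventually.of_forall fun θ => ?_)).trans ?_
    · rw [Real.norm_eq_abs, abs_sub_comm]
      exact hpt θ
    · rw [Measure.real, UnitAddCircle.measure_univ]
      simp
  have h4 := abs_le.1 h2
  have h5 := abs_le.1 h3
  have h6 := abs_lt.1 h1
  rw [abs_lt]
  constructor <;> linarith [h4.1, h4.2, h5.1, h5.2, h6.1, h6.2]

end Pool.Agent.Helper94K9.OP
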