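import Pool.Agent.Helper94K9.OP.St2
import Pool.Agent.Helper94K9.OP.Eqd
import Pool.Agent.Helper94K9.OP.Par
import Pool.Agent.Helper44K9.FU.Trig

/-!
# Project OP: equidistribution of `p θ` on the minor arcs, all test functions [EQC]
-/

set_option autoImplicit false

namespace Pool.Agent.Helper94K9.OP

open Finset MeasureTheory Filter Topology
open Pool.Agent.H807R2.Dav (ee norm_ee ee_add)

namespace EqcL

open EqdL

/-- finitely many characters -/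
theorem eqds (hW : Pool.Agent.Helper44K9.FC.S_WPR) (hCH : Pool.Agent.Helper44K9.FU.S_CHB) (S : Finset ℤ) (ε : ℝ)
    (hε : 0 < ε) : ∃ Q : ℕ, ∀ τ : ℝ, 0 < τ → ∀ (z : ℕ) (A : ℝ), ∃ I : Finset ℕ,
      (∀ p ∈ I, p.Prime ∧ z < p) ∧ A ≤ ∑ p ∈ I, 1 / (p : ℝ) ∧ ∀ θ ∉ Mj Q τ, ∀ m ∈ S, m ≠ 0 →
        ‖∑ p ∈ I, ((1 / (p : ℝ) : ℝ) : ℂ) * (fourier (m * (p : ℤ)) θ : ℂ)‖ ≤ ε * ∑ p ∈ I, 1 / (p : ℝ) := by
  obtain ⟨⟨b, hb, k₀, hk₀⟩, -⟩ := hCH
  obtain ⟨C, hC1, hWC⟩ := hW (b * ε) (by positivity)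
  refine ⟨C * ∑ m ∈ S, m.natAbs, fun τ hτ z A => ?_⟩
  obtain ⟨K, hK⟩ := hWC τ hτ
  obtain ⟨k₁, hk₁0, hk₁1, hk₁K, hk₁z⟩ : ∃ k₁ : ℕ, k₀ ≤ k₁ ∧ 1 ≤ k₁ ∧ K ≤ k₁ ∧ z ≤ 2 ^ k₁ := by
    refine ⟨k₀ + K + z + 1, by omega, by omega, by omega, ?_⟩
    exact le_trans (by omega) (Nat.lt_two_pow_self (n := k₀ + K + z + 1)).le
  obtain ⟨k₂, hk₂, hdiv⟩ : ∃ k₂ : ℕ, k₁ ≤ k₂ ∧ A ≤ b * ∑ k ∈ Ico k₁ k₂, 1 / (k : ℝ) := by
    have h1 := Real.tendsto_sum_range_one_div_nat_succ_atTop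
    obtain ⟨M, hM⟩ := (h1.eventually_ge_atTop (A / b + ∑ k ∈ range k₁, 1 / ((k : ℝ)))).exists
    refine ⟨max k₁ (M + 1), le_max_left _ _, ?_⟩
    have h2 : ∑ i ∈ range M, 1 / ((i : ℝ) + 1) = ∑ k ∈ range (M + 1), 1 / (k : ℝ) := by
      rw [sum_range_succ' (fun k : ℕ => 1 / (k : ℝ)) M]
      push_cast; simp
    rw [h2] at hM
    have h3 : ∑ k ∈ range (M + 1), 1 / (k : ℝ) ≤ ∑ k ∈ range (max k₁ (M + 1)), 1 / (k : ℝ) :=
      sum_le_sum_of_subset_of_nonneg (range_subset_range.2 (le_max_right _ _)) fun _ _ _ => by positivity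
    have h4 : ∑ k ∈ Ico k₁ (max k₁ (M + 1)), 1 / (k : ℝ) =
        ∑ k ∈ range (max k₁ (M + 1)), 1 / (k : ℝ) - ∑ k ∈ range k₁, 1 / (k : ℝ) :=
      sum_Ico_eq_sub _ (le_max_left _ _)
    rw [h4]
    have h5 : A / b ≤ ∑ k ∈ range (max k₁ (M + 1)), 1 / (k : ℝ) - ∑ k ∈ range k₁, 1 / (k : ℝ) := by
      linarith
    rw [div_le_iff₀ hb] at h5
    linarith
  set I : Finset ℕ := (Ioc (2 ^ k₁) (2 ^ k₂)).filter Nat.Prime with hI
  set L : ℝ := ∑ p ∈ I, 1 / (p : ℝ) with hL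
  have hLb : b * ∑ k ∈ Ico k₁ k₂, 1 / (k : ℝ) ≤ L := by
    have hbl := blocks (fun p => ((1 / (p : ℝ) : ℝ) : ℂ)) k₁ k₂ hk₂
    have h6 : L = ∑ k ∈ Ico k₁ k₂, ∑ p ∈ (Ioc (2 ^ k) (2 ^ (k + 1))).filter Nat.Prime, 1 / (p : ℝ) := by
      rw [hL, hI]
      exact_mod_cast hbl
    rw [h6, mul_sum]
    refine sum_le_sum fun k hk => ?_
    rw [mem_Ico] at hk
    rw [mul_one_div]
    exact hk₀ k (by omega)
  refine ⟨I, ?_, hdiv.trans hLb, fun θ hθ m hmS hm => ?_⟩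
  · intro p hp
    rw [hI, mem_filter, mem_Ioc] at hp
    exact ⟨hp.2, lt_of_le_of_lt hk₁z hp.1.1⟩
  obtain ⟨α, rfl⟩ := QuotientAddGroup.mk_surjective θ
  have hα : ∀ q : ℕ, 1 ≤ q → q ≤ C * m.natAbs → ∀ a : ℤ, τ < |q * α - a| := by
    intro q hq1 hqC a
    by_contra hcon
    push Not at hcon
    apply hθ
    refine ⟨q, hq1, hqC.trans (Nat.mul_le_mul_left _ ?_), ?_⟩
    · exact single_le_sum (f := fun j : ℤ => j.natAbs) (fun _ _ => Nat.zero_le _) hmS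
    have h1 : q • ((α : ℝ) : UnitAddCircle) = ((q * α : ℝ) : UnitAddCircle) := by
      rw [← AddCircle.coe_nsmul]
      simp
    have h2 := norm_coe_le (q * α) a
    rw [← h1] at h2
    exact h2.trans hcon
  have e1 : ∑ p ∈ I, ((1 / (p : ℝ) : ℝ) : ℂ) * (fourier (m * (p : ℤ)) ((α : ℝ) : UnitAddCircle) : ℂ) =
      ∑ k ∈ Ico k₁ k₂, ∑ p ∈ (Ioc (2 ^ k) (2 ^ (k + 1))).filter Nat.Prime,
        ((1 / (p : ℝ) : ℝ) : ℂ) * ee (p * (m * α)) := by
    rw [← blocks (fun p => ((1 / (p : ℝ) : ℝ) : ℂ) * ee (p * (m * α))) k₁ k₂ hk₂]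
    refine sum_congr rfl fun p _ => ?_
    rw [MajL.fourier_ee]
    congr 2
    push_cast
    ring
  have e2 : ‖∑ p ∈ I, ((1 / (p : ℝ) : ℝ) : ℂ) * (fourier (m * (p : ℤ)) ((α : ℝ) : UnitAddCircle) : ℂ)‖ ≤
      ε * L := by
    rw [e1]
    calc ‖∑ k ∈ Ico k₁ k₂, ∑ p ∈ (Ioc (2 ^ k) (2 ^ (k + 1))).filter Nat.Prime,
          ((1 / (p : ℝ) : ℝ) : ℂ) * ee (p * (m * α))‖
        ≤ ∑ k ∈ Ico k₁ k₂, b * ε / k := by
          refine norm_sum_le_of_le _ fun k hk => ?_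
          rw [mem_Ico] at hk
          refine hK k (by omega) (m * α) fun q hq1 hqC a' => ?_
          have h1 := hα (q * m.natAbs) (Nat.mul_pos hq1 (Int.natAbs_pos.2 hm)) (Nat.mul_le_mul_right _ hqC)
            (if 0 ≤ m then a' else -a')
          have h5 : |((q * m.natAbs : ℕ) : ℝ) * α - ((if 0 ≤ m then a' else -a' : ℤ) : ℝ)| =
              |q * (m * α) - a'| := by
            have h6 : ((m.natAbs : ℕ) : ℝ) = ((|m| : ℤ) : ℝ) := by
              rw [Int.abs_eq_natAbs, Int.cast_natCast]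
            split_ifs with hj1
            · push_cast
              rw [h6, abs_of_nonneg hj1]
              congr 1; ring
            · push Not at hj1
              push_cast
              rw [h6, abs_of_neg hj1]
              push_cast
              rw [show (q : ℝ) * -(m : ℝ) * α - -(a' : ℝ) = -(q * (m * α) - a') by ring, abs_neg]
          rwa [h5] at h1
      _ = ε * (b * ∑ k ∈ Ico k₁ k₂, 1 / (k : ℝ)) := by
          rw [mul_sum, mul_sum]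
          exact sum_congr rfl fun k _ => by ring
      _ ≤ ε * L := mul_le_mul_of_nonneg_left hLb hε.le
  exact e2

end EqcL

open EqcL ParL in
theorem eqc (hW : Pool.Agent.Helper44K9.FC.S_WPR) (hCH : Pool.Agent.Helper44K9.FU.S_CHB) : S_EQC := by
  intro φ ε hε
  set φc : C(UnitAddCircle, ℂ) := ⟨fun θ => ((φ θ : ℝ) : ℂ), Complex.continuous_ofReal.comp (map_continuous φ)⟩ with hφc
  obtain ⟨c, hc⟩ := Pool.Agent.Helper44K9.FU.TrigL.approx φc (ε / 4) (by positivity)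
  set T : ℝ := ∑ j ∈ c.support, ‖c j‖ + 1 with hT
  have hT0 : 0 < T := by
    have : 0 ≤ ∑ j ∈ c.support, ‖c j‖ := sum_nonneg fun _ _ => norm_nonneg _
    linarith
  obtain ⟨Q, hQ⟩ := eqds hW hCH c.support (ε / (4 * T)) (by positivity)
  refine ⟨Q, fun τ hτ z A => ?_⟩
  obtain ⟨I, hI1, hI2, hI3⟩ := hQ τ hτ z A
  refine ⟨I, hI1, hI2, fun θ hθ => ?_⟩
  set W : ℝ := ∑ p ∈ I, 1 / (p : ℝ) with hW'
  have hW0 : 0 ≤ W := sum_nonneg fun _ _ => by positivity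
  set P : UnitAddCircle → ℂ := fun z => ∑ j ∈ c.support, c j * fourier j z with hP
  have hPc : Continuous P := continuous_finsetSum _ fun j _ => continuous_const.mul (map_continuous (fourier j))
  have hc0 : ‖c 0 - ((∫ γ : UnitAddCircle, φ γ : ℝ) : ℂ)‖ ≤ ε / 4 := by
    have h1 := Pool.Agent.Helper44K9.FU.TrigL.mean c
    have h2 : c 0 - ((∫ γ : UnitAddCircle, φ γ : ℝ) : ℂ) = ∫ γ : UnitAddCircle, (P γ - φc γ) := by
      rw [integral_sub (cont_int _ hPc) (cont_int _ (map_continuous φc)), ← h1]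
      congr 1
      exact integral_ofReal.symm
    rw [h2]
    refine (norm_integral_le_of_norm_le_const (C := ε / 4) (Eventually.of_forall fun γ => hc γ)).trans ?_
    have h : (volume : Measure UnitAddCircle).real Set.univ = 1 := by
      rw [measureReal_def, UnitAddCircle.measure_univ]
      rfl
    rw [h, mul_one]
  have hPz : ∀ p ∈ I, P (p • θ) - c 0 = ∑ j ∈ c.support.filter (fun j => j ≠ 0), c j * (fourier (j * (p : ℤ)) θ : ℂ) := by
    intro p _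
    have h1 : ∀ j : ℤ, (fourier j (p • θ) : ℂ) = fourier (j * (p : ℤ)) θ := by
      intro j
      rw [fourier_apply, fourier_apply]
      congr 2
      rw [mul_zsmul, natCast_zsmul]
    have h2 : P (p • θ) = ∑ j ∈ c.support, c j * (fourier (j * (p : ℤ)) θ : ℂ) := by
      rw [hP]
      simp only [h1]
    rw [h2, ← sum_filter_add_sum_filter_not c.support (fun j => j ≠ 0)]
    have h3 : ∑ j ∈ c.support.filter (fun j => ¬ j ≠ 0), c j * (fourier (j * (p : ℤ)) θ : ℂ) = c 0 := by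
      by_cases h0 : (0 : ℤ) ∈ c.support
      · have h4 : c.support.filter (fun j => ¬ j ≠ 0) = {0} := by
          ext j
          simp only [mem_filter, ne_eq, not_not, mem_singleton]
          constructor
          · exact fun h => h.2
          · rintro rfl
            exact ⟨h0, rfl⟩
        rw [h4, sum_singleton]
        simp
      · have h4 : c.support.filter (fun j => ¬ j ≠ 0) = ∅ := by
          ext j
          simp only [mem_filter, ne_eq, not_not, notMem_empty, iff_false, not_and]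
          rintro hj rfl
          exact h0 hj
        rw [h4, sum_empty]
        exact (Finsupp.notMem_support_iff.1 h0).symm
    rw [h3, add_sub_cancel_right]
  have key : ‖∑ p ∈ I, ((1 / (p : ℝ) : ℝ) : ℂ) * (((φ (p • θ) : ℝ) : ℂ) - ((∫ γ : UnitAddCircle, φ γ : ℝ) : ℂ))‖ ≤
      ε * W := by
    have e1 : ∑ p ∈ I, ((1 / (p : ℝ) : ℝ) : ℂ) * (((φ (p • θ) : ℝ) : ℂ) - ((∫ γ : UnitAddCircle, φ γ : ℝ) : ℂ)) =
        (∑ p ∈ I, ((1 / (p : ℝ) : ℝ) : ℂ) * (((φ (p • θ) : ℝ) : ℂ) - P (p • θ))) +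
        (∑ p ∈ I, ((1 / (p : ℝ) : ℝ) : ℂ) * (P (p • θ) - c 0)) +
        (∑ p ∈ I, ((1 / (p : ℝ) : ℝ) : ℂ) * (c 0 - ((∫ γ : UnitAddCircle, φ γ : ℝ) : ℂ))) := by
      rw [← sum_add_distrib, ← sum_add_distrib]
      refine sum_congr rfl fun p _ => ?_
      ring
    have b1 : ‖∑ p ∈ I, ((1 / (p : ℝ) : ℝ) : ℂ) * (((φ (p • θ) : ℝ) : ℂ) - P (p • θ))‖ ≤ ε / 4 * W := by
      rw [hW', mul_sum]
      refine norm_sum_le_of_le _ fun p _ => ?_
      rw [norm_mul, Complex.norm_real, Real.norm_eq_abs, abs_of_nonneg (by positivity : (0 : ℝ) ≤ 1 / (p : ℝ)), mul_comm]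
      refine mul_le_mul_of_nonneg_right ?_ (by positivity)
      rw [norm_sub_rev]
      exact hc (p • θ)
    have b3 : ‖∑ p ∈ I, ((1 / (p : ℝ) : ℝ) : ℂ) * (c 0 - ((∫ γ : UnitAddCircle, φ γ : ℝ) : ℂ))‖ ≤ ε / 4 * W := by
      rw [hW', mul_sum]
      refine norm_sum_le_of_le _ fun p _ => ?_
      rw [norm_mul, Complex.norm_real, Real.norm_eq_abs, abs_of_nonneg (by positivity : (0 : ℝ) ≤ 1 / (p : ℝ)), mul_comm]
      exact mul_le_mul_of_nonneg_right hc0 (by positivity)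
    have b2 : ‖∑ p ∈ I, ((1 / (p : ℝ) : ℝ) : ℂ) * (P (p • θ) - c 0)‖ ≤ ε / 4 * W := by
      have e2 : ∑ p ∈ I, ((1 / (p : ℝ) : ℝ) : ℂ) * (P (p • θ) - c 0) =
          ∑ j ∈ c.support.filter (fun j => j ≠ 0), c j *
            ∑ p ∈ I, ((1 / (p : ℝ) : ℝ) : ℂ) * (fourier (j * (p : ℤ)) θ : ℂ) := by
        rw [sum_congr rfl fun p hp => by rw [hPz p hp]]
        simp only [mul_sum]
        rw [sum_comm]
        refine sum_congr rfl fun j _ => sum_congr rfl fun p _ => ?_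
        ring
      rw [e2]
      calc ‖∑ j ∈ c.support.filter (fun j => j ≠ 0), c j *
            ∑ p ∈ I, ((1 / (p : ℝ) : ℝ) : ℂ) * (fourier (j * (p : ℤ)) θ : ℂ)‖
          ≤ ∑ j ∈ c.support.filter (fun j => j ≠ 0), ‖c j‖ * (ε / (4 * T) * W) := by
            refine norm_sum_le_of_le _ fun j hj => ?_
            rw [mem_filter] at hj
            rw [norm_mul]
            exact mul_le_mul_of_nonneg_left (hI3 θ hθ j hj.1 hj.2) (norm_nonneg _)
        _ = (∑ j ∈ c.support.filter (fun j => j ≠ 0), ‖c j‖) * (ε / (4 * T) * W) := by rw [sum_mul]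
        _ ≤ T * (ε / (4 * T) * W) := by
            refine mul_le_mul_of_nonneg_right ?_ (by positivity)
            have h1 : ∑ j ∈ c.support.filter (fun j => j ≠ 0), ‖c j‖ ≤ ∑ j ∈ c.support, ‖c j‖ :=
              sum_le_sum_of_subset_of_nonneg (filter_subset _ _) fun _ _ _ => norm_nonneg _
            linarith
        _ = ε / 4 * W := by
            field_simp
    rw [e1]
    refine (norm_add_le _ _).trans ?_
    have h5 := norm_add_le (∑ p ∈ I, ((1 / (p : ℝ) : ℝ) : ℂ) * (((φ (p • θ) : ℝ) : ℂ) - P (p • θ)))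
      (∑ p ∈ I, ((1 / (p : ℝ) : ℝ) : ℂ) * (P (p • θ) - c 0))
    have h6 : 0 ≤ ε * W := by positivity
    linarith
  have e3 : ((∑ p ∈ I, (1 / (p : ℝ)) * (φ (p • θ) - ∫ γ : UnitAddCircle, φ γ) : ℝ) : ℂ) =
      ∑ p ∈ I, ((1 / (p : ℝ) : ℝ) : ℂ) * (((φ (p • θ) : ℝ) : ℂ) - ((∫ γ : UnitAddCircle, φ γ : ℝ) : ℂ)) := by
    rw [Complex.ofReal_sum]
    refine sum_congr rfl fun p _ => ?_
    rw [Complex.ofReal_mul, Complex.ofReal_sub]
  rw [← e3, Complex.norm_real, Real.norm_eq_abs] at key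
  exact key

end Pool.Agent.Helper94K9.OP
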