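import Pool.Agent.Helper94K9.OP.Stm

/-! Leaf [EX2] (helper94): the case `k = 2`. -/

set_option autoImplicit false

namespace Pool.Agent.Helper94K9.OP

open Finset MeasureTheory Filter Topology

namespace Ex2L

theorem sum_two (s : Finset ℕ) (F : (Fin 2 → ℕ) → ℝ) :
    ∑ g ∈ Fintype.piFinset (fun _ : Fin 2 => s), F g = ∑ a ∈ s, ∑ b ∈ s, F ![a, b] := by
  rw [← sum_product']
  refine sum_nbij' (fun g => (g 0, g 1)) (fun p => ![p.1, p.2]) ?_ ?_ ?_ ?_ ?_
  · intro g hg
    rw [Fintype.mem_piFinset] at hg
    exact mem_product.2 ⟨hg 0, hg 1⟩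
  · intro p hp
    rw [mem_product] at hp
    rw [Fintype.mem_piFinset]
    intro i
    fin_cases i
    · exact hp.1
    · exact hp.2
  · intro g _
    funext i
    fin_cases i <;> rfl
  · intro p _
    rfl
  · intro g _
    congr 1
    funext i
    fin_cases i <;> rfl

end Ex2L

open Ex2L in
/-- **EX2** -/
theorem ex2 : S_EX2 := by
  intro μ m L
  unfold Gk Gc
  congr 1
  simp only [sum_two, Fin.sum_univ_two, Fin.prod_univ_two, Matrix.cons_val_zero, Matrix.cons_val_one]
  refine sum_congr rfl fun a _ => sum_congr rfl fun b _ => sum_congr rfl fun c _ => sum_congr rfl fun d _ => ?_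
  have h1 : ((a : ℤ) + b - (c + d) = m) ↔ ((a : ℤ) + b - c - d = m) := by
    constructor <;> intro h <;> omega
  simp only [h1]
  split_ifs
  · unfold c4
    refine integral_congr_ae (Eventually.of_forall fun x => ?_)
    simp only
    ring
  · rfl

end Pool.Agent.Helper94K9.OP
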