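import Pool.Agent.Helper94K9.OP.Par

/-! Leaf [EXK] (helper94): expansion of the powers. -/

set_option autoImplicit false

namespace Pool.Agent.Helper94K9.OP

open Finset MeasureTheory Filter Topology

namespace ExkL

open ParL

theorem val_le (z : Val) : |(z : ℝ)| ≤ 1 := by
  have h := z.2
  simp only [Set.mem_insert_iff, Set.mem_singleton_iff] at h
  rcases h with h | h | h <;> rw [h] <;> simp

theorem prod_fourier {k : ℕ} (a : Fin k → ℤ) (θ : UnitAddCircle) :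
    ∏ i, (fourier (a i) θ : ℂ) = fourier (∑ i, a i) θ := by
  have h : ∀ s : Finset (Fin k), ∏ i ∈ s, (fourier (a i) θ : ℂ) = fourier (∑ i ∈ s, a i) θ := by
    intro s
    classical
    induction s using Finset.induction_on with
    | empty => simp
    | insert b s hb ih => rw [prod_insert hb, sum_insert hb, ih, fourier_add]
  exact h univ

/-- the product of the coordinates -/
noncomputable def C {k : ℕ} (g g' : Fin k → ℕ) (x : X) : ℝ :=
  (∏ i, (x (g i : ℤ) : ℝ)) * ∏ i, (x (g' i : ℤ) : ℝ)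

theorem C_cont {k : ℕ} (g g' : Fin k → ℕ) : Continuous (C g g') := by
  unfold C
  fun_prop

theorem C_le {k : ℕ} (g g' : Fin k → ℕ) (x : X) : ‖C g g' x‖ ≤ 1 := by
  unfold C
  have h : ∀ g : Fin k → ℕ, ‖∏ i, (x (g i : ℤ) : ℝ)‖ ≤ 1 := by
    intro g
    rw [norm_prod]
    refine prod_le_one (fun i _ => norm_nonneg _) fun i _ => ?_
    rw [Real.norm_eq_abs]
    exact val_le _
  rw [norm_mul]
  exact mul_le_one₀ (h g) (norm_nonneg _) (h g')

theorem C_swap {k : ℕ} (g g' : Fin k → ℕ) (x : X) : C g g' x = C g' g x := by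
  unfold C
  ring

theorem VX_cont (L : ℕ) (x : X) : Continuous (VX L x) := by
  unfold VX
  exact continuous_finsetSum _ fun m _ => continuous_const.mul (map_continuous (fourier (m : ℤ)))

theorem pow_exp (k L : ℕ) (x : X) (θ : UnitAddCircle) : ((‖VX L x θ‖ ^ (2 * k) : ℝ) : ℂ) =
    ∑ g ∈ Fintype.piFinset (fun _ : Fin k => Icc 1 L), ∑ g' ∈ Fintype.piFinset (fun _ : Fin k => Icc 1 L),
      ((C g g' x : ℝ) : ℂ) * (fourier (∑ i, (g i : ℤ) - ∑ i, (g' i : ℤ)) θ : ℂ) := by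
  have h1 : (VX L x θ) ^ k = ∑ g ∈ Fintype.piFinset (fun _ : Fin k => Icc 1 L),
      (((∏ i, (x (g i : ℤ) : ℝ)) : ℝ) : ℂ) * (fourier (∑ i, (g i : ℤ)) θ : ℂ) := by
    have h2 : (VX L x θ) ^ k = ∏ _i : Fin k, ∑ h ∈ Icc 1 L, ((x (h : ℤ) : ℝ) : ℂ) * (fourier (h : ℤ) θ : ℂ) := by
      unfold VX
      rw [prod_const, card_univ, Fintype.card_fin]
    rw [h2, prod_univ_sum]
    refine sum_congr rfl fun g _ => ?_
    rw [prod_mul_distrib, prod_fourier]
    push_cast
    rfl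
  have h3 : ((‖VX L x θ‖ ^ (2 * k) : ℝ) : ℂ) = (VX L x θ) ^ k * (starRingEnd ℂ) ((VX L x θ) ^ k) := by
    rw [map_pow, ← mul_pow, Complex.mul_conj, Complex.normSq_eq_norm_sq, pow_mul]
    push_cast
    rfl
  rw [h3, h1, map_sum, sum_mul_sum]
  refine sum_congr rfl fun g _ => sum_congr rfl fun g' _ => ?_
  rw [map_mul, Complex.conj_ofReal, conj_fourier, sub_eq_add_neg, fourier_add]
  unfold C
  push_cast
  ring

/-- the Fourier coefficients of the power -/
theorem coef (k L : ℕ) (x : X) (m : ℤ) :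
    ∫ θ : UnitAddCircle, (fourier m θ : ℂ).re * ‖VX L x θ‖ ^ (2 * k) =
      ∑ g ∈ Fintype.piFinset (fun _ : Fin k => Icc 1 L), ∑ g' ∈ Fintype.piFinset (fun _ : Fin k => Icc 1 L),
        if ∑ i, (g i : ℤ) - ∑ i, (g' i : ℤ) = m then C g g' x else 0 := by
  have h1 : ∫ θ : UnitAddCircle, (fourier m θ : ℂ) * ((‖VX L x θ‖ ^ (2 * k) : ℝ) : ℂ) =
      ((∑ g ∈ Fintype.piFinset (fun _ : Fin k => Icc 1 L), ∑ g' ∈ Fintype.piFinset (fun _ : Fin k => Icc 1 L),
        if ∑ i, (g i : ℤ) - ∑ i, (g' i : ℤ) = -m then C g g' x else 0 : ℝ) : ℂ) := by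
    simp only [pow_exp, mul_sum]
    rw [integral_finsetSum _ fun g _ => cont_int _ (by fun_prop)]
    push_cast
    refine sum_congr rfl fun g _ => ?_
    rw [integral_finsetSum _ fun g' _ => cont_int _ (by fun_prop)]
    refine sum_congr rfl fun g' _ => ?_
    have h2 : ∀ θ : UnitAddCircle, (fourier m θ : ℂ) * (((C g g' x : ℝ) : ℂ) *
        (fourier (∑ i, (g i : ℤ) - ∑ i, (g' i : ℤ)) θ : ℂ)) = ((C g g' x : ℝ) : ℂ) *
        (fourier (m + (∑ i, (g i : ℤ) - ∑ i, (g' i : ℤ))) θ : ℂ) := by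
      intro θ
      rw [fourier_add]
      ring
    simp only [h2, integral_const_mul, int_fourier]
    by_cases h3 : ∑ i, (g i : ℤ) - ∑ i, (g' i : ℤ) = -m
    · rw [if_pos h3, if_pos (by omega), mul_one]
    · rw [if_neg h3, if_neg (by omega), mul_zero]
      simp
  have h4 : ∫ θ : UnitAddCircle, (fourier m θ : ℂ).re * ‖VX L x θ‖ ^ (2 * k) =
      (∫ θ : UnitAddCircle, (fourier m θ : ℂ) * ((‖VX L x θ‖ ^ (2 * k) : ℝ) : ℂ)).re := by
    have h5 : Integrable fun θ : UnitAddCircle => (fourier m θ : ℂ) * ((‖VX L x θ‖ ^ (2 * k) : ℝ) : ℂ) := by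
      refine cont_int _ ?_
      have := VX_cont L x
      fun_prop
    have h6 := integral_re h5
    have h7 : ∀ θ : UnitAddCircle, RCLike.re ((fourier m θ : ℂ) * ((‖VX L x θ‖ ^ (2 * k) : ℝ) : ℂ)) =
        (fourier m θ : ℂ).re * ‖VX L x θ‖ ^ (2 * k) := by
      intro θ
      show ((fourier m θ : ℂ) * ((‖VX L x θ‖ ^ (2 * k) : ℝ) : ℂ)).re = _
      rw [Complex.re_mul_ofReal]
    simp only [h7] at h6
    exact h6
  rw [h4, h1, Complex.ofReal_re, sum_comm]
  refine sum_congr rfl fun g _ => sum_congr rfl fun g' _ => ?_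
  rw [C_swap]
  by_cases h8 : ∑ i, (g i : ℤ) - ∑ i, (g' i : ℤ) = m
  · rw [if_pos h8, if_pos (by omega)]
  · rw [if_neg h8, if_neg (by omega)]

theorem scal (k L : ℕ) (hk : 1 ≤ k) (hL : 1 ≤ L) (φ : UnitAddCircle → ℝ) (x : X) :
    WX k φ L x = (∫ θ : UnitAddCircle, φ θ * ‖VX L x θ‖ ^ (2 * k)) / (L : ℝ) ^ (2 * k - 1) := by
  unfold WX
  have hL0 : (L : ℝ) ≠ 0 := by
    have : (0 : ℝ) < L := by exact_mod_cast hL
    exact this.ne'
  simp only [div_pow, ← mul_div_assoc]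
  rw [integral_div]
  have h1 : (L : ℝ) ^ (2 * k) = L * (L : ℝ) ^ (2 * k - 1) := by
    rw [← pow_succ']
    congr 1
    omega
  rw [h1]
  field_simp

theorem WX_re (k L : ℕ) (hk : 1 ≤ k) (hL : 1 ≤ L) (m : ℤ) (x : X) : WX k (fun θ => (fourier m θ : ℂ).re) L x =
    (∑ g ∈ Fintype.piFinset (fun _ : Fin k => Icc 1 L), ∑ g' ∈ Fintype.piFinset (fun _ : Fin k => Icc 1 L),
        if ∑ i, (g i : ℤ) - ∑ i, (g' i : ℤ) = m then C g g' x else 0) / (L : ℝ) ^ (2 * k - 1) := by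
  rw [scal k L hk hL, coef]

variable {μ : Measure X} [IsProbabilityMeasure μ]

theorem C_int {k : ℕ} (g g' : Fin k → ℕ) : Integrable (C g g') μ :=
  Integrable.of_bound (C_cont g g').measurable.aestronglyMeasurable 1 (Eventually.of_forall (C_le g g'))

theorem wm_re (k L : ℕ) (hk : 1 ≤ k) (hL : 1 ≤ L) (m : ℤ) :
    wm μ k (fun θ => (fourier m θ : ℂ).re) L = Gk μ k m L := by
  unfold wm
  simp only [WX_re k L hk hL]
  rw [integral_div]
  unfold Gk
  congr 1
  have hi : ∀ g g' : Fin k → ℕ, Integrable (fun x => if ∑ i, (g i : ℤ) - ∑ i, (g' i : ℤ) = m then C g g' x else 0) μ := by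
    intro g g'
    split_ifs
    · exact C_int g g'
    · exact integrable_const _
  rw [integral_finsetSum _ fun g _ => integrable_finsetSum _ fun g' _ => hi g g']
  refine sum_congr rfl fun g _ => ?_
  rw [integral_finsetSum _ fun g' _ => hi g g']
  refine sum_congr rfl fun g' _ => ?_
  split_ifs
  · rfl
  · simp

theorem WX_re_int (k L : ℕ) (hk : 1 ≤ k) (hL : 1 ≤ L) (m : ℤ) :
    Integrable (fun x => WX k (fun θ => (fourier m θ : ℂ).re) L x) μ := by
  simp only [WX_re k L hk hL]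
  refine Integrable.div_const ?_ _
  refine integrable_finsetSum _ fun g _ => integrable_finsetSum _ fun g' _ => ?_
  split_ifs
  · exact C_int g g'
  · exact integrable_const _

theorem one_eq : (fun _ : UnitAddCircle => (1 : ℝ)) = fun θ => (fourier 0 θ : ℂ).re := by
  funext θ
  simp

omit [IsProbabilityMeasure μ] in
theorem WX_ph (k L : ℕ) (m : ℤ) (σ : ℝ) (x : X) : WX k (ph m σ) L x =
    WX k (fun θ => (fourier 0 θ : ℂ).re) L x + σ * WX k (fun θ => (fourier m θ : ℂ).re) L x := by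
  unfold WX ph
  have hc : ∀ n : ℤ, Continuous fun θ : UnitAddCircle => (fourier n θ : ℂ).re * (‖VX L x θ‖ / (L : ℝ)) ^ (2 * k) := by
    intro n
    have h1 := VX_cont L x
    have h2 : Continuous fun θ : UnitAddCircle => (fourier n θ : ℂ).re :=
      Complex.continuous_re.comp (map_continuous (fourier n))
    exact h2.mul ((h1.norm.div_const _).pow _)
  have h3 : ∀ θ : UnitAddCircle, (1 + σ * (fourier m θ : ℂ).re) * (‖VX L x θ‖ / (L : ℝ)) ^ (2 * k) =
      (fourier 0 θ : ℂ).re * (‖VX L x θ‖ / (L : ℝ)) ^ (2 * k) +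
        σ * ((fourier m θ : ℂ).re * (‖VX L x θ‖ / (L : ℝ)) ^ (2 * k)) := by
    intro θ
    have : (fourier 0 θ : ℂ).re = 1 := by simp
    rw [this]
    ring
  simp only [h3]
  rw [integral_add (cont_intR _ (hc 0)) ((cont_intR _ (hc m)).const_mul σ), integral_const_mul]
  ring

omit [IsProbabilityMeasure μ] in
theorem WX_le (k L : ℕ) (hk : 1 ≤ k) (hL : 1 ≤ L) (m : ℤ) (x : X) :
    ‖WX k (fun θ => (fourier m θ : ℂ).re) L x‖ ≤ 1 := by
  obtain ⟨f, hf⟩ : ∃ f : ℕ → ℝ, f = fun h : ℕ => (x (h : ℤ) : ℝ) := ⟨_, rfl⟩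
  have hf1 : ∀ n, |f n| ≤ 1 := fun n => by rw [hf]; exact val_le _
  have hV : ∀ θ, ‖VX L x θ‖ / (L : ℝ) = cr f 0 L θ := by
    intro θ
    unfold VX cr V
    have h1 : Ioc 0 (0 + L) = Icc 1 L := by
      ext j
      simp only [mem_Ioc, mem_Icc]
      omega
    rw [h1, hf]
  obtain ⟨h1, h2, h3⟩ := par f hf1 0 L
  have h4 : |∫ θ : UnitAddCircle, (fourier m θ : ℂ).re * cr f 0 L θ ^ (2 * k)| ≤
      ∫ θ : UnitAddCircle, cr f 0 L θ ^ 2 := by
    rw [← Real.norm_eq_abs]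
    refine norm_integral_le_of_norm_le (cont_intR _ (h1.pow 2)) (Eventually.of_forall fun θ => ?_)
    rw [norm_mul, Real.norm_eq_abs, Real.norm_eq_abs, abs_of_nonneg (pow_nonneg (h2 θ).1 _)]
    have h5 : |(fourier m θ : ℂ).re| ≤ 1 := (Complex.abs_re_le_norm _).trans (norm_fourier m θ).le
    calc |(fourier m θ : ℂ).re| * cr f 0 L θ ^ (2 * k) ≤ 1 * cr f 0 L θ ^ 2 :=
          mul_le_mul h5 (pow_le_pow_of_le_one (h2 θ).1 (h2 θ).2 (by omega)) (pow_nonneg (h2 θ).1 _) zero_le_one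
      _ = cr f 0 L θ ^ 2 := one_mul _
  have hL0 : (0 : ℝ) ≤ L := Nat.cast_nonneg L
  unfold WX
  simp only [hV]
  rw [Real.norm_eq_abs, abs_mul, abs_of_nonneg hL0]
  exact (mul_le_mul_of_nonneg_left h4 hL0).trans h3

end ExkL

open ExkL in
/-- **EXK** -/
theorem exk : S_EXK := by
  intro μ hμ k L m σ hk hL
  have h1 : wm μ k (fun _ => 1) L = Gk μ k 0 L := by
    rw [one_eq]
    exact wm_re k L hk hL 0
  refine ⟨h1, ?_, wm_re k L hk hL m, ?_⟩
  · unfold wm
    simp only [WX_ph]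
    rw [integral_add (WX_re_int k L hk hL 0) ((WX_re_int k L hk hL m).const_mul σ), integral_const_mul]
    have h2 := wm_re (μ := μ) k L hk hL 0
    have h3 := wm_re (μ := μ) k L hk hL m
    unfold wm at h2 h3
    rw [h2, h3]
  · rw [← wm_re k L hk hL m]
    unfold wm
    rw [← Real.norm_eq_abs]
    refine (norm_integral_le_of_norm_le_const (C := 1) (Eventually.of_forall fun x => WX_le k L hk hL m x)).trans ?_
    simp

end Pool.Agent.Helper94K9.OP
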