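import Pool.Agent.Helper94K9.OP.St4

/-!
# [GAL] the inequality of Gallagher
-/

set_option autoImplicit false

namespace Pool.Agent.Helper94K9.OP

open Finset MeasureTheory Filter Topology

namespace GalL

/-- the integrand -/
noncomputable def Ph (L : ℕ) (x : X) (θ : UnitAddCircle) : ℝ :=
  8 * (‖VX L x θ‖ ^ 2 / L) + 7 * (‖DX L x θ‖ ^ 2 / (L : ℝ) ^ 3)

theorem VX_cont (L : ℕ) (x : X) : Continuous (fun θ : UnitAddCircle => VX L x θ) := by
  unfold VX
  exact continuous_finsetSum _ fun h _ => continuous_const.mul (fourier (h : ℤ)).continuous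

theorem DX_cont (L : ℕ) (x : X) : Continuous (fun θ : UnitAddCircle => DX L x θ) := by
  unfold DX
  exact continuous_finsetSum _ fun h _ => continuous_const.mul (fourier (h : ℤ)).continuous

theorem Ph_cont (L : ℕ) (x : X) : Continuous (Ph L x) := by
  unfold Ph
  exact (continuous_const.mul (((VX_cont L x).norm.pow 2).div_const _)).add
    (continuous_const.mul (((DX_cont L x).norm.pow 2).div_const _))

theorem Ph_nonneg (L : ℕ) (x : X) (θ : UnitAddCircle) : 0 ≤ Ph L x θ := by
  unfold Ph
  positivity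

theorem VX_der (L : ℕ) (x : X) (s : ℝ) :
    HasDerivAt (fun s : ℝ => VX L x (s : UnitAddCircle))
      (2 * Real.pi * Complex.I * DX L x (s : UnitAddCircle)) s := by
  unfold VX DX
  rw [Finset.mul_sum]
  refine HasDerivAt.fun_sum fun h _ => ?_
  have h1 := (hasDerivAt_fourier (1 : ℝ) (h : ℤ) s).const_mul (((x (h : ℤ) : ℝ) : ℂ))
  refine h1.congr_deriv ?_
  push_cast
  ring

/-- the derivative of the square of the norm -/
noncomputable def gd (L : ℕ) (x : X) (s : ℝ) : ℝ :=
  2 * inner ℝ (VX L x (s : UnitAddCircle)) (2 * Real.pi * Complex.I * DX L x (s : UnitAddCircle))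

theorem gd_der (L : ℕ) (x : X) (s : ℝ) :
    HasDerivAt (fun s : ℝ => ‖VX L x (s : UnitAddCircle)‖ ^ 2) (gd L x s) s :=
  (VX_der L x s).norm_sq

theorem coe_cont : Continuous (fun s : ℝ => (s : UnitAddCircle)) := AddCircle.continuous_mk' 1

theorem gd_cont (L : ℕ) (x : X) : Continuous (gd L x) := by
  unfold gd
  refine continuous_const.mul (Continuous.inner ((VX_cont L x).comp coe_cont) ?_)
  exact continuous_const.mul ((DX_cont L x).comp coe_cont)

theorem gd_le (L : ℕ) (x : X) (hL : 1 ≤ L) (s : ℝ) :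
    L * ‖VX L x (s : UnitAddCircle)‖ ^ 2 + |gd L x s| ≤ (L : ℝ) ^ 2 * Ph L x (s : UnitAddCircle) := by
  have hL0 : (0 : ℝ) < L := by exact_mod_cast (by omega : 0 < L)
  set v := ‖VX L x (s : UnitAddCircle)‖ with hv
  set w := ‖DX L x (s : UnitAddCircle)‖ with hw
  have h1 : |gd L x s| ≤ 4 * Real.pi * (v * w) := by
    unfold gd
    rw [abs_mul, abs_of_pos (by norm_num : (0 : ℝ) < 2)]
    have h2 := abs_real_inner_le_norm (VX L x (s : UnitAddCircle))
      (2 * Real.pi * Complex.I * DX L x (s : UnitAddCircle))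
    have h3 : ‖2 * (Real.pi : ℂ) * Complex.I * DX L x (s : UnitAddCircle)‖ = 2 * Real.pi * w := by
      rw [norm_mul, norm_mul, norm_mul, Complex.norm_I, Complex.norm_real, Real.norm_eq_abs,
        abs_of_pos Real.pi_pos, ← hw]
      norm_num
    rw [h3, ← hv] at h2
    nlinarith
  have hv0 : 0 ≤ v := norm_nonneg _
  have hw0 : 0 ≤ w := norm_nonneg _
  have h4 : 2 * (v * w) ≤ L * v ^ 2 + w ^ 2 / L := by
    have h5 : 0 ≤ (L * v - w) ^ 2 / L := by positivity
    have h6 : (L * v - w) ^ 2 / L = L * v ^ 2 - 2 * (v * w) + w ^ 2 / L := by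
      field_simp
      ring
    linarith
  have h7 : (L : ℝ) ^ 2 * Ph L x (s : UnitAddCircle) = 8 * (L * v ^ 2) + 7 * (w ^ 2 / L) := by
    unfold Ph
    rw [← hv, ← hw]
    field_simp
  rw [h7]
  have h8 : 0 ≤ L * v ^ 2 := by positivity
  have h9 : 0 ≤ w ^ 2 / L := by positivity
  have hpi := Real.pi_lt_d2
  have hpi0 := Real.pi_pos
  have h10 : 4 * Real.pi * (v * w) ≤ 2 * Real.pi * (L * v ^ 2 + w ^ 2 / L) := by nlinarith
  have h11 : 2 * Real.pi * (L * v ^ 2 + w ^ 2 / L) ≤ 7 * (L * v ^ 2 + w ^ 2 / L) := by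
    apply mul_le_mul_of_nonneg_right (by linarith) (by positivity)
  linarith

/-- one arc -/
theorem arc (L : ℕ) (x : X) (hL : 1 ≤ L) (a : ℝ) :
    ‖VX L x (a : UnitAddCircle)‖ ^ 2 ≤ (L : ℝ) ^ 2 *
      ∫ s in (a - 1 / (2 * (L : ℝ)))..(a + 1 / (2 * (L : ℝ))), Ph L x (s : UnitAddCircle) := by
  have hL0 : (0 : ℝ) < L := by exact_mod_cast (by omega : 0 < L)
  set δ : ℝ := 1 / (2 * (L : ℝ)) with hδ
  have hδ0 : 0 < δ := by positivity
  have hab : a - δ ≤ a + δ := by linarith
  set g : ℝ → ℝ := fun s => ‖VX L x (s : UnitAddCircle)‖ ^ 2 with hg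
  have hgc : Continuous g := ((VX_cont L x).comp coe_cont).norm.pow 2
  have hac : Continuous (fun s => |gd L x s|) := (gd_cont L x).abs
  have hPc : Continuous (fun s : ℝ => Ph L x (s : UnitAddCircle)) := (Ph_cont L x).comp coe_cont
  set G : ℝ := ∫ s in (a - δ)..(a + δ), |gd L x s| with hG
  have hG0 : 0 ≤ G := intervalIntegral.integral_nonneg hab fun s _ => abs_nonneg _
  have h1 : ∀ s ∈ Set.Icc (a - δ) (a + δ), g a ≤ g s + G := by
    intro s hs
    have h2 : ∫ u in s..a, gd L x u = g a - g s :=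
      intervalIntegral.integral_eq_sub_of_hasDerivAt (fun u _ => gd_der L x u)
        ((gd_cont L x).intervalIntegrable _ _)
    have h3 : |∫ u in s..a, gd L x u| ≤ |∫ u in s..a, abs (gd L x u)| := by
      have := intervalIntegral.norm_integral_le_abs_integral_norm (μ := volume) (a := s) (b := a)
        (f := fun u => gd L x u)
      simpa only [Real.norm_eq_abs] using this
    have h4 : |∫ u in s..a, abs (gd L x u)| ≤ |∫ u in (a - δ)..(a + δ), abs (gd L x u)| := by
      refine intervalIntegral.abs_integral_mono_interval ?_ ?_ (hac.intervalIntegrable _ _)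
      · rw [Set.uIoc_of_le hab]
        intro u hu
        rcases le_total s a with h | h
        · rw [Set.uIoc_of_le h] at hu
          exact ⟨lt_of_le_of_lt hs.1 hu.1, by linarith [hu.2]⟩
        · rw [Set.uIoc_of_ge h] at hu
          exact ⟨by linarith [hu.1], hu.2.trans hs.2⟩
      · exact Eventually.of_forall fun u => abs_nonneg _
    rw [abs_of_nonneg hG0] at h4
    have h5 := le_abs_self (∫ u in s..a, gd L x u)
    linarith
  have h6 : ∫ _s in (a - δ)..(a + δ), g a ≤ ∫ s in (a - δ)..(a + δ), (g s + G) :=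
    intervalIntegral.integral_mono_on hab (continuous_const.intervalIntegrable _ _)
      ((hgc.add continuous_const).intervalIntegrable _ _) h1
  rw [intervalIntegral.integral_add (hgc.intervalIntegrable _ _)
    (continuous_const.intervalIntegrable _ _), intervalIntegral.integral_const,
    intervalIntegral.integral_const, smul_eq_mul, smul_eq_mul] at h6
  have h7 : a + δ - (a - δ) = 1 / L := by
    rw [hδ]
    field_simp
    ring
  rw [h7] at h6
  have h8 : g a ≤ L * (∫ s in (a - δ)..(a + δ), g s) + G := by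
    have h9 := mul_le_mul_of_nonneg_left h6 hL0.le
    have e1 : (L : ℝ) * (1 / L * g a) = g a := by field_simp
    have e2 : (L : ℝ) * ((∫ s in (a - δ)..(a + δ), g s) + 1 / L * G) =
        L * (∫ s in (a - δ)..(a + δ), g s) + G := by field_simp
    rw [e1, e2] at h9
    exact h9
  have hLg : Continuous (fun s => (L : ℝ) * g s) := continuous_const.mul hgc
  have h10 : L * (∫ s in (a - δ)..(a + δ), g s) + G =
      ∫ s in (a - δ)..(a + δ), (L * g s + |gd L x s|) := by
    rw [intervalIntegral.integral_add (hLg.intervalIntegrable _ _)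
      (hac.intervalIntegrable _ _), intervalIntegral.integral_const_mul]
  rw [h10] at h8
  refine h8.trans ?_
  rw [← intervalIntegral.integral_const_mul]
  exact intervalIntegral.integral_mono_on hab
    ((hLg.add hac).intervalIntegrable _ _)
    ((continuous_const.mul hPc).intervalIntegrable _ _) (fun s _ => gd_le L x hL s)

/-- an arc is in the neighbourhood -/
theorem arc_le (L : ℕ) (x : X) (hL : 1 ≤ L) (U : Set UnitAddCircle) (a : ℝ)
    (ha : (a : UnitAddCircle) ∈ U) :
    ∫ s in (a - 1 / (2 * (L : ℝ)))..(a + 1 / (2 * (L : ℝ))), Ph L x (s : UnitAddCircle) ≤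
      ∫ θ in Metric.cthickening (1 / (2 * (L : ℝ))) U, Ph L x θ := by
  have hL0 : (0 : ℝ) < L := by exact_mod_cast (by omega : 0 < L)
  have hL1 : (1 : ℝ) ≤ L := by exact_mod_cast hL
  set δ : ℝ := 1 / (2 * (L : ℝ)) with hδ
  have hδ0 : 0 < δ := by positivity
  have hδ1 : δ ≤ 1 / 2 := by
    rw [hδ]
    apply one_div_le_one_div_of_le (by norm_num)
    linarith
  set W := Metric.cthickening δ U with hW
  have hWm : MeasurableSet W := Metric.isClosed_cthickening.measurableSet
  rw [← integral_indicator hWm, ← AddCircle.intervalIntegral_preimage 1 (a - 1 / 2)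
    (W.indicator (Ph L x))]
  have hmem : ∀ s ∈ Set.Icc (a - δ) (a + δ), (s : UnitAddCircle) ∈ W := by
    intro s hs
    refine Metric.mem_cthickening_of_dist_le _ _ _ _ ha ?_
    rw [dist_eq_norm, ← AddCircle.coe_sub, UnitAddCircle.norm_eq]
    refine (round_le (s - a) 0).trans ?_
    rw [Int.cast_zero, sub_zero, abs_le]
    constructor <;> linarith [hs.1, hs.2]
  have h1 : ∫ s in (a - δ)..(a + δ), Ph L x (s : UnitAddCircle) =
      ∫ s in (a - δ)..(a + δ), W.indicator (Ph L x) (s : UnitAddCircle) := by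
    apply intervalIntegral.integral_congr
    intro s hs
    rw [Set.uIcc_of_le (by linarith)] at hs
    show Ph L x (s : UnitAddCircle) = W.indicator (Ph L x) (s : UnitAddCircle)
    rw [Set.indicator_of_mem (hmem s hs)]
  rw [h1]
  have hnn : ∀ s : ℝ, 0 ≤ W.indicator (Ph L x) (s : UnitAddCircle) := fun s =>
    Set.indicator_nonneg (fun θ _ => Ph_nonneg L x θ) _
  refine intervalIntegral.integral_mono_interval (by linarith) (by linarith) (by linarith)
    (Eventually.of_forall hnn) ?_
  have h2 : (fun s : ℝ => W.indicator (Ph L x) (s : UnitAddCircle)) =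
      ((fun s : ℝ => (s : UnitAddCircle)) ⁻¹' W).indicator (fun s : ℝ => Ph L x (s : UnitAddCircle)) := by
    ext s
    rfl
  rw [h2]
  have hP : IntervalIntegrable (fun s : ℝ => Ph L x (s : UnitAddCircle)) volume (a - 1 / 2)
      (a - 1 / 2 + 1) := ((Ph_cont L x).comp coe_cont).intervalIntegrable _ _
  rw [intervalIntegrable_iff] at hP ⊢
  exact hP.indicator (coe_cont.measurable hWm)

end GalL

/-- [GAL] -/
theorem gal : S_GAL := by
  intro U L x hL
  have hL0 : (0 : ℝ) < L := by exact_mod_cast (by omega : 0 < L)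
  change SU U L x ^ 2 ≤ ∫ θ in Metric.cthickening (1 / (2 * (L : ℝ))) U, GalL.Ph L x θ
  set R := ∫ θ in Metric.cthickening (1 / (2 * (L : ℝ))) U, GalL.Ph L x θ with hR
  have hR0 : 0 ≤ R := integral_nonneg fun θ => GalL.Ph_nonneg L x θ
  have h1 : SU U L x ≤ Real.sqrt R := by
    unfold SU
    refine Real.iSup_le ?_ (Real.sqrt_nonneg _)
    rintro ⟨θ, hθ⟩
    obtain ⟨a, rfl⟩ := QuotientAddGroup.mk_surjective θ
    apply Real.le_sqrt_of_sq_le
    have h2 := GalL.arc L x hL a
    have h3 := GalL.arc_le L x hL U a hθ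
    rw [div_pow, div_le_iff₀ (by positivity), mul_comm]
    exact h2.trans (mul_le_mul_of_nonneg_left h3 (by positivity))
  have h0 : 0 ≤ SU U L x := by
    unfold SU
    exact Real.iSup_nonneg fun θ => by positivity
  calc SU U L x ^ 2 ≤ (Real.sqrt R) ^ 2 := pow_le_pow_left₀ h0 h1 2
    _ = R := Real.sq_sqrt hR0

end Pool.Agent.Helper94K9.OP
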