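import Pool.Agent.Helper94K9.OP.St2
import Pool.Agent.Helper94K9.OP.Den

/-!
# Project OP: all continuous test functions, logarithmic averages [LDN]
-/

set_option autoImplicit false

namespace Pool.Agent.Helper94K9.OP

open Finset MeasureTheory Filter Topology

namespace LdnL

open ExkL ParL DenL

/-- the deviation from equidistribution -/
noncomputable def Dv (μ : Measure X) (k : ℕ) (φ : UnitAddCircle → ℝ) (L : ℕ) : ℝ :=
  wm μ k φ L - (∫ θ : UnitAddCircle, φ θ) * wm μ k (fun _ => 1) L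

/-- logarithmic means -/
noncomputable def Lm (t : ℕ → ℝ) (M : ℕ) : ℝ := (∑ L ∈ Icc 1 M, (1 / (L : ℝ)) * t L) / Real.log M

/-- the convergence for one test function -/
def Cv (μ : Measure X) (k : ℕ) (φ : UnitAddCircle → ℝ) : Prop :=
  Tendsto (fun M : ℕ => Lm (Dv μ k φ) M) atTop (𝓝 0)

theorem Lm_congr {t t' : ℕ → ℝ} (h : ∀ L, 1 ≤ L → t L = t' L) (M : ℕ) : Lm t M = Lm t' M := by
  unfold Lm
  congr 1
  refine sum_congr rfl fun L hL => ?_
  rw [h L (mem_Icc.1 hL).1]

theorem Lm_add (t t' : ℕ → ℝ) (M : ℕ) : Lm (fun L => t L + t' L) M = Lm t M + Lm t' M := by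
  unfold Lm
  rw [← add_div, ← sum_add_distrib]
  congr 1
  exact sum_congr rfl fun L _ => by ring

theorem Lm_smul (c : ℝ) (t : ℕ → ℝ) (M : ℕ) : Lm (fun L => c * t L) M = c * Lm t M := by
  unfold Lm
  rw [← mul_div_assoc, mul_sum]
  congr 1
  exact sum_congr rfl fun L _ => by ring

/-- the logarithmic means of a sequence bounded by `δ` are at most `2 δ` -/
theorem Lm_le (t : ℕ → ℝ) (δ : ℝ) (ht : ∀ L, 1 ≤ L → |t L| ≤ δ) (M : ℕ) (hM : 3 ≤ M) : |Lm t M| ≤ 2 * δ := by
  have hδ : 0 ≤ δ := (abs_nonneg _).trans (ht 1 le_rfl)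
  have hM3 : (3 : ℝ) ≤ M := by exact_mod_cast hM
  have hlog : 1 ≤ Real.log M := by
    rw [Real.le_log_iff_exp_le (by linarith)]
    exact (Real.exp_one_lt_d9.le.trans (by norm_num)).trans hM3
  have hharm : ∑ L ∈ Icc 1 M, 1 / (L : ℝ) ≤ 1 + Real.log M := by
    have h1 := harmonic_le_one_add_log M
    rw [harmonic_eq_sum_Icc] at h1
    push_cast at h1
    simpa [one_div] using h1
  unfold Lm
  rw [abs_div, abs_of_nonneg (by linarith : 0 ≤ Real.log M), div_le_iff₀ (by linarith)]
  calc |∑ L ∈ Icc 1 M, (1 / (L : ℝ)) * t L| ≤ ∑ L ∈ Icc 1 M, |(1 / (L : ℝ)) * t L| := abs_sum_le_sum_abs _ _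
    _ ≤ ∑ L ∈ Icc 1 M, (1 / (L : ℝ)) * δ := by
        refine sum_le_sum fun L hL => ?_
        rw [abs_mul, abs_of_nonneg (by positivity : (0 : ℝ) ≤ 1 / (L : ℝ))]
        exact mul_le_mul_of_nonneg_left (ht L (mem_Icc.1 hL).1) (by positivity)
    _ = (∑ L ∈ Icc 1 M, 1 / (L : ℝ)) * δ := by rw [sum_mul]
    _ ≤ (1 + Real.log M) * δ := mul_le_mul_of_nonneg_right hharm hδ
    _ ≤ 2 * δ * Real.log M := by nlinarith

variable {μ : Measure X} [IsProbabilityMeasure μ]

theorem Dv_add (k L : ℕ) (hk : 1 ≤ k) (hL : 1 ≤ L) (φ ψ : UnitAddCircle → ℝ) (hφ : Continuous φ) (hψ : Continuous ψ) :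
    Dv μ k (fun θ => φ θ + ψ θ) L = Dv μ k φ L + Dv μ k ψ L := by
  unfold Dv
  rw [wm_add k L hk hL φ ψ hφ hψ, integral_add (cont_intR _ hφ) (cont_intR _ hψ)]
  ring

theorem Dv_smul (k L : ℕ) (hk : 1 ≤ k) (hL : 1 ≤ L) (c : ℝ) (φ : UnitAddCircle → ℝ) (hφ : Continuous φ) :
    Dv μ k (fun θ => c * φ θ) L = c * Dv μ k φ L := by
  unfold Dv
  rw [wm_smul k L hk hL c φ hφ, integral_const_mul]
  ring

theorem cv_add {k : ℕ} (hk : 1 ≤ k) {φ ψ : UnitAddCircle → ℝ} (hφ : Continuous φ) (hψ : Continuous ψ)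
    (h1 : Cv μ k φ) (h2 : Cv μ k ψ) : Cv μ k (fun θ => φ θ + ψ θ) := by
  unfold Cv at h1 h2 ⊢
  have e : (fun M : ℕ => Lm (Dv μ k fun θ => φ θ + ψ θ) M) = fun M : ℕ => Lm (Dv μ k φ) M + Lm (Dv μ k ψ) M := by
    funext M
    rw [← Lm_add]
    exact Lm_congr (fun L hL => Dv_add k L hk hL φ ψ hφ hψ) M
  rw [e]
  simpa using h1.add h2

theorem cv_smul {k : ℕ} (hk : 1 ≤ k) {c : ℝ} {φ : UnitAddCircle → ℝ} (hφ : Continuous φ)
    (h1 : Cv μ k φ) : Cv μ k (fun θ => c * φ θ) := by
  unfold Cv at h1 ⊢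
  have e : (fun M : ℕ => Lm (Dv μ k fun θ => c * φ θ) M) = fun M : ℕ => c * Lm (Dv μ k φ) M := by
    funext M
    rw [← Lm_smul]
    exact Lm_congr (fun L hL => Dv_smul k L hk hL c φ hφ) M
  rw [e]
  simpa using h1.const_mul c

end LdnL

open LdnL DenL ExkL ParL in
theorem ldn (hE : S_EXK) (hlog : S_LOG) : S_LDN := by
  intro f μ hf hap hF k φ hk2
  have hμ : IsProbabilityMeasure μ := hF.1
  have hk : 1 ≤ k := by omega
  show Cv μ k φ
  have hone : ∀ L : ℕ, |wm μ k (fun _ => 1) L| ≤ 1 := fun L => wm_le k L hk _ 1 fun _ => by simp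
  -- the characters
  have hchar : ∀ m : ℤ, Cv μ k (fun θ => (fourier m θ : ℂ).re) ∧ Cv μ k (fun θ => (fourier m θ : ℂ).im) := by
    intro m
    have hint : ∫ θ : UnitAddCircle, (fourier m θ : ℂ).re = if m = 0 then 1 else 0 := by
      have h2 : Integrable (fun θ : UnitAddCircle => (fourier m θ : ℂ)) := cont_int _ (map_continuous (fourier m))
      have h3 : ∫ θ : UnitAddCircle, (fourier m θ : ℂ).re = (∫ θ : UnitAddCircle, (fourier m θ : ℂ)).re := integral_re h2
      rw [h3, int_fourier]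
      split_ifs <;> simp
    have hint2 : ∫ θ : UnitAddCircle, (fourier m θ : ℂ).im = 0 := by
      have h := int_im_re m 0
      simpa using h
    have hzero : Tendsto (fun M : ℕ => Lm (fun _ => 0) M) atTop (𝓝 0) := by
      have e : (fun M : ℕ => Lm (fun _ => 0) M) = fun _ => (0 : ℝ) := by
        funext M
        unfold Lm
        simp
      rw [e]
      exact tendsto_const_nhds
    constructor
    · unfold Cv
      by_cases hm0 : m = 0
      · have e : (fun M : ℕ => Lm (Dv μ k fun θ => (fourier m θ : ℂ).re) M) = fun M : ℕ => Lm (fun _ => 0) M := by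
          funext M
          refine Lm_congr (fun L hL => ?_) M
          unfold Dv
          rw [hint, if_pos hm0, (hE μ k L m 1 hk hL).2.2.1, (hE μ k L m 1 hk hL).1, hm0]
          ring
        rw [e]
        exact hzero
      · have e : (fun M : ℕ => Lm (Dv μ k fun θ => (fourier m θ : ℂ).re) M) = fun M : ℕ => Lm (Gk μ k m) M := by
          funext M
          refine Lm_congr (fun L hL => ?_) M
          unfold Dv
          rw [hint, if_neg hm0, (hE μ k L m 1 hk hL).2.2.1]
          ring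
        rw [e]
        exact hlog f μ hf hap hF k m hk2 hm0
    · unfold Cv
      have e : (fun M : ℕ => Lm (Dv μ k fun θ => (fourier m θ : ℂ).im) M) = fun M : ℕ => Lm (fun _ => 0) M := by
        funext M
        refine Lm_congr (fun L hL => ?_) M
        unfold Dv
        rw [hint2, wm_im k L hk hL m]
        ring
      rw [e]
      exact hzero
  -- trigonometric polynomials
  have hspan : ∀ p ∈ Submodule.span ℂ (Set.range (fourier (T := 1))),
      Cv μ k (fun θ => (p θ : ℂ).re) ∧ Cv μ k (fun θ => (p θ : ℂ).im) := by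
    intro p hp
    induction hp using Submodule.span_induction with
    | mem p hp =>
      obtain ⟨m, rfl⟩ := hp
      exact hchar m
    | zero =>
      have h : Cv μ k (fun _ => (0 : ℝ)) := by
        have h1 := cv_smul (c := 0) hk (re_cont 0) (hchar 0).1
        simpa using h1
      exact ⟨by simpa using h, by simpa using h⟩
    | add p q _ _ hp hq =>
      have cp := map_continuous p
      have cq := map_continuous q
      exact ⟨cv_add hk (Complex.continuous_re.comp cp) (Complex.continuous_re.comp cq) hp.1 hq.1,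
        cv_add hk (Complex.continuous_im.comp cp) (Complex.continuous_im.comp cq) hp.2 hq.2⟩
    | smul a p _ hp =>
      have cp := map_continuous p
      have cre : Continuous fun θ => (p θ : ℂ).re := Complex.continuous_re.comp cp
      have cim : Continuous fun θ => (p θ : ℂ).im := Complex.continuous_im.comp cp
      constructor
      · have h1 := cv_add hk (continuous_const.mul cre) (continuous_const.mul cim)
          (cv_smul (c := a.re) hk cre hp.1) (cv_smul (c := -a.im) hk cim hp.2)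
        have e : (fun θ => ((a • p) θ : ℂ).re) = fun θ => a.re * (p θ : ℂ).re + -a.im * (p θ : ℂ).im := by
          funext θ
          rw [ContinuousMap.smul_apply, smul_eq_mul, Complex.mul_re]
          ring
        rw [e]
        exact h1
      · have h1 := cv_add hk (continuous_const.mul cim) (continuous_const.mul cre)
          (cv_smul (c := a.re) hk cim hp.2) (cv_smul (c := a.im) hk cre hp.1)
        have e : (fun θ => ((a • p) θ : ℂ).im) = fun θ => a.re * (p θ : ℂ).im + a.im * (p θ : ℂ).re := by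
          funext θ
          rw [ContinuousMap.smul_apply, smul_eq_mul, Complex.mul_im]
        rw [e]
        exact h1
  -- density
  set φc : C(UnitAddCircle, ℂ) := ⟨fun θ => ((φ θ : ℝ) : ℂ), Complex.continuous_ofReal.comp (map_continuous φ)⟩ with hφc
  have hdense : φc ∈ closure ((Submodule.span ℂ (Set.range (fourier (T := 1))) : Submodule ℂ C(UnitAddCircle, ℂ)) :
      Set C(UnitAddCircle, ℂ)) := by
    have h := span_fourier_closure_eq_top (T := 1)
    have h1 : φc ∈ (Submodule.span ℂ (Set.range (fourier (T := 1)))).topologicalClosure := by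
      rw [h]
      exact Submodule.mem_top
    exact h1
  unfold Cv
  rw [Metric.tendsto_atTop]
  intro ε hε
  set δ : ℝ := ε / 8 with hδ
  have hδ0 : 0 < δ := by positivity
  obtain ⟨p, hp, hdist⟩ := Metric.mem_closure_iff.1 hdense δ hδ0
  have hpt : ∀ θ, |φ θ - (p θ : ℂ).re| ≤ δ := by
    intro θ
    have h1 : dist (φc θ) (p θ) ≤ dist φc p := ContinuousMap.dist_apply_le_dist θ
    rw [Complex.dist_eq] at h1
    have h2 : |(φc θ - p θ).re| ≤ ‖φc θ - p θ‖ := Complex.abs_re_le_norm _
    have h3 : (φc θ - p θ).re = φ θ - (p θ : ℂ).re := by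
      rw [Complex.sub_re]
      rfl
    rw [h3] at h2
    linarith
  have cp : Continuous fun θ => (p θ : ℂ).re := Complex.continuous_re.comp (map_continuous p)
  have cφ : Continuous fun θ => φ θ := map_continuous φ
  -- the difference
  have hdiff : ∀ L : ℕ, 1 ≤ L → |Dv μ k (fun θ => φ θ + (-1) * (p θ : ℂ).re) L| ≤ 2 * δ := by
    intro L _
    have e4 : ∀ θ, |φ θ + (-1) * (p θ : ℂ).re| ≤ δ := by
      intro θ
      have e5 : φ θ + (-1) * (p θ : ℂ).re = φ θ - (p θ : ℂ).re := by ring
      rw [e5]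
      exact hpt θ
    have h1 : |wm μ k (fun θ => φ θ + (-1) * (p θ : ℂ).re) L| ≤ δ := wm_le k L hk _ δ e4
    have h2 : |∫ θ : UnitAddCircle, (φ θ + (-1) * (p θ : ℂ).re)| ≤ δ := by
      rw [← Real.norm_eq_abs]
      refine (norm_integral_le_of_norm_le_const (C := δ) (Eventually.of_forall fun θ => ?_)).trans ?_
      · rw [Real.norm_eq_abs]
        exact e4 θ
      · rw [Measure.real, UnitAddCircle.measure_univ]
        simp
    unfold Dv
    refine (abs_sub _ _).trans ?_
    rw [abs_mul]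
    have h3 : |∫ θ : UnitAddCircle, (φ θ + (-1) * (p θ : ℂ).re)| * |wm μ k (fun _ => 1) L| ≤ δ * 1 :=
      mul_le_mul h2 (hone L) (abs_nonneg _) hδ0.le
    linarith
  have hconv := (hspan p hp).1
  unfold Cv at hconv
  rw [Metric.tendsto_atTop] at hconv
  obtain ⟨N, hN⟩ := hconv (ε / 4) (by positivity)
  refine ⟨N + 3, fun M hM => ?_⟩
  have h1 := hN M (by omega)
  have h2 := Lm_le _ (2 * δ) hdiff M (by omega)
  have e : Lm (Dv μ k φ) M = Lm (Dv μ k fun θ => φ θ + (-1) * (p θ : ℂ).re) M +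
      Lm (Dv μ k fun θ => (p θ : ℂ).re) M := by
    rw [← Lm_add]
    refine Lm_congr (fun L hL => ?_) M
    rw [Dv_add k L hk hL (fun θ => φ θ) (fun θ => (-1) * (p θ : ℂ).re) cφ (continuous_const.mul cp),
      Dv_smul k L hk hL (-1) _ cp]
    ring
  rw [Real.dist_eq, sub_zero] at h1 ⊢
  rw [e]
  refine (abs_add_le _ _).trans_lt ?_
  rw [hδ] at h2
  linarith

end Pool.Agent.Helper94K9.OP
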