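import Pool.Agent.Helper94K9.OP.St2
import Pool.Agent.Helper94K9.OP.Key

/-!
# Project OP: the suprema over sets of frequencies, existence of the limits [SUB]
-/

set_option autoImplicit false

namespace Pool.Agent.Helper94K9.OP

open Finset MeasureTheory Filter Topology

namespace SubL

open KeyL InvL ExkL ParL

/-- functions of finitely many coordinates are continuous -/
theorem dep_cont (F : X → ℝ) (L : ℕ) (h : ∀ x y : X, (∀ i : ℕ, i ∈ Icc 1 L → x (i : ℤ) = y (i : ℤ)) → F x = F y) :
    Continuous F := by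
  obtain ⟨r, hr⟩ : ∃ r : X → (Icc 1 L → Val), r = fun x i => x ((i : ℕ) : ℤ) := ⟨_, rfl⟩
  have hrc : Continuous r := by
    rw [hr]
    exact continuous_pi fun i => continuous_apply _
  have hfac : Function.FactorsThrough F r := by
    intro x y hxy
    apply h
    intro i hi
    have := congrFun hxy ⟨i, hi⟩
    rw [hr] at this
    exact this
  have hfin : Finite Val := by
    have : Finite (({-1, 0, 1} : Set ℝ) : Type) := Set.Finite.to_subtype (by simp)
    exact this
  have e : F = Function.extend r F 0 ∘ r := by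
    funext x
    exact (hfac.extend_apply 0 x).symm
  rw [e]
  exact (continuous_of_discreteTopology).comp hrc

theorem g_nonneg (L : ℕ) (x : X) (θ : UnitAddCircle) : 0 ≤ ‖VX L x θ‖ / (L : ℝ) := by positivity

theorem g_le (L : ℕ) (x : X) (θ : UnitAddCircle) : ‖VX L x θ‖ / (L : ℝ) ≤ 1 :=
  div_le_one_of_le₀ (VX_le L x θ) (Nat.cast_nonneg L)

theorem SU_nonneg (U : Set UnitAddCircle) (L : ℕ) (x : X) : 0 ≤ SU U L x :=
  Real.iSup_nonneg fun θ => g_nonneg L x θ

theorem SU_le_of (U : Set UnitAddCircle) (L : ℕ) (x : X) (a : ℝ) (ha : 0 ≤ a)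
    (h : ∀ θ ∈ U, ‖VX L x θ‖ / (L : ℝ) ≤ a) : SU U L x ≤ a :=
  Real.iSup_le (fun θ => h θ θ.2) ha

theorem SU_le_one (U : Set UnitAddCircle) (L : ℕ) (x : X) : SU U L x ≤ 1 :=
  SU_le_of U L x 1 zero_le_one fun θ _ => g_le L x θ

theorem le_SU (U : Set UnitAddCircle) (L : ℕ) (x : X) (θ : UnitAddCircle) (hθ : θ ∈ U) :
    ‖VX L x θ‖ / (L : ℝ) ≤ SU U L x := by
  have hb : BddAbove (Set.range fun θ : U => ‖VX L x θ‖ / (L : ℝ)) :=
    ⟨1, by rintro _ ⟨θ, rfl⟩; exact g_le L x θ⟩
  exact le_ciSup hb (⟨θ, hθ⟩ : U)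

theorem norm_le_SU (U : Set UnitAddCircle) (L : ℕ) (x : X) (θ : UnitAddCircle) (hθ : θ ∈ U) :
    ‖VX L x θ‖ ≤ L * SU U L x := by
  rcases Nat.eq_zero_or_pos L with h | h
  · subst h
    unfold VX
    simp
  · have hL : (0 : ℝ) < L := by exact_mod_cast h
    have h1 := le_SU U L x θ hθ
    rw [div_le_iff₀ hL] at h1
    linarith

theorem VX_dep (L : ℕ) (x y : X) (h : ∀ i : ℕ, i ∈ Icc 1 L → x (i : ℤ) = y (i : ℤ)) (θ : UnitAddCircle) :
    VX L x θ = VX L y θ := by
  unfold VX
  refine sum_congr rfl fun i hi => ?_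
  rw [h i hi]

theorem SU_cont (U : Set UnitAddCircle) (L : ℕ) : Continuous (SU U L) := by
  refine dep_cont _ L fun x y h => ?_
  unfold SU
  simp only [VX_dep L x y h]

theorem SX_cont (φ : UnitAddCircle → ℝ) (L : ℕ) : Continuous (SX φ L) := by
  refine dep_cont _ L fun x y h => ?_
  unfold SX
  simp only [VX_dep L x y h]

theorem VX_add (L M : ℕ) (x : X) (θ : UnitAddCircle) :
    VX (L + M) x θ = VX L x θ + (fourier (L : ℤ) θ : ℂ) * VX M (shift (L : ℤ) x) θ := by
  have e : ∀ (K : ℕ) (y : X), VX K y θ = ∑ h ∈ range K, ((y ((h + 1 : ℕ) : ℤ) : ℝ) : ℂ) *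
      (fourier ((h + 1 : ℕ) : ℤ) θ : ℂ) := by
    intro K y
    unfold VX
    have h1 : Icc 1 K = (range K).image (fun h => h + 1) := by
      ext j
      simp only [mem_Icc, mem_image, mem_range]
      constructor
      · intro h; exact ⟨j - 1, by omega, by omega⟩
      · rintro ⟨i, hi, rfl⟩; omega
    rw [h1, sum_image fun a _ b _ hab => by omega]
  rw [e, e, e, sum_range_add, mul_sum]
  congr 1
  refine sum_congr rfl fun h _ => ?_
  have h1 : (shift (L : ℤ) x) ((h + 1 : ℕ) : ℤ) = x ((L + h + 1 : ℕ) : ℤ) := by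
    unfold shift
    congr 1
    push_cast
    ring
  rw [h1]
  have h2 : (fourier ((L + h + 1 : ℕ) : ℤ) θ : ℂ) = (fourier (L : ℤ) θ : ℂ) * (fourier ((h + 1 : ℕ) : ℤ) θ : ℂ) := by
    rw [← fourier_add]
    congr 2
  rw [h2]
  ring

theorem SU_add (U : Set UnitAddCircle) (L M : ℕ) (x : X) :
    ((L + M : ℕ) : ℝ) * SU U (L + M) x ≤ L * SU U L x + M * SU U M (shift (L : ℤ) x) := by
  have h0 : 0 ≤ L * SU U L x + M * SU U M (shift (L : ℤ) x) := by
    have := SU_nonneg U L x
    have := SU_nonneg U M (shift (L : ℤ) x)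
    positivity
  rcases Nat.eq_zero_or_pos (L + M) with h | h
  · rw [h]
    simpa using h0
  · have hL : (0 : ℝ) < ((L + M : ℕ) : ℝ) := by exact_mod_cast h
    have h1 : SU U (L + M) x ≤ (L * SU U L x + M * SU U M (shift (L : ℤ) x)) / ((L + M : ℕ) : ℝ) := by
      refine SU_le_of U (L + M) x _ (by positivity) fun θ hθ => ?_
      refine div_le_div_of_nonneg_right ?_ hL.le
      rw [VX_add]
      refine (norm_add_le _ _).trans ?_
      rw [norm_mul, norm_fourier, one_mul]
      exact add_le_add (norm_le_SU U L x θ hθ) (norm_le_SU U M _ θ hθ)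
    rw [le_div_iff₀ hL] at h1
    linarith

theorem SU_int {μ : Measure X} [IsProbabilityMeasure μ] (U : Set UnitAddCircle) (L : ℕ) : Integrable (SU U L) μ :=
  Integrable.of_bound (SU_cont U L).measurable.aestronglyMeasurable 1 (Eventually.of_forall fun x => by
    rw [Real.norm_eq_abs, abs_of_nonneg (SU_nonneg U L x)]
    exact SU_le_one U L x)

end SubL

open SubL KeyL InvL in
theorem sub : S_SUB := by
  intro μ _ hinv U
  refine ⟨SU_cont U, ?_⟩
  set u : ℕ → ℝ := fun L => L * ∫ x, SU U L x ∂μ with hu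
  have hsub : Subadditive u := by
    intro L M
    have h1 : ∫ x, ((L + M : ℕ) : ℝ) * SU U (L + M) x ∂μ ≤
        ∫ x, (L * SU U L x + M * SU U M (shift (L : ℤ) x)) ∂μ := by
      refine integral_mono ((SU_int U (L + M)).const_mul _) ?_ fun x => SU_add U L M x
      refine ((SU_int U L).const_mul _).add ?_
      have hc : Continuous fun x : X => (M : ℝ) * SU U M (shift (L : ℤ) x) :=
        continuous_const.mul ((SU_cont U M).comp (shift_cont _))
      refine Integrable.of_bound hc.measurable.aestronglyMeasurable M (Eventually.of_forall fun x => ?_)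
      have h2 := SU_nonneg U M (shift (L : ℤ) x)
      have h3 := SU_le_one U M (shift (L : ℤ) x)
      rw [Real.norm_eq_abs, abs_of_nonneg (by positivity)]
      exact mul_le_of_le_one_right (Nat.cast_nonneg M) h3
    rw [integral_const_mul, integral_add ((SU_int U L).const_mul _) ?_, integral_const_mul, integral_const_mul,
      int_shift hinv (SU U M) (SU_cont U M) L] at h1
    · exact h1
    · have hc : Continuous fun x : X => (M : ℝ) * SU U M (shift (L : ℤ) x) :=
        continuous_const.mul ((SU_cont U M).comp (shift_cont _))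
      refine Integrable.of_bound hc.measurable.aestronglyMeasurable M (Eventually.of_forall fun x => ?_)
      have h2 := SU_nonneg U M (shift (L : ℤ) x)
      have h3 := SU_le_one U M (shift (L : ℤ) x)
      rw [Real.norm_eq_abs, abs_of_nonneg (by positivity)]
      exact mul_le_of_le_one_right (Nat.cast_nonneg M) h3
  have hbdd : BddBelow (Set.range fun n => u n / n) := by
    refine ⟨0, ?_⟩
    rintro _ ⟨n, rfl⟩
    have : 0 ≤ ∫ x, SU U n x ∂μ := integral_nonneg fun x => SU_nonneg U n x
    simp only [hu]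
    positivity
  have hlim := hsub.tendsto_lim hbdd
  refine ⟨hsub.lim, hlim.congr' ?_⟩
  filter_upwards [eventually_ge_atTop 1] with L hL
  have hL' : (L : ℝ) ≠ 0 := by
    have : 0 < L := hL
    exact_mod_cast this.ne'
  simp only [hu]
  field_simp

end Pool.Agent.Helper94K9.OP
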