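import Pool.Agent.Helper94K9.OP.St4
import Pool.Agent.Helper94K9.OP.Sub
import Pool.Agent.Helper94K9.OP.Eqv
import Pool.Agent.Helper94K9.OP.Ldn

/-!
# Project OP: all continuous functions of the correlation [HDN]
-/

set_option autoImplicit false

namespace Pool.Agent.Helper94K9.OP

open Finset MeasureTheory Filter Topology

/-- the mean over `x` of the integral of `φ` against the density `L r ^ 2 H(r)`, `r` the correlation -/
noncomputable def hd (μ : Measure X) (H : ℝ → ℝ) (φ : UnitAddCircle → ℝ) (L : ℕ) : ℝ :=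
  ∫ x, (L * ∫ θ : UnitAddCircle, φ θ * ((‖VX L x θ‖ / L) ^ 2 * H (‖VX L x θ‖ / L))) ∂μ

/-- [HDN] `S_LDN → S_HDN`: Weierstrass, for `H(√u)`. -/
def S_HDN : Prop := ∀ (f : ℕ → Val) (μ : Measure X), IsMult f → Aperiodic f → IsFurstenbergSystem f μ →
  ∀ (H : ℝ → ℝ) (φ : C(UnitAddCircle, ℝ)), Continuous H → H 0 = 0 →
    Tendsto (fun M : ℕ => (∑ L ∈ Icc 1 M, (1 / (L : ℝ)) *
      (hd μ H φ L - (∫ θ : UnitAddCircle, φ θ) * hd μ H (fun _ => 1) L)) / Real.log M) atTop (𝓝 0)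

namespace HdnL

open ExkL ParL DenL LdnL SubL

/-- the integral for one `x` -/
noncomputable def J (H : ℝ → ℝ) (φ : UnitAddCircle → ℝ) (L : ℕ) (x : X) : ℝ :=
  L * ∫ θ : UnitAddCircle, φ θ * ((‖VX L x θ‖ / L) ^ 2 * H (‖VX L x θ‖ / L))

theorem J_cont (H : ℝ → ℝ) (φ : UnitAddCircle → ℝ) (L : ℕ) : Continuous (J H φ L) := by
  refine dep_cont _ L fun x y h => ?_
  unfold J
  simp only [VX_dep L x y h]

theorem int_th (H : ℝ → ℝ) (hH : Continuous H) (φ : UnitAddCircle → ℝ) (hφ : Continuous φ) (L : ℕ) (x : X) :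
    Integrable (fun θ : UnitAddCircle => φ θ * ((‖VX L x θ‖ / L) ^ 2 * H (‖VX L x θ‖ / L))) :=
  cont_intR _ (hφ.mul (((EqvL.cx_cont L x).pow 2).mul (hH.comp (EqvL.cx_cont L x))))

theorem J_le (H : ℝ → ℝ) (φ : UnitAddCircle → ℝ) (c C : ℝ)
    (hc : ∀ θ, |φ θ| ≤ c) (hC : ∀ t ∈ Set.Icc (0 : ℝ) 1, |H t| ≤ C) (L : ℕ) (x : X) : |J H φ L x| ≤ c * C := by
  have hc0 : 0 ≤ c := (abs_nonneg _).trans (hc 0)
  have hC0 : 0 ≤ C := (abs_nonneg _).trans (hC 0 ⟨le_rfl, zero_le_one⟩)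
  unfold J
  rw [abs_mul, abs_of_nonneg (Nat.cast_nonneg L)]
  have h1 : |∫ θ : UnitAddCircle, φ θ * ((‖VX L x θ‖ / L) ^ 2 * H (‖VX L x θ‖ / L))| ≤
      ∫ θ : UnitAddCircle, (c * C) * (‖VX L x θ‖ / (L : ℝ)) ^ 2 := by
    rw [← Real.norm_eq_abs]
    refine norm_integral_le_of_norm_le (cont_intR _ (((EqvL.cx_cont L x).pow 2).const_mul (c * C)))
      (Eventually.of_forall fun θ => ?_)
    have h2 := hC _ ⟨EqvL.cx_nonneg L x θ, EqvL.cx_le L x θ⟩
    rw [Real.norm_eq_abs, abs_mul, abs_mul, abs_of_nonneg (sq_nonneg (‖VX L x θ‖ / (L : ℝ)))]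
    calc |φ θ| * ((‖VX L x θ‖ / (L : ℝ)) ^ 2 * |H (‖VX L x θ‖ / (L : ℝ))|) ≤
        c * ((‖VX L x θ‖ / (L : ℝ)) ^ 2 * C) :=
          mul_le_mul (hc θ) (mul_le_mul_of_nonneg_left h2 (sq_nonneg _)) (by positivity) hc0
      _ = (c * C) * (‖VX L x θ‖ / (L : ℝ)) ^ 2 := by ring
  calc (L : ℝ) * |∫ θ : UnitAddCircle, φ θ * ((‖VX L x θ‖ / L) ^ 2 * H (‖VX L x θ‖ / L))| ≤
      L * ∫ θ : UnitAddCircle, (c * C) * (‖VX L x θ‖ / (L : ℝ)) ^ 2 :=
        mul_le_mul_of_nonneg_left h1 (Nat.cast_nonneg L)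
    _ = (c * C) * (L * ∫ θ : UnitAddCircle, (‖VX L x θ‖ / (L : ℝ)) ^ 2) := by
        rw [integral_const_mul]
        ring
    _ ≤ (c * C) * 1 := mul_le_mul_of_nonneg_left (EqvL.cx_pars L x) (by positivity)
    _ = c * C := mul_one _

variable {μ : Measure X} [IsProbabilityMeasure μ]

theorem J_int (H : ℝ → ℝ) (hH : Continuous H) (φ : C(UnitAddCircle, ℝ)) (L : ℕ) : Integrable (J H φ L) μ := by
  obtain ⟨C, hC⟩ := (isCompact_Icc (a := (0 : ℝ)) (b := 1)).exists_bound_of_continuousOn hH.continuousOn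
  exact Integrable.of_bound (J_cont H φ L).measurable.aestronglyMeasurable (‖φ‖ * C)
    (Eventually.of_forall fun x => J_le H φ ‖φ‖ C (fun θ => φ.norm_coe_le_norm θ) hC L x)

theorem hd_diff (H K : ℝ → ℝ) (hH : Continuous H) (hK : Continuous K) (φ : C(UnitAddCircle, ℝ)) (δ : ℝ)
    (hδ : ∀ t ∈ Set.Icc (0 : ℝ) 1, |H t - K t| ≤ δ) (L : ℕ) : |hd μ H φ L - hd μ K φ L| ≤ ‖φ‖ * δ := by
  have h1 : hd μ H φ L - hd μ K φ L = ∫ x, (J H φ L x - J K φ L x) ∂μ :=
    (integral_sub (J_int H hH φ L) (J_int K hK φ L)).symm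
  rw [h1, ← Real.norm_eq_abs]
  refine (norm_integral_le_of_norm_le_const (C := ‖φ‖ * δ) (Eventually.of_forall fun x => ?_)).trans (by simp)
  have h2 : J H φ L x - J K φ L x = J (fun t => H t - K t) φ L x := by
    unfold J
    rw [← mul_sub, ← integral_sub (int_th H hH φ φ.continuous L x) (int_th K hK φ φ.continuous L x)]
    congr 1
    exact integral_congr_ae (Eventually.of_forall fun θ => by ring)
  rw [h2, Real.norm_eq_abs]
  exact J_le _ φ ‖φ‖ δ (fun θ => φ.norm_coe_le_norm θ) hδ L x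

theorem hd_poly (P : Polynomial ℝ) (φ : C(UnitAddCircle, ℝ)) (L : ℕ) :
    hd μ (fun t => P.eval (t ^ 2)) φ L = ∑ i ∈ range (P.natDegree + 1), P.coeff i * wm μ (i + 1) φ L := by
  have hcont : ∀ i : ℕ, Continuous fun t : ℝ => (t ^ 2) ^ i := fun i => (continuous_pow 2).pow i
  have hJ : ∀ x, J (fun t => P.eval (t ^ 2)) φ L x =
      ∑ i ∈ range (P.natDegree + 1), P.coeff i * J (fun t => (t ^ 2) ^ i) φ L x := by
    intro x
    unfold J
    simp only [Polynomial.eval_eq_sum_range]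
    have h1 : ∀ i : ℕ, P.coeff i * ((L : ℝ) * ∫ θ : UnitAddCircle, φ θ * ((‖VX L x θ‖ / L) ^ 2 *
        ((‖VX L x θ‖ / L) ^ 2) ^ i)) = L * ∫ θ : UnitAddCircle, P.coeff i * (φ θ * ((‖VX L x θ‖ / L) ^ 2 *
        ((‖VX L x θ‖ / L) ^ 2) ^ i)) := by
      intro i
      rw [integral_const_mul]
      ring
    simp only [h1]
    rw [← mul_sum, ← integral_finsetSum _ fun i _ => (int_th _ (hcont i) φ φ.continuous L x).const_mul _]
    congr 1
    refine integral_congr_ae (Eventually.of_forall fun θ => ?_)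
    simp only
    rw [mul_sum, mul_sum]
    exact sum_congr rfl fun i _ => by ring
  have hW : ∀ (i : ℕ) (x : X), J (fun t => (t ^ 2) ^ i) φ L x = WX (i + 1) φ L x := by
    intro i x
    unfold J WX
    congr 1
    refine integral_congr_ae (Eventually.of_forall fun θ => ?_)
    simp only
    rw [← pow_mul, ← pow_add]
    ring_nf
  have h2 : hd μ (fun t => P.eval (t ^ 2)) φ L = ∫ x, J (fun t => P.eval (t ^ 2)) φ L x ∂μ := rfl
  rw [h2]
  simp only [hJ]
  rw [integral_finsetSum _ fun i _ => (J_int _ (hcont i) φ L).const_mul _]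
  refine sum_congr rfl fun i _ => ?_
  rw [integral_const_mul]
  simp only [hW]
  rfl

end HdnL

open HdnL LdnL in
theorem hdn (hld : S_LDN) : S_HDN := by
  intro f μ hf ha hμ H φ hH h0
  have : IsProbabilityMeasure μ := hμ.1
  have hone : (fun _ : UnitAddCircle => (1 : ℝ)) = ((ContinuousMap.const UnitAddCircle (1 : ℝ) : C(UnitAddCircle, ℝ)) :
      UnitAddCircle → ℝ) := by
    funext θ
    rfl
  -- the deviation
  set E : (ℝ → ℝ) → ℕ → ℝ := fun K L => hd μ K φ L - (∫ θ : UnitAddCircle, φ θ) * hd μ K (fun _ => 1) L with hE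
  show Tendsto (fun M : ℕ => Lm (E H) M) atTop (𝓝 0)
  rw [Metric.tendsto_atTop]
  intro ε hε
  set B : ℝ := ‖φ‖ + |∫ θ : UnitAddCircle, φ θ| * ‖(ContinuousMap.const UnitAddCircle (1 : ℝ))‖ + 1 with hB
  have hBpos : 0 < B := by positivity
  set η : ℝ := ε / (8 * B) with hη
  have hηpos : 0 < η := by positivity
  have hG : ContinuousOn (fun u : ℝ => H (Real.sqrt u)) (Set.Icc 0 1) := (hH.comp Real.continuous_sqrt).continuousOn
  obtain ⟨P, hP⟩ := exists_polynomial_near_of_continuousOn 0 1 _ hG η hηpos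
  set P₁ : Polynomial ℝ := P - Polynomial.C (P.eval 0) with hP₁
  have hP0 : |P.eval 0| ≤ η := by
    have h1 := hP 0 ⟨le_rfl, zero_le_one⟩
    simp only [Real.sqrt_zero, h0, sub_zero] at h1
    exact h1.le
  have hcoeff : P₁.coeff 0 = 0 := by
    rw [hP₁, Polynomial.coeff_sub, Polynomial.coeff_C_zero, Polynomial.coeff_zero_eq_eval_zero, sub_self]
  have hnear : ∀ t ∈ Set.Icc (0 : ℝ) 1, |H t - P₁.eval (t ^ 2)| ≤ 2 * η := by
    intro t ht
    have h1 := hP (t ^ 2) ⟨sq_nonneg t, pow_le_one₀ ht.1 ht.2⟩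
    simp only [Real.sqrt_sq ht.1] at h1
    rw [hP₁, Polynomial.eval_sub, Polynomial.eval_C]
    have h2 := abs_lt.1 h1
    have h3 := abs_le.1 hP0
    rw [abs_le]
    constructor <;> linarith [h2.1, h2.2, h3.1, h3.2]
  have hPc : Continuous fun t : ℝ => P₁.eval (t ^ 2) := P₁.continuous.comp (continuous_pow 2)
  -- the error
  have herr : ∀ L : ℕ, |E H L - E (fun t => P₁.eval (t ^ 2)) L| ≤ B * (2 * η) := by
    intro L
    have h1 := hd_diff (μ := μ) H _ hH hPc φ (2 * η) hnear L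
    have h2 := hd_diff (μ := μ) H _ hH hPc (ContinuousMap.const UnitAddCircle (1 : ℝ)) (2 * η) hnear L
    rw [← hone] at h2
    simp only [hE]
    have h3 : hd μ H φ L - (∫ θ : UnitAddCircle, φ θ) * hd μ H (fun _ => 1) L -
        (hd μ (fun t => P₁.eval (t ^ 2)) φ L - (∫ θ : UnitAddCircle, φ θ) *
          hd μ (fun t => P₁.eval (t ^ 2)) (fun _ => 1) L) =
        (hd μ H φ L - hd μ (fun t => P₁.eval (t ^ 2)) φ L) - (∫ θ : UnitAddCircle, φ θ) *
          (hd μ H (fun _ => 1) L - hd μ (fun t => P₁.eval (t ^ 2)) (fun _ => 1) L) := by ring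
    rw [h3]
    refine (abs_sub _ _).trans ?_
    rw [abs_mul]
    have h4 := mul_le_mul_of_nonneg_left h2 (abs_nonneg (∫ θ : UnitAddCircle, φ θ))
    have h5 : B * (2 * η) = ‖φ‖ * (2 * η) + |∫ θ : UnitAddCircle, φ θ| *
        (‖(ContinuousMap.const UnitAddCircle (1 : ℝ))‖ * (2 * η)) + 2 * η := by
      rw [hB]
      ring
    rw [h5]
    linarith
  -- the main term
  have hmain : ∀ L : ℕ, E (fun t => P₁.eval (t ^ 2)) L =
      ∑ i ∈ range (P₁.natDegree + 1), P₁.coeff i * Dv μ (i + 1) φ L := by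
    intro L
    simp only [hE, Dv]
    rw [hd_poly P₁ φ L, hone, hd_poly P₁ (ContinuousMap.const UnitAddCircle (1 : ℝ)) L, mul_sum, ← sum_sub_distrib]
    exact sum_congr rfl fun i _ => by ring
  have hlm : ∀ M : ℕ, Lm (E (fun t => P₁.eval (t ^ 2))) M =
      ∑ i ∈ range (P₁.natDegree + 1), P₁.coeff i * Lm (Dv μ (i + 1) φ) M := by
    intro M
    unfold Lm
    simp only [hmain, mul_sum, ← mul_div_assoc, ← sum_div]
    congr 1
    rw [sum_comm]
    exact sum_congr rfl fun i _ => sum_congr rfl fun L _ => by ring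
  have hlim : Tendsto (fun M : ℕ => Lm (E (fun t => P₁.eval (t ^ 2))) M) atTop (𝓝 0) := by
    simp only [hlm]
    have h1 : (0 : ℝ) = ∑ i ∈ range (P₁.natDegree + 1), P₁.coeff i * 0 := by simp
    rw [h1]
    refine tendsto_finsetSum _ fun i _ => ?_
    rcases Nat.eq_zero_or_pos i with hi | hi
    · subst hi
      simp only [hcoeff, zero_mul]
      exact tendsto_const_nhds
    · exact (hld f μ hf ha hμ (i + 1) φ (by omega)).const_mul _
  obtain ⟨N, hN⟩ := Metric.tendsto_atTop.1 hlim (ε / 2) (by positivity)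
  refine ⟨max N 3, fun M hM => ?_⟩
  have h1 := hN M ((le_max_left _ _).trans hM)
  rw [Real.dist_eq, sub_zero] at h1 ⊢
  have h2 := Lm_le (fun L => E H L - E (fun t => P₁.eval (t ^ 2)) L) (B * (2 * η)) (fun L _ => herr L) M
    ((le_max_right _ _).trans hM)
  have h3 : Lm (E H) M = Lm (fun L => E H L - E (fun t => P₁.eval (t ^ 2)) L) M +
      Lm (E (fun t => P₁.eval (t ^ 2))) M := by
    rw [← Lm_add]
    exact Lm_congr (fun L _ => by ring) M
  have h4 : 2 * (B * (2 * η)) = ε / 2 := by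
    rw [hη]
    field_simp
    ring
  rw [h3]
  refine (abs_add_le _ _).trans_lt ?_
  linarith

end Pool.Agent.Helper94K9.OP
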