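import Pool.Agent.Helper94K9.OP.Stm

/-! Leaf [HSP] (helper94): the Hilbert space of a stationary process. -/

set_option autoImplicit false

namespace Pool.Agent.Helper94K9.OP

open Finset MeasureTheory Filter Topology

namespace HspL

/-! #### The projection of an isometry -/

theorem proj {E : Type} [NormedAddCommGroup E] [InnerProductSpace ℝ E] [CompleteSpace E] (U : E →L[ℝ] E)
    (hU : ∀ w, ‖U w‖ = ‖w‖) : ∃ P : E →L[ℝ] E, (∀ w, U (P w) = P w) ∧ (∀ w, P (U w) = P w) ∧ (∀ w, P (P w) = P w) ∧
      (∀ w w', inner ℝ w (P w') = inner ℝ (P w) (P w')) ∧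
      ∀ w, Tendsto (fun K : ℕ => Av U K w) atTop (𝓝 (P w)) := by
  have hin : ∀ w w', inner ℝ (U w) (U w') = inner ℝ w w' := by
    intro w w'
    have h1 := hU (w + w')
    rw [map_add] at h1
    have h4 := norm_add_sq_real (U w) (U w')
    have h5 := norm_add_sq_real w w'
    rw [h1, hU w, hU w'] at h4
    linarith
  have hn : ‖U‖ ≤ 1 := ContinuousLinearMap.opNorm_le_bound _ zero_le_one fun w => by rw [hU, one_mul]
  obtain ⟨S, hS⟩ : ∃ S : Submodule ℝ E, S = LinearMap.eqLocus (U : E →ₗ[ℝ] E) ((1 : E →L[ℝ] E) : E →ₗ[ℝ] E) := ⟨_, rfl⟩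
  have hmem : ∀ y, y ∈ S ↔ U y = y := by
    intro y
    rw [hS]
    exact Iff.rfl
  have hcl : IsClosed (S : Set E) := by
    have : (S : Set E) = {y | U y = y} := Set.ext fun y => hmem y
    rw [this]
    exact isClosed_eq U.continuous continuous_id
  have hcs : CompleteSpace S := hcl.completeSpace_coe
  have hop : S.HasOrthogonalProjection := inferInstance
  refine ⟨S.starProjection, fun w => ?_, fun w => ?_, fun w => ?_, fun w w' => ?_, fun w => ?_⟩
  · exact (hmem _).1 (Submodule.starProjection_apply_mem S w)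
  · have h1 : S.starProjection (U w - w) = 0 := by
      rw [Submodule.starProjection_apply_eq_zero_iff]
      rw [Submodule.mem_orthogonal]
      intro u hu
      have h2 := (hmem u).1 hu
      rw [inner_sub_right]
      nth_rewrite 1 [← h2]
      rw [hin, sub_self]
    rw [map_sub, sub_eq_zero] at h1
    exact h1
  · exact Submodule.starProjection_eq_self_iff.2 (Submodule.starProjection_apply_mem S w)
  · rw [Submodule.inner_starProjection_left_eq_right]
    congr 1
    exact (Submodule.starProjection_eq_self_iff.2 (Submodule.starProjection_apply_mem S w')).symm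
  · have h1 := ContinuousLinearMap.tendsto_birkhoffAverage_orthogonalProjection U hn w
    have h2 : ∀ K : ℕ, birkhoffAverage ℝ U _root_.id K w = Av U K w := by
      intro K
      unfold birkhoffAverage birkhoffSum Av
      rw [one_div]
      congr 1
      refine sum_congr rfl fun k _ => ?_
      rw [id, FunLike.coe_pow_eq_iterate]
    refine (h1.congr h2).trans_eq ?_
    subst hS
    rfl

/-! #### The products of two coordinates -/

theorem val_le (z : Val) : |(z : ℝ)| ≤ 1 := by
  have h := z.2
  simp only [Set.mem_insert_iff, Set.mem_singleton_iff] at h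
  rcases h with h | h | h <;> rw [h] <;> simp

/-- the product of two coordinates -/
noncomputable def F (i j : ℤ) (x : X) : ℝ := (x i : ℝ) * (x j : ℝ)

theorem F_cont (i j : ℤ) : Continuous (F i j) := by
  unfold F
  fun_prop

theorem F_le (i j : ℤ) (x : X) : ‖F i j x‖ ≤ 1 := by
  unfold F
  rw [norm_mul, Real.norm_eq_abs, Real.norm_eq_abs]
  exact mul_le_one₀ (val_le _) (abs_nonneg _) (val_le _)

variable {μ : Measure X} [IsProbabilityMeasure μ]

theorem F_mem (i j : ℤ) : MemLp (F i j) 2 μ :=
  MemLp.of_bound (F_cont i j).measurable.aestronglyMeasurable 1 (Eventually.of_forall (F_le i j))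

theorem lp_congr {g g' : X → ℝ} (hg : MemLp g 2 μ) (hg' : MemLp g' 2 μ) (h : g = g') : hg.toLp g = hg'.toLp g' := by
  subst h
  rfl

end HspL

open HspL in
/-- **HSP** -/
theorem hsp : S_HSP := by
  intro μ hprob hmp
  obtain ⟨U, hUdef⟩ : ∃ U : Lp ℝ 2 μ →L[ℝ] Lp ℝ 2 μ, U =
      (Lp.compMeasurePreservingₗᵢ ℝ (shift 1) hmp : Lp ℝ 2 μ →ₗᵢ[ℝ] Lp ℝ 2 μ).toContinuousLinearMap := ⟨_, rfl⟩
  have hUa : ∀ w, U w = Lp.compMeasurePreserving (shift 1) hmp w := by
    intro w
    rw [hUdef]
    rfl
  have hU : ∀ w, ‖U w‖ = ‖w‖ := by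
    intro w
    rw [hUa]
    exact Lp.norm_compMeasurePreserving w hmp
  obtain ⟨P, h1, h2, h3, h4, h5⟩ := proj U hU
  have hstep : ∀ i j : ℤ, U ((F_mem i j).toLp (F i j)) = (F_mem (i + 1) (j + 1)).toLp (F (i + 1) (j + 1)) := by
    intro i j
    rw [hUa, Lp.toLp_compMeasurePreserving]
    exact lp_congr _ _ rfl
  have hpow : ∀ (k : ℕ) (i j : ℤ), (U ^ k) ((F_mem i j).toLp (F i j)) =
      (F_mem (μ := μ) (i + k) (j + k)).toLp (F (i + k) (j + k)) := by
    intro k
    induction k with
    | zero =>
      intro i j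
      rw [pow_zero]
      show (F_mem i j).toLp (F i j) = _
      refine lp_congr _ _ ?_
      simp
    | succ k ih =>
      intro i j
      rw [pow_succ, mul_apply_eq_comp, hstep, ih]
      refine lp_congr _ _ ?_
      congr 1
      · push_cast
        ring
      · push_cast
        ring
  refine ⟨Lp ℝ 2 μ, inferInstance, inferInstance, inferInstance, U, P,
    fun a => (F_mem 0 a).toLp (F 0 a), ⟨hU, h1, h2, h3, h4, h5, fun a => ?_, fun i k a b => ?_, ?_, ?_, ?_⟩⟩
  · rw [Lp.norm_toLp]
    have h6 : eLpNorm (F 0 a) 2 μ ≤ 1 := by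
      refine (eLpNorm_le_of_ae_bound (C := 1) (Eventually.of_forall (F_le 0 a))).trans ?_
      simp
    exact ENNReal.toReal_le_of_le_ofReal zero_le_one (by simpa using h6)
  · rw [hpow, hpow, L2.inner_def]
    unfold c4
    refine integral_congr_ae ?_
    filter_upwards [(F_mem (μ := μ) (0 + (i : ℤ)) (a + i)).coeFn_toLp, (F_mem (μ := μ) (0 + (k : ℤ)) (b + k)).coeFn_toLp]
      with x hx hy
    rw [hx, hy]
    unfold F
    rw [zero_add, zero_add, add_comm a, add_comm b]
    simp only [RCLike.inner_apply, conj_trivial]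
    ring
  · intro i j k l
    unfold c4
    refine integral_congr_ae (Eventually.of_forall fun x => ?_)
    simp only
    ring
  · intro i j k l
    unfold c4
    refine integral_congr_ae (Eventually.of_forall fun x => ?_)
    simp only
    ring
  · intro i j k l
    unfold c4
    refine integral_congr_ae (Eventually.of_forall fun x => ?_)
    simp only
    ring

end Pool.Agent.Helper94K9.OP
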