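import Pool.Agent.Helper94K9.OP.Opf

/-! [KEF]: the inequality of the means over a Furstenberg system, in distribution (from `key`, helper15). -/

set_option autoImplicit false

namespace Pool.Agent.Helper94K9.OP

open Finset MeasureTheory Filter Topology

namespace KefL

open KeyL InvL ExkL ParL SubL OpnL OpfL

theorem SP_eq (f : ℕ → Val) (n L : ℕ) : SP (fun _ => 1) (rf f) n L = SU Set.univ L (shift (n : ℤ) (seq f)) := by
  rw [← SX_one]
  unfold SP SX
  simp only [cr_eq]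

theorem SPF_eq (F : ℝ → ℝ) (φ : UnitAddCircle → ℝ) (f : ℕ → Val) (n L : ℕ) :
    SPF F φ (rf f) n L = SXF F φ L (shift (n : ℤ) (seq f)) := by
  unfold SPF SXF
  simp only [cr_eq]

end KefL

open KeyL InvL ExkL ParL SubL OpnL OpfL KefL in
theorem kef (hT : S_TRF) (hO : S_ORT) (hI : S_INV) : S_KEF := by
  intro f μ hf hap hμ F φ ε hFc hFm hF0 h01 hε
  have hinv := hI f μ hμ
  have hort := hO f μ hf hap hμ
  obtain ⟨hprob, N, hN, hlim⟩ := hμ
  obtain ⟨Q, K, hK0, hQ⟩ := hT F φ (ε / 2) hFc hFm hF0 h01 (by positivity)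
  obtain ⟨h, hh1, hh2⟩ : ∃ h : ℕ, 1 ≤ h ∧ K * (Q : ℝ) ^ 2 ≤ ε / 2 * Real.sqrt h := by
    refine ⟨⌈(2 * (K * (Q : ℝ) ^ 2) / ε) ^ 2⌉₊ + 1, by omega, ?_⟩
    have h1 : 2 * (K * (Q : ℝ) ^ 2) / ε ≤ Real.sqrt ((⌈(2 * (K * (Q : ℝ) ^ 2) / ε) ^ 2⌉₊ + 1 : ℕ) : ℝ) := by
      apply Real.le_sqrt_of_sq_le
      push_cast
      exact (Nat.le_ceil _).trans (by linarith)
    have h2 : K * (Q : ℝ) ^ 2 = ε / 2 * (2 * (K * (Q : ℝ) ^ 2) / ε) := by
      field_simp
    rw [h2]
    exact mul_le_mul_of_nonneg_left (by rw [← h2]; exact h1) (by positivity)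
  obtain ⟨I, L₀, hIne, hIp, hmain⟩ := hQ h hh1
  refine ⟨I, max L₀ 1, hIne, hIp, ?_⟩
  intro L hL
  have hL0 : L₀ ≤ L := (le_max_left _ _).trans hL
  have hL1 : 1 ≤ L := (le_max_right _ _).trans hL
  have hSM := sm hf
  have hLr : (0 : ℝ) < L := by exact_mod_cast hL1
  have hhr : (0 : ℝ) < h := by exact_mod_cast hh1
  set RX : X → ℝ := fun x => ∑ q ∈ Icc 1 Q, ∑ a ∈ range q, (1 / (L : ℝ)) *
    ∑ j ∈ range L, ‖VX h (shift (j : ℤ) x) (pt a q)‖ / h with hRX
  have hterm : ∀ (j : ℕ) (α : UnitAddCircle), Continuous fun x : X => ‖VX h (shift (j : ℤ) x) α‖ / (h : ℝ) :=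
    fun j α => ((VX_contX h α).comp (shift_cont _)).norm.div_const _
  have hterm_int : ∀ (j : ℕ) (α : UnitAddCircle), Integrable (fun x : X => ‖VX h (shift (j : ℤ) x) α‖ / (h : ℝ)) μ :=
    fun j α => Integrable.of_bound (hterm j α).measurable.aestronglyMeasurable 1
      (Eventually.of_forall fun x => by
        rw [Real.norm_eq_abs, abs_of_nonneg (by positivity)]
        exact div_le_one_of_le₀ (VX_le h _ α) hhr.le)
  have hRXc : Continuous RX := by
    refine continuous_finsetSum _ fun q _ => continuous_finsetSum _ fun a _ => continuous_const.mul ?_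
    exact continuous_finsetSum _ fun j _ => hterm j _
  have hRR : ∀ n : ℕ, RR (rf f) Q h n L = RX (shift (n : ℤ) (seq f)) := by
    intro n
    simp only [hRX]
    unfold RR
    refine sum_congr rfl fun q _ => sum_congr rfl fun a _ => ?_
    congr 1
    refine sum_congr rfl fun j _ => ?_
    rw [cr_eq, shift_add]
    push_cast
    rfl
  have hRXint : K * ∫ x, RX x ∂μ ≤ ε / 2 := by
    have e1 : ∫ x, RX x ∂μ = ∑ q ∈ Icc 1 Q, ∑ a ∈ range q, (1 / (L : ℝ)) *
        ∑ j ∈ range L, ∫ x : X, ‖VX h (shift (j : ℤ) x) (pt a q)‖ / (h : ℝ) ∂μ := by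
      simp only [hRX]
      rw [integral_finsetSum _ fun q _ => integrable_finsetSum _ fun a _ =>
        (integrable_finsetSum _ fun j _ => hterm_int j _).const_mul _]
      refine sum_congr rfl fun q _ => ?_
      rw [integral_finsetSum _ fun a _ => (integrable_finsetSum _ fun j _ => hterm_int j _).const_mul _]
      refine sum_congr rfl fun a _ => ?_
      rw [integral_const_mul, integral_finsetSum _ fun j _ => hterm_int j _]
    rw [e1]
    have hs : 0 < Real.sqrt h := Real.sqrt_pos.2 hhr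
    have e2 : ∀ (j : ℕ) (α : UnitAddCircle), ∫ x : X, ‖VX h (shift (j : ℤ) x) α‖ / (h : ℝ) ∂μ ≤ 1 / Real.sqrt h := by
      intro j α
      rw [int_shift hinv (fun x => ‖VX h x α‖ / (h : ℝ)) ((VX_contX h α).norm.div_const _) j, integral_div]
      have e3 := int_norm hort h hh1 α
      rw [div_le_div_iff₀ hhr hs, one_mul]
      calc (∫ x, ‖VX h x α‖ ∂μ) * Real.sqrt h ≤ Real.sqrt h * Real.sqrt h := mul_le_mul_of_nonneg_right e3 hs.le
        _ = h := Real.mul_self_sqrt hhr.le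
    have e4 : ∀ q ∈ Icc 1 Q, ∑ a ∈ range q, (1 / (L : ℝ)) *
        ∑ j ∈ range L, ∫ x : X, ‖VX h (shift (j : ℤ) x) (pt a q)‖ / (h : ℝ) ∂μ ≤ Q * (1 / Real.sqrt h) := by
      intro q hq
      calc _ ≤ ∑ a ∈ range q, 1 / Real.sqrt h := by
            refine sum_le_sum fun a _ => ?_
            calc (1 / (L : ℝ)) * ∑ j ∈ range L, ∫ x : X, ‖VX h (shift (j : ℤ) x) (pt a q)‖ / (h : ℝ) ∂μ
                ≤ (1 / (L : ℝ)) * ∑ j ∈ range L, 1 / Real.sqrt h :=
                  mul_le_mul_of_nonneg_left (sum_le_sum fun j _ => e2 j _) (by positivity)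
              _ = 1 / Real.sqrt h := by
                  rw [sum_const, card_range, nsmul_eq_mul]
                  field_simp
        _ = q * (1 / Real.sqrt h) := by rw [sum_const, card_range, nsmul_eq_mul]
        _ ≤ Q * (1 / Real.sqrt h) := by
            refine mul_le_mul_of_nonneg_right ?_ (by positivity)
            exact_mod_cast (mem_Icc.1 hq).2
    calc _ ≤ K * ∑ q ∈ Icc 1 Q, (Q : ℝ) * (1 / Real.sqrt h) := mul_le_mul_of_nonneg_left (sum_le_sum e4) hK0
      _ = (K * (Q : ℝ) ^ 2) / Real.sqrt h := by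
          rw [sum_const, Nat.card_Icc, nsmul_eq_mul]
          simp only [Nat.add_sub_cancel]
          ring
      _ ≤ ε / 2 := by
          rw [div_le_iff₀ hs]
          exact hh2
  have hpos : ∀ y : ℝ, 0 ≤ y → 0 ≤ F y := fun y hy => by
    have := hFm hy
    rwa [hF0] at this
  have hbd : ∀ n L' : ℕ, 0 ≤ SPF F φ (rf f) n L' ∧ SPF F φ (rf f) n L' ≤ F 1 := by
    intro n L'
    rw [SPF_eq]
    exact ⟨Real.iSup_nonneg fun θ => mul_nonneg (h01 θ).1 (hpos _ (g_nonneg L' _ θ)),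
      (SXF_le F hFm hF0 φ Set.univ h01 (fun θ h => absurd (Set.mem_univ θ) h) L' _).trans (hFm (SU_le_one _ L' _))⟩
  -- the limits
  have hA := (hlim (fun x => F (SU Set.univ L x)) (hFc.comp (SU_cont Set.univ L))).const_mul (∫ γ : UnitAddCircle, φ γ)
  have hB : ∀ p : ℕ, Tendsto (fun j => (1 / Real.log (N j : ℝ)) * ∑ n ∈ Icc 1 (N j), (1 / (n : ℝ)) *
      SXF F φ (L / p) (shift (n : ℤ) (seq f))) atTop (𝓝 (∫ x, SXF F φ (L / p) x ∂μ)) := fun p =>
    hlim (SXF F φ (L / p)) (SXF_cont F φ (L / p))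
  have hR := hlim RX hRXc
  have hH := hlim (fun _ => 1) continuous_const
  have hC : Tendsto (fun j => (1 / Real.log (N j : ℝ)) * ∑ p ∈ I, wt I p * (F 1 * (1 + Real.log p))) atTop (𝓝 0) := by
    have h5 : Tendsto (fun j => Real.log (N j : ℝ)) atTop atTop :=
      Real.tendsto_log_atTop.comp (tendsto_natCast_atTop_atTop.comp hN)
    have h6 := (h5.inv_tendsto_atTop).mul_const (∑ p ∈ I, wt I p * (F 1 * (1 + Real.log p)))
    rw [zero_mul] at h6
    simpa [one_div] using h6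
  have hsum := (((tendsto_finsetSum I fun p _ => (hB p).const_mul (wt I p)).add hC).add (hR.const_mul K)).add (hH.const_mul (ε / 2))
  have hle : (∫ γ : UnitAddCircle, φ γ) * ∫ x, F (SU Set.univ L x) ∂μ ≤
      ∑ p ∈ I, wt I p * ∫ x, SXF F φ (L / p) x ∂μ + 0 + K * ∫ x, RX x ∂μ + ε / 2 * ∫ _x : X, (1 : ℝ) ∂μ := by
    refine le_of_tendsto_of_tendsto' hA hsum fun j => ?_
    have hlog : 0 ≤ 1 / Real.log (N j : ℝ) := by
      have := Real.log_natCast_nonneg (N j)
      positivity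
    have hwt0 : ∀ p, 0 ≤ wt I p := fun p => by
      unfold wt
      positivity
    have h1 : ∀ n ∈ Icc 1 (N j), (∫ γ : UnitAddCircle, φ γ) * ((1 / (n : ℝ)) * F (SU Set.univ L (shift (n : ℤ) (seq f)))) ≤
        (1 / (n : ℝ)) * (∑ p ∈ I, wt I p * SPF F φ (rf f) (n / p) (L / p)) +
          K * ((1 / (n : ℝ)) * RX (shift (n : ℤ) (seq f))) + ε / 2 * ((1 / (n : ℝ)) * 1) := by
      intro n _
      have e1 := hmain L hL0 (rf f) hSM n
      rw [SP_eq, hRR] at e1
      have e2 := mul_le_mul_of_nonneg_left e1 (show (0 : ℝ) ≤ 1 / (n : ℝ) by positivity)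
      rw [mul_add, mul_add] at e2
      linarith
    have h2 := sum_le_sum h1
    rw [sum_add_distrib, sum_add_distrib, ← mul_sum, ← mul_sum, ← mul_sum] at h2
    have h3 : ∑ n ∈ Icc 1 (N j), (1 / (n : ℝ)) * (∑ p ∈ I, wt I p * SPF F φ (rf f) (n / p) (L / p)) ≤
        ∑ p ∈ I, wt I p * (∑ n ∈ Icc 1 (N j), (1 / (n : ℝ)) * SXF F φ (L / p) (shift (n : ℤ) (seq f))) +
          ∑ p ∈ I, wt I p * (F 1 * (1 + Real.log p)) := by
      have e1 : ∑ n ∈ Icc 1 (N j), (1 / (n : ℝ)) * (∑ p ∈ I, wt I p * SPF F φ (rf f) (n / p) (L / p)) =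
          ∑ p ∈ I, wt I p * ∑ n ∈ Icc 1 (N j), (1 / (n : ℝ)) * SPF F φ (rf f) (n / p) (L / p) := by
        simp_rw [mul_sum]
        rw [sum_comm]
        refine sum_congr rfl fun p _ => sum_congr rfl fun n _ => ?_
        ring
      rw [e1, ← sum_add_distrib]
      refine sum_le_sum fun p hp => ?_
      rw [← mul_add]
      refine mul_le_mul_of_nonneg_left ?_ (hwt0 p)
      have e2 := Pool.Agent.Helper44K9.FU.DilL.inner_le p (N j) (hIp p hp).one_lt.le (F 1)
        (fun n => SPF F φ (rf f) n (L / p)) (fun n => hbd n (L / p))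
      simp only [SPF_eq] at e2 ⊢
      exact e2
    have h4 := mul_le_mul_of_nonneg_left (h2.trans (add_le_add (add_le_add h3 le_rfl) le_rfl)) hlog
    rw [mul_left_comm] at h4
    refine h4.trans (le_of_eq ?_)
    have e5 : ∑ p ∈ I, wt I p * ((1 / Real.log (N j : ℝ)) * ∑ n ∈ Icc 1 (N j), (1 / (n : ℝ)) *
        SXF F φ (L / p) (shift (n : ℤ) (seq f))) = (1 / Real.log (N j : ℝ)) *
        ∑ p ∈ I, wt I p * ∑ n ∈ Icc 1 (N j), (1 / (n : ℝ)) * SXF F φ (L / p) (shift (n : ℤ) (seq f)) := by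
      rw [mul_sum]
      refine sum_congr rfl fun p _ => ?_
      ring
    rw [e5]
    ring
  have h1 : ∫ _x : X, (1 : ℝ) ∂μ = 1 := by simp
  rw [h1, mul_one, add_zero] at hle
  linarith

end Pool.Agent.Helper94K9.OP
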