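import Pool.Agent.Helper94K9.OP.Stm

/-! Leaf [L1] (helper94): the means of the inner products. -/

set_option autoImplicit false

namespace Pool.Agent.Helper94K9.OP

open Finset MeasureTheory Filter Topology

namespace L1L

variable {E : Type} [NormedAddCommGroup E] [InnerProductSpace ℝ E] {U P : E →L[ℝ] E} {v : ℤ → E}
  {c : ℤ → ℤ → ℤ → ℤ → ℝ}

theorem inner_U (h : HS U P v c) (w w' : E) : inner ℝ (U w) (U w') = inner ℝ w w' := by
  have h1 := h.iso (w + w')
  rw [map_add] at h1
  have h2 := h.iso w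
  have h3 := h.iso w'
  have h4 := norm_add_sq_real (U w) (U w')
  have h5 := norm_add_sq_real w w'
  rw [h1, h2, h3] at h4
  linarith

theorem inner_pow (h : HS U P v c) (n : ℕ) (w w' : E) : inner ℝ ((U ^ n) w) ((U ^ n) w') = inner ℝ w w' := by
  induction n with
  | zero => simp
  | succ n ih =>
    rw [pow_succ', mul_apply_eq_comp, mul_apply_eq_comp, inner_U h, ih]

theorem norm_pow (h : HS U P v c) (n : ℕ) (w : E) : ‖(U ^ n) w‖ = ‖w‖ := by
  have h1 := inner_pow h n w w
  rw [real_inner_self_eq_norm_sq, real_inner_self_eq_norm_sq] at h1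
  exact (sq_eq_sq₀ (norm_nonneg _) (norm_nonneg _)).1 h1

theorem swap (h : HS U P v c) (a k k' : ℕ) (m : ℤ) :
    inner ℝ ((U ^ k) (v a)) ((U ^ k') (v ((a : ℤ) - m))) =
      inner ℝ (v ((k' : ℤ) - k)) ((U ^ a) (v ((k' : ℤ) - k - m))) := by
  rw [h.inn, h.sy2, ← inner_pow h k (v ((k' : ℤ) - k)) _, ← mul_apply_eq_comp, ← pow_add, h.inn]
  congr 1
  · ring
  · push_cast
    ring

/-- the mean ergodic theorem for inner products -/
theorem met (h : HS U P v c) (w w' : E) :
    Tendsto (fun L : ℕ => (∑ a ∈ range L, inner ℝ w ((U ^ a) w')) / L) atTop (𝓝 (inner ℝ (P w) (P w'))) := by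
  rw [← h.adj]
  have h1 : Tendsto (fun L : ℕ => inner ℝ w (Av U L w')) atTop (𝓝 (inner ℝ w (P w'))) :=
    (continuous_const.inner continuous_id).continuousAt.tendsto.comp (h.erg w')
  refine h1.congr fun L => ?_
  unfold Av
  rw [inner_smul_right, inner_sum, one_div, inv_mul_eq_div]

end L1L

open L1L in
/-- **L1** -/
theorem l1 : S_L1 := by
  intro E _ _ _ U P v c h K m hK
  have h1 : ∀ L : ℕ, (∑ a ∈ range L, inner ℝ (Av U K (v a)) (Av U K (v ((a : ℤ) - m)))) / L =
      (∑ k ∈ range K, ∑ k' ∈ range K,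
        (∑ a ∈ range L, inner ℝ (v ((k' : ℤ) - k)) ((U ^ a) (v ((k' : ℤ) - k - m)))) / L) / (K : ℝ) ^ 2 := by
    intro L
    have h2 : ∀ a : ℕ, inner ℝ (Av U K (v a)) (Av U K (v ((a : ℤ) - m))) =
        (∑ k ∈ range K, ∑ k' ∈ range K, inner ℝ (v ((k' : ℤ) - k)) ((U ^ a) (v ((k' : ℤ) - k - m)))) / (K : ℝ) ^ 2 := by
      intro a
      unfold Av
      rw [inner_smul_left, inner_smul_right, sum_inner]
      simp only [inner_sum, swap h]
      simp only [conj_trivial]
      field_simp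
    rw [sum_congr rfl fun a _ => h2 a, ← sum_div, sum_comm]
    rw [sum_congr rfl fun k _ => sum_comm]
    simp only [← sum_div]
    ring
  simp only [h1]
  unfold bK
  refine Tendsto.div_const ?_ _
  refine tendsto_finsetSum _ fun k _ => tendsto_finsetSum _ fun k' _ => ?_
  exact met h _ _

end Pool.Agent.Helper94K9.OP
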