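import Pool.Agent.Helper94K9.OP.Stm
import Pool.Agent.Helper44K9.FU.Dil

/-!
# Project OP: logarithmic averages over the length [LOG]
-/

set_option autoImplicit false

namespace Pool.Agent.Helper94K9.OP

open Finset MeasureTheory Filter Topology

namespace LogL

lemma fourier_re_le (m : ℤ) (θ : UnitAddCircle) : |(fourier m θ : ℂ).re| ≤ 1 := by
  refine (Complex.abs_re_le_norm _).trans ?_
  rw [fourier_apply]
  simp

lemma ph_nonneg (m : ℤ) (σ : ℝ) (hσ : σ = 1 ∨ σ = -1) (θ : UnitAddCircle) : 0 ≤ ph m σ θ := by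
  have h := abs_le.1 (fourier_re_le m θ)
  unfold ph
  rcases hσ with rfl | rfl <;> linarith [h.1, h.2]

lemma wm_nonneg (μ : Measure X) (k : ℕ) (φ : UnitAddCircle → ℝ) (hφ : ∀ θ, 0 ≤ φ θ) (L : ℕ) : 0 ≤ wm μ k φ L := by
  unfold wm
  apply integral_nonneg
  intro x
  unfold WX
  apply mul_nonneg (Nat.cast_nonneg _)
  apply integral_nonneg
  intro θ
  have := hφ θ
  positivity

lemma wm_zero (μ : Measure X) (k : ℕ) (φ : UnitAddCircle → ℝ) : wm μ k φ 0 = 0 := by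
  unfold wm WX
  simp

lemma wt_nonneg (I : Finset ℕ) (p : ℕ) : 0 ≤ wt I p := by
  unfold wt
  positivity

lemma wt_sum (I : Finset ℕ) (hI : I.Nonempty) (hp : ∀ p ∈ I, p.Prime) : ∑ p ∈ I, wt I p = 1 := by
  unfold wt
  rw [← sum_div]
  apply div_self
  have h : 0 < ∑ q ∈ I, 1 / (q : ℝ) := by
    apply sum_pos _ hI
    intro q hq
    have : (0 : ℝ) < q := by exact_mod_cast (hp q hq).pos
    positivity
  exact h.ne'

lemma harm_le (Λ : ℕ) (hΛ : 1 ≤ Λ) : ∑ L ∈ Icc 1 Λ, 1 / (L : ℝ) ≤ 1 + Real.log Λ := by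
  have h1 : ∑ L ∈ Icc 1 Λ, 1 / (L : ℝ) = 1 + ∑ L ∈ Ico 2 (Λ + 1), 1 / (L : ℝ) := by
    have e : Icc 1 Λ = Ico 1 (Λ + 1) := by
      ext x
      simp only [mem_Icc, mem_Ico]
      omega
    rw [e, sum_eq_sum_Ico_succ_bot (by omega)]
    norm_num
  rw [h1]
  have h2 := Pool.Agent.Helper44K9.FU.DilL.sum_Ico_le (a := 1) (b := Λ) le_rfl hΛ
  norm_num at h2 ⊢
  linarith

end LogL

open LogL

theorem log_ (hK : S_KEY) (hE : S_EXK) : S_LOG := by
  intro f μ hf hap hμ k m hk hm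
  have : IsProbabilityMeasure μ := hμ.1
  have hG0 : ∀ (m : ℤ) (L : ℕ), 1 ≤ L → |Gk μ k m L| ≤ 1 := fun m L hL => (hE μ k L m 1 (by omega) hL).2.2.2
  rw [Metric.tendsto_atTop]
  intro ε hε
  obtain ⟨I, L₀, hI, hIp, hmain⟩ := hK f μ hf hap hμ k m (ε / 4) hk hm (by positivity)
  set C : ℝ := ∑ p ∈ I, wt I p * (2 * (1 + Real.log p)) + ∑ L ∈ Icc 1 (L₀ + 1), 1 / (L : ℝ) with hC
  have hC0 : 0 ≤ C := by
    apply add_nonneg
    · apply sum_nonneg
      intro p hp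
      have h1 : 0 ≤ Real.log p := Real.log_nonneg (by exact_mod_cast (hIp p hp).one_lt.le)
      have h2 := wt_nonneg I p
      positivity
    · apply sum_nonneg
      intro L _
      positivity
  have key : ∀ σ : ℝ, σ = 1 ∨ σ = -1 → ∀ Λ : ℕ, 1 ≤ Λ →
      -(σ * ∑ L ∈ Icc 1 Λ, (1 / (L : ℝ)) * Gk μ k m L) ≤ C + ε / 4 * (1 + Real.log Λ) := by
    intro σ hσ Λ hΛ
    set g : ℕ → ℝ := fun L => wm μ k (ph m σ) L with hg
    have hg1 : ∀ L, 1 ≤ L → g L = Gk μ k 0 L + σ * Gk μ k m L := fun L hL =>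
      (hE μ k L m σ (by omega) hL).2.1
    have hg2 : ∀ L, 0 ≤ g L ∧ g L ≤ 2 := by
      intro L
      refine ⟨wm_nonneg μ k _ (ph_nonneg m σ hσ) L, ?_⟩
      rcases Nat.eq_zero_or_pos L with rfl | hL
      · show wm μ k (ph m σ) 0 ≤ 2
        rw [wm_zero]
        norm_num
      · rw [hg1 L hL]
        have h1 := abs_le.1 (hG0 0 L hL)
        have h2 := abs_le.1 (hG0 m L hL)
        rcases hσ with rfl | rfl <;> linarith [h1.2, h2.1, h2.2]
    have h1 : ∀ L ∈ Icc 1 Λ, (1 / (L : ℝ)) * Gk μ k 0 L ≤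
        (1 / (L : ℝ)) * (∑ p ∈ I, wt I p * g (L / p)) + ε / 4 * (1 / (L : ℝ)) +
          if L ≤ L₀ + 1 then 1 / (L : ℝ) else 0 := by
      intro L hL
      have hL1 : 1 ≤ L := (mem_Icc.1 hL).1
      have hLr : 0 ≤ 1 / (L : ℝ) := by positivity
      have hsum0 : 0 ≤ ∑ p ∈ I, wt I p * g (L / p) := sum_nonneg fun p _ => mul_nonneg (wt_nonneg I p) (hg2 _).1
      split_ifs with h
      · have h2 := (abs_le.1 (hG0 0 L hL1)).2
        have h3 : (1 / (L : ℝ)) * Gk μ k 0 L ≤ (1 / (L : ℝ)) * 1 := mul_le_mul_of_nonneg_left h2 hLr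
        have h4 : 0 ≤ (1 / (L : ℝ)) * (∑ p ∈ I, wt I p * g (L / p)) := mul_nonneg hLr hsum0
        have h5 : 0 ≤ ε / 4 * (1 / (L : ℝ)) := by positivity
        linarith
      · have h2 := hmain σ hσ L (by omega)
        rw [(hE μ k L m 1 (by omega) hL1).1] at h2
        have h3 := mul_le_mul_of_nonneg_left h2 hLr
        rw [mul_add] at h3
        linarith
    have h2 := sum_le_sum h1
    rw [sum_add_distrib, sum_add_distrib] at h2
    have h3 : ∑ L ∈ Icc 1 Λ, (1 / (L : ℝ)) * (∑ p ∈ I, wt I p * g (L / p)) ≤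
        ∑ L ∈ Icc 1 Λ, (1 / (L : ℝ)) * g L + ∑ p ∈ I, wt I p * (2 * (1 + Real.log p)) := by
      have e1 : ∑ L ∈ Icc 1 Λ, (1 / (L : ℝ)) * (∑ p ∈ I, wt I p * g (L / p)) =
          ∑ p ∈ I, wt I p * ∑ L ∈ Icc 1 Λ, (1 / (L : ℝ)) * g (L / p) := by
        simp_rw [mul_sum]
        rw [sum_comm]
        refine sum_congr rfl fun p _ => sum_congr rfl fun L _ => ?_
        ring
      rw [e1]
      calc ∑ p ∈ I, wt I p * ∑ L ∈ Icc 1 Λ, (1 / (L : ℝ)) * g (L / p)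
          ≤ ∑ p ∈ I, wt I p * (∑ L ∈ Icc 1 Λ, (1 / (L : ℝ)) * g L + 2 * (1 + Real.log p)) := by
            refine sum_le_sum fun p hp => mul_le_mul_of_nonneg_left ?_ (wt_nonneg I p)
            exact Pool.Agent.Helper44K9.FU.DilL.inner_le p Λ (hIp p hp).one_lt.le 2 g hg2
        _ = _ := by
            simp_rw [mul_add]
            rw [sum_add_distrib, ← sum_mul, wt_sum I hI hIp, one_mul]
    have h4 : ∑ L ∈ Icc 1 Λ, (1 / (L : ℝ)) * g L = ∑ L ∈ Icc 1 Λ, (1 / (L : ℝ)) * Gk μ k 0 L +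
        σ * ∑ L ∈ Icc 1 Λ, (1 / (L : ℝ)) * Gk μ k m L := by
      rw [mul_sum, ← sum_add_distrib]
      refine sum_congr rfl fun L hL => ?_
      rw [hg1 L (mem_Icc.1 hL).1]
      ring
    have h5 : ∑ L ∈ Icc 1 Λ, (if L ≤ L₀ + 1 then 1 / (L : ℝ) else 0) ≤ ∑ L ∈ Icc 1 (L₀ + 1), 1 / (L : ℝ) := by
      rw [← sum_filter]
      apply sum_le_sum_of_subset_of_nonneg
      · intro L hL
        rw [mem_filter, mem_Icc] at hL
        rw [mem_Icc]
        omega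
      · intro L _ _
        positivity
    have h6 : ∑ L ∈ Icc 1 Λ, ε / 4 * (1 / (L : ℝ)) ≤ ε / 4 * (1 + Real.log Λ) := by
      rw [← mul_sum]
      exact mul_le_mul_of_nonneg_left (harm_le Λ hΛ) (by positivity)
    linarith
  obtain ⟨N, hN⟩ := exists_nat_ge (Real.exp (1 + 4 * C / ε))
  refine ⟨N + 1, fun Λ hΛ => ?_⟩
  have hΛ1 : 1 ≤ Λ := by omega
  have hlog : 1 + 4 * C / ε ≤ Real.log Λ := by
    rw [Real.le_log_iff_exp_le (by exact_mod_cast hΛ1)]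
    exact hN.trans (by exact_mod_cast (by omega : N ≤ Λ))
  have h0 : 0 ≤ 4 * C / ε := by positivity
  have hl0 : 0 < Real.log Λ := by linarith
  have h1 := key 1 (Or.inl rfl) Λ hΛ1
  have h2 := key (-1) (Or.inr rfl) Λ hΛ1
  have h3 : |∑ L ∈ Icc 1 Λ, (1 / (L : ℝ)) * Gk μ k m L| ≤ C + ε / 4 * (1 + Real.log Λ) := by
    rw [abs_le]
    constructor <;> linarith
  rw [Real.dist_eq, sub_zero, abs_div, abs_of_pos hl0, div_lt_iff₀ hl0]
  refine lt_of_le_of_lt h3 ?_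
  have h4 : C ≤ ε / 4 * Real.log Λ := by
    have h5 : 4 * C / ε ≤ Real.log Λ := by linarith
    rw [div_le_iff₀ hε] at h5
    linarith
  have h5 : 1 ≤ Real.log Λ := by linarith
  nlinarith

end Pool.Agent.Helper94K9.OP
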