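import Pool.Agent.Helper94K9.OP.Stm
import Pool.Agent.Helper38K9.SC.Pair

/-! Leaf [ORT] (helper94): distinct coordinates are orthogonal in the Furstenberg systems of aperiodic functions
(from the two point theorem, as in Results/MP_4a7640_nt/CommonSparsePlaces.lean). -/

set_option autoImplicit false

namespace Pool.Agent.Helper94K9.OP

open Finset MeasureTheory Filter Topology

namespace OrtL

lemma val_le (z : Val) : |(z : ℝ)| ≤ 1 := by
  have h := z.2
  simp only [Set.mem_insert_iff, Set.mem_singleton_iff] at h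
  rcases h with h | h | h <;> rw [h] <;> simp

lemma seq_nat (f : ℕ → Val) (n : ℕ) (hn : 1 ≤ n) : seq f n = f n := by
  unfold seq
  rw [if_pos (by exact_mod_cast hn), Int.toNat_natCast]

lemma val_pm {f : ℕ → Val} (hf : IsMult f) (n : ℕ) (hn : 1 ≤ n) : (f n : ℝ) = 1 ∨ (f n : ℝ) = -1 := by
  have h := (f n).2
  simp only [Set.mem_insert_iff, Set.mem_singleton_iff] at h
  rcases h with h | h | h
  · exact Or.inr h
  · exact absurd h (hf.1 n hn)
  · exact Or.inl h

/-- the integer valued version -/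
noncomputable def gz (f : ℕ → Val) (n : ℕ) : ℤ := if (f n : ℝ) = 1 then 1 else -1

lemma gz_eq {f : ℕ → Val} (hf : IsMult f) (n : ℕ) (hn : 1 ≤ n) : ((gz f n : ℤ) : ℝ) = f n := by
  unfold gz
  rcases val_pm hf n hn with h | h
  · rw [if_pos h, h]; norm_num
  · rw [if_neg (by rw [h]; norm_num), h]; norm_num

lemma gz_ms {f : ℕ → Val} (hf : IsMult f) : Pool.Agent.R512.P.MS (gz f) := by
  refine ⟨fun n _ => ?_, fun m n hm hn hc => ?_⟩
  · unfold gz
    split_ifs
    · exact Or.inl rfl
    · exact Or.inr rfl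
  · have h := hf.2 m n hm hn hc
    rw [← gz_eq hf m hm, ← gz_eq hf n hn, ← gz_eq hf (m * n) (Nat.mul_pos hm hn)] at h
    exact_mod_cast h

lemma gz_real {f : ℕ → Val} (hf : IsMult f) (h : Aperiodic f) :
    Pool.Agent.R512.G.NoReal (fun n => (gz f n : ℝ)) := by
  intro q χ hq _ hs
  apply h q hq χ
  have h1 : Summable (fun p : Nat.Primes => (fun p : ℕ => if p.Prime then
    (1 - (((f p : ℝ) : ℂ) * (starRingEnd ℂ) (χ (p : ZMod q))).re) / (p : ℝ) else 0) (p : ℕ)) := by
    refine hs.congr fun p => ?_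
    simp only
    rw [if_pos p.2, Complex.re_ofReal_mul, Complex.conj_re, gz_eq hf p p.2.one_lt.le]
  have h2 := (Function.Injective.summable_iff (g := fun p : Nat.Primes => (p : ℕ))
    (f := fun p : ℕ => if p.Prime then
    (1 - (((f p : ℝ) : ℂ) * (starRingEnd ℂ) (χ (p : ZMod q))).re) / (p : ℝ) else 0)
    Subtype.val_injective (fun p hp => by
      rw [if_neg]
      intro hp'
      exact hp ⟨⟨p, hp'⟩, rfl⟩)).1
  exact h2 h1

end OrtL

open OrtL in
/-- **ORT** -/
theorem ort : S_ORT := by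
  intro f μ hf ha hμ i j hij
  obtain ⟨hprob, N, hN, hlim⟩ := hμ
  have h1 := Pool.Agent.Helper38K9.SC.pairZ (gz_ms hf) (gz_real hf ha) (fun z => (seq f z : ℝ))
    (fun z => val_le _) (fun n hn => by
      show ((seq f (n : ℤ) : Val) : ℝ) = gz f n
      rw [seq_nat f n hn, gz_eq hf n hn]) hN i j hij
  have h2 := hlim (fun x => (x i : ℝ) * (x j : ℝ)) (by fun_prop)
  exact tendsto_nhds_unique h2 h1

end Pool.Agent.Helper94K9.OP
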