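import Pool.Agent.Helper94K9.OP.Stm

/-!
# Project OP, part 2 (MP_4a7640_nt, helper94): the frequencies are equidistributed

The parallelograms with `m ≠ 0` alone are contained in the starting file DisplacedCubes. New form: suprema over
sets of frequencies, all `k`, and all test functions. Definitions and statements of the leaves.
-/

set_option autoImplicit false

namespace Pool.Agent.Helper94K9.OP

open Finset MeasureTheory Filter Topology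

/-- the supremum of `φ` times the correlation -/
noncomputable def SP (φ : UnitAddCircle → ℝ) (f : ℕ → ℝ) (n L : ℕ) : ℝ := ⨆ θ : UnitAddCircle, φ θ * cr f n L θ

/-- the same on the space of sequences -/
noncomputable def SX (φ : UnitAddCircle → ℝ) (L : ℕ) (x : X) : ℝ := ⨆ θ : UnitAddCircle, φ θ * (‖VX L x θ‖ / L)

/-- the supremum over a set of frequencies (zero if the set is empty) -/
noncomputable def SU (U : Set UnitAddCircle) (L : ℕ) (x : X) : ℝ := ⨆ θ : U, ‖VX L x θ‖ / L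

/-- [EQC] `FC.S_WPR → FU.S_CHB → S_EQC` (helper94): as `eqd` in OP/Eqd.lean, for finitely many characters at once, and
approximation of `φ` by trigonometric polynomials. -/
def S_EQC : Prop := ∀ (φ : C(UnitAddCircle, ℝ)) (ε : ℝ), 0 < ε → ∃ Q : ℕ, ∀ τ : ℝ, 0 < τ → ∀ (z : ℕ) (A : ℝ),
  ∃ I : Finset ℕ, (∀ p ∈ I, p.Prime ∧ z < p) ∧ A ≤ ∑ p ∈ I, 1 / (p : ℝ) ∧ ∀ θ ∉ Mj Q τ,
    |∑ p ∈ I, (1 / (p : ℝ)) * (φ (p • θ) - ∫ γ : UnitAddCircle, φ γ)| ≤ ε * ∑ p ∈ I, 1 / (p : ℝ)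

/-- [TRS] `S_EQC → S_TKB → S_PAR → S_MAJ → S_TRS`. Proof: let `θ₀` be a maximum point of `cr f n L` (continuous on a
compact space). On `Mj Q τ` use `S_MAJ` (`∫ φ ≤ 1`). Otherwise
`∑ wt SP φ f (n/p) (L/p) ≥ ∑ wt φ(p θ₀) cr f (n/p) (L/p) (p θ₀) ≥ ∑ wt φ(p θ₀) cr f n L θ₀ - ∑ wt |difference|`; the
last sum is at most `(100 / A)^(1/2)` by Cauchy-Schwarz and `S_TKB`, and `∑ wt φ(p θ₀) ≥ ∫ φ - ε/4` by `S_EQC`. (Take
`A` with `A ≥ 1`, so `I` is not empty.) -/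
def S_TRS : Prop := ∀ (φ : C(UnitAddCircle, ℝ)) (ε : ℝ), (∀ θ, 0 ≤ φ θ ∧ φ θ ≤ 1) → 0 < ε → ∃ Q : ℕ, ∀ h : ℕ, 1 ≤ h →
  ∃ (I : Finset ℕ) (L₀ : ℕ), I.Nonempty ∧ (∀ p ∈ I, p.Prime) ∧ ∀ L ≥ L₀, ∀ f : ℕ → ℝ, SM f → ∀ n : ℕ,
    (∫ γ : UnitAddCircle, φ γ) * SP (fun _ => 1) f n L ≤ ∑ p ∈ I, wt I p * SP φ f (n / p) (L / p) + RR f Q h n L + ε

/-- [KES] `S_TRS → S_ORT → S_INV → S_KES`: as `key` in OP/Key.lean (`SP φ (rf f) n L = SX φ L (shift n (seq f))`;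
`SX φ L` is continuous in `x`: it depends on finitely many coordinates, or
`|SX φ L x - SX φ L y| ≤ ∑_{h ≤ L} |x h - y h| / L`; its values are in `[0, 1]`). -/
def S_KES : Prop := ∀ (f : ℕ → Val) (μ : Measure X), IsMult f → Aperiodic f → IsFurstenbergSystem f μ →
  ∀ (φ : C(UnitAddCircle, ℝ)) (ε : ℝ), (∀ θ, 0 ≤ φ θ ∧ φ θ ≤ 1) → 0 < ε →
  ∃ (I : Finset ℕ) (L₀ : ℕ), I.Nonempty ∧ (∀ p ∈ I, p.Prime) ∧ ∀ L ≥ L₀,
    (∫ γ : UnitAddCircle, φ γ) * ∫ x, SX (fun _ => 1) L x ∂μ ≤ ∑ p ∈ I, wt I p * ∫ x, SX φ (L / p) x ∂μ + ε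

/-- [SUB] the limits exist (helper94). Proof: `Subadditive.tendsto_lim` for `L ↦ L ∫ SU U L`, as
`V_{L+M}(x, θ) = V_L(x, θ) + e(L θ) V_M(T^L x, θ)`. -/
def S_SUB : Prop := ∀ (μ : Measure X) [IsProbabilityMeasure μ], MeasurePreserving (shift 1) μ μ →
  ∀ U : Set UnitAddCircle, (∀ L : ℕ, Continuous (SU U L)) ∧ ∃ s : ℝ, Tendsto (fun L : ℕ => ∫ x, SU U L x ∂μ) atTop (𝓝 s)

/-- [OPN] `S_KES → S_SUB → S_INV → S_OPN` (helper94). -/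
def S_OPN : Prop := ∀ (f : ℕ → Val) (μ : Measure X), IsMult f → Aperiodic f → IsFurstenbergSystem f μ →
  ∃ s : Set UnitAddCircle → ℝ, (∀ U, Tendsto (fun L : ℕ => ∫ x, SU U L x ∂μ) atTop (𝓝 (s U))) ∧
    ∀ U, IsOpen U → (volume (U ∪ -U)).toReal * s Set.univ ≤ s U

/-- [EQV] no frequencies at all iff the constants vanish. Proof: (upper bound) `L ∫ cr^4 ≤ sup cr^2 L ∫ cr^2 ≤ sup cr`
(Parseval as in `S_PAR`, for `VX`); so `c ≤ s`. (lower bound) if `‖VX L x θ₀‖ / L ≥ δ` then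
`‖VX L x θ‖ / L ≥ δ / 2` for `‖θ - θ₀‖ ≤ δ / (20 L)` (`|e(h θ) - e(h θ₀)| ≤ 2 π h ‖θ - θ₀‖`), so
`WX 2 1 L x ≥ L (δ/2)^4 δ / (10 L) ≥ δ^5 / 1000`, for `L ≥ 1`; and `∫ δ(x)^5 dμ ≥ (∫ δ(x) dμ)^5` or, simpler,
`δ ≤ η + δ^5 / η^4` for every `η > 0`. -/
def S_EQV : Prop := ∀ (μ : Measure X) [IsProbabilityMeasure μ] (c s : ℝ),
  Tendsto (fun L : ℕ => wm μ 2 (fun _ => 1) L) atTop (𝓝 c) →
  Tendsto (fun L : ℕ => ∫ x, SU Set.univ L x ∂μ) atTop (𝓝 s) → (c = 0 ↔ s = 0)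

/-- [LDN] `S_EXK → S_LOG → S_LDN`: all continuous test functions, all `k ≥ 2`, logarithmic averages over `L`. Proof: as
OP/Den.lean (linear in `φ`; `|WX k φ L x| ≤ sup |φ|`; real parts of characters by `S_LOG`, imaginary parts give zero). -/
def S_LDN : Prop := ∀ (f : ℕ → Val) (μ : Measure X), IsMult f → Aperiodic f → IsFurstenbergSystem f μ →
  ∀ (k : ℕ) (φ : C(UnitAddCircle, ℝ)), 2 ≤ k →
    Tendsto (fun M : ℕ => (∑ L ∈ Icc 1 M, (1 / (L : ℝ)) *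
      (wm μ k φ L - (∫ θ : UnitAddCircle, φ θ) * wm μ k (fun _ => 1) L)) / Real.log M) atTop (𝓝 0)

end Pool.Agent.Helper94K9.OP
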