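import Pool.Agent.Helper94K9.OP.St2

/-!
# Project OP, part 3 (MP_4a7640_nt, helper94): the suprema in distribution

Instead of the mean of the supremum the mean of `F` of the supremum, for all continuous nondecreasing `F` with
`F 0 = 0`.
-/

set_option autoImplicit false

namespace Pool.Agent.Helper94K9.OP

open Finset MeasureTheory Filter Topology

/-- the supremum of `φ` times `F` of the correlation -/
noncomputable def SPF (F : ℝ → ℝ) (φ : UnitAddCircle → ℝ) (f : ℕ → ℝ) (n L : ℕ) : ℝ :=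
  ⨆ θ : UnitAddCircle, φ θ * F (cr f n L θ)

/-- the same on the space of sequences -/
noncomputable def SXF (F : ℝ → ℝ) (φ : UnitAddCircle → ℝ) (L : ℕ) (x : X) : ℝ :=
  ⨆ θ : UnitAddCircle, φ θ * F (‖VX L x θ‖ / L)

/-- [TRF] `S_EQC → S_TKB → S_PAR → S_MAJ → S_TRF`. Proof: as `trs` in OP/Trs.lean. By uniform continuity on `[0, 1]`
there is `K` with `|F a - F b| ≤ ε/8 + K |a - b|` for `a, b ∈ [0, 1]`. With `θ₀` a maximum point of `cr f n L`: on the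
major arcs `F (cr θ₀) ≤ ε/8 + K (RR + η)`; otherwise `SPF F φ f (n/p) (L/p) ≥ φ(p θ₀) F (cr f (n/p) (L/p) (p θ₀)) ≥
φ(p θ₀) F (cr f n L θ₀) - ε/8 - K |difference|`. -/
def S_TRF : Prop := ∀ (F : ℝ → ℝ) (φ : C(UnitAddCircle, ℝ)) (ε : ℝ), Continuous F → Monotone F → F 0 = 0 →
  (∀ θ, 0 ≤ φ θ ∧ φ θ ≤ 1) → 0 < ε → ∃ (Q : ℕ) (K : ℝ), 0 ≤ K ∧ ∀ h : ℕ, 1 ≤ h →
  ∃ (I : Finset ℕ) (L₀ : ℕ), I.Nonempty ∧ (∀ p ∈ I, p.Prime) ∧ ∀ L ≥ L₀, ∀ f : ℕ → ℝ, SM f → ∀ n : ℕ,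
    (∫ γ : UnitAddCircle, φ γ) * F (SP (fun _ => 1) f n L) ≤
      ∑ p ∈ I, wt I p * SPF F φ f (n / p) (L / p) + K * RR f Q h n L + ε

/-- [KEF] `S_TRF → S_ORT → S_INV → S_KEF`: as `key` in OP/Key.lean (the values of `SXF F φ L` are in `[0, F 1]`; the
continuity in `x`: `SubL.dep_cont`, `SubL.VX_dep` in OP/Sub.lean; `SP (fun _ => 1) (rf f) n L = SX (fun _ => 1) L _ =
SU univ L _`: `OpnL.SX_one` in OP/Opn.lean). -/
def S_KEF : Prop := ∀ (f : ℕ → Val) (μ : Measure X), IsMult f → Aperiodic f → IsFurstenbergSystem f μ →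
  ∀ (F : ℝ → ℝ) (φ : C(UnitAddCircle, ℝ)) (ε : ℝ), Continuous F → Monotone F → F 0 = 0 →
  (∀ θ, 0 ≤ φ θ ∧ φ θ ≤ 1) → 0 < ε →
  ∃ (I : Finset ℕ) (L₀ : ℕ), I.Nonempty ∧ (∀ p ∈ I, p.Prime) ∧ ∀ L ≥ L₀,
    (∫ γ : UnitAddCircle, φ γ) * ∫ x, F (SU Set.univ L x) ∂μ ≤ ∑ p ∈ I, wt I p * ∫ x, SXF F φ (L / p) x ∂μ + ε

/-- [SUF] the limits exist (helper94): powers by subadditivity, then Weierstrass. -/
def S_SUF : Prop := ∀ (μ : Measure X) [IsProbabilityMeasure μ], MeasurePreserving (shift 1) μ μ →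
  ∀ (U : Set UnitAddCircle) (F : ℝ → ℝ), Continuous F →
    ∃ s : ℝ, Tendsto (fun L : ℕ => ∫ x, F (SU U L x) ∂μ) atTop (𝓝 s)

/-- [OPF] `S_KEF → S_SUF → S_INV → S_OPF` (helper94). -/
def S_OPF : Prop := ∀ (f : ℕ → Val) (μ : Measure X), IsMult f → Aperiodic f → IsFurstenbergSystem f μ →
  ∀ F : ℝ → ℝ, Continuous F → Monotone F → F 0 = 0 →
  ∃ s : Set UnitAddCircle → ℝ, (∀ U, Tendsto (fun L : ℕ => ∫ x, F (SU U L x) ∂μ) atTop (𝓝 (s U))) ∧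
    ∀ U, IsOpen U → (volume (U ∪ -U)).toReal * s Set.univ ≤ s U

end Pool.Agent.Helper94K9.OP
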