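import Pool.Agent.Helper94K9.OP.St3

/-!
# Project OP, part 4 (MP_4a7640_nt, helper94): all sets of frequencies, and the upper bound

The inequality `|U ∪ -U| s(ℝ/ℤ) ≤ s(U)` for the closures of arbitrary sets `U`, and the opposite inequality
`s(U) ≤ 15 |closure U|` for the mean of the square of the supremum.
-/

set_option autoImplicit false

namespace Pool.Agent.Helper94K9.OP

open Finset MeasureTheory Filter Topology

/-- [CLO] `S_CLO` (helper94): outer regularity of the limits. The mean of the `q`-th power of the supremum is at least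
its limit (Minkowski, subadditivity), and `SU V L x` is near `SU K L x`, uniformly in `x`, for fixed `L` and small
neighbourhoods `V` of `K`; then Weierstrass. -/
def S_CLO : Prop := ∀ (μ : Measure X) [IsProbabilityMeasure μ], MeasurePreserving (shift 1) μ μ →
  ∀ F : ℝ → ℝ, Continuous F → ∀ s : Set UnitAddCircle → ℝ,
  (∀ U, Tendsto (fun L : ℕ => ∫ x, F (SU U L x) ∂μ) atTop (𝓝 (s U))) →
  ∀ K : Set UnitAddCircle, ∀ ε > 0, ∃ V, IsOpen V ∧ closure K ⊆ V ∧ s V ≤ s K + ε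

/-- the derivative of `VX`, divided by `2 π i` -/
noncomputable def DX (L : ℕ) (x : X) (θ : UnitAddCircle) : ℂ :=
  ∑ h ∈ Icc 1 L, (h : ℂ) * ((x (h : ℤ) : ℝ) : ℂ) * (fourier (h : ℤ) θ : ℂ)

/-- [GAL] (inequality of Gallagher). Proof: let `θ₀ ∈ U`, `g(t) = ‖VX L x θ‖ ^ 2` at `θ = θ₀ + t`, `|t| ≤ 1/(2L)`, `t` real:
`g(0) ≤ g(t) + ∫_{|u| ≤ 1/(2L)} |g'(u)| du`, `|g'| ≤ 4 π ‖VX‖ ‖DX‖ ≤ 2 π L ‖VX‖ ^ 2 + (2 π / L) ‖DX‖ ^ 2`; take the mean over
`t` (length `1/L`): `g(0) ≤ ∫_{|t| ≤ 1/(2L)} ((1 + 2 π) L ‖VX‖ ^ 2 + (2 π / L) ‖DX‖ ^ 2) dt`, and `1 + 2 π ≤ 8`, `2 π ≤ 7`;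
the arc is in the closed neighbourhood of `U` (`AddCircle.intervalIntegral_preimage`). `SU` is a supremum over `U` of
`‖VX‖ / L` (zero if `U` is empty). -/
def S_GAL : Prop := ∀ (U : Set UnitAddCircle) (L : ℕ) (x : X), 1 ≤ L →
  SU U L x ^ 2 ≤ ∫ θ in Metric.cthickening (1 / (2 * (L : ℝ))) U,
    (8 * (‖VX L x θ‖ ^ 2 / L) + 7 * (‖DX L x θ‖ ^ 2 / (L : ℝ) ^ 3))

/-- [UPP] `S_GAL → S_ORT → S_UPP`. Proof: integrate `S_GAL` over `x`: expand `‖VX L x θ‖ ^ 2` and `‖DX L x θ‖ ^ 2` in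
`x(g) x(h) e((g - h) θ)`, `∫ x(g) x(h) dμ = 0` for `g ≠ h` (`S_ORT`), so the mean is at most
`∫_W (8 L / L + 7 (∑_{h ≤ L} h ^ 2) / L ^ 3) ≤ 15 |W|`, `W` the closed neighbourhood of `U` with radius `1/(2L)`, and `|W|`
tends to the measure of the closure of `U` (`tendsto_measure_cthickening`, with `Metric.cthickening_closure`). -/
def S_UPP : Prop := ∀ (f : ℕ → Val) (μ : Measure X), IsMult f → Aperiodic f → IsFurstenbergSystem f μ →
  ∀ (U : Set UnitAddCircle) (s : ℝ), Tendsto (fun L : ℕ => ∫ x, SU U L x ^ 2 ∂μ) atTop (𝓝 s) →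
    s ≤ 15 * (volume (closure U)).toReal

end Pool.Agent.Helper94K9.OP
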