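import Pool.Agent.Helper44K9.FC.Stm

/-!
# Project OP (MP_4a7640_nt, helper94): off-diagonal parallelograms

Let `μ` be a Furstenberg system of an aperiodic multiplicative function with values `1` and `-1`. The means of the
four point correlations over the `h ∈ (0, L]^4` with `h₁ + h₂ - h₃ - h₄ = m` tend to `0` for every `m ≠ 0`, and
converge for `m = 0`; the means of the `2 k` point correlations tend to `0` in logarithmic average over `L`.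
Definitions and statements of the leaves.

Idea: for `x = shift n x_f` and a prime `p` the correlation of `x` with `e(h θ)` on the window `(n, n + L]` is up to a
sign and a small error the correlation with `e(h p θ)` on the window `(n/p, n/p + L/p]`, for most `p` (Turán-Kubilius).
So `∫ φ(θ) L |V_L(θ)/L|^(2k) dθ`, at the scale `L/p` at `n/p`, is at least the same integral with `φ(p θ)` at the scale
`L` at `n` (for each `n`), and `φ(p θ)` is on average over `p` the mean of `φ` if `θ` is on the minor arcs. Now take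
the logarithmic mean over `n`, with `φ = 1 + cos` and `1 - cos`.
-/

set_option autoImplicit false

namespace Pool.Agent.Helper94K9.OP

open Finset MeasureTheory Filter Topology

/-! ### Definitions: sequences -/

/-- multiplicative functions with values `1`, `-1` (real valued; nothing but `|f 0| ≤ 1` is required at `0`) -/
def SM (f : ℕ → ℝ) : Prop := (∀ n, |f n| ≤ 1) ∧ (∀ n, 1 ≤ n → f n = 1 ∨ f n = -1) ∧
  ∀ a b : ℕ, 1 ≤ a → 1 ≤ b → a.Coprime b → f (a * b) = f a * f b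

/-- the sum of `f(m) e(m θ)` over `n < m ≤ n + L` -/
noncomputable def V (f : ℕ → ℝ) (n L : ℕ) (θ : UnitAddCircle) : ℂ :=
  ∑ m ∈ Ioc n (n + L), ((f m : ℝ) : ℂ) * (fourier (m : ℤ) θ : ℂ)

/-- the normalized correlation -/
noncomputable def cr (f : ℕ → ℝ) (n L : ℕ) (θ : UnitAddCircle) : ℝ := ‖V f n L θ‖ / L

/-- the integral against the density `L |V/L|^(2k)` -/
noncomputable def W (k : ℕ) (φ : UnitAddCircle → ℝ) (f : ℕ → ℝ) (n L : ℕ) : ℝ :=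
  L * ∫ θ : UnitAddCircle, φ θ * cr f n L θ ^ (2 * k)

/-- `1 + σ cos(2 π m θ)` -/
noncomputable def ph (m : ℤ) (σ : ℝ) (θ : UnitAddCircle) : ℝ := 1 + σ * (fourier m θ : ℂ).re

/-- the major arcs -/
def Mj (Q : ℕ) (τ : ℝ) : Set UnitAddCircle := {θ | ∃ q : ℕ, 1 ≤ q ∧ q ≤ Q ∧ ‖q • θ‖ ≤ τ}

/-- the point `a / q` -/
noncomputable def pt (a q : ℕ) : UnitAddCircle := (((a : ℝ) / (q : ℝ) : ℝ) : UnitAddCircle)

/-- bound for the correlations on the major arcs by the correlations on short windows with the fractions `a / q` -/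
noncomputable def RR (f : ℕ → ℝ) (Q h n L : ℕ) : ℝ :=
  ∑ q ∈ Icc 1 Q, ∑ a ∈ range q, (1 / (L : ℝ)) * ∑ j ∈ range L, cr f (n + j) h (pt a q)

/-- the weights `1 / p`, normalized -/
noncomputable def wt (I : Finset ℕ) (p : ℕ) : ℝ := (1 / (p : ℝ)) / ∑ q ∈ I, 1 / (q : ℝ)

/-! ### Part 1: pointwise inequality -/

/-- [EQD] `FC.S_WPR → FU.S_CHB → S_EQD`: equidistribution of `p θ` on the minor arcs. Proof: as in FC/Eq1.lean: `I` = all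
primes of `(2^k₁, 2^k₂]`; `S_WPR` for `ε b` (`b` from `S_CHB`) and the real number `m α`, `θ = α` modulo one,
`Q = C |m|`; `‖q • θ‖ > τ` for `q ≤ Q` gives `τ < |q (m α) - a|`; and `∑_{block} 1/p ≥ b/k`. -/
def S_EQD : Prop := ∀ (m : ℤ) (ε : ℝ), m ≠ 0 → 0 < ε → ∃ Q : ℕ, ∀ τ : ℝ, 0 < τ → ∀ (z : ℕ) (A : ℝ), ∃ I : Finset ℕ,
  (∀ p ∈ I, p.Prime ∧ z < p) ∧ A ≤ ∑ p ∈ I, 1 / (p : ℝ) ∧ ∀ θ ∉ Mj Q τ,
    ‖∑ p ∈ I, ((1 / (p : ℝ) : ℝ) : ℂ) * (fourier (m * (p : ℤ)) θ : ℂ)‖ ≤ ε * ∑ p ∈ I, 1 / (p : ℝ)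

/-- [TKB] `FU.S_TK → S_TKB` (`FU.tk` in FU/Tk.lean; compare `FU.push`, and FN/Pusha.lean `PushaL.main`, `win`, `two`).
Proof: `a m = f m e(m θ)` (for `m ≥ 1`); the multiples `m = p m'` of `p` in the window give
`f p ∑_{n/p < m' ≤ (n+L)/p} f m' e(m' p θ)` up to twice the number of the `m'` divisible by `p`
(at most `L/p² + 1` of them), and the range of `m'` differs from `Ioc (n/p) (n/p + L/p)` by at most one element. So
`|cr f (n/p) (L/p) (p θ) - ‖p A_p‖/L| ≤ 4 p/L + 2/p` and `| ‖p A_p‖ - ‖A‖ | ≤ ‖p A_p - A‖`. -/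
def S_TKB : Prop := ∀ I : Finset ℕ, (∀ p ∈ I, p.Prime) → ∃ L₀ : ℕ, ∀ L ≥ L₀, ∀ f : ℕ → ℝ, SM f →
  ∀ (n : ℕ) (θ : UnitAddCircle),
    ∑ p ∈ I, (1 / (p : ℝ)) * (cr f n L θ - cr f (n / p) (L / p) (p • θ)) ^ 2 ≤ 100

open Classical in
/-- [BSL] `FC.S_BS1 → S_BSL` (`FC.bs1` in FC/Bs.lean): for few primes `p` is there another large correlation at
`θ + j/p`. Proof: choose `j_p` for these primes; the numbers `α + j_p/p` (`θ = α` modulo one) are separated by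
`1/P²`, `P = max I`, modulo one; Bessel with `ε = 1`, `R = #I`, `L ≥ K₀ P²`. -/
def S_BSL : Prop := ∀ (I : Finset ℕ) (δ : ℝ), 0 < δ → (∀ p ∈ I, p.Prime) → ∃ L₀ : ℕ, ∀ L ≥ L₀, ∀ f : ℕ → ℝ,
  (∀ n, |f n| ≤ 1) → ∀ (n : ℕ) (θ : UnitAddCircle),
    ((I.filter fun p => ∃ j : ℕ, 1 ≤ j ∧ j < p ∧ δ < cr f n L (θ + pt j p)).card : ℝ) * δ ^ 2 ≤ 2

/-- [PAR] Parseval (upper bound), and the values of `cr` are in `[0, 1]`, `cr` is continuous. -/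
def S_PAR : Prop := ∀ (f : ℕ → ℝ), (∀ n, |f n| ≤ 1) → ∀ n L : ℕ, Continuous (cr f n L) ∧
  (∀ θ, 0 ≤ cr f n L θ ∧ cr f n L θ ≤ 1) ∧ L * ∫ θ : UnitAddCircle, cr f n L θ ^ 2 ≤ 1

/-- [COV] covering. Proof: `θ ↦ p • θ` preserves the measure (`AddCircle.ergodic_nsmul` or
`AddCircle.measurePreserving_...`); with `S'` the set on the left the translates `S' + j/p`, `0 ≤ j < p`, are disjoint,
and `G (p • θ)` is invariant under them. -/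
def S_COV : Prop := ∀ (p : ℕ), 1 ≤ p → ∀ (S : Set UnitAddCircle) (G : UnitAddCircle → ℝ), MeasurableSet S →
  Continuous G → (∀ γ, 0 ≤ G γ) →
  p * ∫ θ in {θ : UnitAddCircle | θ ∈ S ∧ ∀ j : ℕ, 1 ≤ j → j < p → θ + pt j p ∉ S}, G (p • θ) ≤
    ∫ γ : UnitAddCircle, G γ

/-- [MAJ] the correlations on the major arcs. Proof: `θ = a/q + β` with `|β| ≤ τ/q`, `q ≤ Q` (`a/q` in lowest terms or not);
`‖V f (n+j) h θ‖ ≤ ‖V f (n+j) h (a/q)‖ + 2 π h² τ` (after division by `e((n+j) β)`), and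
`‖V f n L θ - (1/h) ∑_{j < L} V f (n+j) h θ‖ ≤ 2 h` (see `FU.FL.sub_window`). -/
def S_MAJ : Prop := ∀ (Q h : ℕ) (η : ℝ), 1 ≤ h → 0 < η → ∃ τ : ℝ, 0 < τ ∧ ∃ L₀ : ℕ, ∀ L ≥ L₀, ∀ f : ℕ → ℝ,
  (∀ n, |f n| ≤ 1) → ∀ n : ℕ, ∀ θ ∈ Mj Q τ, cr f n L θ ≤ RR f Q h n L + η

/-- [TRANS] `S_EQD → S_TKB → S_BSL → S_PAR → S_COV → S_MAJ → S_TRANS`.
Proof: all errors are at most `ε/10`. Let `δ² ≤ ε/10`, `Q` from `S_EQD` for `ε/10`, `τ` and `L₀` from `S_MAJ` for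
`Q, h, η = ε/10`, `I` from `S_EQD` for `τ`, large `z` and large `A`. For `L` large: let `a = cr f n L`,
`b_p(θ) = cr f (n/p) (L/p) (p θ)`, `S = {a > δ}` (`L |S| ≤ 1/δ²` by `S_PAR`), `M = Mj Q τ`,
`S'_p = {θ ∈ S, θ + j/p ∉ S for 1 ≤ j < p}`. `S_COV` with `G(γ) = ph m σ γ cr f (n/p) (L/p) γ ^ (2k)` gives
`W k ph f (n/p) (L/p) ≥ ⌊L/p⌋ p ∫_{S'_p \ M} ph(p θ) b_p(θ)^(2k) ≥ (1 - p/L) L ∫_{S \ M} ph(p θ) 1_{S'_p} b_p^(2k)`, and
`b_p^(2k) ≥ a^(2k) - 2k |a - b_p|`. Sum over `p` with the weights `wt I p`, for `θ ∈ S \ M`: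
`∑ wt ph(p θ) ≥ 1 - ε/10` (`S_EQD`), `∑ wt 1_{θ ∉ S'_p} ≤ (2/δ²)/(z A)` (`S_BSL`), `∑ wt |a - b_p| ≤ (100/A)^(1/2)`
(`S_TKB`). So the sum is at least `L ∫_{S \ M} a^(2k) - ε/2` for `z`, `A`, `L` large. Finally
`L ∫_{S ∩ M} a^(2k) ≤ sup_M a ≤ RR + ε/10` and `L ∫_{Sᶜ} a^(2k) ≤ δ²`. -/
def S_TRANS : Prop := ∀ (k : ℕ) (m : ℤ) (ε : ℝ), 2 ≤ k → m ≠ 0 → 0 < ε → ∃ Q : ℕ, ∀ h : ℕ, 1 ≤ h →
  ∃ (I : Finset ℕ) (L₀ : ℕ), I.Nonempty ∧ (∀ p ∈ I, p.Prime) ∧ ∀ σ : ℝ, σ = 1 ∨ σ = -1 → ∀ L ≥ L₀, ∀ f : ℕ → ℝ, SM f →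
    ∀ n : ℕ, W k (fun _ => 1) f n L ≤ ∑ p ∈ I, wt I p * W k (ph m σ) f (n / p) (L / p) + RR f Q h n L + ε

/-! ### Part 2: Furstenberg systems -/

/-- the numbers `-1`, `0`, `1` -/
abbrev Val : Type := ({-1, 0, 1} : Set ℝ)

/-- the space of two-sided sequences -/
abbrev X : Type := ℤ → Val

/-- the `n`-th power of the shift -/
def shift (n : ℤ) (x : X) : X := fun k => x (k + n)

/-- the sequence of the values `f n`, `n ≥ 1`, extended by zero -/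
noncomputable def seq (f : ℕ → Val) : X := fun n => if 1 ≤ n then f n.toNat else ⟨0, by simp⟩

/-- `μ` is a Furstenberg system of `f`: a weak-star limit, along some sequence `N j → ∞`, of the
logarithmic averages of the point masses at the shifts of the sequence of values of `f` -/
def IsFurstenbergSystem (f : ℕ → Val) (μ : Measure X) : Prop :=
  IsProbabilityMeasure μ ∧ ∃ N : ℕ → ℕ, Tendsto N atTop atTop ∧ ∀ φ : X → ℝ, Continuous φ →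
    Tendsto (fun j => (1 / Real.log (N j : ℝ)) * ∑ n ∈ Icc 1 (N j), (1 / (n : ℝ)) * φ (shift (n : ℤ) (seq f)))
      atTop (𝓝 (∫ x, φ x ∂μ))

/-- multiplicative functions with values `1` and `-1` -/
def IsMult (f : ℕ → Val) : Prop := (∀ n : ℕ, 1 ≤ n → (f n : ℝ) ≠ 0) ∧
  ∀ m n : ℕ, 1 ≤ m → 1 ≤ n → Nat.Coprime m n → (f (m * n) : ℝ) = f m * f n

/-- the distance to every Dirichlet character is infinite -/
def Aperiodic (f : ℕ → Val) : Prop := ∀ Q : ℕ, 0 < Q → ∀ χ : DirichletCharacter ℂ Q,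
  ¬ Summable (fun p : ℕ => if p.Prime then
    (1 - (((f p : ℝ) : ℂ) * (starRingEnd ℂ) (χ (p : ZMod Q))).re) / (p : ℝ) else 0)

/-- the sum of `x(h) e(h θ)` over `0 < h ≤ L` -/
noncomputable def VX (L : ℕ) (x : X) (θ : UnitAddCircle) : ℂ :=
  ∑ h ∈ Icc 1 L, ((x (h : ℤ) : ℝ) : ℂ) * (fourier (h : ℤ) θ : ℂ)

/-- the integral against the density `L |V/L|^(2k)` -/
noncomputable def WX (k : ℕ) (φ : UnitAddCircle → ℝ) (L : ℕ) (x : X) : ℝ :=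
  L * ∫ θ : UnitAddCircle, φ θ * (‖VX L x θ‖ / L) ^ (2 * k)

/-- its mean -/
noncomputable def wm (μ : Measure X) (k : ℕ) (φ : UnitAddCircle → ℝ) (L : ℕ) : ℝ := ∫ x, WX k φ L x ∂μ

/-- [ORT] the two point theorem (copy of `ortho` in Results/MP_4a7640_nt/CommonSparsePlaces.lean; helper94). -/
def S_ORT : Prop := ∀ (f : ℕ → Val) (μ : Measure X), IsMult f → Aperiodic f → IsFurstenbergSystem f μ →
  ∀ i j : ℤ, i ≠ j → ∫ x : X, (x i : ℝ) * (x j : ℝ) ∂μ = 0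

/-- [INV] Furstenberg systems are shift invariant (as `mp_shift` in Results/MP_4a7640_nt/PhasePolynomials.lean, or
directly: `∑_{n ≤ N} |1/n - 1/(n-1)|` is bounded). -/
def S_INV : Prop := ∀ (f : ℕ → Val) (μ : Measure X), IsFurstenbergSystem f μ → MeasurePreserving (shift 1) μ μ

/-- [KEY] `S_TRANS → S_ORT → S_INV → S_KEY`. Proof: with `f` real valued, `W k φ f n L = WX k φ L (shift n (seq f))` for
all `n` (the norms differ by `e(n θ)`), and `WX k φ L` is continuous in `x`, with values in `[0, 2]` for `φ = ph m σ`. Take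
the logarithmic means of `S_TRANS` over `n ≤ N j`: `∑_{n ≤ N} (1/n) r(n/p) ≤ ∑_{n ≤ N} (1/n) r(n) + C (1 + log p)` (with
`r(0)` bounded; `FU.DilL.inner_le` or so in FU/Dil.lean). The mean of `RR` tends to the integral of a
sum of at most `Q²` terms `‖∑_{h} x(h) e(h a/q)‖/h` (use `S_INV` for the shift by `j`), each at most `h^(-1/2)`
by Cauchy-Schwarz and `S_ORT`; choose `h` with `Q² h^(-1/2) ≤ ε/2`. -/
def S_KEY : Prop := ∀ (f : ℕ → Val) (μ : Measure X), IsMult f → Aperiodic f → IsFurstenbergSystem f μ →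
  ∀ (k : ℕ) (m : ℤ) (ε : ℝ), 2 ≤ k → m ≠ 0 → 0 < ε →
  ∃ (I : Finset ℕ) (L₀ : ℕ), I.Nonempty ∧ (∀ p ∈ I, p.Prime) ∧ ∀ σ : ℝ, σ = 1 ∨ σ = -1 → ∀ L ≥ L₀,
    wm μ k (fun _ => 1) L ≤ ∑ p ∈ I, wt I p * wm μ k (ph m σ) (L / p) + ε

/-! ### Part 3: the correlations -/

/-- the mean of the `2 k` point correlations over `h₁ + ... + h_k - h'_1 - ... - h'_k = m` -/
noncomputable def Gk (μ : Measure X) (k : ℕ) (m : ℤ) (L : ℕ) : ℝ :=
  (∑ g ∈ Fintype.piFinset (fun _ : Fin k => Icc 1 L), ∑ g' ∈ Fintype.piFinset (fun _ : Fin k => Icc 1 L),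
    if ∑ i, (g i : ℤ) - ∑ i, (g' i : ℤ) = m then
      ∫ x : X, (∏ i, (x (g i : ℤ) : ℝ)) * ∏ i, (x (g' i : ℤ) : ℝ) ∂μ else 0) / (L : ℝ) ^ (2 * k - 1)

/-- [EXK] expansion of the power. Proof: `‖V‖^(2k) = V^k (conj V)^k`, `Finset.prod_univ_sum` or `Finset.sum_pow'`,
`∫ fourier n = if n = 0 then 1 else 0`; for the cosine exchange `g` and `g'`. -/
def S_EXK : Prop := ∀ (μ : Measure X) [IsProbabilityMeasure μ] (k L : ℕ) (m : ℤ) (σ : ℝ), 1 ≤ k → 1 ≤ L →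
  wm μ k (fun _ => 1) L = Gk μ k 0 L ∧ wm μ k (ph m σ) L = Gk μ k 0 L + σ * Gk μ k m L ∧
  wm μ k (fun θ => (fourier m θ : ℂ).re) L = Gk μ k m L ∧ |Gk μ k m L| ≤ 1

/-- [LOG] `S_KEY → S_EXK → S_LOG`: logarithmic averages over the length. Proof: sum `S_KEY` with the weights `1/L`;
`∑_{L ≤ Λ} (1/L) w(L/p) ≤ ∑_{L ≤ Λ} (1/L) w(L) + C (1 + log p)` for `w ≥ 0` bounded; so
`- σ ∑_{L ≤ Λ} (1/L) Gk m L ≤ ε log Λ + C'` for both signs. -/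
def S_LOG : Prop := ∀ (f : ℕ → Val) (μ : Measure X), IsMult f → Aperiodic f → IsFurstenbergSystem f μ →
  ∀ (k : ℕ) (m : ℤ), 2 ≤ k → m ≠ 0 →
    Tendsto (fun Λ : ℕ => (∑ L ∈ Icc 1 Λ, (1 / (L : ℝ)) * Gk μ k m L) / Real.log Λ) atTop (𝓝 0)

/-- four point correlations -/
noncomputable def c4 (μ : Measure X) (i j k l : ℤ) : ℝ :=
  ∫ x : X, (x i : ℝ) * (x j : ℝ) * (x k : ℝ) * (x l : ℝ) ∂μ

/-- means over `h₁ + h₂ - h₃ - h₄ = m` -/
noncomputable def Gc (c : ℤ → ℤ → ℤ → ℤ → ℝ) (m : ℤ) (L : ℕ) : ℝ :=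
  (∑ h₁ ∈ Icc 1 L, ∑ h₂ ∈ Icc 1 L, ∑ h₃ ∈ Icc 1 L, ∑ h₄ ∈ Icc 1 L,
    if (h₁ : ℤ) + h₂ - h₃ - h₄ = m then c h₁ h₂ h₃ h₄ else 0) / (L : ℝ) ^ 3

/-- [EX2] the case `k = 2` (sums over `Fin 2 → ℕ`). -/
def S_EX2 : Prop := ∀ (μ : Measure X) (m : ℤ) (L : ℕ), Gk μ 2 m L = Gc (c4 μ) m L

/-! ### Part 4: convergence of the means (any stationary process) -/

/-- the means along a linear operator -/
noncomputable def Av {E : Type} [NormedAddCommGroup E] [InnerProductSpace ℝ E] (U : E →L[ℝ] E) (K : ℕ) (w : E) : E :=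
  (1 / (K : ℝ)) • ∑ k ∈ range K, (U ^ k) w

/-- a Hilbert space with an isometry `U`, the projection `P` to the invariant vectors, and vectors `v a` (the
products `x(0) x(a)`) with the inner products given by the symmetric function `c` -/
structure HS {E : Type} [NormedAddCommGroup E] [InnerProductSpace ℝ E] (U P : E →L[ℝ] E) (v : ℤ → E)
    (c : ℤ → ℤ → ℤ → ℤ → ℝ) : Prop where
  iso : ∀ w, ‖U w‖ = ‖w‖
  fix : ∀ w, U (P w) = P w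
  inv : ∀ w, P (U w) = P w
  idem : ∀ w, P (P w) = P w
  adj : ∀ w w', inner ℝ w (P w') = inner ℝ (P w) (P w')
  erg : ∀ w, Tendsto (fun K : ℕ => Av U K w) atTop (𝓝 (P w))
  nrm : ∀ a, ‖v a‖ ≤ 1
  inn : ∀ (i k : ℕ) (a b : ℤ), inner ℝ ((U ^ i) (v a)) ((U ^ k) (v b)) = c i (i + a) k (k + b)
  sy1 : ∀ i j k l, c i j k l = c j i k l
  sy2 : ∀ i j k l, c i j k l = c i k j l
  sy3 : ∀ i j k l, c i j k l = c k l i j

/-- [HSP] the process gives such a space: `E = Lp ℝ 2 μ`, `U` the composition with `shift 1`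
(`Lp.compMeasurePreservingₗᵢ`), `v a` the class of `x(0) x(a)`, `P` = the orthogonal projection
(`ContinuousLinearMap.tendsto_birkhoffAverage_orthogonalProjection`). -/
def S_HSP : Prop := ∀ (μ : Measure X) [IsProbabilityMeasure μ], MeasurePreserving (shift 1) μ μ →
  ∃ (E : Type) (_ : NormedAddCommGroup E) (_ : InnerProductSpace ℝ E) (_ : CompleteSpace E) (U P : E →L[ℝ] E)
    (v : ℤ → E), HS U P v (c4 μ)

/-- [WTD] weighted means -/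
def S_WTD : Prop := ∀ (t : ℕ → ℝ) (C τ : ℝ), (∀ a, |t a| ≤ C) →
  Tendsto (fun L : ℕ => (∑ a ∈ range L, t a) / L) atTop (𝓝 τ) →
  Tendsto (fun L : ℕ => (∑ a ∈ range L, ((L : ℝ) - a) ^ 2 * t a) / (L : ℝ) ^ 3) atTop (𝓝 (τ / 3))

/-- the limits in `S_L1` -/
noncomputable def bK {E : Type} [NormedAddCommGroup E] [InnerProductSpace ℝ E] (P : E →L[ℝ] E) (v : ℤ → E) (K : ℕ)
    (m : ℤ) : ℝ := (∑ k ∈ range K, ∑ k' ∈ range K,
      inner ℝ (P (v ((k' : ℤ) - k))) (P (v ((k' : ℤ) - k - m)))) / (K : ℝ) ^ 2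

/-- [L1] Proof: `⟨U^k v_a, U^k' v_(a-m)⟩ = c(k, k+a, k', k'+a-m) = c(k, k', k+a, k'+a-m)`
`= ⟨U^k v_(k'-k), U^(k+a) v_(k'-k-m)⟩ = ⟨w, U^a w'⟩` with `w = v (k'-k)`, `w' = v (k'-k-m)` (for `a ≥ 0`); the means over
`a` tend to `⟨w, P w'⟩ = ⟨P w, P w'⟩` (`erg`, `adj`). -/
def S_L1 : Prop := ∀ (E : Type) [NormedAddCommGroup E] [InnerProductSpace ℝ E] [CompleteSpace E] (U P : E →L[ℝ] E)
  (v : ℤ → E) (c : ℤ → ℤ → ℤ → ℤ → ℝ), HS U P v c → ∀ (K : ℕ) (m : ℤ), 1 ≤ K →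
  Tendsto (fun L : ℕ => (∑ a ∈ range L, inner ℝ (Av U K (v a)) (Av U K (v ((a : ℤ) - m)))) / L) atTop (𝓝 (bK P v K m))

/-- [L2] `S_L1 → S_L2`. Proof: `‖Av U K' w‖ ≤ ‖Av U K w‖ + 2 K / K'` for `K ≤ K'`, `‖w‖ ≤ 1`
(`‖Av K' w - Av K' (Av K w)‖ ≤ 2 K / K'`), so by `S_L1` with `m = 0`: `0 ≤ bK K' 0 ≤ bK K 0 + 8 K / K'`, and the limit
exists. -/
def S_L2 : Prop := ∀ (E : Type) [NormedAddCommGroup E] [InnerProductSpace ℝ E] [CompleteSpace E] (U P : E →L[ℝ] E)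
  (v : ℤ → E) (c : ℤ → ℤ → ℤ → ℤ → ℝ), HS U P v c → ∃ β : ℝ, Tendsto (fun K : ℕ => bK P v K 0) atTop (𝓝 β)

/-- [L3] `S_WTD → S_L1 → S_L2 → S_L3`. Proof: `‖Av K v_a - P v_a‖² = ‖Av K v_a‖² - ‖P v_a‖²`. The weighted means of the
first term tend to `bK K 0 / 3` (`S_L1`, `S_WTD`). For the second let `g_a = ‖P v_a‖²`; `g_(-a) = g_a` (from
`‖U^a v_(-a) - v_a‖² = 0` by the symmetries of `c`, and `inv`), so `K² bK K 0 = K g_0 + 2 ∑_{1 ≤ a < K} (K - a) g_a`, and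
`∑_{s ≤ L} s² bK s 0 = ∑_{a < L} (L - a) (L - a + 1) g_a - g_0 L (L+1)/2`; the left side divided by `L³` tends to `β / 3`.
So the limit is `(bK K 0 - β) / 3`, which tends to zero. -/
def S_L3 : Prop := ∀ (E : Type) [NormedAddCommGroup E] [InnerProductSpace ℝ E] [CompleteSpace E] (U P : E →L[ℝ] E)
  (v : ℤ → E) (c : ℤ → ℤ → ℤ → ℤ → ℝ), HS U P v c → ∀ ε : ℝ, 0 < ε → ∃ K₀ : ℕ, ∀ K ≥ K₀, ∃ L₀ : ℕ, ∀ L ≥ L₀,
    (∑ a ∈ range L, ((L : ℝ) - a) ^ 2 * ‖Av U K (v a) - P (v a)‖ ^ 2) / (L : ℝ) ^ 3 ≤ ε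

/-- [L4] `S_WTD → S_L1 → S_L3 → S_L4`. Proof: let `a = h₁ - h₃` (so `h₄ = h₂ + a - m`). The exchange
`(h₁, h₂, h₃, h₄) → (h₂, h₁, h₄, h₃)` maps `a` to `m - a`, so up to `(2 |m| + 1) L²` the sum is twice the sum over
`|m| < a < L`, which is the sum of `⟨∑_{1 ≤ h₃ ≤ L-a} U^h₃ v_a, ∑_{1 ≤ h₂ ≤ L-a+m, h₂ ≤ L} U^h₂ v_(a-m)⟩`; changing the
second range to `1 ≤ h₂ ≤ L - a` costs `|m| L` for each `a`. With `M = L - a` this is `M² ⟨Av M v_a, Av M v_(a-m)⟩`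
(`U` is an isometry). Replace `Av M` by `Av K`: `‖Av M w - Av K w‖ ≤ 2 ‖Av K w - P w‖ + 2 K / M`; by Cauchy-Schwarz and
`S_L3` the error is small, for `w = v_a` and `w = v_(a-m)` (`(L - a)² ≤ 2 (L - a')² + 2 m²`, `a' = a - m`). Finally
`(1/L³) ∑ (L-a)² ⟨Av K v_a, Av K v_(a-m)⟩` tends to `bK K m / 3`. So `Gc c m L` is within `ε` of `(2/3) bK K m` for
`K ≥ K(ε)`, `L ≥ L(K, ε)`: a Cauchy sequence. -/
def S_L4 : Prop := ∀ (E : Type) [NormedAddCommGroup E] [InnerProductSpace ℝ E] [CompleteSpace E] (U P : E →L[ℝ] E)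
  (v : ℤ → E) (c : ℤ → ℤ → ℤ → ℤ → ℝ), HS U P v c → ∀ m : ℤ, ∃ γ : ℝ, Tendsto (Gc c m) atTop (𝓝 γ)

/-! ### Part 5: conclusions -/

/-- [FIN] `S_KEY → S_EXK → S_EX2 → S_INV → S_HSP → S_L4 → S_FIN`. Proof: let `γ m` be the limits. `S_KEY` (`k = 2`) for
`L → ∞`: `γ 0 ≤ γ 0 + σ γ m + ε` for both signs. (helper94) -/
def S_FIN : Prop := ∀ (f : ℕ → Val) (μ : Measure X), IsMult f → Aperiodic f → IsFurstenbergSystem f μ →
  ∃ γ : ℝ, Tendsto (Gc (c4 μ) 0) atTop (𝓝 γ) ∧ ∀ m : ℤ, m ≠ 0 → Tendsto (Gc (c4 μ) m) atTop (𝓝 0)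

/-- [DEN] `S_EXK → S_EX2 → S_DEN`: all continuous test functions. Proof: trigonometric polynomials are dense
(`span_fourier_closure_eq_top` or `FB.trigm` with `m = 1`), `WX 2 φ L x` is linear in `φ` and at most `sup |φ|` in
absolute value; for a real function `φ` near `∑ a_j fourier j` take real parts:
`Re (a_j fourier j)` is a combination of `Re (fourier j)` and `Im (fourier j)`, and the mean of
`WX 2 (Im fourier j)` is zero (exchange `g` and `g'`; or replace `φ(θ)` by `(φ(θ) + φ(-θ))/2`, as `‖VX L x (-θ)‖ =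
‖VX L x θ‖`). -/
def S_DEN : Prop := ∀ (μ : Measure X) [IsProbabilityMeasure μ] (γ : ℝ), Tendsto (Gc (c4 μ) 0) atTop (𝓝 γ) →
  (∀ m : ℤ, m ≠ 0 → Tendsto (Gc (c4 μ) m) atTop (𝓝 0)) → ∀ φ : C(UnitAddCircle, ℝ),
    Tendsto (fun L : ℕ => wm μ 2 φ L) atTop (𝓝 (γ * ∫ θ : UnitAddCircle, φ θ))

end Pool.Agent.Helper94K9.OP
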