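import Pool.Agent.Helper94K9.OP.Stm
import Pool.Agent.Helper44K9.FU.Push

/-! Leaf [TKB] (helper18). -/

set_option autoImplicit false

namespace Pool.Agent.Helper94K9.OP

open Finset MeasureTheory Filter Topology
open Pool.Agent.Helper44K9.FU (S_TK)

namespace TkbL

/-- the two windows -/
theorem two (p n H : ℕ) (hp : 0 < p) :
    (n + H) / p = n / p + H / p ∨ (n + H) / p = n / p + H / p + 1 := by
  have h5 : n / p + H / p ≤ (n + H) / p := Nat.div_add_div_le_add_div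
  have h6 : (n + H) / p ≤ n / p + H / p + 1 := by
    have h5 := Nat.lt_div_mul_add (a := n) hp
    have h6 := Nat.lt_div_mul_add (a := H) hp
    apply Nat.lt_succ_iff.1
    rw [Nat.div_lt_iff_lt_mul hp]
    nlinarith
  omega

theorem win (p n H : ℕ) (hp : 0 < p) (g : ℕ → ℂ) (hg1 : ∀ m, ‖g m‖ ≤ 1) :
    ‖∑ m ∈ Ioc (n / p) ((n + H) / p), g m - ∑ m ∈ Ioc (n / p) (n / p + H / p), g m‖ ≤ 1 := by
  rcases two p n H hp with h4 | h4
  · rw [h4, sub_self, norm_zero]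
    norm_num
  · rw [h4, sum_Ioc_succ_top (Nat.le_add_right _ _), add_sub_cancel_left]
    exact hg1 _

theorem nf (m : ℤ) (θ : UnitAddCircle) : ‖(fourier m θ : ℂ)‖ = 1 := by
  rw [fourier_apply]
  exact Circle.norm_coe _

theorem nfm {f : ℕ → ℝ} (hf : ∀ n, |f n| ≤ 1) (m : ℕ) (k : ℤ) (θ : UnitAddCircle) :
    ‖((f m : ℝ) : ℂ) * (fourier k θ : ℂ)‖ ≤ 1 := by
  rw [norm_mul, nf, mul_one, Complex.norm_real]
  exact hf m

theorem four (p m : ℕ) (θ : UnitAddCircle) :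
    (fourier ((p * m : ℕ) : ℤ) θ : ℂ) = fourier (m : ℤ) (p • θ) := by
  rw [fourier_apply, fourier_apply]
  congr 2
  rw [natCast_zsmul, natCast_zsmul, smul_smul, mul_comm]

theorem V_le {f : ℕ → ℝ} (hf : ∀ n, |f n| ≤ 1) (n L : ℕ) (θ : UnitAddCircle) :
    ‖V f n L θ‖ ≤ L := by
  unfold V
  refine (norm_sum_le _ _).trans ((sum_le_sum fun m _ => nfm hf m _ θ).trans ?_)
  simp

/-- the two-sided estimate -/
theorem main {f : ℕ → ℝ} (hf : SM f) (n L p : ℕ) (hp : p.Prime) (θ : UnitAddCircle) :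
    |‖∑ m ∈ (Ioc n (n + L)).filter (fun m => p ∣ m),
        ((f m : ℝ) : ℂ) * (fourier (m : ℤ) θ : ℂ)‖ - ‖V f (n / p) (L / p) (p • θ)‖| ≤
      2 * ((L : ℝ) / (p * p)) + 3 := by
  classical
  rw [Pool.Agent.Helper44K9.FU.PushL.reindex p n L hp.pos
    fun m => ((f m : ℝ) : ℂ) * (fourier (m : ℤ) θ : ℂ)]
  obtain ⟨g, hg⟩ : ∃ g : ℕ → ℂ, g = fun m : ℕ =>
    ((f m : ℝ) : ℂ) * (fourier (m : ℤ) (p • θ) : ℂ) := ⟨_, rfl⟩
  have hg1 : ∀ m, ‖g m‖ ≤ 1 := fun m => by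
    rw [hg]
    exact nfm hf.1 m _ _
  have h1 : ‖∑ m ∈ Ioc (n / p) ((n + L) / p),
      ((f (p * m) : ℝ) : ℂ) * (fourier ((p * m : ℕ) : ℤ) θ : ℂ) -
      ((f p : ℝ) : ℂ) * ∑ m ∈ Ioc (n / p) ((n + L) / p), g m‖ ≤ 2 * ((L : ℝ) / (p * p) + 1) := by
    rw [mul_sum, ← sum_sub_distrib]
    have h2 : ∀ m ∈ Ioc (n / p) ((n + L) / p),
        ‖((f (p * m) : ℝ) : ℂ) * (fourier ((p * m : ℕ) : ℤ) θ : ℂ) - ((f p : ℝ) : ℂ) * g m‖ ≤
          if p ∣ m then 2 else 0 := by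
      intro m hm
      rw [mem_Ioc] at hm
      have hm1 : 1 ≤ m := Nat.succ_le_of_lt ((Nat.zero_le _).trans_lt hm.1)
      rw [hg, four]
      split_ifs with h3
      · have h4 : ((f (p * m) : ℝ) : ℂ) * (fourier (m : ℤ) (p • θ) : ℂ) -
            ((f p : ℝ) : ℂ) * (((f m : ℝ) : ℂ) * (fourier (m : ℤ) (p • θ) : ℂ)) =
            (((f (p * m) - f p * f m : ℝ)) : ℂ) * (fourier (m : ℤ) (p • θ) : ℂ) := by
          push_cast
          ring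
        show ‖((f (p * m) : ℝ) : ℂ) * (fourier (m : ℤ) (p • θ) : ℂ) -
            ((f p : ℝ) : ℂ) * (((f m : ℝ) : ℂ) * (fourier (m : ℤ) (p • θ) : ℂ))‖ ≤ 2
        rw [h4, norm_mul, nf, mul_one, Complex.norm_real, Real.norm_eq_abs]
        have h5 := hf.1 (p * m)
        have h6 : |f p * f m| ≤ 1 := by
          rw [abs_mul]
          exact mul_le_one₀ (hf.1 p) (abs_nonneg _) (hf.1 m)
        exact (abs_sub _ _).trans (by linarith)
      · show ‖((f (p * m) : ℝ) : ℂ) * (fourier (m : ℤ) (p • θ) : ℂ) -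
            ((f p : ℝ) : ℂ) * (((f m : ℝ) : ℂ) * (fourier (m : ℤ) (p • θ) : ℂ))‖ ≤ 0
        rw [hf.2.2 p m hp.one_le hm1 ((Nat.Prime.coprime_iff_not_dvd hp).2 h3)]
        have h4 : ((f p * f m : ℝ) : ℂ) * (fourier (m : ℤ) (p • θ) : ℂ) -
            ((f p : ℝ) : ℂ) * (((f m : ℝ) : ℂ) * (fourier (m : ℤ) (p • θ) : ℂ)) = 0 := by
          push_cast
          ring
        rw [h4, norm_zero]
    refine (norm_sum_le _ _).trans ((sum_le_sum h2).trans ?_)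
    rw [← sum_filter, sum_const, nsmul_eq_mul, mul_comm]
    exact mul_le_mul_of_nonneg_left (Pool.Agent.Helper44K9.FU.PushL.few p n L hp.pos)
      (by norm_num)
  obtain ⟨Wp, hWp⟩ : ∃ Wp : ℂ, Wp = ∑ m ∈ Ioc (n / p) (n / p + L / p), g m := ⟨_, rfl⟩
  have hV : V f (n / p) (L / p) (p • θ) = Wp := by
    rw [hWp, hg]; rfl
  have h2 := win p n L hp.pos g hg1
  rw [← hWp] at h2
  rw [hV]
  obtain ⟨Bp, hBp⟩ : ∃ Bp : ℂ, Bp = ∑ m ∈ Ioc (n / p) ((n + L) / p), g m := ⟨_, rfl⟩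
  rw [← hBp] at h1 h2
  have h3 : ‖((f p : ℝ) : ℂ) * Bp‖ = ‖Bp‖ := by
    rw [norm_mul, Complex.norm_real, Real.norm_eq_abs]
    rcases hf.2.1 p hp.one_le with h | h <;> rw [h] <;> simp
  have h4 := (abs_norm_sub_norm_le Bp Wp).trans h2
  have h5 := (abs_norm_sub_norm_le (∑ m ∈ Ioc (n / p) ((n + L) / p),
    ((f (p * m) : ℝ) : ℂ) * (fourier ((p * m : ℕ) : ℤ) θ : ℂ)) (((f p : ℝ) : ℂ) * Bp)).trans h1
  rw [h3] at h5
  rw [abs_le] at h4 h5 ⊢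
  constructor <;> linarith [h4.1, h4.2, h5.1, h5.2]

/-- the error for one prime -/
theorem err {f : ℕ → ℝ} (hf : SM f) (n L p : ℕ) (hp : p.Prime) (hpL : p ≤ L)
    (θ : UnitAddCircle) :
    |cr f n L θ - cr f (n / p) (L / p) (p • θ)| ≤
      ‖(p : ℂ) * ∑ m ∈ (Ioc n (n + L)).filter (fun m => p ∣ m),
        ((f m : ℝ) : ℂ) * (fourier (m : ℤ) θ : ℂ) - V f n L θ‖ / L + (2 / p + 4 * (p / L)) := by
  obtain ⟨Ap, hAp⟩ : ∃ Ap : ℂ, Ap = ∑ m ∈ (Ioc n (n + L)).filter (fun m => p ∣ m),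
        ((f m : ℝ) : ℂ) * (fourier (m : ℤ) θ : ℂ) := ⟨_, rfl⟩
  have h1 := main hf n L p hp θ
  rw [← hAp] at h1 ⊢
  have hw := V_le hf.1 (n / p) (L / p) (p • θ)
  unfold cr
  obtain ⟨w, hw'⟩ : ∃ w, w = ‖V f (n / p) (L / p) (p • θ)‖ := ⟨_, rfl⟩
  obtain ⟨A, hA⟩ : ∃ A, A = V f n L θ := ⟨_, rfl⟩
  have hw0 : 0 ≤ w := by rw [hw']; exact norm_nonneg _
  rw [← hw'] at h1 hw ⊢
  rw [← hA]
  have hK : 1 ≤ L / p := (Nat.one_le_div_iff hp.pos).2 hpL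
  obtain ⟨K, hK'⟩ : ∃ K : ℕ, K = L / p := ⟨_, rfl⟩
  have hdm : K * p ≤ L := by rw [hK']; exact Nat.div_mul_le_self L p
  have hdm' : L ≤ K * p + p := by
    rw [hK']; exact (Nat.lt_div_mul_add (a := L) hp.pos).le
  rw [← hK'] at hw hK ⊢
  have hK0 : (0 : ℝ) < K := by exact_mod_cast hK
  have hp0 : (0 : ℝ) < p := by exact_mod_cast hp.pos
  have hL0 : (0 : ℝ) < L := by exact_mod_cast (lt_of_lt_of_le hp.pos hpL)
  have hdmR : (K : ℝ) * p ≤ L := by exact_mod_cast hdm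
  have hdmR' : (L : ℝ) ≤ K * p + p := by exact_mod_cast hdm'
  have e1 : |‖A‖ / L - p * ‖Ap‖ / L| ≤ ‖(p : ℂ) * Ap - A‖ / L := by
    rw [← sub_div, abs_div, abs_of_pos hL0]
    refine div_le_div_of_nonneg_right ?_ hL0.le
    have : p * ‖Ap‖ = ‖(p : ℂ) * Ap‖ := by rw [norm_mul, Complex.norm_natCast]
    rw [this, norm_sub_rev]
    exact abs_norm_sub_norm_le _ _
  have e2 : |p * ‖Ap‖ / L - p * w / L| ≤ 2 / p + 3 * (p / L) := by
    have : (p : ℝ) * ‖Ap‖ / L - p * w / L = p / L * (‖Ap‖ - w) := by ring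
    rw [this, abs_mul, abs_of_pos (by positivity)]
    calc (p : ℝ) / L * |‖Ap‖ - w| ≤ p / L * (2 * ((L : ℝ) / (p * p)) + 3) :=
          mul_le_mul_of_nonneg_left h1 (by positivity)
      _ = 2 / p + 3 * (p / L) := by field_simp
  have e3 : |p * w / L - w / K| ≤ p / L := by
    have : (p : ℝ) * w / L - w / K = - (w * (1 / K - p / L)) := by ring
    rw [this, abs_neg]
    have h3 : 0 ≤ 1 / (K : ℝ) - p / L := by
      rw [sub_nonneg, div_le_div_iff₀ hL0 hK0]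
      linarith
    rw [abs_of_nonneg (mul_nonneg hw0 h3)]
    calc w * (1 / K - p / L) ≤ K * (1 / K - p / L) := mul_le_mul_of_nonneg_right hw h3
      _ = 1 - K * p / L := by field_simp
      _ ≤ p / L := by
          rw [sub_le_iff_le_add, ← add_div, le_div_iff₀ hL0]
          linarith
  have e4 : ‖A‖ / L - w / K = (‖A‖ / L - p * ‖Ap‖ / L) + (p * ‖Ap‖ / L - p * w / L) +
      (p * w / L - w / K) := by ring
  rw [e4]
  refine (abs_add_le _ _).trans ?_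
  have e5 := abs_add_le (‖A‖ / L - p * ‖Ap‖ / L) (p * ‖Ap‖ / L - p * w / L)
  linarith

theorem sum_inv (I : Finset ℕ) (hI : ∀ p ∈ I, p.Prime) : ∑ p ∈ I, 1 / (p : ℝ) ^ 3 ≤ 2 := by
  have h1 : ∑ p ∈ I, 1 / (p : ℝ) ^ 3 ≤ ∑ p ∈ I, 1 / (p : ℝ) ^ 2 := by
    refine sum_le_sum fun p hp => ?_
    have h2 : (1 : ℝ) ≤ p := by exact_mod_cast (hI p hp).one_le
    exact one_div_le_one_div_of_le (by positivity) (pow_le_pow_right₀ h2 (by norm_num))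
  have h2 : ∑ p ∈ I, 1 / (p : ℝ) ^ 2 ≤ Real.pi ^ 2 / 6 :=
    sum_le_hasSum I (fun p _ => by positivity) hasSum_zeta_two
  have h3 : Real.pi ^ 2 / 6 ≤ 2 := by
    have := Real.pi_lt_d2
    have h0 := Real.pi_pos
    nlinarith
  linarith

end TkbL

open TkbL in
/-- **TKB** -/
theorem tkb : S_TK → S_TKB := by
  intro htk I hI
  obtain ⟨H₁, hH₁⟩ := htk I hI
  refine ⟨H₁ + ∑ p ∈ I, p + 8, fun L hL f hf n θ => ?_⟩
  have hL8 : 8 ≤ L := by omega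
  have hL0 : (0 : ℝ) < L := by exact_mod_cast (by omega : 0 < L)
  have hLs : ∑ p ∈ I, (p : ℝ) ≤ L := by
    have h0 : ∑ p ∈ I, p ≤ L := by omega
    have h00 : ((∑ p ∈ I, p : ℕ) : ℝ) ≤ L := by exact_mod_cast h0
    rwa [Nat.cast_sum] at h00
  have h1 := hH₁ L (by omega) n (fun m => ((f m : ℝ) : ℂ) * (fourier (m : ℤ) θ : ℂ))
    (fun m => nfm hf.1 m _ θ)
  obtain ⟨x, hx⟩ : ∃ x : ℕ → ℝ, x = fun p : ℕ => ‖(p : ℂ) * ∑ m ∈ (Ioc n (n + L)).filter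
    (fun m => p ∣ m), ((f m : ℝ) : ℂ) * (fourier (m : ℤ) θ : ℂ) - V f n L θ‖ := ⟨_, rfl⟩
  have h1' : ∑ p ∈ I, (1 / (p : ℝ)) * x p ^ 2 ≤ 8 * (L : ℝ) ^ 2 := by
    rw [hx]; exact h1
  have h2 : ∀ p ∈ I, (1 / (p : ℝ)) * (cr f n L θ - cr f (n / p) (L / p) (p • θ)) ^ 2 ≤
      2 / (L : ℝ) ^ 2 * ((1 / (p : ℝ)) * x p ^ 2) + 16 * (1 / (p : ℝ) ^ 3) +
        64 / (L : ℝ) ^ 2 * p := by
    intro p hp
    have hpp := hI p hp
    have hp0 : (0 : ℝ) < p := by exact_mod_cast hpp.pos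
    have hpL : p ≤ L := by
      have : p ≤ ∑ p ∈ I, p := single_le_sum (f := fun p : ℕ => p) (fun _ _ => Nat.zero_le _) hp
      omega
    have h3 := err hf n L p hpp hpL θ
    have h3' : |cr f n L θ - cr f (n / p) (L / p) (p • θ)| ≤ x p / L + (2 / p + 4 * (p / L)) := by
      rw [hx]; exact h3
    have h4 : (cr f n L θ - cr f (n / p) (L / p) (p • θ)) ^ 2 ≤
        (x p / L + (2 / p + 4 * (p / L))) ^ 2 := by
      rw [← sq_abs]
      exact pow_le_pow_left₀ (abs_nonneg _) h3' 2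
    have h5 : (x p / L + (2 / p + 4 * (p / L))) ^ 2 ≤
        2 * (x p / L) ^ 2 + (16 / (p : ℝ) ^ 2 + 64 * (p / L) ^ 2) := by
      have q1 := sq_nonneg (x p / L - (2 / p + 4 * (p / L)))
      have q2 := sq_nonneg (2 / (p : ℝ) - 4 * (p / L))
      have q3 : (2 / (p : ℝ)) ^ 2 * 4 = 16 / (p : ℝ) ^ 2 := by ring
      nlinarith
    calc (1 / (p : ℝ)) * (cr f n L θ - cr f (n / p) (L / p) (p • θ)) ^ 2 ≤
          (1 / (p : ℝ)) * (2 * (x p / L) ^ 2 + (16 / (p : ℝ) ^ 2 + 64 * (p / L) ^ 2)) :=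
          mul_le_mul_of_nonneg_left (h4.trans h5) (by positivity)
      _ = _ := by field_simp; ring
  refine (sum_le_sum h2).trans ?_
  rw [sum_add_distrib, sum_add_distrib, ← mul_sum, ← mul_sum, ← mul_sum]
  have h3 : 2 / (L : ℝ) ^ 2 * ∑ p ∈ I, (1 / (p : ℝ)) * x p ^ 2 ≤ 16 := by
    calc 2 / (L : ℝ) ^ 2 * ∑ p ∈ I, (1 / (p : ℝ)) * x p ^ 2 ≤
          2 / (L : ℝ) ^ 2 * (8 * (L : ℝ) ^ 2) := mul_le_mul_of_nonneg_left h1' (by positivity)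
      _ = 16 := by field_simp; norm_num
  have h4 := sum_inv I hI
  have h5 : 64 / (L : ℝ) ^ 2 * ∑ p ∈ I, (p : ℝ) ≤ 8 := by
    calc 64 / (L : ℝ) ^ 2 * ∑ p ∈ I, (p : ℝ) ≤ 64 / (L : ℝ) ^ 2 * L :=
          mul_le_mul_of_nonneg_left hLs (by positivity)
      _ = 64 / L := by field_simp
      _ ≤ 8 := by
          rw [div_le_iff₀ hL0]
          have : (8 : ℝ) ≤ L := by exact_mod_cast hL8
          linarith
  linarith

end Pool.Agent.Helper94K9.OP
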