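import Pool.Agent.Helper94K9.OP.Stm

/-! [TRANS] the pointwise inequality (helper15). -/

set_option autoImplicit false

namespace Pool.Agent.Helper94K9.OP

open Finset MeasureTheory Filter Topology

namespace TransL

lemma pow_sub_le {a b : ℝ} (ha0 : 0 ≤ a) (ha1 : a ≤ 1) (hb0 : 0 ≤ b) (hb1 : b ≤ 1) (N : ℕ) :
    a ^ N - b ^ N ≤ N * |a - b| := by
  induction N with
  | zero => simp
  | succ N ih =>
    have h1 : a ^ (N + 1) - b ^ (N + 1) = a * (a ^ N - b ^ N) + (a - b) * b ^ N := by ring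
    rw [h1]
    have h2 : a * (a ^ N - b ^ N) ≤ N * |a - b| := by
      have h3 : 0 ≤ (N : ℝ) * |a - b| := by positivity
      rcases le_total (a ^ N - b ^ N) 0 with h | h
      · nlinarith
      · nlinarith
    have h3 : (a - b) * b ^ N ≤ |a - b| := by
      have h4 : b ^ N ≤ 1 := pow_le_one₀ hb0 hb1
      have h5 : 0 ≤ b ^ N := pow_nonneg hb0 N
      have h6 := le_abs_self (a - b)
      have h7 := abs_nonneg (a - b)
      nlinarith
    push_cast
    linarith

/-- the pointwise inequality at a point of the minor arcs with a large correlation -/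
lemma point (I : Finset ℕ) (w ph b ind : ℕ → ℝ) (a ε₁ κ₁ κ₂ : ℝ) (k : ℕ) (hw0 : ∀ p ∈ I, 0 ≤ w p)
    (hph : ∀ p ∈ I, 0 ≤ ph p ∧ ph p ≤ 2) (hb : ∀ p ∈ I, 0 ≤ b p ∧ b p ≤ 1) (ha : 0 ≤ a ∧ a ≤ 1)
    (hind : ∀ p ∈ I, 0 ≤ ind p ∧ ind p ≤ 1) (h1 : 1 - ε₁ ≤ ∑ p ∈ I, w p * ph p)
    (h2 : ∑ p ∈ I, w p * (1 - ind p) ≤ κ₁) (h3 : ∑ p ∈ I, w p * |a - b p| ≤ κ₂) :
    a ^ (2 * k) ≤ ∑ p ∈ I, w p * (ind p * (ph p * b p ^ (2 * k))) + ε₁ * a ^ (2 * k) + 2 * κ₁ + 4 * k * κ₂ := by
  have ha2 : 0 ≤ a ^ (2 * k) := pow_nonneg ha.1 _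
  have ha3 : a ^ (2 * k) ≤ 1 := pow_le_one₀ ha.1 ha.2
  have hk0 : (0 : ℝ) ≤ k := Nat.cast_nonneg k
  have hpp : ∀ p ∈ I, w p * ph p * a ^ (2 * k) ≤
      w p * (ind p * (ph p * b p ^ (2 * k))) + 2 * (w p * (1 - ind p)) + 4 * k * (w p * |a - b p|) := by
    intro p hp
    obtain ⟨q1, q2⟩ := hph p hp
    obtain ⟨i1, i2⟩ := hind p hp
    have e1 := pow_sub_le ha.1 ha.2 (hb p hp).1 (hb p hp).2 (2 * k)
    push_cast at e1
    have e2 : ph p * a ^ (2 * k) ≤ ind p * (ph p * b p ^ (2 * k)) + 2 * (1 - ind p) + 4 * k * |a - b p| := by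
      have e3 : ph p * a ^ (2 * k) = ind p * (ph p * b p ^ (2 * k)) + (1 - ind p) * (ph p * a ^ (2 * k)) +
          ind p * (ph p * (a ^ (2 * k) - b p ^ (2 * k))) := by ring
      rw [e3]
      have e4 : (1 - ind p) * (ph p * a ^ (2 * k)) ≤ 2 * (1 - ind p) := by
        have : ph p * a ^ (2 * k) ≤ 2 := by nlinarith
        nlinarith
      have e5 : ind p * (ph p * (a ^ (2 * k) - b p ^ (2 * k))) ≤ 4 * k * |a - b p| := by
        have e6 : 0 ≤ 2 * (k : ℝ) * |a - b p| := by positivity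
        have e7 : ind p * ph p ≤ 2 := by nlinarith
        have e8 : 0 ≤ ind p * ph p := mul_nonneg i1 q1
        calc ind p * (ph p * (a ^ (2 * k) - b p ^ (2 * k))) = (ind p * ph p) * (a ^ (2 * k) - b p ^ (2 * k)) := by ring
          _ ≤ (ind p * ph p) * (2 * k * |a - b p|) := mul_le_mul_of_nonneg_left e1 e8
          _ ≤ 2 * (2 * k * |a - b p|) := mul_le_mul_of_nonneg_right e7 e6
          _ = 4 * k * |a - b p| := by ring
      linarith
    have e3 := mul_le_mul_of_nonneg_left e2 (hw0 p hp)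
    calc w p * ph p * a ^ (2 * k) = w p * (ph p * a ^ (2 * k)) := by ring
      _ ≤ _ := e3
      _ = _ := by ring
  have hs := Finset.sum_le_sum hpp
  rw [← Finset.sum_mul, sum_add_distrib, sum_add_distrib, ← mul_sum, ← mul_sum] at hs
  have h4 : (1 - ε₁) * a ^ (2 * k) ≤ (∑ p ∈ I, w p * ph p) * a ^ (2 * k) := mul_le_mul_of_nonneg_right h1 ha2
  have h5 : 4 * (k : ℝ) * ∑ p ∈ I, w p * |a - b p| ≤ 4 * k * κ₂ := mul_le_mul_of_nonneg_left h3 (by positivity)
  nlinarith

lemma abs_le_eta {η x : ℝ} (hη : 0 < η) : |x| ≤ η + x ^ 2 / η := by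
  have h1 : |x| * η ≤ η ^ 2 + x ^ 2 := by
    have := sq_abs x
    nlinarith [sq_nonneg (|x| - η), abs_nonneg x]
  rw [← sub_nonneg]
  have h2 : η + x ^ 2 / η - |x| = (η ^ 2 + x ^ 2 - |x| * η) / η := by field_simp
  rw [h2]
  exact div_nonneg (by linarith) hη.le

lemma fourier_re_le (m : ℤ) (θ : UnitAddCircle) : |(fourier m θ : ℂ).re| ≤ 1 := by
  refine (Complex.abs_re_le_norm _).trans ?_
  rw [fourier_apply, Circle.norm_coe]

lemma ph_nonneg {σ : ℝ} (hσ : σ = 1 ∨ σ = -1) (m : ℤ) (θ : UnitAddCircle) : 0 ≤ ph m σ θ ∧ ph m σ θ ≤ 2 := by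
  have h := abs_le.1 (fourier_re_le m θ)
  unfold ph
  rcases hσ with rfl | rfl
  · constructor <;> linarith
  · constructor <;> linarith

lemma ph_cont (m : ℤ) (σ : ℝ) : Continuous (ph m σ) := by
  unfold ph
  have h : Continuous fun θ : UnitAddCircle => (fourier m θ : ℂ) := (fourier m).continuous
  exact continuous_const.add (continuous_const.mul (Complex.continuous_re.comp h))

lemma fourier_smul (m : ℤ) (p : ℕ) (θ : UnitAddCircle) : (fourier m (p • θ) : ℂ) = fourier (m * (p : ℤ)) θ := by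
  rw [fourier_apply, fourier_apply, ← natCast_zsmul, smul_smul]

lemma integ {g : UnitAddCircle → ℝ} (hg : Continuous g) : Integrable g :=
  hg.integrable_of_hasCompactSupport (HasCompactSupport.of_compactSpace _)

lemma pow_le_sq {a : ℝ} (h0 : 0 ≤ a) (h1 : a ≤ 1) {k : ℕ} (hk : 1 ≤ k) : a ^ (2 * k) ≤ a ^ 2 :=
  pow_le_pow_of_le_one h0 h1 (by omega)

end TransL

open TransL in
theorem trans_ (hEQD : S_EQD) (hTKB : S_TKB) (hBSL : S_BSL) (hPAR : S_PAR) (hCOV : S_COV) (hMAJ : S_MAJ) :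
    S_TRANS := by
  classical
  intro k m ε hk hm hε
  obtain ⟨Q, hQ⟩ := hEQD m (ε / 10) hm (by positivity)
  refine ⟨Q, fun h hh => ?_⟩
  obtain ⟨τ, hτ, LM, hMaj⟩ := hMAJ Q h (ε / 10) hh (by positivity)
  set δ : ℝ := min 1 (ε / 10) with hδ
  have hδ0 : 0 < δ := by rw [hδ]; positivity
  have hδ1 : δ ≤ 1 := min_le_left _ _
  have hδ2 : δ ^ 2 ≤ ε / 10 := by
    have : δ ≤ ε / 10 := min_le_right _ _
    nlinarith
  set c : ℝ := ε / 10 * δ ^ 2 with hc
  have hc0 : 0 < c := by positivity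
  have hk0 : (0 : ℝ) < k := by
    have : (2 : ℝ) ≤ k := by exact_mod_cast hk
    linarith
  set η : ℝ := c / (16 * k) with hη
  have hη0 : 0 < η := by positivity
  set A : ℝ := 1 + 16 / (δ ^ 2 * c) + 1600 * k / (η * c) with hA
  have hA1 : 1 ≤ A := by
    have h1 : 0 ≤ 16 / (δ ^ 2 * c) := by positivity
    have h2 : 0 ≤ 1600 * k / (η * c) := by positivity
    linarith
  have hA0 : 0 < A := by linarith
  have hA2 : 4 / (δ ^ 2 * A) ≤ c / 4 := by
    rw [div_le_div_iff₀ (by positivity) (by norm_num)]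
    have h1 : 16 / (δ ^ 2 * c) ≤ A := by
      have h2 : 0 ≤ 1600 * k / (η * c) := by positivity
      linarith
    rw [div_le_iff₀ (by positivity)] at h1
    nlinarith
  have hA3 : 4 * k * (100 / A / η) ≤ c / 4 := by
    have h1 : 1600 * k / (η * c) ≤ A := by
      have h2 : 0 ≤ 16 / (δ ^ 2 * c) := by positivity
      linarith
    rw [div_le_iff₀ (by positivity)] at h1
    have h2 : 4 * (k : ℝ) * (100 / A / η) = 400 * k / (A * η) := by
      field_simp
      ring
    rw [h2, div_le_div_iff₀ (by positivity) (by norm_num)]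
    nlinarith
  obtain ⟨I, hI, hIA, hIM⟩ := hQ τ hτ 1 A
  have hprime : ∀ p ∈ I, p.Prime := fun p hp => (hI p hp).1
  have hpos : ∀ p ∈ I, (0 : ℝ) < p := fun p hp => by exact_mod_cast (hprime p hp).pos
  obtain ⟨LT, hT⟩ := hTKB I hprime
  obtain ⟨LB, hB⟩ := hBSL I δ hδ0 hprime
  have hne : I.Nonempty := by
    by_contra hcon
    rw [not_nonempty_iff_eq_empty] at hcon
    rw [hcon] at hIA
    simp at hIA
    linarith
  set Sm : ℝ := ∑ q ∈ I, 1 / (q : ℝ) with hSm
  have hSm0 : 0 < Sm := lt_of_lt_of_le hA0 hIA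
  have hwt0 : ∀ p ∈ I, 0 ≤ wt I p := fun p hp => by
    unfold wt
    have := hpos p hp
    positivity
  have hwtsum : ∑ p ∈ I, wt I p = 1 := by
    unfold wt
    rw [← sum_div]
    exact div_self hSm0.ne'
  have hwtA : ∀ p ∈ I, wt I p ≤ 1 / A := fun p hp => by
    unfold wt
    have h1 : 1 / (p : ℝ) ≤ 1 := by
      rw [div_le_one (hpos p hp)]
      exact_mod_cast (hprime p hp).one_lt.le
    exact div_le_div₀ zero_le_one h1 hA0 hIA
  refine ⟨I, max (max LM (max LT LB)) ((∑ p ∈ I, p) * ⌈20 / ε⌉₊), hne, hprime, ?_⟩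
  intro σ hσ L hL f hf n
  have hL1 : LM ≤ L := ((le_max_left _ _).trans (le_max_left _ _)).trans hL
  have hL2 : LT ≤ L := (((le_max_left _ _).trans (le_max_right _ _)).trans (le_max_left _ _)).trans hL
  have hL3 : LB ≤ L := (((le_max_right _ _).trans (le_max_right _ _)).trans (le_max_left _ _)).trans hL
  have hL4 : (∑ p ∈ I, p) * ⌈20 / ε⌉₊ ≤ L := (le_max_right _ _).trans hL
  have hf1 := hf.1
  obtain ⟨hac, ha01, haP⟩ := hPAR f hf1 n L
  -- the sets
  set S : Set UnitAddCircle := {θ | δ < cr f n L θ} with hS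
  have hSo : IsOpen S := isOpen_lt continuous_const hac
  have hS' : ∀ p : ℕ, MeasurableSet {θ : UnitAddCircle | θ ∈ S ∧ ∀ j : ℕ, 1 ≤ j → j < p → θ + pt j p ∉ S} := by
    intro p
    have e1 : {θ : UnitAddCircle | θ ∈ S ∧ ∀ j : ℕ, 1 ≤ j → j < p → θ + pt j p ∉ S} =
        S ∩ ⋂ j : ℕ, ⋂ _ : 1 ≤ j, ⋂ _ : j < p, (fun θ : UnitAddCircle => θ + pt j p) ⁻¹' Sᶜ := by
      ext θ
      simp only [Set.mem_ofPred_eq, Set.mem_inter_iff, Set.mem_iInter, Set.mem_preimage, Set.mem_compl_iff]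
    rw [e1]
    refine hSo.measurableSet.inter (IsClosed.measurableSet ?_)
    refine isClosed_iInter fun j => isClosed_iInter fun _ => isClosed_iInter fun _ => ?_
    exact (isClosed_compl_iff.2 hSo).preimage (continuous_id.add continuous_const)
  set ind : ℕ → UnitAddCircle → ℝ := fun p =>
    Set.indicator {θ : UnitAddCircle | θ ∈ S ∧ ∀ j : ℕ, 1 ≤ j → j < p → θ + pt j p ∉ S} (fun _ => 1) with hind
  have hind01 : ∀ p θ, 0 ≤ ind p θ ∧ ind p θ ≤ 1 := by
    intro p θ
    simp only [hind, Set.indicator]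
    split_ifs <;> norm_num
  set G : ℕ → UnitAddCircle → ℝ := fun p γ => ph m σ γ * cr f (n / p) (L / p) γ ^ (2 * k) with hG
  have hGc : ∀ p, Continuous (G p) := fun p =>
    (ph_cont m σ).mul ((hPAR f hf1 (n / p) (L / p)).1.pow _)
  have hG0 : ∀ p γ, 0 ≤ G p γ := fun p γ =>
    mul_nonneg (ph_nonneg hσ m γ).1 (pow_nonneg ((hPAR f hf1 (n / p) (L / p)).2.1 γ).1 _)
  set R : ℝ := RR f Q h n L with hR
  have hR0 : 0 ≤ R := by
    rw [hR]
    unfold RR
    refine sum_nonneg fun q _ => sum_nonneg fun a _ => mul_nonneg (by positivity) (sum_nonneg fun j _ => ?_)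
    unfold cr
    positivity
  -- pointwise
  have hpt : ∀ θ : UnitAddCircle, cr f n L θ ^ (2 * k) ≤
      ∑ p ∈ I, wt I p * (ind p θ * G p (p • θ)) + (4 * (ε / 10) + R) * cr f n L θ ^ 2 := by
    intro θ
    have hsum0 : 0 ≤ ∑ p ∈ I, wt I p * (ind p θ * G p (p • θ)) :=
      sum_nonneg fun p hp => mul_nonneg (hwt0 p hp) (mul_nonneg (hind01 p θ).1 (hG0 p _))
    obtain ⟨ha0, ha1⟩ := ha01 θ
    set a := cr f n L θ with ha
    have ha2 : 0 ≤ a ^ 2 := sq_nonneg a
    have hak : a ^ (2 * k) ≤ a ^ 2 := pow_le_sq ha0 ha1 (by omega)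
    have hε10 : 0 ≤ ε / 10 := by positivity
    by_cases hθS : θ ∈ S
    · by_cases hθM : θ ∈ Mj Q τ
      · have h1 := hMaj L hL1 f hf1 n θ hθM
        rw [← ha, ← hR] at h1
        have h2 : a ^ (2 * k) ≤ a * a ^ 2 := by
          have : a * a ^ 2 = a ^ 3 := by ring
          rw [this]
          exact pow_le_pow_of_le_one ha0 ha1 (by omega)
        have h3 : a * a ^ 2 ≤ (R + ε / 10) * a ^ 2 := mul_le_mul_of_nonneg_right h1 ha2
        have h6 := mul_nonneg hε10 ha2
        have h7 : (4 * (ε / 10) + R) * a ^ 2 = 3 * (ε / 10 * a ^ 2) + (R + ε / 10) * a ^ 2 := by ring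
        rw [h7]
        linarith
      · have hda : δ < a := hθS
        have hP := point I (fun p => wt I p) (fun p => ph m σ (p • θ)) (fun p => cr f (n / p) (L / p) (p • θ))
          (fun p => ind p θ) a (ε / 10) (2 / (δ ^ 2 * A)) (η + 100 / A / η) k hwt0
          (fun p _ => ph_nonneg hσ m _) (fun p _ => (hPAR f hf1 (n / p) (L / p)).2.1 _) ⟨ha0, ha1⟩
          (fun p _ => hind01 p θ) ?_ ?_ ?_
        · have h1 : 2 * (2 / (δ ^ 2 * A)) + 4 * k * (η + 100 / A / η) ≤ c := by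
            have e1 : 4 * (k : ℝ) * η = c / 4 := by
              rw [hη]
              field_simp
              ring
            have e2 : 2 * (2 / (δ ^ 2 * A)) = 4 / (δ ^ 2 * A) := by ring
            have e3 : 4 * (k : ℝ) * (η + 100 / A / η) = 4 * (k : ℝ) * η + 4 * k * (100 / A / η) := mul_add _ _ _
            rw [e2, e3, e1]
            linarith
          have h2 : c ≤ ε / 10 * a ^ 2 := by
            rw [hc]
            refine mul_le_mul_of_nonneg_left ?_ hε10
            exact pow_le_pow_left₀ hδ0.le hda.le 2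
          have h3 : ε / 10 * a ^ (2 * k) ≤ ε / 10 * a ^ 2 := mul_le_mul_of_nonneg_left hak hε10
          have h4 : ∑ p ∈ I, wt I p * (ind p θ * (ph m σ (p • θ) * cr f (n / p) (L / p) (p • θ) ^ (2 * k))) =
              ∑ p ∈ I, wt I p * (ind p θ * G p (p • θ)) := rfl
          rw [h4] at hP
          have h5 := mul_nonneg hR0 ha2
          have h6 := mul_nonneg hε10 ha2
          have h7 : (4 * (ε / 10) + R) * a ^ 2 = 4 * (ε / 10 * a ^ 2) + R * a ^ 2 := by ring
          rw [h7]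
          linarith
        · -- equidistribution
          have h1 := hIM θ hθM
          have h2 : ∑ p ∈ I, wt I p * ph m σ (p • θ) =
              1 + σ * (∑ p ∈ I, ((1 / (p : ℝ) : ℝ) : ℂ) * (fourier (m * (p : ℤ)) θ : ℂ)).re / Sm := by
            unfold ph
            have e1 : ∀ p ∈ I, wt I p * (1 + σ * (fourier m (p • θ) : ℂ).re) =
                wt I p + σ / Sm * (((1 / (p : ℝ) : ℝ) : ℂ) * (fourier (m * (p : ℤ)) θ : ℂ)).re := by
              intro p _
              rw [fourier_smul, Complex.re_ofReal_mul]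
              unfold wt
              rw [← hSm]
              field_simp
            rw [sum_congr rfl e1, sum_add_distrib, hwtsum, ← mul_sum, Complex.re_sum]
            ring
          rw [h2]
          have h3 : |(∑ p ∈ I, ((1 / (p : ℝ) : ℝ) : ℂ) * (fourier (m * (p : ℤ)) θ : ℂ)).re| ≤ ε / 10 * Sm :=
            (Complex.abs_re_le_norm _).trans h1
          have h4 : |σ * (∑ p ∈ I, ((1 / (p : ℝ) : ℝ) : ℂ) * (fourier (m * (p : ℤ)) θ : ℂ)).re / Sm| ≤ ε / 10 := by
            rw [abs_div, abs_mul, abs_of_pos hSm0, div_le_iff₀ hSm0]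
            have : |σ| = 1 := by rcases hσ with rfl | rfl <;> simp
            rw [this, one_mul]
            exact h3
          have h5 := (abs_le.1 h4).1
          linarith
        · -- few primes
          have h1 := hB L hL3 f hf1 n θ
          have h2 : ∑ p ∈ I, wt I p * (1 - ind p θ) =
              ∑ p ∈ I.filter (fun p => ∃ j : ℕ, 1 ≤ j ∧ j < p ∧ δ < cr f n L (θ + pt j p)), wt I p := by
            rw [sum_filter]
            refine sum_congr rfl fun p hp => ?_
            by_cases hj : ∃ j : ℕ, 1 ≤ j ∧ j < p ∧ δ < cr f n L (θ + pt j p)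
            · rw [if_pos hj]
              have : ind p θ = 0 := by
                simp only [hind]
                refine Set.indicator_of_notMem ?_ _
                rintro ⟨_, h⟩
                obtain ⟨j, hj1, hj2, hj3⟩ := hj
                exact h j hj1 hj2 hj3
              rw [this, sub_zero, mul_one]
            · rw [if_neg hj]
              have : ind p θ = 1 := by
                simp only [hind]
                refine Set.indicator_of_mem ?_ _
                refine ⟨hθS, fun j hj1 hj2 hj3 => hj ⟨j, hj1, hj2, hj3⟩⟩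
              rw [this, sub_self, mul_zero]
          rw [h2]
          refine (sum_le_card_nsmul _ _ (1 / A) fun p hp => hwtA p (mem_filter.1 hp).1).trans ?_
          rw [nsmul_eq_mul, mul_one_div, div_le_div_iff₀ hA0 (by positivity), ← mul_assoc]
          exact mul_le_mul_of_nonneg_right h1 hA0.le
        · -- Turan-Kubilius
          have h1 := hT L hL2 f hf n θ
          have h2 : ∑ p ∈ I, wt I p * (a - cr f (n / p) (L / p) (p • θ)) ^ 2 ≤ 100 / A := by
            have e1 : ∑ p ∈ I, wt I p * (a - cr f (n / p) (L / p) (p • θ)) ^ 2 =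
                (∑ p ∈ I, (1 / (p : ℝ)) * (cr f n L θ - cr f (n / p) (L / p) (p • θ)) ^ 2) / Sm := by
              rw [sum_div]
              refine sum_congr rfl fun p _ => ?_
              unfold wt
              rw [← hSm, ← ha]
              ring
            rw [e1]
            exact div_le_div₀ (by norm_num) h1 hA0 hIA
          calc ∑ p ∈ I, wt I p * |a - cr f (n / p) (L / p) (p • θ)|
              ≤ ∑ p ∈ I, (η * wt I p + (wt I p * (a - cr f (n / p) (L / p) (p • θ)) ^ 2) / η) := by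
                refine sum_le_sum fun p hp => ?_
                have := mul_le_mul_of_nonneg_left (abs_le_eta (x := a - cr f (n / p) (L / p) (p • θ)) hη0) (hwt0 p hp)
                refine this.trans (le_of_eq ?_)
                ring
            _ = η + (∑ p ∈ I, wt I p * (a - cr f (n / p) (L / p) (p • θ)) ^ 2) / η := by
                rw [sum_add_distrib, ← mul_sum, hwtsum, mul_one, ← sum_div]
            _ ≤ η + 100 / A / η := by
                have := div_le_div_of_nonneg_right h2 hη0.le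
                linarith
    · have h1 : a ≤ δ := not_lt.1 hθS
      have h2 : a ^ (2 * k) ≤ a ^ 2 * a ^ 2 := by
        have : a ^ 2 * a ^ 2 = a ^ 4 := by ring
        rw [this]
        exact pow_le_pow_of_le_one ha0 ha1 (by omega)
      have h3 : a ^ 2 ≤ ε / 10 := (pow_le_pow_left₀ ha0 h1 2).trans hδ2
      have h4 : a ^ 2 * a ^ 2 ≤ ε / 10 * a ^ 2 := mul_le_mul_of_nonneg_right h3 ha2
      have h5 := mul_nonneg hR0 ha2
      have h6 := mul_nonneg hε10 ha2
      have h7 : (4 * (ε / 10) + R) * a ^ 2 = 4 * (ε / 10 * a ^ 2) + R * a ^ 2 := by ring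
      rw [h7]
      linarith
  -- integrate
  have hLr : (0 : ℝ) ≤ L := Nat.cast_nonneg L
  have hint1 : Integrable (fun θ : UnitAddCircle => cr f n L θ ^ (2 * k)) := integ (hac.pow _)
  have hint2 : ∀ p ∈ I, Integrable (fun θ : UnitAddCircle => ind p θ * G p (p • θ)) := by
    intro p _
    have e1 : (fun θ : UnitAddCircle => ind p θ * G p (p • θ)) =
        Set.indicator {θ : UnitAddCircle | θ ∈ S ∧ ∀ j : ℕ, 1 ≤ j → j < p → θ + pt j p ∉ S} (fun θ => G p (p • θ)) := by
      funext θ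
      simp only [hind, Set.indicator]
      split_ifs <;> simp
    rw [e1]
    exact (integ ((hGc p).comp (continuous_id.const_smul p))).indicator (hS' p)
  have hval : ∀ p, ∫ θ : UnitAddCircle, ind p θ * G p (p • θ) =
      ∫ θ in {θ : UnitAddCircle | θ ∈ S ∧ ∀ j : ℕ, 1 ≤ j → j < p → θ + pt j p ∉ S}, G p (p • θ) := by
    intro p
    rw [← integral_indicator (hS' p)]
    congr 1
    funext θ
    simp only [hind, Set.indicator]
    split_ifs <;> simp
  have hmain : (L : ℝ) * ∫ θ : UnitAddCircle, cr f n L θ ^ (2 * k) ≤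
      ∑ p ∈ I, wt I p * (L * ∫ θ : UnitAddCircle, ind p θ * G p (p • θ)) + (4 * (ε / 10) + R) := by
    have hi3 : ∀ p ∈ I, Integrable (fun θ : UnitAddCircle => wt I p * (ind p θ * G p (p • θ))) :=
      fun p hp => (hint2 p hp).const_mul _
    have hi4 : Integrable (fun θ : UnitAddCircle => ∑ p ∈ I, wt I p * (ind p θ * G p (p • θ))) :=
      integrable_finsetSum _ hi3
    have hi5 : Integrable (fun θ : UnitAddCircle => (4 * (ε / 10) + R) * cr f n L θ ^ 2) :=
      (integ (hac.pow 2)).const_mul _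
    have h1 : ∫ θ : UnitAddCircle, cr f n L θ ^ (2 * k) ≤
        ∫ θ : UnitAddCircle, (∑ p ∈ I, wt I p * (ind p θ * G p (p • θ)) + (4 * (ε / 10) + R) * cr f n L θ ^ 2) :=
      integral_mono hint1 (hi4.add hi5) hpt
    have h1b : ∫ θ : UnitAddCircle, (∑ p ∈ I, wt I p * (ind p θ * G p (p • θ)) + (4 * (ε / 10) + R) * cr f n L θ ^ 2) =
        (∫ θ : UnitAddCircle, ∑ p ∈ I, wt I p * (ind p θ * G p (p • θ))) +
          ∫ θ : UnitAddCircle, (4 * (ε / 10) + R) * cr f n L θ ^ 2 := integral_add hi4 hi5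
    have h1c : ∫ θ : UnitAddCircle, ∑ p ∈ I, wt I p * (ind p θ * G p (p • θ)) =
        ∑ p ∈ I, ∫ θ : UnitAddCircle, wt I p * (ind p θ * G p (p • θ)) := integral_finsetSum _ hi3
    have h1d : ∫ θ : UnitAddCircle, (4 * (ε / 10) + R) * cr f n L θ ^ 2 =
        (4 * (ε / 10) + R) * ∫ θ : UnitAddCircle, cr f n L θ ^ 2 := integral_const_mul _ _
    rw [h1b, h1c, h1d] at h1
    have h2 : ∀ p ∈ I, ∫ θ : UnitAddCircle, wt I p * (ind p θ * G p (p • θ)) =
        wt I p * ∫ θ : UnitAddCircle, ind p θ * G p (p • θ) := fun p _ => integral_const_mul _ _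
    rw [sum_congr rfl h2] at h1
    have h3 := mul_le_mul_of_nonneg_left h1 hLr
    have h4 : (L : ℝ) * ((4 * (ε / 10) + R) * ∫ θ : UnitAddCircle, cr f n L θ ^ 2) ≤ 4 * (ε / 10) + R := by
      have h5 : 0 ≤ 4 * (ε / 10) + R := by positivity
      have h6 := mul_le_mul_of_nonneg_left haP h5
      have h7 : (L : ℝ) * ((4 * (ε / 10) + R) * ∫ θ : UnitAddCircle, cr f n L θ ^ 2) =
          (4 * (ε / 10) + R) * (L * ∫ θ : UnitAddCircle, cr f n L θ ^ 2) := by ring
      rw [h7]
      linarith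
    rw [mul_add, mul_sum] at h3
    have h5 : ∑ p ∈ I, (L : ℝ) * (wt I p * ∫ θ : UnitAddCircle, ind p θ * G p (p • θ)) =
        ∑ p ∈ I, wt I p * (L * ∫ θ : UnitAddCircle, ind p θ * G p (p • θ)) :=
      sum_congr rfl fun p _ => by ring
    rw [h5] at h3
    linarith
  have hcov : ∀ p ∈ I, (L : ℝ) * ∫ θ : UnitAddCircle, ind p θ * G p (p • θ) ≤
      W k (ph m σ) f (n / p) (L / p) + ε / 10 := by
    intro p hp
    have hp1 : 1 ≤ p := (hprime p hp).pos
    have h1 := hCOV p hp1 S (G p) hSo.measurableSet (hGc p) (hG0 p)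
    rw [← hval] at h1
    obtain ⟨hbc, hb01, hbP⟩ := hPAR f hf1 (n / p) (L / p)
    set X : ℝ := ∫ θ : UnitAddCircle, ind p θ * G p (p • θ) with hX
    set g : ℝ := ∫ γ : UnitAddCircle, G p γ with hg
    have hX0 : 0 ≤ X := integral_nonneg fun θ => mul_nonneg (hind01 p θ).1 (hG0 p _)
    have hWg : W k (ph m σ) f (n / p) (L / p) = ((L / p : ℕ) : ℝ) * g := rfl
    have hL' : (20 / ε : ℝ) ≤ ((L / p : ℕ) : ℝ) := by
      have e1 : p * ⌈20 / ε⌉₊ ≤ L := by
        refine (Nat.mul_le_mul_right _ ?_).trans hL4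
        exact single_le_sum (f := fun p => p) (fun _ _ => Nat.zero_le _) hp
      have e2 : ⌈20 / ε⌉₊ ≤ L / p := (Nat.le_div_iff_mul_le (by omega)).2 (by rw [mul_comm]; exact e1)
      exact (Nat.le_ceil _).trans (by exact_mod_cast e2)
    have hL'0 : (0 : ℝ) < ((L / p : ℕ) : ℝ) := lt_of_lt_of_le (by positivity) hL'
    have hW2 : ((L / p : ℕ) : ℝ) * g ≤ 2 := by
      have e1 : g ≤ ∫ γ : UnitAddCircle, 2 * cr f (n / p) (L / p) γ ^ 2 := by
        refine integral_mono (integ (hGc p)) ((integ (hbc.pow 2)).const_mul _) fun γ => ?_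
        have q1 := ph_nonneg hσ m γ
        have q2 := hb01 γ
        have q3 : cr f (n / p) (L / p) γ ^ (2 * k) ≤ cr f (n / p) (L / p) γ ^ 2 := pow_le_sq q2.1 q2.2 (by omega)
        exact mul_le_mul q1.2 q3 (pow_nonneg q2.1 _) (by norm_num)
      rw [integral_const_mul] at e1
      have e2 := mul_le_mul_of_nonneg_left e1 hL'0.le
      have e3 : ((L / p : ℕ) : ℝ) * (2 * ∫ γ : UnitAddCircle, cr f (n / p) (L / p) γ ^ 2) =
          2 * (((L / p : ℕ) : ℝ) * ∫ γ : UnitAddCircle, cr f (n / p) (L / p) γ ^ 2) := by ring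
      rw [e3] at e2
      linarith
    have hgs : g ≤ ε / 10 := by
      have e1 : g ≤ 2 / ((L / p : ℕ) : ℝ) := by
        rw [le_div_iff₀ hL'0]
        linarith
      refine e1.trans ?_
      rw [div_le_div_iff₀ hL'0 (by norm_num)]
      rw [div_le_iff₀ hε] at hL'
      linarith
    have hLp : (L : ℝ) ≤ ((L / p : ℕ) : ℝ) * p + p := by
      have e1 : L ≤ (L / p) * p + p := by
        have := Nat.div_add_mod L p
        have h2 := Nat.mod_lt L (show 0 < p by omega)
        rw [mul_comm] at this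
        omega
      exact_mod_cast e1
    rw [hWg]
    calc (L : ℝ) * X ≤ (((L / p : ℕ) : ℝ) * p + p) * X := mul_le_mul_of_nonneg_right hLp hX0
      _ = ((L / p : ℕ) : ℝ) * (p * X) + p * X := by ring
      _ ≤ ((L / p : ℕ) : ℝ) * g + g := add_le_add (mul_le_mul_of_nonneg_left h1 hL'0.le) h1
      _ ≤ ((L / p : ℕ) : ℝ) * g + ε / 10 := by linarith
  have hfin : ∑ p ∈ I, wt I p * (L * ∫ θ : UnitAddCircle, ind p θ * G p (p • θ)) ≤
      ∑ p ∈ I, wt I p * W k (ph m σ) f (n / p) (L / p) + ε / 10 := by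
    calc _ ≤ ∑ p ∈ I, wt I p * (W k (ph m σ) f (n / p) (L / p) + ε / 10) :=
          sum_le_sum fun p hp => mul_le_mul_of_nonneg_left (hcov p hp) (hwt0 p hp)
      _ = ∑ p ∈ I, wt I p * W k (ph m σ) f (n / p) (L / p) + ε / 10 := by
          simp only [mul_add]
          rw [sum_add_distrib, ← sum_mul, hwtsum, one_mul]
  have hW : W k (fun _ => 1) f n L = (L : ℝ) * ∫ θ : UnitAddCircle, cr f n L θ ^ (2 * k) := by
    unfold W
    simp only [one_mul]
  rw [hW]
  linarith

end Pool.Agent.Helper94K9.OP
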