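import Pool.Agent.Helper94K9.OP.St2

/-! # Project OP, part 2: [TRS] -/

set_option autoImplicit false

namespace Pool.Agent.Helper94K9.OP

open Finset MeasureTheory Filter Topology

namespace TrsL

theorem cr_nonneg (f : ℕ → ℝ) (n L : ℕ) (θ : UnitAddCircle) : 0 ≤ cr f n L θ :=
  div_nonneg (norm_nonneg _) (Nat.cast_nonneg _)

theorem RR_nonneg (f : ℕ → ℝ) (Q h n L : ℕ) : 0 ≤ RR f Q h n L := by
  unfold RR
  apply sum_nonneg
  intro q _
  apply sum_nonneg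
  intro a _
  exact mul_nonneg (by positivity) (sum_nonneg fun j _ => cr_nonneg _ _ _ _)

theorem bdd (hpar : S_PAR) (φ : UnitAddCircle → ℝ) (hφ : ∀ θ, 0 ≤ φ θ ∧ φ θ ≤ 1) (f : ℕ → ℝ)
    (hf : ∀ n, |f n| ≤ 1) (n L : ℕ) : BddAbove (Set.range fun θ : UnitAddCircle => φ θ * cr f n L θ) := by
  refine ⟨1, ?_⟩
  rintro _ ⟨θ, rfl⟩
  have h1 := (hpar f hf n L).2.1 θ
  have h2 := hφ θ
  show φ θ * cr f n L θ ≤ 1
  nlinarith [h1.1, h1.2, h2.1, h2.2]

theorem SP_nonneg (hpar : S_PAR) (φ : UnitAddCircle → ℝ) (hφ : ∀ θ, 0 ≤ φ θ ∧ φ θ ≤ 1) (f : ℕ → ℝ)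
    (hf : ∀ n, |f n| ≤ 1) (n L : ℕ) : 0 ≤ SP φ f n L :=
  le_trans (mul_nonneg (hφ 0).1 (cr_nonneg f n L 0)) (le_ciSup (bdd hpar φ hφ f hf n L) 0)

end TrsL

open TrsL in
theorem trs (heqc : S_EQC) (htkb : S_TKB) (hpar : S_PAR) (hmaj : S_MAJ) : S_TRS := by
  intro φ ε hφ hε
  obtain ⟨Q, hQ⟩ := heqc φ (ε / 4) (by positivity)
  refine ⟨Q, fun h hh => ?_⟩
  obtain ⟨τ, hτ, L₁, hL₁⟩ := hmaj Q h (ε / 4) hh (by positivity)
  obtain ⟨I, hI, hA, hI2⟩ := hQ τ hτ 0 (1600 / ε ^ 2 + 1)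
  have hIp : ∀ p ∈ I, p.Prime := fun p hp => (hI p hp).1
  obtain ⟨L₂, hL₂⟩ := htkb I hIp
  set S : ℝ := ∑ p ∈ I, 1 / (p : ℝ) with hS
  have hA1 : 0 < 1600 / ε ^ 2 := by positivity
  have hS1 : 1 ≤ S := by linarith
  have hS0 : 0 < S := by linarith
  have hne : I.Nonempty := by
    rw [Finset.nonempty_iff_ne_empty]
    intro h0
    rw [hS, h0, sum_empty] at hS1
    linarith
  refine ⟨I, max L₁ L₂, hne, hIp, fun L hL f hf n => ?_⟩
  have hf1 := hf.1
  obtain ⟨hc, hb, _⟩ := hpar f hf1 n L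
  have hRR := RR_nonneg f Q h n L
  have hvol : (volume : Measure UnitAddCircle) Set.univ = 1 := by
    rw [AddCircle.measure_univ, ENNReal.ofReal_one]
  have hint : IsProbabilityMeasure (volume : Measure UnitAddCircle) := ⟨hvol⟩
  have hφi : Integrable (fun θ : UnitAddCircle => φ θ) volume :=
    (φ.continuous.integrable_of_hasCompactSupport (HasCompactSupport.of_compactSpace _))
  have hm0 : 0 ≤ ∫ γ : UnitAddCircle, φ γ := integral_nonneg fun γ => (hφ γ).1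
  have hm1 : ∫ γ : UnitAddCircle, φ γ ≤ 1 := by
    have h1 : ∫ γ : UnitAddCircle, φ γ ≤ ∫ γ : UnitAddCircle, (1 : ℝ) :=
      integral_mono hφi (integrable_const _) fun γ => (hφ γ).2
    simpa using h1
  obtain ⟨θ₀, -, hθ₀⟩ := isCompact_univ.exists_isMaxOn Set.univ_nonempty hc.continuousOn
  have hmax : ∀ θ, cr f n L θ ≤ cr f n L θ₀ := fun θ => hθ₀ (Set.mem_univ θ)
  have hSP : SP (fun _ => 1) f n L ≤ cr f n L θ₀ := by
    unfold SP
    apply ciSup_le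
    intro θ
    rw [one_mul]
    exact hmax θ
  set m : ℝ := ∫ γ : UnitAddCircle, φ γ with hm
  set c : ℝ := cr f n L θ₀ with hcdef
  have hc0 : 0 ≤ c := (hb θ₀).1
  have hc1 : c ≤ 1 := (hb θ₀).2
  have hmS : m * SP (fun _ => 1) f n L ≤ m * c := mul_le_mul_of_nonneg_left hSP hm0
  refine hmS.trans ?_
  have hwt0 : ∀ p ∈ I, 0 ≤ wt I p := fun p _ => div_nonneg (by positivity) hS0.le
  have hsp0 : ∀ p ∈ I, 0 ≤ wt I p * SP φ f (n / p) (L / p) := fun p hp =>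
    mul_nonneg (hwt0 p hp) (SP_nonneg hpar φ hφ f hf1 _ _)
  by_cases hM : θ₀ ∈ Mj Q τ
  · have h1 := hL₁ L (le_trans (le_max_left _ _) hL) f hf1 n θ₀ hM
    have h2 : m * c ≤ c := by nlinarith
    have h3 := sum_nonneg hsp0
    linarith
  · have h1 := hI2 θ₀ hM
    have h2 := hL₂ L (le_trans (le_max_right _ _) hL) f hf n θ₀
    -- the main term
    have h3 : (m - ε / 4) * S ≤ ∑ p ∈ I, (1 / (p : ℝ)) * φ (p • θ₀) := by
      have h4 : ∑ p ∈ I, (1 / (p : ℝ)) * (φ (p • θ₀) - m) =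
          ∑ p ∈ I, (1 / (p : ℝ)) * φ (p • θ₀) - m * S := by
        rw [hS, mul_sum, ← sum_sub_distrib]
        exact sum_congr rfl fun p _ => by ring
      rw [h4] at h1
      have := (abs_le.1 h1).1
      linarith
    have hterm : ∀ p ∈ I, (1 / (p : ℝ)) * (φ (p • θ₀) * c) -
        ((1 / (p : ℝ)) * (ε / 8) + (2 / ε) * ((1 / (p : ℝ)) * (c - cr f (n / p) (L / p) (p • θ₀)) ^ 2)) ≤
        (1 / (p : ℝ)) * SP φ f (n / p) (L / p) := by
      intro p hp
      have hp0 : (0 : ℝ) ≤ 1 / (p : ℝ) := by positivity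
      have h5 : φ (p • θ₀) * cr f (n / p) (L / p) (p • θ₀) ≤ SP φ f (n / p) (L / p) :=
        le_ciSup (bdd hpar φ hφ f hf1 (n / p) (L / p)) (p • θ₀)
      set b := cr f (n / p) (L / p) (p • θ₀) with hbdef
      have h6 := hφ (p • θ₀)
      have h7 : |c - b| ≤ ε / 8 + (2 / ε) * (c - b) ^ 2 := by
        have h8 : 0 ≤ (2 / ε) * (|c - b| - ε / 4) ^ 2 := by positivity
        have h9 : (2 / ε) * (|c - b| - ε / 4) ^ 2 = (2 / ε) * (c - b) ^ 2 - |c - b| + ε / 8 := by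
          rw [sub_sq, sq_abs]
          field_simp
          ring
        linarith
      have h10 : φ (p • θ₀) * c - φ (p • θ₀) * b ≤ |c - b| := by
        rw [← mul_sub]
        calc φ (p • θ₀) * (c - b) ≤ φ (p • θ₀) * |c - b| :=
              mul_le_mul_of_nonneg_left (le_abs_self _) h6.1
          _ ≤ 1 * |c - b| := mul_le_mul_of_nonneg_right h6.2 (abs_nonneg _)
          _ = |c - b| := one_mul _
      calc (1 / (p : ℝ)) * (φ (p • θ₀) * c) -
            ((1 / (p : ℝ)) * (ε / 8) + (2 / ε) * ((1 / (p : ℝ)) * (c - b) ^ 2))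
          = (1 / (p : ℝ)) * (φ (p • θ₀) * c - (ε / 8 + (2 / ε) * (c - b) ^ 2)) := by ring
        _ ≤ (1 / (p : ℝ)) * SP φ f (n / p) (L / p) := by
            apply mul_le_mul_of_nonneg_left _ hp0
            linarith
    have hsum := sum_le_sum hterm
    rw [sum_sub_distrib, sum_add_distrib, ← sum_mul, ← mul_sum] at hsum
    have e1 : ∑ p ∈ I, (1 / (p : ℝ)) * (φ (p • θ₀) * c) = (∑ p ∈ I, (1 / (p : ℝ)) * φ (p • θ₀)) * c := by
      rw [sum_mul]
      exact sum_congr rfl fun p _ => by ring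
    rw [e1] at hsum
    have h11 : (m - ε / 4) * S * c ≤ (∑ p ∈ I, (1 / (p : ℝ)) * φ (p • θ₀)) * c :=
      mul_le_mul_of_nonneg_right h3 hc0
    have h12 : (2 / ε) * ∑ p ∈ I, (1 / (p : ℝ)) * (c - cr f (n / p) (L / p) (p • θ₀)) ^ 2 ≤ (2 / ε) * 100 :=
      mul_le_mul_of_nonneg_left h2 (by positivity)
    have h13 : (2 / ε) * 100 ≤ (ε / 8) * S := by
      have h14 : 1600 / ε ^ 2 ≤ S := by linarith
      have h15 : (ε / 8) * (1600 / ε ^ 2) ≤ (ε / 8) * S := mul_le_mul_of_nonneg_left h14 (by positivity)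
      have h16 : (ε / 8) * (1600 / ε ^ 2) = (2 / ε) * 100 := by
        field_simp
        norm_num
      linarith
    have h17 : ∑ p ∈ I, wt I p * SP φ f (n / p) (L / p) =
        (∑ p ∈ I, (1 / (p : ℝ)) * SP φ f (n / p) (L / p)) / S := by
      rw [sum_div]
      apply sum_congr rfl
      intro p _
      unfold wt
      rw [← hS]
      ring
    have h18 : m * c - ε ≤ ∑ p ∈ I, wt I p * SP φ f (n / p) (L / p) := by
      rw [h17, le_div_iff₀ hS0]
      have h19 : S * c ≤ S := by nlinarith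
      nlinarith
    linarith

end Pool.Agent.Helper94K9.OP
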