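import Pool.Agent.Helper94K9.OP.St3
import Pool.Agent.Helper94K9.OP.Trs

/-! # Project OP, part 3: [TRF] -/

set_option autoImplicit false

namespace Pool.Agent.Helper94K9.OP

open Finset MeasureTheory Filter Topology

namespace TrfL

open TrsL

/-- uniform continuity in the linear form -/
theorem unif (F : ℝ → ℝ) (hF : Continuous F) (hm : Monotone F) (h0 : F 0 = 0) (ε : ℝ) (hε : 0 < ε) :
    ∃ K : ℝ, 0 ≤ K ∧ ∀ a b : ℝ, 0 ≤ a → a ≤ 1 → 0 ≤ b → b ≤ 1 → |F a - F b| ≤ ε + K * |a - b| := by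
  have h1 : UniformContinuousOn F (Set.Icc 0 1) :=
    isCompact_Icc.uniformContinuousOn_of_continuous hF.continuousOn
  rw [Metric.uniformContinuousOn_iff] at h1
  obtain ⟨δ, hδ, h2⟩ := h1 ε hε
  have hF1 : 0 ≤ F 1 := by rw [← h0]; exact hm (by norm_num)
  refine ⟨F 1 / δ, by positivity, fun a b ha ha1 hb hb1 => ?_⟩
  by_cases hab : |a - b| < δ
  · have h3 := h2 a ⟨ha, ha1⟩ b ⟨hb, hb1⟩ (by rw [Real.dist_eq]; exact hab)
    rw [Real.dist_eq] at h3
    have : 0 ≤ F 1 / δ * |a - b| := by positivity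
    linarith
  · push Not at hab
    have ha' := hm ha
    have hb' := hm hb
    have ha'' := hm ha1
    have hb'' := hm hb1
    rw [h0] at ha' hb'
    have h4 : |F a - F b| ≤ F 1 := by
      rw [abs_le]
      constructor <;> linarith
    have h5 : F 1 ≤ F 1 / δ * |a - b| := by
      rw [div_mul_eq_mul_div, le_div_iff₀ hδ]
      exact mul_le_mul_of_nonneg_left hab hF1
    linarith

theorem F_cr (hpar : S_PAR) (F : ℝ → ℝ) (hm : Monotone F) (h0 : F 0 = 0) (f : ℕ → ℝ)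
    (hf : ∀ n, |f n| ≤ 1) (n L : ℕ) (θ : UnitAddCircle) : 0 ≤ F (cr f n L θ) ∧ F (cr f n L θ) ≤ F 1 := by
  have h1 := (hpar f hf n L).2.1 θ
  constructor
  · rw [← h0]; exact hm h1.1
  · exact hm h1.2

theorem bddF (hpar : S_PAR) (F : ℝ → ℝ) (hm : Monotone F) (h0 : F 0 = 0) (φ : UnitAddCircle → ℝ)
    (hφ : ∀ θ, 0 ≤ φ θ ∧ φ θ ≤ 1) (f : ℕ → ℝ) (hf : ∀ n, |f n| ≤ 1) (n L : ℕ) :
    BddAbove (Set.range fun θ : UnitAddCircle => φ θ * F (cr f n L θ)) := by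
  refine ⟨F 1, ?_⟩
  rintro _ ⟨θ, rfl⟩
  have h1 := F_cr hpar F hm h0 f hf n L θ
  have h2 := hφ θ
  calc φ θ * F (cr f n L θ) ≤ 1 * F (cr f n L θ) := mul_le_mul_of_nonneg_right h2.2 h1.1
    _ ≤ F 1 := by rw [one_mul]; exact h1.2

theorem SPF_nonneg (hpar : S_PAR) (F : ℝ → ℝ) (hm : Monotone F) (h0 : F 0 = 0) (φ : UnitAddCircle → ℝ)
    (hφ : ∀ θ, 0 ≤ φ θ ∧ φ θ ≤ 1) (f : ℕ → ℝ) (hf : ∀ n, |f n| ≤ 1) (n L : ℕ) :
    0 ≤ SPF F φ f n L :=
  le_trans (mul_nonneg (hφ 0).1 (F_cr hpar F hm h0 f hf n L 0).1)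
    (le_ciSup (bddF hpar F hm h0 φ hφ f hf n L) 0)

end TrfL

open TrsL TrfL in
theorem trf (heqc : S_EQC) (htkb : S_TKB) (hpar : S_PAR) (hmaj : S_MAJ) : S_TRF := by
  intro F φ ε hF hmon h0 hφ hε
  obtain ⟨K, hK0, hK⟩ := unif F hF hmon h0 (ε / 8) (by positivity)
  have hF1 : 0 ≤ F 1 := by rw [← h0]; exact hmon (by norm_num)
  set ε₁ : ℝ := ε / (4 * (F 1 + 1)) with hε₁
  have hε₁0 : 0 < ε₁ := by positivity
  have hε₁F : ε₁ * F 1 ≤ ε / 4 := by
    rw [hε₁, div_mul_eq_mul_div, div_le_iff₀ (by positivity)]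
    nlinarith
  obtain ⟨Q, hQ⟩ := heqc φ ε₁ hε₁0
  refine ⟨Q, K, hK0, fun h hh => ?_⟩
  have hη : 0 < ε / (4 * (K + 1)) := by positivity
  have hηK : K * (ε / (4 * (K + 1))) ≤ ε / 4 := by
    rw [mul_div_assoc', div_le_iff₀ (by positivity)]
    nlinarith
  obtain ⟨τ, hτ, L₁, hL₁⟩ := hmaj Q h (ε / (4 * (K + 1))) hh hη
  obtain ⟨I, hI, hA, hI2⟩ := hQ τ hτ 0 (1600 * K ^ 2 / ε ^ 2 + 1)
  have hIp : ∀ p ∈ I, p.Prime := fun p hp => (hI p hp).1
  obtain ⟨L₂, hL₂⟩ := htkb I hIp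
  set S : ℝ := ∑ p ∈ I, 1 / (p : ℝ) with hS
  have hA1 : 0 ≤ 1600 * K ^ 2 / ε ^ 2 := by positivity
  have hS1 : 1 ≤ S := by linarith
  have hS0 : 0 < S := by linarith
  have hne : I.Nonempty := by
    rw [Finset.nonempty_iff_ne_empty]
    intro h0
    rw [hS, h0, sum_empty] at hS1
    linarith
  refine ⟨I, max L₁ L₂, hne, hIp, fun L hL f hf n => ?_⟩
  have hf1 := hf.1
  obtain ⟨hc, hb, _⟩ := hpar f hf1 n L
  have hRR := RR_nonneg f Q h n L
  have hKRR : 0 ≤ K * RR f Q h n L := mul_nonneg hK0 hRR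
  have hvol : (volume : Measure UnitAddCircle) Set.univ = 1 := by
    rw [AddCircle.measure_univ, ENNReal.ofReal_one]
  have hint : IsProbabilityMeasure (volume : Measure UnitAddCircle) := ⟨hvol⟩
  have hφi : Integrable (fun θ : UnitAddCircle => φ θ) volume :=
    (φ.continuous.integrable_of_hasCompactSupport (HasCompactSupport.of_compactSpace _))
  have hm0 : 0 ≤ ∫ γ : UnitAddCircle, φ γ := integral_nonneg fun γ => (hφ γ).1
  have hm1 : ∫ γ : UnitAddCircle, φ γ ≤ 1 := by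
    have h1 : ∫ γ : UnitAddCircle, φ γ ≤ ∫ γ : UnitAddCircle, (1 : ℝ) :=
      integral_mono hφi (integrable_const _) fun γ => (hφ γ).2
    simpa using h1
  obtain ⟨θ₀, -, hθ₀⟩ := isCompact_univ.exists_isMaxOn Set.univ_nonempty hc.continuousOn
  have hmax : ∀ θ, cr f n L θ ≤ cr f n L θ₀ := fun θ => hθ₀ (Set.mem_univ θ)
  have hSP : SP (fun _ => 1) f n L ≤ cr f n L θ₀ := by
    unfold SP
    apply ciSup_le
    intro θ
    rw [one_mul]
    exact hmax θ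
  set m : ℝ := ∫ γ : UnitAddCircle, φ γ with hm
  set c : ℝ := cr f n L θ₀ with hcdef
  have hc0 : 0 ≤ c := (hb θ₀).1
  have hc1 : c ≤ 1 := (hb θ₀).2
  have hFc0 : 0 ≤ F c := by rw [← h0]; exact hmon hc0
  have hFc1 : F c ≤ F 1 := hmon hc1
  have hmS : m * F (SP (fun _ => 1) f n L) ≤ m * F c := mul_le_mul_of_nonneg_left (hmon hSP) hm0
  refine hmS.trans ?_
  have hwt0 : ∀ p ∈ I, 0 ≤ wt I p := fun p _ => div_nonneg (by positivity) hS0.le
  have hsp0 : ∀ p ∈ I, 0 ≤ wt I p * SPF F φ f (n / p) (L / p) := fun p hp =>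
    mul_nonneg (hwt0 p hp) (SPF_nonneg hpar F hmon h0 φ hφ f hf1 _ _)
  by_cases hM : θ₀ ∈ Mj Q τ
  · have h1 := hL₁ L (le_trans (le_max_left _ _) hL) f hf1 n θ₀ hM
    have h2 : m * F c ≤ F c := by nlinarith
    have h3 := sum_nonneg hsp0
    have h4 := hK c 0 hc0 hc1 le_rfl zero_le_one
    rw [h0, sub_zero, sub_zero, abs_of_nonneg hFc0, abs_of_nonneg hc0] at h4
    have h5 : K * c ≤ K * (RR f Q h n L + ε / (4 * (K + 1))) := mul_le_mul_of_nonneg_left h1 hK0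
    rw [mul_add] at h5
    linarith
  · have h1 := hI2 θ₀ hM
    have h2 := hL₂ L (le_trans (le_max_right _ _) hL) f hf n θ₀
    have h3 : (m - ε₁) * S ≤ ∑ p ∈ I, (1 / (p : ℝ)) * φ (p • θ₀) := by
      have h4 : ∑ p ∈ I, (1 / (p : ℝ)) * (φ (p • θ₀) - m) =
          ∑ p ∈ I, (1 / (p : ℝ)) * φ (p • θ₀) - m * S := by
        rw [hS, mul_sum, ← sum_sub_distrib]
        exact sum_congr rfl fun p _ => by ring
      rw [h4] at h1
      have := (abs_le.1 h1).1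
      linarith
    have hterm : ∀ p ∈ I, (1 / (p : ℝ)) * (φ (p • θ₀) * F c) -
        ((1 / (p : ℝ)) * (ε / 4) + (2 / ε) * K ^ 2 * ((1 / (p : ℝ)) * (c - cr f (n / p) (L / p) (p • θ₀)) ^ 2)) ≤
        (1 / (p : ℝ)) * SPF F φ f (n / p) (L / p) := by
      intro p hp
      have hp0 : (0 : ℝ) ≤ 1 / (p : ℝ) := by positivity
      have h5 : φ (p • θ₀) * F (cr f (n / p) (L / p) (p • θ₀)) ≤ SPF F φ f (n / p) (L / p) :=
        le_ciSup (bddF hpar F hmon h0 φ hφ f hf1 (n / p) (L / p)) (p • θ₀)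
      have hb' := (hpar f hf1 (n / p) (L / p)).2.1 (p • θ₀)
      set b := cr f (n / p) (L / p) (p • θ₀) with hbdef
      have h6 := hφ (p • θ₀)
      have h7 : K * |c - b| ≤ ε / 8 + (2 / ε) * K ^ 2 * (c - b) ^ 2 := by
        have h8 : 0 ≤ (2 / ε) * (K * |c - b| - ε / 4) ^ 2 := by positivity
        have h9 : (2 / ε) * (K * |c - b| - ε / 4) ^ 2 =
            (2 / ε) * K ^ 2 * (c - b) ^ 2 - K * |c - b| + ε / 8 := by
          rw [sub_sq, mul_pow, sq_abs]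
          field_simp
          ring
        linarith
      have h7' := hK c b hc0 hc1 hb'.1 hb'.2
      have h10 : φ (p • θ₀) * F c - φ (p • θ₀) * F b ≤ |F c - F b| := by
        rw [← mul_sub]
        calc φ (p • θ₀) * (F c - F b) ≤ φ (p • θ₀) * |F c - F b| :=
              mul_le_mul_of_nonneg_left (le_abs_self _) h6.1
          _ ≤ 1 * |F c - F b| := mul_le_mul_of_nonneg_right h6.2 (abs_nonneg _)
          _ = |F c - F b| := one_mul _
      calc (1 / (p : ℝ)) * (φ (p • θ₀) * F c) -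
            ((1 / (p : ℝ)) * (ε / 4) + (2 / ε) * K ^ 2 * ((1 / (p : ℝ)) * (c - b) ^ 2))
          = (1 / (p : ℝ)) * (φ (p • θ₀) * F c - (ε / 4 + (2 / ε) * K ^ 2 * (c - b) ^ 2)) := by ring
        _ ≤ (1 / (p : ℝ)) * SPF F φ f (n / p) (L / p) := by
            apply mul_le_mul_of_nonneg_left _ hp0
            linarith
    have hsum := sum_le_sum hterm
    rw [sum_sub_distrib, sum_add_distrib, ← sum_mul, ← mul_sum] at hsum
    have e1 : ∑ p ∈ I, (1 / (p : ℝ)) * (φ (p • θ₀) * F c) =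
        (∑ p ∈ I, (1 / (p : ℝ)) * φ (p • θ₀)) * F c := by
      rw [sum_mul]
      exact sum_congr rfl fun p _ => by ring
    rw [e1] at hsum
    have h11 : (m - ε₁) * S * F c ≤ (∑ p ∈ I, (1 / (p : ℝ)) * φ (p • θ₀)) * F c :=
      mul_le_mul_of_nonneg_right h3 hFc0
    have h12 : (2 / ε) * K ^ 2 * ∑ p ∈ I, (1 / (p : ℝ)) * (c - cr f (n / p) (L / p) (p • θ₀)) ^ 2 ≤
        (2 / ε) * K ^ 2 * 100 :=
      mul_le_mul_of_nonneg_left h2 (by positivity)
    have h13 : (2 / ε) * K ^ 2 * 100 ≤ (ε / 8) * S := by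
      have h14 : 1600 * K ^ 2 / ε ^ 2 ≤ S := by linarith
      have h15 : (ε / 8) * (1600 * K ^ 2 / ε ^ 2) ≤ (ε / 8) * S := mul_le_mul_of_nonneg_left h14 (by positivity)
      have h16 : (ε / 8) * (1600 * K ^ 2 / ε ^ 2) = (2 / ε) * K ^ 2 * 100 := by
        field_simp
        ring
      linarith
    have h17 : ∑ p ∈ I, wt I p * SPF F φ f (n / p) (L / p) =
        (∑ p ∈ I, (1 / (p : ℝ)) * SPF F φ f (n / p) (L / p)) / S := by
      rw [sum_div]
      apply sum_congr rfl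
      intro p _
      unfold wt
      rw [← hS]
      ring
    have h18 : m * F c - ε ≤ ∑ p ∈ I, wt I p * SPF F φ f (n / p) (L / p) := by
      rw [h17, le_div_iff₀ hS0]
      have h19 : ε₁ * F c ≤ ε / 4 := (mul_le_mul_of_nonneg_left hFc1 hε₁0.le).trans hε₁F
      have h20 : ε₁ * F c * S ≤ ε / 4 * S := mul_le_mul_of_nonneg_right h19 hS0.le
      have h21 : (m - ε₁) * S * F c = m * F c * S - ε₁ * F c * S := by ring
      have h22 : 0 ≤ ε * S := by positivity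
      rw [sub_mul]
      linarith
    linarith

end Pool.Agent.Helper94K9.OP
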